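import Pool.Agent.N163.KG.Stm
import Pool.Agent.N163.KN.ALG

/-!
# PROJECT KG, part ALG: conjugate eigenvalues modulo `p`

The file `Pool/Agent/N163/KN/ALG.lean` with a prime `p` in place of seven. Author helper914.
-/

set_option autoImplicit false

namespace Pool.Agent.N163.KG.ALG

open Polynomial
open Pool.Agent.N163.KN.ALG hiding t_ALG

/-- conjugate eigenvalues modulo a prime `p` -/
theorem t_ALG : Pool.Agent.N163.KG.S_ALG := by
  intro N M p G Ω hM h3 h7 hp hc hG hΩ k _ _ ζ hζ u ε v hv hGv hΩv t htM ht3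
  have := dom M hM
  have := cz M hM
  have hz := prim M hM
  set z : O M := AdjoinRoot.root (cyclotomic M ℤ) with hzdef
  have hM1 : 1 < M := by
    obtain ⟨c, hc⟩ := h3
    omega
  have hroot : ∀ (S : Type) [CommRing S] [IsDomain S] (x : S), IsPrimitiveRoot x M →
      eval₂ (Int.castRingHom S) x (cyclotomic M ℤ) = 0 := by
    intro S _ _ x hx
    have h1 := hx.isRoot_cyclotomic hM
    rwa [IsRoot.def, ← map_cyclotomic_int, eval_map] at h1
  -- the conjugations
  have hσ : ∀ s : ℕ, s.Coprime M → ∃ σ : O M →+* O M, σ z = z ^ s := by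
    intro s hs
    refine ⟨AdjoinRoot.lift (Int.castRingHom (O M)) (z ^ s)
      (hroot _ _ (hz.pow_of_coprime s hs)), ?_⟩
    exact AdjoinRoot.lift_root _
  obtain ⟨σ, hσz⟩ := hσ t htM
  have hσinj : Function.Injective σ := by
    obtain ⟨s, -, hs⟩ := Nat.exists_mul_mod_eq_one_of_coprime htM hM1
    have hsM : s.Coprime M := by
      have h1 : (t * s).Coprime M := by
        have : Nat.gcd (t * s) M = Nat.gcd ((t * s) % M) M := by
          rw [Nat.gcd_comm, Nat.gcd_rec]
        rw [Nat.Coprime, this, hs, Nat.gcd_one_left]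
      exact Nat.Coprime.coprime_mul_left h1
    obtain ⟨τ, hτz⟩ := hσ s hsM
    have hid : τ.comp σ = RingHom.id _ := by
      apply AdjoinRoot.ringHom_ext
      · exact RingHom.ext_int _ _
      · change τ (σ z) = z
        rw [hσz, map_pow, hτz, ← pow_mul]
        have h1 : s * t = M * (t * s / M) + 1 := by
          rw [← hs, mul_comm s t]; exact (Nat.div_add_mod _ _).symm
        rw [h1, pow_add, pow_mul, hz.pow_eq_one, one_pow, one_mul, pow_one]
    exact Function.LeftInverse.injective (g := τ) (fun x => congrArg (fun f => f x) hid)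
  -- the reduction
  let r : O M →+* k := AdjoinRoot.lift (Int.castRingHom k) ζ (hroot _ _ hζ)
  have hrz : r z = ζ := AdjoinRoot.lift_root _
  have hk3M : (3 * M : k) ≠ 0 := by
    have h1 : ((3 * M : ℕ) : k) ≠ 0 := by
      rw [Ne, CharP.cast_eq_zero_iff k p]
      intro h
      rcases (Nat.Prime.dvd_mul hp).1 h with h | h
      · exact h7 (h.trans h3)
      · exact h7 h
    push_cast at h1
    exact h1
  have hzM : z ^ M = 1 := hz.pow_eq_one
  have hL : M / 3 * 3 = M := Nat.div_mul_cancel h3
  set GO : Matrix (Fin N) (Fin N) (O M) := G.map (Int.castRingHom (O M)) with hGO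
  set ΩO : Matrix (Fin N) (Fin N) (O M) := Ω.map (Int.castRingHom (O M)) with hΩO
  have hmm : ∀ (S : Type) [CommRing S] (A : Matrix (Fin N) (Fin N) ℤ),
      A.map (Int.castRingHom S) = (Int.castRingHom S).mapMatrix A := fun _ _ _ => rfl
  have hΩ3 : Ω ^ 3 = 1 := by
    have h1 : (Ω - 1) * (Ω ^ 2 + Ω + 1) = Ω ^ 3 - 1 := by noncomm_ring
    rw [hΩ, mul_zero] at h1
    exact (sub_eq_zero.1 h1.symm)
  have hcS : ∀ (S : Type) [CommRing S], G.map (Int.castRingHom S) * Ω.map (Int.castRingHom S) =
      Ω.map (Int.castRingHom S) * G.map (Int.castRingHom S) := by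
    intro S _
    rw [hmm, hmm, ← map_mul, ← map_mul, hc]
  have hGS : ∀ (S : Type) [CommRing S], (G.map (Int.castRingHom S)) ^ M = 1 := by
    intro S _
    rw [hmm, ← map_pow, hG, map_one]
  have hΩS : ∀ (S : Type) [CommRing S], (Ω.map (Int.castRingHom S)) ^ 3 = 1 := by
    intro S _
    rw [hmm, ← map_pow, hΩ3, map_one]
  have hzn : ∀ n : ℕ, z ^ ((M - 1) * n) * z ^ n = 1 := by
    intro n
    rw [← pow_add]
    have h1 : (M - 1) * n + n = M * n := by
      obtain ⟨m, rfl⟩ : ∃ m, M = m + 1 := ⟨M - 1, by omega⟩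
      simp only [Nat.add_sub_cancel]
      ring
    rw [h1, pow_mul, hzM, one_pow]
  have hznM : ∀ n : ℕ, (z ^ ((M - 1) * n)) ^ M = 1 := by
    intro n
    rw [← pow_mul, mul_comm, pow_mul, hzM, one_pow]
  set w : O M := z ^ ((M - 1) * (M / 3 * ε)) with hw
  have hw3 : w ^ 3 = 1 := by
    rw [hw, ← pow_mul]
    have h1 : (M - 1) * (M / 3 * ε) * 3 = M * ((M - 1) * ε) := by
      calc (M - 1) * (M / 3 * ε) * 3 = (M / 3 * 3) * ((M - 1) * ε) := by ring
        _ = M * ((M - 1) * ε) := by rw [hL]
    rw [h1, pow_mul, hzM, one_pow]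
  let E : ℕ → Matrix (Fin N) (Fin N) (O M) := fun n => EE GO ΩO M (z ^ ((M - 1) * n)) w
  have hmr : ∀ (S : Type) [CommRing S] (f : O M →+* S) (A : Matrix (Fin N) (Fin N) ℤ),
      (A.map (Int.castRingHom (O M))).map f = A.map (Int.castRingHom S) := by
    intro S _ f A
    ext i j
    simp
  have hE1 : E u ≠ 0 := by
    intro h0
    have h1 : ((E u).map r).mulVec v = (3 * M : k) • v := by
      rw [EE_map, hmr, hmr]
      refine EE_vec hGv hΩv ?_ ?_
      · rw [← hrz, ← map_pow r z u, ← map_mul, hzn, map_one]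
      · rw [← hrz, ← map_pow r z (M / 3 * ε), ← map_mul, hw, hzn, map_one]
    rw [h0] at h1
    have h2 : ((0 : Matrix (Fin N) (Fin N) (O M)).map r) = 0 := by ext i j; simp
    rw [h2, Matrix.zero_mulVec] at h1
    rcases smul_eq_zero.1 h1.symm with h3 | h3
    · exact hk3M h3
    · exact hv h3
  have hE2 : (E u).map σ = E (t * u) := by
    change (EE GO ΩO M (z ^ ((M - 1) * u)) w).map σ = EE GO ΩO M (z ^ ((M - 1) * (t * u))) w
    rw [EE_map, hmr, hmr]
    have e1 : σ (z ^ ((M - 1) * u)) = z ^ ((M - 1) * (t * u)) := by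
      rw [map_pow, hσz, ← pow_mul]
      congr 1
      ring
    have e2 : σ w = w := by
      have h1 : σ w = w ^ t := by
        rw [hw, map_pow, hσz, ← pow_mul, ← pow_mul]
        congr 1
        ring
      rw [h1]
      have h2 : t = 3 * (t / 3) + 1 := by omega
      rw [h2, pow_add, pow_mul, hw3, one_pow, one_mul, pow_one]
    rw [e1, e2]
  have hE3 : E (t * u) ≠ 0 := by
    rw [← hE2]
    intro h0
    apply hE1
    ext i j
    have h1 := congrFun (congrFun h0 i) j
    simp only [Matrix.map_apply, Matrix.zero_apply] at h1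
    rw [Matrix.zero_apply]
    exact (map_eq_zero_iff σ hσinj).1 h1
  have hsq : E (t * u) * E (t * u) = (3 * M : O M) • E (t * u) :=
    EE_sq (hcS _) (hGS _) (hznM _) (hΩS _) hw3
  have hE4 : (E (t * u)).map r ≠ 0 := by
    intro h0
    apply hE3
    set X := E (t * u) with hX
    set D : Matrix (Fin N) (Fin N) (O M) := (3 * M : O M) • 1 - X with hD
    have h1 : D * X = 0 := by
      rw [hD, sub_mul, hsq, smul_mul_assoc, one_mul, sub_self]
    have h2 : r D.det = (3 * M : k) ^ N := by
      rw [RingHom.map_det]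
      have h3 : r.mapMatrix D = (3 * M : k) • (1 : Matrix (Fin N) (Fin N) k) := by
        rw [hD, map_sub]
        have h4 : r.mapMatrix X = 0 := h0
        rw [h4, sub_zero]
        have h5 : r 3 = 3 := map_ofNat r 3
        ext i j
        simp [Matrix.one_apply]
        split_ifs <;> simp [h5]
      rw [h3, Matrix.det_smul, Matrix.det_one, mul_one, Fintype.card_fin]
    have h3 : D.det ≠ 0 := by
      intro h4
      rw [h4, map_zero] at h2
      exact pow_ne_zero N hk3M h2.symm
    have h4 : D.det • X = 0 := by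
      have h5 := congrArg (fun Y => D.adjugate * Y) h1
      simp only [← mul_assoc, Matrix.adjugate_mul, mul_zero, smul_mul_assoc, one_mul] at h5
      exact h5
    exact (smul_eq_zero.1 h4).resolve_left h3
  obtain ⟨j, hj⟩ : ∃ j, (fun i => (E (t * u)).map r i j) ≠ 0 := by
    by_contra hcon
    push Not at hcon
    apply hE4
    ext i j
    exact congrFun (hcon j) i
  have hcol : ∀ (A B : Matrix (Fin N) (Fin N) k) (c : k), A * B = c • B →
      A.mulVec (fun i => B i j) = c • (fun i => B i j) := by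
    intro A B c h
    funext i
    have h1 := congrFun (congrFun h i) j
    simpa [Matrix.mul_apply, Matrix.mulVec, dotProduct] using h1
  refine ⟨fun i => (E (t * u)).map r i j, hj, ?_, ?_⟩
  · apply hcol
    rw [EE_map, hmr, hmr]
    apply G_EE (hGS _)
    · rw [← map_pow, hznM, map_one]
    · rw [← hrz, ← map_pow r z, ← map_mul, hzn, map_one]
  · apply hcol
    rw [EE_map, hmr, hmr]
    apply Ω_EE (hcS _) (hΩS _)
    · rw [← map_pow, hw3, map_one]
    · rw [← hrz, ← map_pow r z, ← map_mul, hw, hzn, map_one]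

end Pool.Agent.N163.KG.ALG
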