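import Pool.Agent.N163.KG.Stm

/-!
# Project KG, leaf CAR: the equation of Cartier in characteristic `p = 6 l + 1`
-/

set_option autoImplicit false

namespace Pool.Agent.N163.KG.CAR

open Pool.Agent.N163.KN

variable {K : Type} [Field K]

/-- the derivation given by `δ` -/
def der (δ : K → K) (h : IsDn δ) : Derivation ℤ K K :=
  Derivation.mk' (AddMonoidHom.mk' δ h.add).toIntLinearMap (fun a b => by
    change δ (a * b) = a • δ b + b • δ a
    rw [h.mul, smul_eq_mul, smul_eq_mul])

theorem der_apply (δ : K → K) (h : IsDn δ) (f : K) : der δ h f = δ f := rfl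

theorem iter_const (D : Derivation ℤ K K) (c : K) (hc : D c = 0) (m : ℕ) (f : K) :
    (⇑D)^[m] (c * f) = c * (⇑D)^[m] f := by
  induction m with
  | zero => rfl
  | succ m ih =>
    rw [Function.iterate_succ_apply', Function.iterate_succ_apply', ih, D.leibniz, hc,
      smul_eq_mul, smul_eq_mul, mul_zero, add_zero]

theorem iter_sum (D : Derivation ℤ K K) (m : ℕ) (s : Finset ℕ) (f : ℕ → K) :
    (⇑D)^[m] (∑ i ∈ s, f i) = ∑ i ∈ s, (⇑D)^[m] (f i) := by
  induction m with
  | zero => rfl
  | succ m ih =>
    rw [Function.iterate_succ_apply', ih, map_sum]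
    exact Finset.sum_congr rfl fun i _ => (Function.iterate_succ_apply' _ _ _).symm

theorem dpow (D : Derivation ℤ K K) (a : K) (ha : a ≠ 0) (m : ℕ) :
    D (a ^ m) = m * (D a / a) * a ^ m := by
  induction m with
  | zero => simp
  | succ m ih =>
    rw [pow_succ, D.leibniz, ih, smul_eq_mul, smul_eq_mul]
    push_cast
    field_simp
    ring

theorem d_p (D : Derivation ℤ K K) (p : ℕ) (hp : (p : K) = 0) (c : K) : D (c ^ p) = 0 := by
  rw [D.leibniz_pow, nsmul_eq_mul, hp, zero_mul]

theorem t_CAR : S_CAR := by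
  intro K _ p l _ _ δ a x y hp hδ hN hLog ha hy hxy
  obtain ⟨D, hD⟩ : ∃ D : Derivation ℤ K K, ⇑D = δ := ⟨der δ hδ, funext (der_apply δ hδ)⟩
  subst hD
  have hpp : p.Prime := Fact.out
  have hp0 : (p : K) = 0 := CharP.cast_eq_zero K p
  by_cases hx : x = 0
  · subst hx
    have h0 : D 0 = 0 := D.map_zero
    have h1 : dd (⇑D) a 0 y = 0 := by
      unfold dd
      rw [h0]
      simp
    rw [h1, mul_zero, Function.iterate_fixed h0, zero_pow hpp.ne_zero, mul_zero]
  · obtain ⟨q, hq⟩ : ∃ q, q = D x := ⟨_, rfl⟩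
    obtain ⟨r, hr⟩ : ∃ r, r = D a := ⟨_, rfl⟩
    obtain ⟨L, hL⟩ : ∃ L, L = 3 * q / x - 2 * r / a := ⟨_, rfl⟩
    have hg : dd (⇑D) a x y = a * x * L / y := by
      unfold dd
      rw [← hq, ← hr, hL]
      field_simp
    obtain ⟨z, hzdef⟩ : ∃ z, z = x ^ 3 / a ^ 2 := ⟨_, rfl⟩
    have hz0 : z ≠ 0 := by
      rw [hzdef]
      exact div_ne_zero (pow_ne_zero _ hx) (pow_ne_zero _ ha)
    have hz : D z = L * z := by
      rw [hzdef, D.leibniz_div, D.leibniz_pow, D.leibniz_pow, ← hq, ← hr, hL]
      simp only [smul_eq_mul, nsmul_eq_mul]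
      push_cast
      field_simp
    have hzL : D z / z = L := by
      rw [hz, mul_div_assoc, div_self hz0, mul_one]
    have hb := hLog _ hz0
    rw [hzL] at hb
    have h4l : (3 : K) * (4 * (l : K)) = -2 := by
      have h3 : (3 * (4 * l) + 2 : ℕ) = 2 * p := by omega
      have h := congrArg (Nat.cast : ℕ → K) h3
      push_cast at h
      rw [hp0] at h
      linear_combination h
    have hu : ∀ j : ℕ, 3 * D (a ^ (4 * l) * x * z ^ j) =
        (3 * (j : K) + 1) * (a ^ (4 * l) * x * z ^ j * L) := by
      intro j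
      rw [D.leibniz, D.leibniz, dpow D a ha, dpow D z hz0, hzL, ← hq, ← hr]
      simp only [smul_eq_mul]
      push_cast
      obtain ⟨A, hA⟩ : ∃ A, A = a ^ (4 * l) := ⟨_, rfl⟩
      obtain ⟨Z, hZ⟩ : ∃ Z, Z = z ^ j := ⟨_, rfl⟩
      rw [← hA, ← hZ]
      have h5 : 3 * q = (L + 2 * r / a) * x := by
        rw [hL]
        field_simp
        ring
      linear_combination (Z * A) * h5 + (Z * x * (r / a) * A) * h4l
    have hkill : ∀ j : ℕ, j ≤ 3 * l → j ≠ 2 * l →
        (⇑D)^[p - 1] (a ^ (4 * l) * x * z ^ j * L) = 0 := by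
      intro j hj1 hj2
      have hc : (3 * (j : K) + 1) ≠ 0 := by
        intro h
        have h1 : ((3 * j + 1 : ℕ) : K) = 0 := by
          push_cast
          exact h
        rw [CharP.cast_eq_zero_iff K p] at h1
        obtain ⟨m, hm⟩ := h1
        have hm2 : m < 2 := by
          by_contra hcon
          have : p * 2 ≤ p * m := Nat.mul_le_mul_left _ (by omega)
          omega
        interval_cases m
        · omega
        · omega
      have h1 : a ^ (4 * l) * x * z ^ j * L =
          (3 * (j : K) + 1)⁻¹ * (3 * D (a ^ (4 * l) * x * z ^ j)) := by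
        rw [hu j, ← mul_assoc, inv_mul_cancel₀ hc, one_mul]
      have hd3 : D (3 : K) = 0 := by
        have h := D.map_natCast 3
        push_cast at h
        exact h
      have hdc : D ((3 * (j : K) + 1)⁻¹) = 0 := by
        have h2 : D (3 * (j : K) + 1) = 0 := by
          have h := D.map_natCast (3 * j + 1)
          push_cast at h
          exact h
        rw [D.leibniz_inv, h2, smul_zero]
      rw [h1, iter_const D _ hdc, iter_const D _ hd3, ← Function.iterate_succ_apply,
        Nat.succ_eq_add_one, Nat.sub_add_cancel hpp.one_lt.le, hN, mul_zero, mul_zero]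
    have hmain : a ^ (4 * l) * dd (⇑D) a x y = (a / y) ^ p *
        ∑ j ∈ Finset.range (3 * l + 1),
          (Nat.choose (3 * l) j : K) * (a ^ (4 * l) * x * z ^ j * L) := by
      have h1 : ∑ j ∈ Finset.range (3 * l + 1),
          (Nat.choose (3 * l) j : K) * (a ^ (4 * l) * x * z ^ j * L) =
          a ^ (4 * l) * x * L * (z + 1) ^ (3 * l) := by
        rw [add_pow, Finset.mul_sum]
        refine Finset.sum_congr rfl fun j _ => ?_
        rw [one_pow]
        ring
      have h2 : z + 1 = (y / a) ^ 2 := by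
        rw [hzdef, div_pow, hxy]
        field_simp
      have h3 : (a / y) ^ p * (z + 1) ^ (3 * l) = a / y := by
        have h4 : 2 * (3 * l) = 6 * l := by ring
        rw [h2, ← pow_mul, hp, pow_succ, h4, mul_right_comm, ← mul_pow,
          div_mul_div_cancel₀ hy, div_self ha, one_pow, one_mul]
      rw [h1, hg]
      linear_combination (-(a ^ (4 * l) * x * L)) * h3
    rw [hmain, iter_const D _ (d_p D p hp0 _), iter_sum]
    have hsum : ∑ j ∈ Finset.range (3 * l + 1),
        (⇑D)^[p - 1] ((Nat.choose (3 * l) j : K) * (a ^ (4 * l) * x * z ^ j * L)) =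
        (Nat.choose (3 * l) l : K) * (x ^ p * -(L ^ p)) := by
      rw [Finset.sum_eq_single_of_mem (2 * l) (Finset.mem_range.2 (by omega))]
      · rw [iter_const D _ (D.map_natCast _)]
        have h5 : a ^ (4 * l) * x * z ^ (2 * l) = x ^ p := by
          have h6 : 3 * (2 * l) = 6 * l := by ring
          have h7 : 2 * (2 * l) = 4 * l := by ring
          rw [hzdef, div_pow, ← pow_mul, ← pow_mul, h6, h7, hp, pow_succ]
          field_simp
        have h8 : Nat.choose (3 * l) (2 * l) = Nat.choose (3 * l) l := by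
          apply Nat.choose_symm_of_eq_add
          omega
        rw [h5, iter_const D _ (d_p D p hp0 _), hb, h8]
      · intro j hj hj2
        rw [iter_const D _ (D.map_natCast _), hkill j (by
          have := Finset.mem_range.1 hj
          omega) hj2, mul_zero]
    rw [hsum, hg, div_pow, div_pow, mul_pow, mul_pow]
    ring

end Pool.Agent.N163.KG.CAR
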