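import Pool.Agent.N163.KG.Stm
import Pool.Agent.N163.KN.CAR

/-!
# Project KG: the equation of Cartier in characteristic `p = 6 l + 1`
-/

set_option autoImplicit false

namespace Pool.Agent.N163.KG.CARB

open Pool.Agent.N163.KN Finset
open Pool.Agent.N163.KN.CAR (der der_apply iter_const iter_add)

variable {K : Type} [Field K]

theorem dpow (D : Derivation ℤ K K) (f : K) (hf : f ≠ 0) (n : ℕ) :
    D (f ^ n) = n * f ^ n * (D f / f) := by
  induction n with
  | zero => simp
  | succ n ih =>
    rw [pow_succ, D.leibniz, ih, smul_eq_mul, smul_eq_mul]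
    push_cast
    field_simp
    ring

theorem iter_zero (D : Derivation ℤ K K) (m : ℕ) : (⇑D)^[m] 0 = 0 :=
  Function.iterate_fixed D.map_zero m

theorem iter_sum (D : Derivation ℤ K K) (m : ℕ) {ι : Type} (s : Finset ι) (f : ι → K) :
    (⇑D)^[m] (∑ i ∈ s, f i) = ∑ i ∈ s, (⇑D)^[m] (f i) := by
  classical
  induction s using Finset.induction_on with
  | empty => simp
  | insert i s hi ih => rw [sum_insert hi, sum_insert hi, iter_add, ih]

theorem t_CAR : Pool.Agent.N163.KG.S_CAR := by
  intro K _ p l hpp hch δ a x y hl hδ hp hlog ha hy hxy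
  have hprime : p.Prime := hpp.out
  obtain ⟨D, hD⟩ : ∃ D : Derivation ℤ K K, ⇑D = δ := ⟨der δ hδ, funext (der_apply δ hδ)⟩
  subst hD
  have hl1 : 1 ≤ l := by
    rcases Nat.eq_zero_or_pos l with h | h
    · subst h
      rw [hl] at hprime
      exact absurd hprime (by norm_num)
    · exact h
  have hpK : (p : K) = 0 := CharP.cast_eq_zero K p
  have hlK : (6 * l + 1 : K) = 0 := by
    rw [hl] at hpK
    exact_mod_cast hpK
  have nat0 : ∀ n : ℕ, D (n : K) = 0 := fun n => D.map_natCast n
  have num : ∀ (n : ℕ) [n.AtLeastTwo], D (OfNat.ofNat n : K) = 0 := fun n _ => by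
    rw [← Nat.cast_ofNat]
    exact D.map_natCast _
  have hpow : ∀ c : K, D (c ^ p) = 0 := fun c => by
    rw [D.leibniz_pow, nsmul_eq_mul, hpK, zero_mul]
  by_cases hx : x = 0
  · subst hx
    have h0 : D 0 = 0 := D.map_zero
    have h1 : dd (⇑D) a 0 y = 0 := by
      unfold dd
      rw [h0]
      simp
    rw [h1, mul_zero, Function.iterate_fixed h0, zero_pow hprime.ne_zero, mul_zero]
  · obtain ⟨z, hz⟩ : ∃ z, z = x ^ 3 / a ^ 2 := ⟨_, rfl⟩
    have hz0 : z ≠ 0 := by
      rw [hz]
      exact div_ne_zero (pow_ne_zero _ hx) (pow_ne_zero _ ha)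
    obtain ⟨L, hL⟩ : ∃ L, L = D z / z := ⟨_, rfl⟩
    have hL' : L = 3 * (D x / x) - 2 * (D a / a) := by
      rw [hL, hz, D.leibniz_div, D.leibniz_pow, D.leibniz_pow]
      simp only [smul_eq_mul, nsmul_eq_mul]
      push_cast
      field_simp
    have hg : dd (⇑D) a x y = a * x * L / y := by
      unfold dd
      rw [hL']
      field_simp
    have hs : ∀ j : ℕ, 3 * D (a ^ (4 * l) * x * z ^ j) =
        (3 * j + 1 : ℕ) * (a ^ (4 * l) * x * z ^ j * L) := by
      intro j
      have hDx : D x = x * (D x / x) := by field_simp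
      have h12 : (12 * l + 2 : K) = 0 := by linear_combination 2 * hlK
      rw [D.leibniz, D.leibniz, dpow D a ha, dpow D z hz0, ← hL, smul_eq_mul, smul_eq_mul,
        smul_eq_mul, smul_eq_mul, hDx, hL']
      push_cast
      linear_combination (a ^ (4 * l) * x * z ^ j * (D a / a)) * h12
    have hyz : (y / a) ^ 2 = z + 1 := by
      rw [div_pow, hxy, hz]
      field_simp
    have key : a ^ (4 * l) * dd (⇑D) a x y = (a / y) ^ p *
        ∑ j ∈ range (3 * l + 1), (Nat.choose (3 * l) j : K) * (a ^ (4 * l) * x * z ^ j * L) := by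
      have h1 : ∑ j ∈ range (3 * l + 1), (Nat.choose (3 * l) j : K) *
          (a ^ (4 * l) * x * z ^ j * L) = (z + 1) ^ (3 * l) * (a ^ (4 * l) * x * L) := by
        rw [add_pow, sum_mul]
        refine sum_congr rfl fun j _ => ?_
        rw [one_pow]
        ring
      rw [h1, ← hyz, ← pow_mul, hg, hl, pow_succ (a / y), show 2 * (3 * l) = 6 * l by ring]
      have h2 : (a / y) ^ (6 * l) * (y / a) ^ (6 * l) = 1 := by
        rw [← mul_pow, div_mul_div_comm, mul_comm y a, div_self (mul_ne_zero ha hy), one_pow]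
      linear_combination (-(a ^ (4 * l) * x * L * (a / y))) * h2
    have hterm : ∀ j ∈ range (3 * l + 1), j ≠ 2 * l →
        (⇑D)^[p - 1] ((Nat.choose (3 * l) j : K) * (a ^ (4 * l) * x * z ^ j * L)) = 0 := by
      intro j hj hj2
      rw [mem_range] at hj
      rw [iter_const D _ (nat0 _)]
      have hne : ((3 * j + 1 : ℕ) : K) ≠ 0 := by
        intro h0
        rw [CharP.cast_eq_zero_iff K p] at h0
        obtain ⟨m, hm⟩ := h0
        have hm1 : m = 1 := by
          have h3 : m < 2 := by
            by_contra hcon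
            push Not at hcon
            have : p * 2 ≤ p * m := Nat.mul_le_mul_left _ hcon
            omega
          have h4 : m ≠ 0 := by
            rintro rfl
            omega
          omega
        rw [hm1, mul_one] at hm
        omega
      have h5 : ((3 * j + 1 : ℕ) : K) * (⇑D)^[p - 1] (a ^ (4 * l) * x * z ^ j * L) = 0 := by
        rw [← iter_const D _ (nat0 _), ← hs j, iter_const D _ (num 3),
          ← Function.iterate_succ_apply, Nat.succ_eq_add_one, Nat.sub_add_cancel hprime.one_le, hp,
          mul_zero]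
      rcases mul_eq_zero.1 h5 with h | h
      · exact absurd h hne
      · rw [h, mul_zero]
    rw [key, iter_const D _ (hpow _), iter_sum, sum_eq_single_of_mem (2 * l)
      (mem_range.2 (by omega)) hterm, iter_const D _ (nat0 _)]
    have h6 : a ^ (4 * l) * x * z ^ (2 * l) * L = x ^ p * L := by
      have h7 : a ^ (4 * l) * z ^ (2 * l) = x ^ (6 * l) := by
        rw [hz, div_pow, ← pow_mul, ← pow_mul, show 3 * (2 * l) = 6 * l by ring,
          show 2 * (2 * l) = 4 * l by ring, mul_div_cancel₀ _ (pow_ne_zero _ ha)]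
      have h8 : x ^ p = x ^ (6 * l) * x := by rw [hl, pow_succ]
      rw [h8, ← h7]
      ring
    have h9 : Nat.choose (3 * l) (2 * l) = Nat.choose (3 * l) l := by
      rw [← Nat.choose_symm (by omega : 2 * l ≤ 3 * l)]
      congr 1
      omega
    rw [h6, iter_const D _ (hpow _), hL, hlog z hz0, ← hL, hg, h9, div_pow, div_pow, mul_pow,
      mul_pow]
    ring

end Pool.Agent.N163.KG.CARB
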