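import Pool.Agent.N163.KG.Stm

/-!
# KG/CMP (helper530): comparison of two solutions of the relations
-/

set_option autoImplicit false

namespace Pool.Agent.N163.KG.CMP

open Polynomial

private theorem choose_ne {K : Type} [Field K] (p : ℕ) [hp : Fact p.Prime] [CharP K p] {a b : ℕ}
    (ha : a < p) (hb : b ≤ a) : (Nat.choose a b : K) ≠ 0 := by
  intro h
  have h1 : p ∣ Nat.choose a b := (CharP.cast_eq_zero_iff K p _).1 h
  have h2 : p ∣ a.factorial := by
    rw [← Nat.choose_mul_factorial_mul_factorial hb, mul_assoc]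
    exact h1.mul_right _
  have h3 := (hp.out.dvd_factorial).1 h2
  omega

theorem t_CMP : Pool.Agent.N163.KG.S_CMP := by
  intro k K _ _ _ _ p l hp _ _ hpl n α c hn hpn hα hc g g₀ hg hg₀ U hU
  have hl : 1 ≤ l := by
    rcases Nat.eq_zero_or_pos l with h | h
    · exfalso
      rw [h] at hpl
      exact hp.out.one_lt.ne' hpl
    · exact h
  set G : ℕ → K := fun u => algebraMap k K (g.coeff (u - 1)) with hG
  set G0 : ℕ → K := fun u => g₀.coeff (u - 1) with hG0
  have hA : (Nat.choose (3 * l) l : K) ≠ 0 := choose_ne p (by omega) (by omega)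
  -- one step
  have step : ∀ u ∈ U, G ((p * u) % (6 * n)) * G0 u ^ p = G u ^ p * G0 ((p * u) % (6 * n)) := by
    intro u hu
    obtain ⟨hu1, hu2, hu3, hu4⟩ := hU u hu
    have hn6 : 0 < 6 * n := by omega
    have hv : (p * u) % (6 * n) < 6 * n := Nat.mod_lt _ hn6
    have hdec : p * u = (p * u) % (6 * n) + 6 * n * ((p * u) / (6 * n)) :=
      (Nat.mod_add_div (p * u) (6 * n)).symm
    have hj : (p * u) / (6 * n) ≤ 4 * l := by
      have h1 : p * u < 6 * n * (4 * l + 1) := by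
        rw [hpl]
        nlinarith
      have h2 : (p * u) / (6 * n) < 4 * l + 1 := Nat.div_lt_of_lt_mul h1
      omega
    have e1 := congrArg (algebraMap k K) (hg u _ _ hu1 hu2 hv hdec)
    have e2 := hg₀ u _ _ hu1 hu2 hv hdec
    simp only [map_mul, map_pow, map_neg, map_natCast] at e1
    have hC : (algebraMap k K α) ^ (4 * l) * (-(algebraMap k K c)) ^ (4 * l - (p * u) / (6 * n)) *
        (Nat.choose (4 * l) ((p * u) / (6 * n)) : K) ≠ 0 := by
      have a1 : algebraMap k K α ≠ 0 := by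
        rw [Ne, map_eq_zero]
        exact hα
      have a2 : -(algebraMap k K c) ≠ 0 := by
        rw [Ne, neg_eq_zero, map_eq_zero]
        exact hc
      exact mul_ne_zero (mul_ne_zero (pow_ne_zero _ a1) (pow_ne_zero _ a2))
        (choose_ne p (by omega) hj)
    apply mul_left_cancel₀ (mul_ne_zero hA hC)
    change (Nat.choose (3 * l) l : K) * _ * (algebraMap k K (g.coeff ((p * u) % (6 * n) - 1)) *
      g₀.coeff (u - 1) ^ p) = (Nat.choose (3 * l) l : K) * _ *
        (algebraMap k K (g.coeff (u - 1)) ^ p * g₀.coeff ((p * u) % (6 * n) - 1))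
    generalize (algebraMap k K α) ^ (4 * l) * (-(algebraMap k K c)) ^ (4 * l - (p * u) / (6 * n)) *
        (Nat.choose (4 * l) ((p * u) / (6 * n)) : K) = CC at e1 e2 ⊢
    generalize algebraMap k K (g.coeff ((p * u) % (6 * n) - 1)) = x1 at e1 e2 ⊢
    generalize algebraMap k K (g.coeff (u - 1)) ^ p = x2 at e1 e2 ⊢
    generalize g₀.coeff ((p * u) % (6 * n) - 1) = x3 at e1 e2 ⊢
    generalize g₀.coeff (u - 1) ^ p = x4 at e1 e2 ⊢
    linear_combination (CC * x1) * e2 - (CC * x3) * e1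
  -- iteration
  have iter : ∀ u ∈ U, ∀ i : ℕ, (p ^ i * u) % (6 * n) ∈ U ∧
      G ((p ^ i * u) % (6 * n)) * G0 u ^ (p ^ i) = G u ^ (p ^ i) * G0 ((p ^ i * u) % (6 * n)) := by
    intro u hu i
    induction i with
    | zero =>
      obtain ⟨hu1, hu2, hu3, hu4⟩ := hU u hu
      have h1 : (p ^ 0 * u) % (6 * n) = u := by
        rw [pow_zero, one_mul]
        exact Nat.mod_eq_of_lt (by omega)
      rw [h1]
      exact ⟨hu, by rw [pow_zero, pow_one, pow_one]⟩
    | succ i ih =>
      obtain ⟨ih1, ih2⟩ := ih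
      have h1 : (p ^ (i + 1) * u) % (6 * n) = (p * ((p ^ i * u) % (6 * n))) % (6 * n) := by
        rw [Nat.mul_mod p ((p ^ i * u) % (6 * n)), Nat.mod_mod, ← Nat.mul_mod]
        congr 1
        ring
      obtain ⟨-, -, hu3, hu4⟩ := hU _ ih1
      have h2 := step _ ih1
      rw [h1]
      refine ⟨hu3, ?_⟩
      have h3 : G0 ((p ^ i * u) % (6 * n)) ^ p ≠ 0 := pow_ne_zero _ hu4
      apply mul_left_cancel₀ h3
      have h4 : (G ((p ^ i * u) % (6 * n)) * G0 u ^ (p ^ i)) ^ p =
          (G u ^ (p ^ i) * G0 ((p ^ i * u) % (6 * n))) ^ p := by rw [ih2]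
      rw [mul_pow, mul_pow, ← pow_mul, ← pow_mul, ← pow_succ] at h4
      generalize G0 ((p ^ i * u) % (6 * n)) ^ p = y1 at h2 h3 h4 ⊢
      generalize G ((p ^ i * u) % (6 * n)) ^ p = y2 at h2 h3 h4 ⊢
      generalize G0 u ^ p ^ (i + 1) = y3 at h2 h3 h4 ⊢
      generalize G u ^ p ^ (i + 1) = y4 at h2 h3 h4 ⊢
      generalize G (p * ((p ^ i * u) % (6 * n)) % (6 * n)) = y5 at h2 h3 h4 ⊢
      generalize G0 (p * ((p ^ i * u) % (6 * n)) % (6 * n)) = y6 at h2 h3 h4 ⊢
      linear_combination y3 * h2 + y6 * h4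
  intro u hu
  have : Fintype k := Fintype.ofFinite k
  obtain ⟨f, -, hf⟩ := FiniteField.card k p
  have hq : Nat.card k = p ^ (f : ℕ) := by rw [Nat.card_eq_fintype_card, hf]
  obtain ⟨h1, h2⟩ := iter u hu f
  rw [← hq] at h1 h2
  refine ⟨h1, ?_⟩
  have h3 : G u ^ Nat.card k = G u := by
    rw [hG]
    simp only
    rw [← map_pow, Nat.card_eq_fintype_card, FiniteField.pow_card]
  rw [h3] at h2
  exact h2

end Pool.Agent.N163.KG.CMP
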