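import Pool.Agent.N163.KG.Stm

/-!
# `S_COEF` (general `p`): the equation of Cartier in coefficients (helper371)

Generalisation of `Pool/Agent/N163/KN/COEF.lean`.
-/

set_option autoImplicit false

namespace Pool.Agent.N163.KG.COEF

open Polynomial Pool.Agent.N163.KG

lemma coeff_pow_p {k : Type} [Field k] (p : ℕ) [Fact p.Prime] [CharP k p] (g : k[X]) (w : ℕ) :
    (g ^ p).coeff (p * w) = g.coeff w ^ p := by
  have hp : p.Prime := Fact.out
  have : ExpChar k p := ExpChar.prime hp
  have h1 : g ^ p = expand k p (map (frobenius k p) g) := by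
    rw [← map_expand, Polynomial.map_frobenius_expand]
  rw [h1, coeff_expand hp.pos, if_pos (Dvd.intro w rfl), Nat.mul_div_cancel_left w hp.pos,
    coeff_map, frobenius_def]

lemma desc_cast {k : Type} [Field k] (p : ℕ) [Fact p.Prime] [CharP k p] (w : ℕ) :
    (((p * w + (p - 1)).descFactorial (p - 1) : ℕ) : k) = -1 := by
  have h0 : (p : k) = 0 := CharP.cast_eq_zero k p
  have h1 : (((p - 1).factorial : ℕ) : k) = -1 := by
    have h2 := congrArg (ZMod.castHom (dvd_refl p) k) (ZMod.wilsons_lemma p)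
    rw [map_natCast, map_neg, map_one] at h2
    exact h2
  rw [Nat.add_descFactorial_eq_ascFactorial, Nat.ascFactorial_eq_prod_range, ← h1,
    ← Nat.one_ascFactorial, Nat.ascFactorial_eq_prod_range, Nat.cast_prod, Nat.cast_prod]
  refine Finset.prod_congr rfl fun i _ => ?_
  push_cast
  rw [h0]
  ring

lemma coeff_h {k : Type} [Field k] (l n : ℕ) (α c : k) (g : k[X]) (_hn : 1 ≤ n)
    (hg : g.natDegree + 2 ≤ 4 * n) (s j : ℕ) (hs : s + 1 < 6 * n) (hj : j ≤ 4 * l) :
    (ap α c n ^ (4 * l) * g).coeff (s + 6 * n * j) =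
      α ^ (4 * l) * (-c) ^ (4 * l - j) * (Nat.choose (4 * l) j : k) * g.coeff s := by
  have h0 : ap α c n ^ (4 * l) * g =
      C (α ^ (4 * l)) * ((X ^ (6 * n) + C (-c)) ^ (4 * l) * g) := by
    rw [ap, mul_pow, C_pow, C_neg, sub_eq_add_neg]
    ring
  rw [h0, coeff_C_mul, add_pow, Finset.sum_mul, finsetSum_coeff, Finset.sum_eq_single j]
  · have : ((X : k[X]) ^ (6 * n)) ^ j * C (-c) ^ (4 * l - j) * (Nat.choose (4 * l) j : k[X]) * g =
        C ((-c) ^ (4 * l - j) * (Nat.choose (4 * l) j : k)) * (g * X ^ (6 * n * j)) := by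
      rw [pow_mul, C_mul, C_pow, C_eq_natCast]
      ring
    rw [this, coeff_C_mul, coeff_mul_X_pow]
    ring
  · intro i _ hi
    have : ((X : k[X]) ^ (6 * n)) ^ i * C (-c) ^ (4 * l - i) * (Nat.choose (4 * l) i : k[X]) * g =
        C ((-c) ^ (4 * l - i) * (Nat.choose (4 * l) i : k)) * (g * X ^ (6 * n * i)) := by
      rw [pow_mul, C_mul, C_pow, C_eq_natCast]
      ring
    rw [this, coeff_C_mul, coeff_mul_X_pow']
    split_ifs with h
    · have hlt : i < j := by
        rcases lt_or_gt_of_ne hi with h' | h'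
        · exact h'
        · exfalso
          have : 6 * n * (j + 1) ≤ 6 * n * i := Nat.mul_le_mul_left _ h'
          have e : 6 * n * (j + 1) = 6 * n * j + 6 * n := by ring
          omega
      have : g.coeff (s + 6 * n * j - 6 * n * i) = 0 := by
        apply coeff_eq_zero_of_natDegree_lt
        have h3 : 6 * n * (i + 1) ≤ 6 * n * j := Nat.mul_le_mul_left _ hlt
        have e : 6 * n * (i + 1) = 6 * n * i + 6 * n := by ring
        omega
      rw [this, mul_zero]
    · rw [mul_zero]
  · intro h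
    exact absurd (Finset.mem_range.2 (by omega)) h

theorem t_COEF : S_COEF := by
  intro k _ p l _ _ hpl n α c g hn hpn hg heq u v j hu hu4 hv huv
  have hp : p.Prime := Fact.out
  have hl : 1 ≤ l := by
    rcases Nat.eq_zero_or_pos l with h | h
    · exfalso
      rw [h] at hpl
      exact hp.one_lt.ne' hpl
    · exact h
  have hj : j ≤ 4 * l := by
    by_contra hj
    have h1 : 6 * n * (4 * l + 1) ≤ 6 * n * j := Nat.mul_le_mul_left _ (by omega)
    have h2 : p * u < p * (4 * n) := Nat.mul_lt_mul_of_pos_left hu4 hp.pos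
    have e1 : p * (4 * n) = 24 * (l * n) + 4 * n := by rw [hpl]; ring
    have e2 : 6 * n * (4 * l + 1) = 24 * (l * n) + 6 * n := by ring
    omega
  have hv0 : v ≠ 0 := by
    rintro rfl
    have hd : p ∣ 6 * n * j := ⟨u, by omega⟩
    rcases (hp.dvd_mul).1 hd with h | h
    · rcases (hp.dvd_mul).1 h with h | h
      · have := Nat.le_of_dvd (by norm_num) h
        omega
      · exact hpn h
    · obtain ⟨j', rfl⟩ := h
      have h3 : p * u = p * (6 * n * j') := by rw [huv]; ring
      have h4 : u = 6 * n * j' := Nat.eq_of_mul_eq_mul_left hp.pos h3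
      rcases Nat.eq_zero_or_pos j' with h5 | h5
      · rw [h5, mul_zero] at h4
        omega
      · have h6 : 6 * n * 1 ≤ 6 * n * j' := Nat.mul_le_mul_left _ h5
        omega
  obtain ⟨s, rfl⟩ : ∃ s, v = s + 1 := ⟨v - 1, by omega⟩
  obtain ⟨w, rfl⟩ : ∃ w, u = w + 1 := ⟨u - 1, by omega⟩
  have h1 := congrArg (fun q : k[X] => q.coeff (p * w)) heq
  beta_reduce at h1
  have hidx : p * w + (p - 1) = s + 6 * n * j := by
    have e : p * (w + 1) = p * w + p := by ring
    have := hp.pos
    omega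
  rw [coeff_iterate_derivative, nsmul_eq_mul, desc_cast, hidx,
    coeff_h l n α c g hn hg s j hv hj] at h1
  have h2 : (-(C (Nat.choose (3 * l) l : k)) * g ^ p : k[X]).coeff (p * w) =
      -(Nat.choose (3 * l) l : k) * g.coeff w ^ p := by
    rw [← C_neg, coeff_C_mul, coeff_pow_p]
  rw [h2] at h1
  show (Nat.choose (3 * l) l : k) * g.coeff w ^ p =
    α ^ (4 * l) * (-c) ^ (4 * l - j) * (Nat.choose (4 * l) j : k) * g.coeff s
  linear_combination h1

end Pool.Agent.N163.KG.COEF
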