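import Pool.Agent.N163.KG.Stm2
import Pool.Agent.N420.KS.Wei

/-!
# KG/CONV (helper530): three points on the Weierstrass curve, no affine points on the cubic
-/

set_option autoImplicit false

namespace Pool.Agent.N163.KG.CONV

open Polynomial Pool.Agent.N420.KS

private theorem cube_root {F : Type} [Field F] [Finite F] (p l : ℕ) [hp : Fact p.Prime]
    [CharP F p] (hpl : p = 6 * l + 1) : ∃ w : F, w ^ 2 + w + 1 = 0 := by
  classical
  have : Fintype F := Fintype.ofFinite F
  obtain ⟨f, -, hf⟩ := FiniteField.card F p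
  have h3 : 3 ∣ Fintype.card Fˣ := by
    rw [Fintype.card_units, hf]
    have h0 : p ≡ 1 [MOD 3] := by
      rw [hpl, Nat.ModEq]
      omega
    have h1 : p ^ (f : ℕ) ≡ 1 ^ (f : ℕ) [MOD 3] := h0.pow _
    rw [one_pow] at h1
    exact (Nat.modEq_iff_dvd' (Nat.one_le_pow _ _ hp.out.pos)).1 h1.symm
  have : Fact (Nat.Prime 3) := ⟨Nat.prime_three⟩
  obtain ⟨g, hg⟩ := exists_prime_orderOf_dvd_card 3 h3
  have h1 : g ^ 3 = 1 := by rw [← hg]; exact pow_orderOf_eq_one g
  have h2 : g ≠ 1 := by
    rintro rfl
    rw [orderOf_one] at hg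
    omega
  have h4 : (g : F) ^ 3 = 1 := by
    rw [← Units.val_pow_eq_pow_val, h1, Units.val_one]
  have h5 : ((g : F) - 1) * ((g : F) ^ 2 + g + 1) = 0 := by linear_combination h4
  rcases mul_eq_zero.1 h5 with h6 | h6
  · exact absurd (Units.ext (by rw [Units.val_one]; exact sub_eq_zero.1 h6)) h2
  · exact ⟨g, h6⟩

theorem t_CONV : Pool.Agent.N163.KG.S_CONV := by
  intro F _ _ p l hp _ hpl b c hA n hn H
  have hl : 1 ≤ l := by
    rcases Nat.eq_zero_or_pos l with h | h
    · exfalso
      rw [h] at hpl
      exact hp.out.one_lt.ne' hpl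
    · exact h
  have h2F : (2 : F) ≠ 0 := by
    intro h
    have h0 : ((2 : ℕ) : F) = 0 := by exact_mod_cast h
    have h1 := Nat.le_of_dvd (by norm_num) ((CharP.cast_eq_zero_iff F p 2).1 h0)
    omega
  have h2 : (2 : RatFunc F) ≠ 0 := by
    have h1 := (_root_.map_ne_zero (RatFunc.C : F →+* RatFunc F)).2 h2F
    rwa [map_ofNat] at h1
  have hB : (RatFunc.C b : RatFunc F) ≠ 0 := (_root_.map_ne_zero _).2 hA.b_ne
  obtain ⟨e, he⟩ : ∃ e : RatFunc F, e = RatFunc.X ^ (6 * n) - RatFunc.C c := ⟨_, rfl⟩
  have he0 : e ≠ 0 := by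
    have h1 : algebraMap F[X] (RatFunc F) (X ^ (6 * n) - C c) = e := by
      rw [map_sub, map_pow, RatFunc.algebraMap_X, RatFunc.algebraMap_C, he]
    rw [← h1]
    exact (map_ne_zero_iff _ (RatFunc.algebraMap_injective F)).2
      (X_pow_sub_C_ne_zero (by omega) c)
  obtain ⟨a, ha⟩ : ∃ a : RatFunc F, a = e / (2 * RatFunc.C b ^ 2) := ⟨_, rfl⟩
  have har : ar (1 / (2 * b ^ 2)) c n = a := by
    unfold ar ap
    rw [map_mul, map_sub, map_pow, RatFunc.algebraMap_X, RatFunc.algebraMap_C,
      RatFunc.algebraMap_C, ← he, map_div₀, map_one, map_mul, map_pow, map_ofNat, ha]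
    rw [one_div, div_eq_mul_inv, mul_comm]
  have ha0 : a ≠ 0 := by
    rw [ha]
    exact div_ne_zero he0 (mul_ne_zero h2 (pow_ne_zero 2 hB))
  rw [har] at H
  constructor
  · -- the points
    have h6 : (weierstrass F b c n).a₆ = a ^ 2 := by
      rw [ha, he]
      rfl
    have hns : ∀ y : RatFunc F, y ^ 2 = a ^ 2 → (weierstrass F b c n).Nonsingular 0 y := by
      intro y hy
      have hy0 : y ≠ 0 := by
        rintro rfl
        exact ha0 (by
          have : a ^ 2 = 0 := by rw [← hy]; ring
          exact pow_eq_zero_iff (two_ne_zero) |>.1 this)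
      rw [WeierstrassCurve.Affine.nonsingular_iff']
      constructor
      · rw [WeierstrassCurve.Affine.equation_iff, h6]
        simp only [weierstrass]
        linear_combination hy
      · right
        simp only [weierstrass]
        have : 2 * y + 0 * 0 + 0 = 2 * y := by ring
        rw [this]
        exact mul_ne_zero h2 hy0
    have hbij : Function.Bijective (fun o : Option Bool => match o with
        | none => (WeierstrassCurve.Affine.Point.zero : (weierstrass F b c n).Point)
        | some true => WeierstrassCurve.Affine.Point.some 0 a (hns a rfl)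
        | some false => WeierstrassCurve.Affine.Point.some 0 (-a) (hns (-a) (by ring))) := by
      have hne : a ≠ -a := by
        intro h
        have h1 : 2 * a = 0 := by linear_combination h
        exact (mul_ne_zero h2 ha0) h1
      constructor
      · intro o1 o2 h
        rcases o1 with _ | _ | _ <;> rcases o2 with _ | _ | _ <;> simp at h ⊢
        · exact hne h.symm
        · exact hne h
      · intro P
        rcases P with _ | ⟨x, y, h⟩
        · exact ⟨none, rfl⟩
        · have h1 := h.1
          rw [WeierstrassCurve.Affine.equation_iff, h6] at h1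
          simp only [weierstrass] at h1
          have h2' : y ^ 2 = x ^ 3 + a ^ 2 := by linear_combination h1
          have hx := H x y h2'
          subst hx
          have h3 : (y - a) * (y + a) = 0 := by linear_combination h2'
          rcases mul_eq_zero.1 h3 with h4 | h4
          · have h5 : y = a := sub_eq_zero.1 h4
            subst h5
            exact ⟨some true, rfl⟩
          · have h5 : y = -a := eq_neg_of_add_eq_zero_left h4
            subst h5
            exact ⟨some false, rfl⟩
    rw [← Nat.card_congr (Equiv.ofBijective _ hbij), Nat.card_eq_fintype_card]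
    rfl
  · -- the affine points
    rw [Set.eq_empty_iff_forall_notMem]
    rintro ⟨x₀, x₁⟩ hx
    have hx' : (x₁ ^ 3 - RatFunc.C b) * RatFunc.X ^ (6 * n) =
        RatFunc.C c * (x₀ ^ 3 - RatFunc.C b) := hx
    obtain ⟨χ, hχ⟩ := hA.c_cube
    obtain ⟨w, hw⟩ := cube_root (F := F) p l hpl
    have hχ' : (RatFunc.C χ : RatFunc F) ^ 3 = RatFunc.C c := by rw [← map_pow, hχ]
    have hw' : (RatFunc.C w : RatFunc F) ^ 2 + RatFunc.C w + 1 = 0 := by
      rw [← map_pow, ← map_one (RatFunc.C : F →+* RatFunc F), ← map_add, ← map_add, hw, map_zero]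
    obtain ⟨U, hU⟩ : ∃ U : RatFunc F, U = RatFunc.X ^ (2 * n) * x₁ := ⟨_, rfl⟩
    obtain ⟨V, hV⟩ : ∃ V : RatFunc F, V = -(RatFunc.C χ * x₀) := ⟨_, rfl⟩
    have hUV : U ^ 3 + V ^ 3 = RatFunc.C b * e := by
      have h1 : U ^ 3 = RatFunc.X ^ (6 * n) * x₁ ^ 3 := by
        rw [hU, mul_pow, ← pow_mul]
        congr 2
        ring
      have h3 : V ^ 3 = -(RatFunc.C c * x₀ ^ 3) := by
        rw [hV, ← hχ']
        ring
      rw [h1, h3, he]
      linear_combination hx'
    generalize RatFunc.C w = w' at hw'
    have hT : -((U + V) * (w' * U + w' ^ 2 * V) * ((U + V) + (w' * U + w' ^ 2 * V))) =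
        RatFunc.C b * e * 1 ^ 3 := by
      rw [one_pow, mul_one, ← hUV]
      have h3 : w' ^ 3 = 1 := by linear_combination (w' - 1) * hw'
      have h4 : (U + V) + (w' * U + w' ^ 2 * V) = -(w' ^ 2 * U + w' * V) := by
        linear_combination (U + V) * hw'
      rw [h4]
      have h5 : -((U + V) * (w' * U + w' ^ 2 * V) * -(w' ^ 2 * U + w' * V)) =
          w' ^ 3 * ((U + V) * (U ^ 2 + V ^ 2)) + (w' ^ 4 + w' ^ 2) * (U * V * (U + V)) := by ring
      rw [h5]
      have h6 : w' ^ 4 + w' ^ 2 = -1 := by
        linear_combination w' * h3 + hw'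
      rw [h3, h6]
      ring
    have hT1 : U + V ≠ 0 := by
      intro h0
      rw [h0] at hT
      have h1 : RatFunc.C b * e = 0 := by linear_combination -hT
      exact (mul_ne_zero hB he0) h1
    have hwei := wei_eq h2 hB hT1 hT
    rw [← ha] at hwei
    have h7 := H _ _ hwei
    rw [wx, neg_eq_zero, mul_one] at h7
    exact (div_ne_zero he0 (mul_ne_zero hB hT1)) h7

end Pool.Agent.N163.KG.CONV
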