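import Pool.Agent.N163.KG.Stm

/-!
# Project KG, part CUBE: constant multiples of `a²` are not cubes, `a = α (t ^ (6 n) - c)`

(project of helper163; the case `p = 7` by helper170, this version by helper875)
-/

set_option autoImplicit false

namespace Pool.Agent.N163.KG.CUBE

open Polynomial Pool.Agent.N163.KG

theorem cast_ne {k : Type} [Field k] (h2 : (2 : k) ≠ 0) (h3 : (3 : k) ≠ 0) {n : ℕ}
    (hn : (n : k) ≠ 0) : ((6 * n : ℕ) : k) ≠ 0 := by
  have h6 : ((6 * n : ℕ) : k) = 2 * 3 * (n : k) := by push_cast; ring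
  rw [h6]
  exact mul_ne_zero (mul_ne_zero h2 h3) hn

theorem sqf {k : Type} [Field k] {n : ℕ} (hn : ((6 * n : ℕ) : k) ≠ 0) {c : k} (hc : c ≠ 0) :
    Squarefree (X ^ (6 * n) - C c : k[X]) :=
  (separable_X_pow_sub_C (n := 6 * n) c hn hc).squarefree

theorem poly {k : Type} [Field k] {n : ℕ} (hn : ((6 * n : ℕ) : k) ≠ 0) {c : k}
    (hc : c ≠ 0) {e : k} (he : e ≠ 0) (A : k[X]) : A ^ 3 ≠ C e * (X ^ (6 * n) - C c) ^ 2 := by
  intro h
  have hn1 : 1 ≤ n := by
    rcases Nat.eq_zero_or_pos n with h0 | h0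
    · subst h0
      exact absurd (by simp) hn
    · exact h0
  have hdeg : (X ^ (6 * n) - C c : k[X]).natDegree = 6 * n := natDegree_X_pow_sub_C
  have hu : ¬ IsUnit (X ^ (6 * n) - C c : k[X]) := by
    intro hu
    have := natDegree_eq_zero_of_isUnit hu
    omega
  have h0 : (X ^ (6 * n) - C c : k[X]) ≠ 0 := by
    intro h0
    rw [h0, natDegree_zero] at hdeg
    omega
  obtain ⟨π, hπ, a1, ha⟩ := WfDvdMonoid.exists_irreducible_factor hu h0
  have hp : Prime π := hπ.prime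
  have h1 : π ∣ A := by
    apply hp.dvd_of_dvd_pow (n := 3)
    rw [h, ha]
    exact ⟨C e * (π * a1 ^ 2), by ring⟩
  obtain ⟨B, rfl⟩ := h1
  have h2 : π * B ^ 3 = C e * a1 ^ 2 := by
    have h3 : π ^ 2 * (π * B ^ 3) = π ^ 2 * (C e * a1 ^ 2) := by
      rw [ha] at h
      linear_combination h
    exact mul_left_cancel₀ (pow_ne_zero 2 hp.ne_zero) h3
  have h3 : π ∣ a1 := by
    have h4 : π ∣ C e * a1 ^ 2 := ⟨B ^ 3, h2.symm⟩
    rcases hp.dvd_or_dvd h4 with h5 | h5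
    · exact absurd (isUnit_of_dvd_unit h5 (isUnit_C.2 (IsUnit.mk0 e he))) hp.not_unit
    · exact hp.dvd_of_dvd_pow h5
  obtain ⟨b, rfl⟩ := h3
  exact hp.not_unit (sqf hn hc π ⟨b, by rw [ha]; ring⟩)

/-- **CUBE**. -/
theorem t_CUBE : Pool.Agent.N163.KG.S_CUBE := by
  intro k _ h2 h3 n α c hn hα hc d x hd h
  have h1 : RatFunc.C d * ar α c n ^ 2 =
      algebraMap k[X] (RatFunc k) (C (d * α ^ 2) * (X ^ (6 * n) - C c) ^ 2) := by
    unfold ar ap
    rw [map_mul, map_mul, RatFunc.algebraMap_C, RatFunc.algebraMap_C, map_mul, map_pow, map_pow]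
    ring
  obtain ⟨A, rfl⟩ := IsIntegrallyClosed.exists_algebraMap_eq_of_isIntegral_pow (R := k[X])
    (x := x) (n := 3) (by norm_num) (by rw [h, h1]; exact isIntegral_algebraMap)
  rw [h1, ← map_pow] at h
  exact poly (cast_ne h2 h3 hn) hc (mul_ne_zero hd (pow_ne_zero 2 hα)) A
    (RatFunc.algebraMap_injective k h)

end Pool.Agent.N163.KG.CUBE
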