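import Pool.Agent.N163.KG.Stm
import Pool.Agent.N163.KN.DER

/-!
# Project KG (helper163): task DER, `δ^p = 0` and `δ^(p-1) (δz/z) = -(δz/z)^p` (by helper250)
-/

set_option autoImplicit false
set_option linter.unusedSectionVars false

namespace Pool.Agent.N163.KG.DER

open Polynomial Pool.Agent.N163.KN Pool.Agent.N163.KN.DER

section poly

variable {K : Type} [Field K] (p : ℕ) [hp : Fact p.Prime] [CharP K p]

theorem derP (q : K[X]) : derivative^[p] q = 0 := by
  ext n
  rw [coeff_iterate_derivative, coeff_zero, nsmul_eq_mul]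
  have h1 : p ∣ (n + p).descFactorial p :=
    (Nat.dvd_factorial hp.out.pos le_rfl).trans (Nat.factorial_dvd_descFactorial _ _)
  rw [(CharP.cast_eq_zero_iff K p _).2 h1, zero_mul]

theorem der_pow_p (B : K[X]) : derivative (B ^ p) = 0 := by
  rw [derivative_pow, CharP.cast_eq_zero K p, C_0, zero_mul, zero_mul]

theorem iter_pow_mul (B g : K[X]) (m : ℕ) :
    derivative^[m] (B ^ p * g) = B ^ p * derivative^[m] g := by
  induction m generalizing g with
  | zero => rfl
  | succ m ih =>
    rw [Function.iterate_succ_apply, Function.iterate_succ_apply, derivative_mul, der_pow_p,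
      zero_mul, zero_add, ih]

/-- the identity of Jacobson for polynomials -/
def Id (A : K[X]) : Prop := derivative^[p - 1] (A ^ (p - 1) * derivative A) = -derivative A ^ p

theorem pow_pred (A : K[X]) : A ^ (p - 1) * A = A ^ p := by
  rw [← pow_succ, Nat.sub_add_cancel hp.out.one_le]

theorem id_mul {A B : K[X]} (hA : Id p A) (hB : Id p B) : Id p (A * B) := by
  unfold Id at *
  have e : (A * B) ^ (p - 1) * derivative (A * B) =
      B ^ p * (A ^ (p - 1) * derivative A) + A ^ p * (B ^ (p - 1) * derivative B) := by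
    rw [derivative_mul, mul_pow, ← pow_pred p A, ← pow_pred p B]
    ring
  rw [e, iterate_map_add, iter_pow_mul p B, iter_pow_mul p A, hA, hB, derivative_mul, add_pow_char,
    mul_pow, mul_pow]
  ring

theorem id_C (c : K) : Id p (C c) := by
  unfold Id
  rw [derivative_C, mul_zero, zero_pow hp.out.ne_zero, neg_zero, iterate_derivative_zero]

theorem wilson : (((p - 1).factorial : ℕ) : K) = -1 := by
  have h := ZMod.wilsons_lemma p
  have h2 := congrArg (ZMod.castHom (dvd_refl p) K) h
  rw [map_natCast, map_neg, map_one] at h2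
  exact h2

theorem id_X (r : K) : Id p (X - C r) := by
  unfold Id
  rw [derivative_sub, derivative_X, derivative_C, sub_zero, mul_one,
    iterate_derivative_X_sub_pow_self, one_pow, ← C_eq_natCast, wilson p, C_neg, C_1]

theorem id_closed [IsAlgClosed K] (A : K[X]) : Id p A := by
  induction hn : A.natDegree using Nat.strong_induction_on generalizing A with
  | _ n ih =>
    by_cases h0 : A.natDegree = 0
    · rw [eq_C_of_natDegree_eq_zero h0]
      exact id_C p _
    · have hA : A ≠ 0 := fun h => h0 (by rw [h, natDegree_zero])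
      obtain ⟨r, hr⟩ := IsAlgClosed.exists_root A (fun h => h0 (natDegree_eq_of_degree_eq_some h))
      obtain ⟨B, hB⟩ := dvd_iff_isRoot.2 hr
      have hB0 : B ≠ 0 := by
        rintro rfl
        exact hA (by rw [hB, mul_zero])
      have hd : A.natDegree = 1 + B.natDegree := by
        rw [hB, natDegree_mul (X_sub_C_ne_zero r) hB0, natDegree_X_sub_C]
      rw [hB]
      exact id_mul p (id_X p r) (ih B.natDegree (by omega) B rfl)

theorem id_all (A : K[X]) : Id p A := by
  have : CharP (AlgebraicClosure K) p :=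
    charP_of_injective_algebraMap (algebraMap K (AlgebraicClosure K)).injective p
  have h := id_closed p (A.map (algebraMap K (AlgebraicClosure K)))
  unfold Id at *
  rw [derivative_map, ← Polynomial.map_pow, ← Polynomial.map_mul, iterate_derivative_map,
    ← Polynomial.map_pow, ← Polynomial.map_neg] at h
  exact Polynomial.map_injective _ (algebraMap K (AlgebraicClosure K)).injective h

end poly

section

variable {k : Type} [Field k] (p : ℕ) [hp : Fact p.Prime] [CharP k p]

theorem delta_pow {δ : RatFunc k → RatFunc k} (h : IsDer δ) (B : k[X]) : δ (ro (B ^ p)) = 0 := by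
  rw [show δ (ro (B ^ p)) = ro (derivative (B ^ p)) from h.poly _, der_pow_p]
  exact map_zero (algebraMap k[X] (RatFunc k))

/-- every rational function is a polynomial up to a `p`-th power -/
theorem exists_pow (f : RatFunc k) : ∃ A B : k[X], B ≠ 0 ∧ f = (ro (B ^ p))⁻¹ * ro A := by
  obtain ⟨A, B, hB, hf⟩ := exists_div f
  have hB' := ro_ne hB
  have hc : ro (B ^ p) ≠ 0 := ro_ne (pow_ne_zero p hB)
  refine ⟨A * B ^ (p - 1), B, hB, ?_⟩
  rw [hf, eq_inv_mul_iff_mul_eq₀ hc, ← mul_div_assoc, div_eq_iff hB', ← pow_pred p B]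
  unfold ro
  rw [map_mul, map_mul]
  ring

theorem iter_p {δ : RatFunc k → RatFunc k} (h : IsDer δ) (f : RatFunc k) : δ^[p] f = 0 := by
  obtain ⟨A, B, hB, hf⟩ := exists_pow p f
  rw [hf, iter_const h (ro_ne (pow_ne_zero p hB)) (delta_pow p h B), iter_poly h, derP]
  unfold ro
  rw [map_zero, mul_zero]

theorem log_p {δ : RatFunc k → RatFunc k} (h : IsDer δ) (z : RatFunc k) (hz : z ≠ 0) :
    δ^[p - 1] (δ z / z) = -(δ z / z) ^ p := by
  obtain ⟨A, B, hB, hf⟩ := exists_pow p z
  have hc : ro (B ^ p) ≠ 0 := ro_ne (pow_ne_zero p hB)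
  have hA : A ≠ 0 := by
    rintro rfl
    apply hz
    rw [hf]
    unfold ro
    rw [map_zero, mul_zero]
  have hA' := ro_ne hA
  have hcA : ro (A ^ p) ≠ 0 := ro_ne (pow_ne_zero p hA)
  have e1 : δ z = (ro (B ^ p))⁻¹ * ro (derivative A) := by
    have h1 := iter_const h hc (delta_pow p h B) 1 (ro A)
    rw [Function.iterate_one] at h1
    rw [hf, h1, show δ (ro A) = ro (derivative A) from h.poly A]
  have e2 : δ z / z = ro (derivative A) / ro A := by
    rw [e1, hf, mul_div_mul_left _ _ (inv_ne_zero hc)]
  have e3 : ro (derivative A) / ro A = (ro (A ^ p))⁻¹ * ro (A ^ (p - 1) * derivative A) := by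
    rw [eq_inv_mul_iff_mul_eq₀ hcA, ← mul_div_assoc, div_eq_iff hA', ← pow_pred p A]
    unfold ro
    rw [map_mul, map_mul]
    ring
  have hId := id_all p A
  unfold Id at hId
  rw [e2]
  conv_lhs => rw [e3]
  rw [iter_const h hcA (delta_pow p h A), iter_poly h, hId]
  unfold ro
  rw [map_neg, map_pow, map_pow, div_pow, mul_neg, inv_mul_eq_div]

end

theorem t_DER : Pool.Agent.N163.KG.S_DER := by
  intro k _ p _ _ δ hδ
  exact ⟨iter_p p hδ, log_p p hδ⟩

end Pool.Agent.N163.KG.DER
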