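import Pool.Agent.N163.KG.Stm

/-!
Project KG (helper163), part DESC: finite generation by descent with `1 - ω` (helper300).
-/

set_option autoImplicit false

namespace Pool.Agent.N163.KG.DESC

theorem t_DESC : Pool.Agent.N163.KG.S_DESC := by
  classical
  intro M _ Ω H hPar hΩ hH hfin hS
  obtain ⟨S, hS⟩ := hS
  have h0 : H 0 = 0 := by
    have := hPar 0 0
    simp only [add_zero, sub_zero] at this
    omega
  have hneg : ∀ P, H (-P) = H P := by
    intro P
    have := hPar 0 P
    simp only [zero_add, zero_sub] at this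
    omega
  have h3 : ∀ Q, H (Q - Ω Q) = 3 * H Q := by
    intro Q
    have e1 := hPar Q (Ω Q)
    have e2 : Q + Ω Q = -(Ω (Ω Q)) := eq_neg_of_add_eq_zero_left (hΩ Q)
    rw [e2, hneg, hH, hH] at e1
    omega
  have hsub : ∀ P s, H (P - s) ≤ 2 * H P + 2 * H s := by
    intro P s
    have := hPar P s
    omega
  obtain ⟨C, hC⟩ : ∃ C, C = 2 * S.sup H := ⟨_, rfl⟩
  obtain ⟨T, hT⟩ : ∃ T : Set M, T = ↑S ∪ {P | H P ≤ C} := ⟨_, rfl⟩
  have hTf : T.Finite := by
    rw [hT]
    exact S.finite_toSet.union (hfin C)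
  have hUf : (T ∪ Ω '' T).Finite := hTf.union (hTf.image _)
  have hin1 : ∀ P ∈ T, P ∈ AddSubgroup.closure (T ∪ Ω '' T) := fun P hP =>
    AddSubgroup.subset_closure (Or.inl hP)
  have hin2 : ∀ P ∈ T, Ω P ∈ AddSubgroup.closure (T ∪ Ω '' T) := fun P hP =>
    AddSubgroup.subset_closure (Or.inr ⟨P, hP, rfl⟩)
  have key : ∀ n : ℕ, ∀ P : M, H P = n →
      P ∈ AddSubgroup.closure (T ∪ Ω '' T) ∧ Ω P ∈ AddSubgroup.closure (T ∪ Ω '' T) := by
    intro n
    induction n using Nat.strong_induction_on with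
    | _ n ih =>
      intro P hP
      by_cases hPC : H P ≤ C
      · have hPT : P ∈ T := by
          rw [hT]
          exact Or.inr hPC
        exact ⟨hin1 P hPT, hin2 P hPT⟩
      · obtain ⟨s, hs, Q, hQ⟩ := hS P
        have hsT : s ∈ T := by
          rw [hT]
          exact Or.inl hs
        have hle : H s ≤ S.sup H := Finset.le_sup hs
        have e1 : Q - Ω Q = P - s := by
          rw [hQ]
          abel
        have e2 := h3 Q
        rw [e1] at e2
        have e3 := hsub P s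
        have hlt : H Q < n := by omega
        obtain ⟨hQ1, hQ2⟩ := ih (H Q) hlt Q rfl
        have e4 : Ω (Ω Q) = -(Q + Ω Q) := eq_neg_of_add_eq_zero_right (hΩ Q)
        refine ⟨?_, ?_⟩
        · rw [hQ]
          exact AddSubgroup.add_mem _ (hin1 s hsT) (AddSubgroup.sub_mem _ hQ1 hQ2)
        · rw [hQ, map_add, map_sub, e4]
          exact AddSubgroup.add_mem _ (hin2 s hsT)
            (AddSubgroup.sub_mem _ hQ2 (AddSubgroup.neg_mem _ (AddSubgroup.add_mem _ hQ1 hQ2)))
  rw [AddGroup.fg_iff]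
  refine ⟨T ∪ Ω '' T, ?_, hUf⟩
  rw [eq_top_iff]
  intro P _
  exact (key _ P rfl).1

end Pool.Agent.N163.KG.DESC
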