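import Pool.Agent.N163.KG.Stm
import Pool.Agent.N163.KN.DER

/-!
# Explicit solution of the relations, fraction `1 / 12`
-/

set_option autoImplicit false

namespace Pool.Agent.N163.KG.E12

open Polynomial Pool.Agent.N163.KN

theorem two_three {k : Type} [Field k] (p l : ℕ) [Fact p.Prime] [CharP k p]
    (hp : p = 6 * l + 1) : (2 : k) ≠ 0 ∧ (3 : k) ≠ 0 ∧ 7 ≤ p := by
  have hpp : p.Prime := Fact.out
  have h7 : 7 ≤ p := by
    rcases Nat.eq_zero_or_pos l with h | h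
    · subst h
      exact absurd (hp ▸ hpp) (by norm_num)
    · omega
  refine ⟨?_, ?_, h7⟩
  · intro h
    have h1 : ((2 : ℕ) : k) = 0 := by exact_mod_cast h
    have h2 := Nat.le_of_dvd (by norm_num) ((CharP.cast_eq_zero_iff k p 2).1 h1)
    omega
  · intro h
    have h1 : ((3 : ℕ) : k) = 0 := by exact_mod_cast h
    have h2 := Nat.le_of_dvd (by norm_num) ((CharP.cast_eq_zero_iff k p 3).1 h1)
    omega

/-- A polynomial with a nonzero constant coefficient is not zero in `k(t)`. -/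
theorem ne_of_eval {k : Type} [Field k] {f : k[X]} {x : k} (h : f.eval 0 = x) (hx : x ≠ 0) :
    algebraMap k[X] (RatFunc k) f ≠ 0 := by
  intro h0
  have h1 : f = 0 := by
    apply RatFunc.algebraMap_injective k
    rw [h0, map_zero]
  rw [h1, eval_zero] at h
  exact hx h.symm

theorem ne_of_ne {k : Type} [Field k] {f : k[X]} (hf : f ≠ 0) :
    algebraMap k[X] (RatFunc k) f ≠ 0 := by
  intro h0
  apply hf
  apply RatFunc.algebraMap_injective k
  rw [h0, map_zero]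

theorem der_pow {k : Type} [Field k] (n : ℕ) :
    derivative (X ^ (n + 1) : k[X]) = C ((n : k) + 1) * X ^ n := by
  rw [derivative_X_pow]
  simp

theorem wron {k : Type} [Field k] (m : ℕ) (b β γ μ : k) (hb : b ≠ 0) (hμ : μ ≠ 0) :
    (C (-2 * β) * X ^ (3 * m + 3)) *
        derivative (X ^ (6 * m + 6) + C β * X ^ (3 * m + 3) + C γ : k[X]) -
      (X ^ (6 * m + 6) + C β * X ^ (3 * m + 3) + C γ) * derivative (C (-2 * β) * X ^ (3 * m + 3)) =
    C (-6 * ((m : k) + 1) * β / (b ^ 2 * μ ^ 2)) * X ^ m * (X ^ (6 * m + 6) - C γ) *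
      (C b ^ 2 * (C μ * X ^ (m + 1)) ^ 2) := by
  have h0 : b ^ 2 * μ ^ 2 ≠ 0 := mul_ne_zero (pow_ne_zero _ hb) (pow_ne_zero _ hμ)
  have h1 : (C (-6 * ((m : k) + 1) * β / (b ^ 2 * μ ^ 2)) : k[X]) * (C b ^ 2 * C μ ^ 2) =
      C (-6 * ((m : k) + 1) * β) := by
    rw [← C_pow, ← C_pow, ← C_mul, ← C_mul, div_mul_cancel₀ _ h0]
  have h2 : C (-6 * ((m : k) + 1) * β / (b ^ 2 * μ ^ 2)) * X ^ m * (X ^ (6 * m + 6) - C γ) *
      (C b ^ 2 * (C μ * X ^ (m + 1)) ^ 2) =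
      C (-6 * ((m : k) + 1) * β) * X ^ m * (X ^ (6 * m + 6) - C γ) * (X ^ (m + 1)) ^ 2 := by
    rw [← h1]
    ring
  rw [h2]
  have e1 : derivative (X ^ (6 * m + 6) : k[X]) = C (6 * ((m : k) + 1)) * X ^ (6 * m + 5) := by
    rw [show 6 * m + 6 = (6 * m + 5) + 1 by ring, der_pow]
    congr 2
    push_cast
    ring
  have e2 : derivative (X ^ (3 * m + 3) : k[X]) = C (3 * ((m : k) + 1)) * X ^ (3 * m + 2) := by
    rw [show 3 * m + 3 = (3 * m + 2) + 1 by ring, der_pow]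
    congr 2
    push_cast
    ring
  rw [derivative_add, derivative_add, derivative_C_mul, derivative_C_mul, e1, e2, derivative_C]
  simp only [C_mul, C_neg, C_add, C_1, map_ofNat]
  ring

theorem t_E12 (hW : S_WRO) (hP : S_PT) : Pool.Agent.N163.KG.S_E12 := by
  intro k _ p l _ _ hp m b c β γ μ hm hpm hb hc hγ hβ hμ
  obtain ⟨h2, h3, h7⟩ := two_three (k := k) p l hp
  obtain ⟨m, rfl⟩ : ∃ m', m = m' + 1 := ⟨m - 1, by omega⟩
  obtain ⟨δ, hδ⟩ := (Pool.Agent.N163.KN.DER.t_DER k).1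
  have hγ0 : γ ≠ 0 := by
    rintro rfl
    apply hc
    have : -c = 0 := by rw [← hγ]; ring
    exact neg_eq_zero.1 this
  have hβ0 : β ≠ 0 := by
    rintro rfl
    have : (2 : k) * γ = 0 := by rw [← hβ]; ring
    rcases mul_eq_zero.1 this with h | h
    · exact h2 h
    · exact hγ0 h
  have hμ0 : μ ≠ 0 := by
    rintro rfl
    have : (2 : k) * β = 0 := by rw [← hμ]; ring
    rcases mul_eq_zero.1 this with h | h
    · exact h2 h
    · exact hβ0 h
  set A : k[X] →+* RatFunc k := algebraMap k[X] (RatFunc k) with hA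
  set eP : k[X] := X ^ (12 * m + 12) - C c with heP
  set t1 : k[X] := C (-2 * β) * X ^ (3 * m + 3) with ht1
  set t2 : k[X] := X ^ (6 * m + 6) + C β * X ^ (3 * m + 3) + C γ with ht2
  set zP : k[X] := C μ * X ^ (m + 1) with hzP
  have hpow : ∀ n : ℕ, (0 : k) ^ (n + 1) = 0 := fun n => by rw [pow_succ, mul_zero]
  have v1 : t1 ≠ 0 := by
    rw [ht1]
    exact mul_ne_zero (C_ne_zero.2 (mul_ne_zero (neg_ne_zero.2 h2) hβ0)) (pow_ne_zero _ X_ne_zero)
  have v2 : zP ≠ 0 := by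
    rw [hzP]
    exact mul_ne_zero (C_ne_zero.2 hμ0) (pow_ne_zero _ X_ne_zero)
  have w1 : A eP ≠ 0 := by
    refine ne_of_eval (x := -c) ?_ (neg_ne_zero.2 hc)
    rw [heP, show 12 * m + 12 = (12 * m + 11) + 1 by ring]
    simp
  have w2 : A t2 ≠ 0 := by
    refine ne_of_eval (x := γ) ?_ hγ0
    rw [ht2, show 6 * m + 6 = (6 * m + 5) + 1 by ring, show 3 * m + 3 = (3 * m + 2) + 1 by ring]
    simp
  have w3 : A t1 + A t2 ≠ 0 := by
    rw [← map_add]
    refine ne_of_eval (x := γ) ?_ hγ0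
    rw [ht1, ht2, show 6 * m + 6 = (6 * m + 5) + 1 by ring,
      show 3 * m + 3 = (3 * m + 2) + 1 by ring]
    simp
  have w4 : A t1 + 2 * A t2 ≠ 0 := by
    have : A t1 + 2 * A t2 = A (t1 + 2 * t2) := by
      rw [A.map_add t1 (2 * t2), A.map_mul 2 t2, map_ofNat A 2]
    rw [this]
    refine ne_of_eval (x := 2 * γ) ?_ (mul_ne_zero h2 hγ0)
    rw [ht1, ht2, show 6 * m + 6 = (6 * m + 5) + 1 by ring,
      show 3 * m + 3 = (3 * m + 2) + 1 by ring]
    simp
  have key : -(t1 * t2 * (t1 + t2)) = C b * eP * zP ^ 3 := by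
    have k1 : (C β : k[X]) ^ 2 = 2 * C γ := by
      rw [← C_pow, hβ, C_mul, map_ofNat]
    have k2 : (C γ : k[X]) ^ 2 = -C c := by rw [← C_pow, hγ, C_neg]
    have k3 : (C b : k[X]) * C μ ^ 3 = 2 * C β := by
      rw [← C_pow, ← C_mul, hμ, C_mul, map_ofNat]
    rw [heP, hzP, ht1, ht2]
    have k4 : C b * (X ^ (12 * m + 12) - C c) * (C μ * X ^ (m + 1)) ^ 3 =
        (C b * C μ ^ 3) * (X ^ (12 * m + 12) - C c) * X ^ (3 * m + 3) := by ring
    rw [k4, k3]
    have k5 : (C (-2 * β) : k[X]) = -2 * C β := by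
      rw [C_mul, C_neg, map_ofNat]
    rw [k5]
    have k6 : (C c : k[X]) = -C γ ^ 2 := by rw [k2]; ring
    rw [k6]
    set V : k[X] := X ^ (3 * m + 3) with hV
    have k7 : (X : k[X]) ^ (6 * m + 6) = V ^ 2 := by rw [hV]; ring
    have k8 : (X : k[X]) ^ (12 * m + 12) = V ^ 4 := by rw [hV]; ring
    rw [k7, k8]
    linear_combination (-2 * C β * V ^ 3) * k1
  have hAinj : Function.Injective A := RatFunc.algebraMap_injective k
  have h2K : (2 : RatFunc k) ≠ 0 := by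
    have : (2 : RatFunc k) = A (C 2) := by rw [map_ofNat, map_ofNat]
    rw [this]
    exact ne_of_ne (C_ne_zero.2 h2)
  have h3K : (3 : RatFunc k) ≠ 0 := by
    have : (3 : RatFunc k) = A (C 3) := by rw [map_ofNat, map_ofNat]
    rw [this]
    exact ne_of_ne (C_ne_zero.2 h3)
  have hbK : A (C b) ≠ 0 := ne_of_ne (C_ne_zero.2 hb)
  have hδb : δ (A (C b)) = 0 := by rw [hδ.poly, derivative_C, map_zero]
  obtain ⟨x, y, hy, hxy, hdd⟩ := hW (RatFunc k) δ (A (C b)) (A eP) (A zP) (A t1) (A t2) hδ.dn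
    h2K h3K hδb hbK w1 (ne_of_ne v2) (ne_of_ne v1) w2 w3 w4 (by
      rw [← map_add, ← map_mul, ← map_mul, ← map_neg, key, map_mul, map_mul, map_pow])
  have har : A eP / (2 * A (C b) ^ 2) = ar (1 / (2 * b ^ 2)) c (2 * (m + 1)) := by
    unfold ar ap
    have hb2 : (2 : k) * b ^ 2 ≠ 0 := mul_ne_zero h2 (pow_ne_zero _ hb)
    rw [div_eq_iff (mul_ne_zero h2K (pow_ne_zero _ hbK))]
    have s1 : (2 : RatFunc k) * A (C b) ^ 2 = A (C (2 * b ^ 2)) := by
      rw [C_mul, map_mul, C_pow, map_pow, map_ofNat, map_ofNat]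
    rw [s1, ← hA, ← map_mul]
    congr 1
    have s2 : C (1 / (2 * b ^ 2)) * (X ^ (6 * (2 * (m + 1))) - C c) * C (2 * b ^ 2) =
        (C (1 / (2 * b ^ 2)) * C (2 * b ^ 2)) * (X ^ (6 * (2 * (m + 1))) - C c) := by ring
    rw [s2, ← C_mul, one_div_mul_cancel hb2, C_1, one_mul, heP]
    congr 2
    ring
  rw [har] at hxy hdd
  have hpp : p.Prime := Fact.out
  have hp2m : ¬ p ∣ 2 * (m + 1) := by
    intro h
    rcases (Nat.Prime.dvd_mul hpp).1 h with h' | h'
    · have := Nat.le_of_dvd (by norm_num) h'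
      omega
    · exact hpm h'
  have hα : (1 : k) / (2 * b ^ 2) ≠ 0 :=
    one_div_ne_zero (mul_ne_zero h2 (pow_ne_zero _ hb))
  refine hP k p l δ hp hδ (2 * (m + 1)) _ c (by omega) hp2m hα hc x y hy hxy _ ?_ ?_
  · rw [hdd, hδ.poly, hδ.poly]
    rw [div_eq_iff (mul_ne_zero (pow_ne_zero _ hbK) (pow_ne_zero _ (ne_of_ne v2)))]
    rw [← hA, ← A.map_mul t1, ← A.map_mul t2, ← A.map_sub, ← A.map_pow (C b) 2,
      ← A.map_pow zP 2, ← A.map_mul, ← A.map_mul]
    congr 1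
    have := wron m b β γ μ hb hμ0
    rw [ht1, ht2, hzP, this]
    have s3 : m + 1 - 1 = m := by omega
    have s4 : 6 * (m + 1) = 6 * m + 6 := by ring
    rw [s3, s4]
    push_cast
    rfl
  · have s3 : m + 1 - 1 = m := by omega
    have s4 : 6 * (m + 1) = 6 * m + 6 := by ring
    rw [s3, s4]
    have d1 : (C (-6 * ((m + 1 : ℕ) : k) * β / (b ^ 2 * μ ^ 2)) * X ^ m *
        (X ^ (6 * m + 6) - C γ)).natDegree ≤ m + (6 * m + 6) := by
      refine natDegree_mul_le.trans (add_le_add ?_ ?_)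
      · refine natDegree_mul_le.trans ?_
        rw [natDegree_C, natDegree_X_pow, zero_add]
      · rw [natDegree_X_pow_sub_C]
    omega

end Pool.Agent.N163.KG.E12
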