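import Pool.Agent.N163.KG.Stm
import Pool.Agent.N163.KN.DER

/-!
# Project KG (helper163): task E2, explicit solution, fraction one half (by helper79)
-/

set_option autoImplicit false

namespace Pool.Agent.N163.KG.E2

open Polynomial Pool.Agent.N163.KN Pool.Agent.N163.KG Pool.Agent.N420.KS
open Pool.Agent.N163.KN.DER (ro ro_inj ro_ne)

theorem two_three {k : Type} [Field k] {p l : ℕ} [Fact p.Prime] [CharP k p] (hp : p = 6 * l + 1) :
    (2 : k) ≠ 0 ∧ (3 : k) ≠ 0 := by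
  have hpp : p.Prime := Fact.out
  have hl : 1 ≤ l := by
    rcases Nat.eq_zero_or_pos l with h | h
    · exfalso
      rw [h] at hp
      rw [hp] at hpp
      exact Nat.not_prime_one hpp
    · exact h
  constructor
  · intro h
    have h1 : ((2 : ℕ) : k) = 0 := by exact_mod_cast h
    have h2 := Nat.le_of_dvd (by norm_num) ((CharP.cast_eq_zero_iff k p 2).1 h1)
    omega
  · intro h
    have h1 : ((3 : ℕ) : k) = 0 := by exact_mod_cast h
    have h2 := Nat.le_of_dvd (by norm_num) ((CharP.cast_eq_zero_iff k p 3).1 h1)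
    omega

theorem t_E2 (hW : S_WRO) (hP : S_PT) : Pool.Agent.N163.KG.S_E2 := by
  intro k _ p l _ _ hp n b c γ μ hn hpn hb hc hγ hμ
  obtain ⟨h2, h3⟩ := two_three (k := k) hp
  obtain ⟨δ, hδ⟩ := (Pool.Agent.N163.KN.DER.t_DER k).1
  have hγ0 : γ ≠ 0 := by
    rintro rfl
    apply hc
    rw [← hγ]
    ring
  have hμ0 : μ ≠ 0 := by
    rintro rfl
    have h : (2 : k) * γ = 0 := by linear_combination hμ
    exact mul_ne_zero h2 hγ0 h
  have h3n : 0 < 3 * n := by omega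
  have h6n : 0 < 6 * n := by omega
  set ι : k[X] →+* RatFunc k := algebraMap k[X] (RatFunc k) with hι
  have hinj : Function.Injective ι := IsFractionRing.injective k[X] (RatFunc k)
  have hne : ∀ {q : k[X]}, q ≠ 0 → ι q ≠ 0 := fun {q} h h1 => h (hinj (h1.trans (map_zero ι).symm))
  have hd : ∀ q : k[X], δ (ι q) = ι (derivative q) := hδ.poly
  have eX : (X : k[X]) ^ (6 * n) = X ^ (3 * n) * X ^ (3 * n) := by
    rw [← pow_add]
    congr 1
    omega
  have hK2 : (2 : RatFunc k) ≠ 0 := by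
    have h := hne (C_ne_zero.2 h2)
    rwa [show (C (2 : k)) = (2 : k[X]) from rfl, map_ofNat] at h
  have hK3 : (3 : RatFunc k) ≠ 0 := by
    have h := hne (C_ne_zero.2 h3)
    rwa [show (C (3 : k)) = (3 : k[X]) from rfl, map_ofNat] at h
  have key := hW (RatFunc k) δ (ι (C b)) (ι (X ^ (6 * n) - C c)) (ι (C μ))
    (ι (X ^ (3 * n) - C γ)) (ι (-(X ^ (3 * n) + C γ))) hδ.dn hK2 hK3
    (by rw [hd, derivative_C, map_zero]) (hne (C_ne_zero.2 hb)) (hne (X_pow_sub_C_ne_zero h6n c))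
    (hne (C_ne_zero.2 hμ0)) (hne (X_pow_sub_C_ne_zero h3n γ))
    (hne (neg_ne_zero.2 (X_pow_add_C_ne_zero h3n γ)))
    (by
      rw [← map_add]
      refine hne ?_
      have e : (X : k[X]) ^ (3 * n) - C γ + -(X ^ (3 * n) + C γ) = C (-(2 * γ)) := by
        rw [C_neg, C_mul, C_ofNat]
        ring
      rw [e]
      exact C_ne_zero.2 (neg_ne_zero.2 (mul_ne_zero h2 hγ0)))
    (by
      have e : ι (X ^ (3 * n) - C γ) + 2 * ι (-(X ^ (3 * n) + C γ)) =
          ι (-(X ^ (3 * n) + C (3 * γ))) := by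
        rw [show (2 : RatFunc k) = ι 2 from (map_ofNat ι 2).symm, ← map_mul, ← map_add]
        congr 1
        rw [C_mul, C_ofNat]
        ring
      rw [e]
      exact hne (neg_ne_zero.2 (X_pow_add_C_ne_zero h3n _)))
    (by
      rw [← map_add, ← map_mul, ← map_mul, ← map_neg, ← map_pow, ← map_mul, ← map_mul]
      congr 1
      have e : (C b : k[X]) * C μ ^ 3 = -2 * C γ := by
        rw [← C_pow, ← C_mul, hμ, C_mul, C_neg, C_ofNat]
      have e2 : (C γ : k[X]) ^ 2 = C c := by rw [← C_pow, hγ]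
      rw [eX]
      linear_combination (-(X ^ (3 * n) * X ^ (3 * n) - C c)) * e + (2 * C γ) * e2)
  obtain ⟨x, y, hy, hxy, hdd⟩ := key
  have hα : ar (1 / (2 * b ^ 2)) c n = ι (X ^ (6 * n) - C c) / (2 * ι (C b) ^ 2) := by
    have hb2 : (2 * ι (C b) ^ 2 : RatFunc k) ≠ 0 := mul_ne_zero hK2 (pow_ne_zero 2 (hne (C_ne_zero.2 hb)))
    rw [eq_div_iff hb2]
    unfold ar ap
    rw [← hι, show (2 : RatFunc k) = ι 2 from (map_ofNat ι 2).symm, ← map_pow, ← map_mul, ← map_mul]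
    congr 1
    have e : (C (1 / (2 * b ^ 2)) : k[X]) * (2 * C b ^ 2) = 1 := by
      rw [← C_pow, show (2 : k[X]) = C 2 from rfl, ← C_mul, ← C_mul, one_div,
        inv_mul_cancel₀ (mul_ne_zero h2 (pow_ne_zero 2 hb)), C_1]
    linear_combination (X ^ (6 * n) - C c) * e
  rw [← hα] at hxy hdd
  refine hP k p l δ hp hδ n (1 / (2 * b ^ 2)) c hn hpn
    (one_div_ne_zero (mul_ne_zero h2 (pow_ne_zero 2 hb))) hc x y hy hxy _ ?_ ?_
  · rw [hdd, hd, hd]
    have hbμ : ι (C b) ^ 2 * ι (C μ) ^ 2 ≠ 0 := mul_ne_zero (pow_ne_zero 2 (hne (C_ne_zero.2 hb)))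
      (pow_ne_zero 2 (hne (C_ne_zero.2 hμ0)))
    rw [div_eq_iff hbμ, ← hι, ← map_mul, ← map_mul, ← map_sub, ← map_pow ι (C b) 2,
      ← map_pow ι (C μ) 2, ← map_mul ι (C b ^ 2), ← map_mul ι _ (C b ^ 2 * C μ ^ 2)]
    congr 1
    have e : (C (6 * n * γ / (b ^ 2 * μ ^ 2)) : k[X]) * (C b ^ 2 * C μ ^ 2) = C (6 * n * γ) := by
      rw [← C_pow, ← C_pow, ← C_mul, ← C_mul,
        div_mul_cancel₀ _ (mul_ne_zero (pow_ne_zero 2 hb) (pow_ne_zero 2 hμ0))]
    have e1 : derivative (X ^ (3 * n) - C γ) = C ((3 * n : ℕ) : k) * X ^ (3 * n - 1) := by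
      rw [derivative_sub, derivative_X_pow, derivative_C, sub_zero]
    have e2 : derivative (-(X ^ (3 * n) + C γ)) = -(C ((3 * n : ℕ) : k) * X ^ (3 * n - 1)) := by
      rw [derivative_neg, derivative_add, derivative_X_pow, derivative_C, add_zero]
    have e3 : (C (6 * n * γ) : k[X]) = 2 * C ((3 * n : ℕ) : k) * C γ := by
      rw [show (2 : k[X]) = C 2 from rfl, ← C_mul, ← C_mul]
      congr 1
      push_cast
      ring
    rw [e1, e2]
    linear_combination (-X ^ (3 * n - 1)) * e - X ^ (3 * n - 1) * e3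
  · have h := natDegree_C_mul_X_pow_le (6 * n * γ / (b ^ 2 * μ ^ 2)) (3 * n - 1)
    omega

end Pool.Agent.N163.KG.E2
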