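import Pool.Agent.N163.KG.Stm
import Pool.Agent.N163.KN.DER

/-!
# Project KG (helper163): task E3, the explicit solution at the fraction `1/3` (by helper596)
-/

set_option autoImplicit false

namespace Pool.Agent.N163.KG.E3

open Polynomial

section

variable {k : Type} [Field k]

/-- the embedding of the polynomials -/
noncomputable abbrev ro (p : k[X]) : RatFunc k := algebraMap k[X] (RatFunc k) p

theorem ro_inj {p q : k[X]} (h : ro p = ro q) : p = q :=
  IsFractionRing.injective k[X] (RatFunc k) h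

theorem ro_ne {p : k[X]} (h : p ≠ 0) : ro p ≠ 0 := fun h1 =>
  h (ro_inj (h1.trans (map_zero (algebraMap k[X] (RatFunc k))).symm))

theorem ro_two : ro (2 : k[X]) = 2 := map_ofNat (algebraMap k[X] (RatFunc k)) 2

theorem ro_two' : algebraMap k[X] (RatFunc k) 2 = 2 := map_ofNat (algebraMap k[X] (RatFunc k)) 2

theorem ro_three : ro (3 : k[X]) = 3 := map_ofNat (algebraMap k[X] (RatFunc k)) 3

theorem der_bin (u v : k) (m : ℕ) :
    derivative (C u * X ^ m + C v : k[X]) = C (u * m) * X ^ (m - 1) := by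
  rw [derivative_add, derivative_C, add_zero, derivative_C_mul_X_pow]

theorem bin_ne {u : k} (hu : u ≠ 0) (v : k) {m : ℕ} (hm : 1 ≤ m) :
    C u * X ^ m + C v ≠ (0 : k[X]) := by
  intro h
  have h1 := congrArg (fun q : k[X] => q.coeff m) h
  simp only [coeff_add, coeff_C_mul, coeff_X_pow, coeff_C, coeff_zero, if_true, mul_one] at h1
  rw [if_neg (by omega), add_zero] at h1
  exact hu h1

theorem two_three (p l : ℕ) [hp : Fact p.Prime] [CharP k p] (h : p = 6 * l + 1) :
    (2 : k) ≠ 0 ∧ (3 : k) ≠ 0 := by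
  have hp1 : 1 < p := hp.out.one_lt
  constructor
  · intro h2
    have h3 : ((2 : ℕ) : k) = 0 := by exact_mod_cast h2
    rw [CharP.cast_eq_zero_iff k p] at h3
    have := Nat.le_of_dvd (by norm_num) h3
    omega
  · intro h2
    have h3 : ((3 : ℕ) : k) = 0 := by exact_mod_cast h2
    rw [CharP.cast_eq_zero_iff k p] at h3
    have := Nat.le_of_dvd (by norm_num) h3
    omega

end

theorem t_E3 (hW : S_WRO) (hP : S_PT) : Pool.Agent.N163.KG.S_E3 := by
  intro k _ p l _ _ hpl n b c β χ w hn hpn hb hc hβ hχ hw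
  obtain ⟨h2, h3⟩ := two_three (k := k) p l hpl
  obtain ⟨⟨δ, hδ⟩, -⟩ := Pool.Agent.N163.KN.DER.t_DER k
  have hβ0 : β ≠ 0 := by
    rintro rfl
    exact hb (by rw [← hβ]; ring)
  have hw0 : w ≠ 0 := by
    rintro rfl
    simp at hw
  have h12 : 1 + 2 * w ≠ 0 := by
    intro h
    apply h3
    linear_combination 4 * hw - (1 + 2 * w) * h
  -- the polynomials
  set P1 : k[X] := C β * X ^ (2 * n) + C (-(β * χ)) with hP1
  set P2 : k[X] := C (β * w) * X ^ (2 * n) + C (-(β * (w ^ 2 * χ))) with hP2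
  set E : k[X] := X ^ (6 * n) - C c with hE
  have h2n : 1 ≤ 2 * n := by omega
  have nP1 : P1 ≠ 0 := bin_ne hβ0 _ h2n
  have nP2 : P2 ≠ 0 := bin_ne (mul_ne_zero hβ0 hw0) _ h2n
  have nE : E ≠ 0 := by
    have := bin_ne (k := k) one_ne_zero (-c) (m := 6 * n) (by omega)
    intro h
    apply this
    rw [map_one, one_mul, C_neg, ← sub_eq_add_neg]
    exact h
  have nS : P1 + P2 ≠ 0 := by
    have h := bin_ne (k := k) (u := β * (1 + w)) (mul_ne_zero hβ0 (by
      intro h
      apply hw0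
      have : w ^ 2 = 0 := by linear_combination hw - h
      exact pow_eq_zero_iff (two_ne_zero) |>.1 this)) (-(β * χ) - β * (w ^ 2 * χ)) h2n
    intro h0
    apply h
    rw [← h0, hP1, hP2]
    simp only [map_mul, map_add, map_neg, map_sub, map_one, map_pow]
    ring
  have nS2 : P1 + 2 * P2 ≠ 0 := by
    have h := bin_ne (k := k) (u := β * (1 + 2 * w)) (mul_ne_zero hβ0 h12)
      (-(β * χ) - 2 * (β * (w ^ 2 * χ))) h2n
    intro h0
    apply h
    rw [← h0, hP1, hP2]
    simp only [map_mul, map_add, map_neg, map_sub, map_one, map_pow, map_ofNat]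
    ring
  have hX3 : (X : k[X]) ^ (6 * n) = (X ^ (2 * n)) ^ 3 := by rw [← pow_mul]; congr 1; omega
  have hprod : -(P1 * P2 * (P1 + P2)) = C b * E := by
    have e1 : (C w : k[X]) ^ 2 + C w + 1 = 0 := by
      have := congrArg (C : k → k[X]) hw
      simpa using this
    rw [hP1, hP2, hE, hX3, ← hχ, ← hβ]
    simp only [map_mul, map_neg, map_pow]
    generalize (X : k[X]) ^ (2 * n) = Y
    generalize (C w : k[X]) = W at e1
    generalize (C β : k[X]) = B
    generalize (C χ : k[X]) = Q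
    linear_combination (B ^ 3 * (-(Y * Q ^ 2 * W * (W + 1)) + 2 * Y ^ 2 * Q * W - Y ^ 3 +
      Q ^ 3 * (W ^ 2 - W + 1))) * e1
  -- the derivatives
  have hd1 : derivative P1 = C (β * (2 * n)) * X ^ (2 * n - 1) := by
    rw [hP1, der_bin]
    push_cast
    rfl
  have hd2 : derivative P2 = C (β * w * (2 * n)) * X ^ (2 * n - 1) := by
    rw [hP2, der_bin]
    push_cast
    rfl
  have hwr : P1 * derivative P2 - P2 * derivative P1 =
      (C (2 * n * β ^ 2 * χ * (w ^ 2 - w) / b ^ 2) * X ^ (2 * n - 1)) * C b ^ 2 := by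
    have e0 : C (2 * n * β ^ 2 * χ * (w ^ 2 - w) / b ^ 2) * (C b : k[X]) ^ 2 =
        C (2 * n * β ^ 2 * χ * (w ^ 2 - w)) := by
      rw [← C_pow, ← C_mul]
      congr 1
      field_simp
    rw [mul_right_comm, e0, hd1, hd2, hP1, hP2]
    simp only [map_mul, map_neg, map_pow, map_sub, map_ofNat, map_natCast]
    ring
  -- application of WRO
  have hK2 : (2 : RatFunc k) ≠ 0 := by
    rw [← ro_two (k := k)]
    refine ro_ne ?_
    rw [← map_ofNat (C : k →+* k[X]) 2, Ne, C_eq_zero]
    exact h2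
  have hK3 : (3 : RatFunc k) ≠ 0 := by
    rw [← ro_three (k := k)]
    refine ro_ne ?_
    rw [← map_ofNat (C : k →+* k[X]) 3, Ne, C_eq_zero]
    exact h3
  have hbK : ro (C b) ≠ 0 := ro_ne (by rwa [Ne, C_eq_zero])
  have hSK : ro P1 + ro P2 ≠ 0 := by
    have := ro_ne nS
    simpa [ro] using this
  have hS2K : ro P1 + 2 * ro P2 ≠ 0 := by
    have := ro_ne nS2
    unfold ro at this ⊢
    rw [map_add, map_mul, ro_two'] at this
    exact this
  have hδb : δ (ro (C b)) = 0 := by
    have := hδ.poly (C b)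
    rw [derivative_C, map_zero] at this
    exact this
  have hprodK : -(ro P1 * ro P2 * (ro P1 + ro P2)) = ro (C b) * ro E * 1 ^ 3 := by
    have := congrArg (ro (k := k)) hprod
    simp only [ro, map_neg, map_mul, map_add] at this
    simp only [ro]
    rw [this]
    ring
  obtain ⟨x, y, hy, hxy, hdd⟩ := hW (RatFunc k) δ (ro (C b)) (ro E) 1 (ro P1) (ro P2) hδ.dn
    hK2 hK3 hδb hbK (ro_ne nE) one_ne_zero (ro_ne nP1) (ro_ne nP2) hSK hS2K hprodK
  have ha : ar (1 / (2 * b ^ 2)) c n = ro E / (2 * ro (C b) ^ 2) := by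
    have e0 : ro (C (1 / (2 * b ^ 2))) * (2 * ro (C b) ^ 2) = 1 := by
      have e00 : (C (1 / (2 * b ^ 2)) * (2 * C b ^ 2) : k[X]) = 1 := by
        rw [← map_ofNat (C : k →+* k[X]) 2, ← C_pow, ← C_mul, ← C_mul, ← C_1]
        congr 1
        field_simp
      have := congrArg (ro (k := k)) e00
      unfold ro at this ⊢
      rw [map_mul, map_mul, map_pow, map_one, ro_two'] at this
      exact this
    rw [eq_div_iff (mul_ne_zero hK2 (pow_ne_zero 2 hbK))]
    unfold ar ap
    rw [map_mul, ← hE]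
    have : algebraMap k[X] (RatFunc k) (C (1 / (2 * b ^ 2))) * (2 * ro (C b) ^ 2) = 1 := e0
    linear_combination (ro E) * this
  rw [← ha] at hxy hdd
  refine hP k p l δ hpl hδ n (1 / (2 * b ^ 2)) c hn hpn ?_ hc x y hy hxy _ ?_ ?_
  · exact one_div_ne_zero (mul_ne_zero h2 (pow_ne_zero 2 hb))
  · rw [hdd]
    have h1 : δ (ro P1) = ro (derivative P1) := hδ.poly P1
    have h2' : δ (ro P2) = ro (derivative P2) := hδ.poly P2
    rw [h1, h2', one_pow, mul_one, div_eq_iff (pow_ne_zero 2 hbK)]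
    have := congrArg (ro (k := k)) hwr
    simp only [ro, map_sub, map_mul, map_pow] at this ⊢
    exact this
  · have : (C (2 * n * β ^ 2 * χ * (w ^ 2 - w) / b ^ 2) * X ^ (2 * n - 1) : k[X]).natDegree
        ≤ 2 * n - 1 := natDegree_C_mul_X_pow_le _ _
    omega

end Pool.Agent.N163.KG.E3

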