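import Pool.Agent.N163.KG.Stm
import Pool.Agent.N163.KN.DER

/-! Part E30: the explicit solution with the fraction `1 / 30`. -/

set_option autoImplicit false

namespace Pool.Agent.N163.KG.E30

open Polynomial Pool.Agent.N163.KN

theorem nz {k : Type} [Field k] (p l : ℕ) [Fact p.Prime] [CharP k p] (hp : p = 6 * l + 1) :
    (2 : k) ≠ 0 ∧ (3 : k) ≠ 0 ∧ (5 : k) ≠ 0 ∧ p ≠ 5 := by
  have hpr : p.Prime := Fact.out
  have h7 : 7 ≤ p := by
    have h2 := hpr.two_le
    omega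
  have key : ∀ n : ℕ, 0 < n → n < 7 → (n : k) ≠ 0 := by
    intro n h0 hn h
    rw [CharP.cast_eq_zero_iff k p] at h
    have := Nat.le_of_dvd h0 h
    omega
  refine ⟨?_, ?_, ?_, by omega⟩
  · exact_mod_cast key 2 (by norm_num) (by norm_num)
  · exact_mod_cast key 3 (by norm_num) (by norm_num)
  · exact_mod_cast key 5 (by norm_num) (by norm_num)

/-- the two polynomials -/
noncomputable def T₁ {k : Type} [Field k] (θ ν : k) (v : k[X]) : k[X] :=
  C (2 * θ) * (v * v * v + C ν * v)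

noncomputable def T₂ {k : Type} [Field k] (s θ ν : k) (v : k[X]) : k[X] :=
  v * v * v * v - C θ * (v * v * v) + C ((2 + s) * ν) * (v * v) - C (θ * ν) * v + C (ν * ν)

theorem dT₁ {k : Type} [Field k] (θ ν : k) (v : k[X]) : derivative (T₁ θ ν v) =
    2 * C θ * (3 * v ^ 2 + C ν) * derivative v := by
  unfold T₁
  simp only [derivative_mul, derivative_add, derivative_C, map_mul, map_ofNat]
  simp only [derivative_ofNat, mul_zero, zero_mul, add_zero, zero_add]
  ring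

theorem dT₂ {k : Type} [Field k] (s θ ν : k) (v : k[X]) : derivative (T₂ s θ ν v) =
    (4 * v ^ 3 - 3 * C θ * v ^ 2 + 2 * (2 + C s) * C ν * v - C θ * C ν) * derivative v := by
  unfold T₂
  simp only [derivative_mul, derivative_add, derivative_sub, derivative_C, zero_mul, mul_zero,
    zero_add, add_zero, map_mul, map_add, map_ofNat]
  rw [show derivative (2 : k[X]) = 0 from derivative_ofNat 2]
  ring

theorem wr {k : Type} [Field k] (s θ ν : k) (v : k[X]) :
    T₁ θ ν v * derivative (T₂ s θ ν v) - T₂ s θ ν v * derivative (T₁ θ ν v) =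
    2 * C θ * derivative v * (v ^ 6 - C ((s - 1) * ν) * v ^ 4 + C ((s - 1) * ν ^ 2) * v ^ 2
      - C (ν ^ 3)) := by
  rw [dT₁, dT₂]
  unfold T₁ T₂
  simp only [map_mul, map_add, map_sub, map_pow, map_ofNat, map_one]
  ring

theorem prod {k : Type} [Field k] (b c s ν θ μ : k) (v z : k[X]) (hs : s ^ 2 = 5)
    (hν : ν ^ 5 = -c) (hθ : θ ^ 2 = (5 + 2 * s) * ν) (hb : b * μ ^ 3 = -2 * θ)
    (hz : z ^ 3 = C (μ ^ 3) * v) :
    -(T₁ θ ν v * T₂ s θ ν v * (T₁ θ ν v + T₂ s θ ν v)) = C b * (v ^ 10 - C c) * z ^ 3 := by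
  have hs' : (C s : k[X]) ^ 2 = 5 := by
    rw [← map_pow, hs, map_ofNat]
  have hν' : (C ν : k[X]) ^ 5 = - C c := by
    rw [← map_pow, hν, map_neg]
  have hθ' : (C θ : k[X]) ^ 2 = (5 + 2 * C s) * C ν := by
    rw [← map_pow, hθ, map_mul, map_add, map_mul, map_ofNat, map_ofNat]
  have hz' : C b * z ^ 3 = -2 * C θ * v := by
    rw [hz, ← mul_assoc, ← map_mul, hb, map_mul, map_neg, map_ofNat]
  unfold T₁ T₂
  simp only [map_mul, map_add, map_ofNat]
  linear_combination (-2 * C θ * v) * hν' +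
    2 * C θ * v * (v ^ 2 + C ν) * (v ^ 2 * (v ^ 2 + C ν) ^ 2) * hθ' -
    2 * C θ * v * (v ^ 2 + C ν) * (C ν ^ 2 * v ^ 4) * hs' - (v ^ 10 - C c) * hz'

theorem t_E30 (hW : S_WRO) (hP : S_PT) : Pool.Agent.N163.KG.S_E30 := by
  intro k _ p l _ _ hp m b c s ν θ μ hm hpm hb hc hs hν hθ hμ
  obtain ⟨h2, h3, h5, hp5⟩ := nz (k := k) p l hp
  obtain ⟨δ, hδ⟩ := (Pool.Agent.N163.KN.DER.t_DER k).1
  have hν0 : ν ≠ 0 := by
    rintro rfl
    apply hc
    rw [zero_pow (by norm_num)] at hν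
    linear_combination hν
  have hθ0 : θ ≠ 0 := by
    rintro rfl
    have h : (5 + 2 * s) * ν = 0 := by rw [← hθ]; ring
    rcases mul_eq_zero.mp h with h | h
    · apply h5
      linear_combination (5 - 2 * s) * h + 4 * hs
    · exact hν0 h
  have hμ0 : μ ≠ 0 := by
    rintro rfl
    rw [zero_pow (by norm_num), mul_zero] at hμ
    have : 2 * θ = 0 := by linear_combination hμ
    rcases mul_eq_zero.mp this with h | h
    · exact h2 h
    · exact hθ0 h
  set φ := algebraMap k[X] (RatFunc k) with hφ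
  have hφi : Function.Injective φ := RatFunc.algebraMap_injective k
  set v : k[X] := X ^ (3 * m) with hv
  set z : k[X] := C μ * X ^ m with hz
  have hz3 : z ^ 3 = C (μ ^ 3) * v := by
    rw [hz, hv, mul_pow, ← map_pow, ← pow_mul, mul_comm m 3]
  have hprod := prod b c s ν θ μ v z hs hν hθ hμ hz3
  have hv0 : v ≠ 0 := pow_ne_zero _ X_ne_zero
  have hz0 : z ≠ 0 := mul_ne_zero (C_ne_zero.mpr hμ0) (pow_ne_zero _ X_ne_zero)
  have hv10 : v ^ 10 = X ^ (6 * (5 * m)) := by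
    rw [hv, ← pow_mul]
    congr 1
    ring
  have he0 : v ^ 10 - C c ≠ 0 := by
    rw [hv10]
    exact X_pow_sub_C_ne_zero (by omega) c
  have hall : T₁ θ ν v * T₂ s θ ν v * (T₁ θ ν v + T₂ s θ ν v) ≠ 0 := by
    rw [← neg_ne_zero, hprod]
    exact mul_ne_zero (mul_ne_zero (C_ne_zero.mpr hb) he0) (pow_ne_zero _ hz0)
  have hT₁ : T₁ θ ν v ≠ 0 := fun h => hall (by rw [h]; ring)
  have hT₂ : T₂ s θ ν v ≠ 0 := fun h => hall (by rw [h]; ring)
  have hT₃ : T₁ θ ν v + T₂ s θ ν v ≠ 0 := fun h => hall (by rw [h]; ring)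
  have hT₄ : T₁ θ ν v + 2 * T₂ s θ ν v ≠ 0 := by
    intro h
    have h0 := congrArg (fun q : k[X] => q.coeff 0) h
    have hv00 : v.coeff 0 = 0 := by
      rw [hv, coeff_X_pow]
      rw [if_neg (by omega)]
    simp only [T₁, T₂, coeff_add, coeff_sub, mul_coeff_zero, coeff_C_zero, hv00, coeff_zero,
      coeff_ofNat_zero, mul_zero, zero_mul, add_zero, sub_zero, zero_add] at h0
    rcases mul_eq_zero.mp h0 with h | h
    · exact h2 h
    · exact mul_ne_zero hν0 hν0 h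
  have hCb : φ (C b) ≠ 0 := by
    rw [Ne, map_eq_zero_iff φ hφi]
    exact C_ne_zero.mpr hb
  obtain ⟨x, y, hy, hxy, hdd⟩ := hW (RatFunc k) δ (φ (C b)) (φ (v ^ 10 - C c)) (φ z)
    (φ (T₁ θ ν v)) (φ (T₂ s θ ν v)) hδ.dn
    (by
      intro h
      apply h2
      have : φ (C 2) = 0 := by rw [map_ofNat C 2, map_ofNat φ 2]; exact h
      rw [map_eq_zero_iff φ hφi] at this
      exact C_eq_zero.mp this)
    (by
      intro h
      apply h3
      have : φ (C 3) = 0 := by rw [map_ofNat C 3, map_ofNat φ 3]; exact h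
      rw [map_eq_zero_iff φ hφi] at this
      exact C_eq_zero.mp this)
    (by rw [hδ.poly, derivative_C, map_zero])
    hCb
    (by rw [Ne, map_eq_zero_iff φ hφi]; exact he0)
    (by rw [Ne, map_eq_zero_iff φ hφi]; exact hz0)
    (by rw [Ne, map_eq_zero_iff φ hφi]; exact hT₁)
    (by rw [Ne, map_eq_zero_iff φ hφi]; exact hT₂)
    (by rw [← map_add, Ne, map_eq_zero_iff φ hφi]; exact hT₃)
    (by
      have : φ (T₁ θ ν v) + 2 * φ (T₂ s θ ν v) = φ (T₁ θ ν v + 2 * T₂ s θ ν v) := by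
        rw [map_add, map_mul, map_ofNat]
      rw [this, Ne, map_eq_zero_iff φ hφi]; exact hT₄)
    (by simpa only [map_neg, map_mul, map_add, map_pow] using congrArg φ hprod)
  set g : k[X] := C (6 * m * θ / (b ^ 2 * μ ^ 2)) * X ^ (m - 1) *
      (X ^ (18 * m) - C ((s - 1) * ν) * X ^ (12 * m) + C ((s - 1) * ν ^ 2) * X ^ (6 * m)
        - C (ν ^ 3)) with hg
  have har : φ (v ^ 10 - C c) / (2 * φ (C b) ^ 2) = ar (1 / (2 * b ^ 2)) c (5 * m) := by
    have h20 : (2 : RatFunc k) ≠ 0 := by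
      intro h
      apply h2
      have : φ (C 2) = 0 := by rw [map_ofNat C 2, map_ofNat φ 2]; exact h
      rw [map_eq_zero_iff φ hφi] at this
      exact C_eq_zero.mp this
    rw [div_eq_iff (mul_ne_zero h20 (pow_ne_zero _ hCb)), ar, ap, ← hv10]
    have h1 : (2 : RatFunc k) * φ (C b) ^ 2 = φ (C (2 * b ^ 2)) := by
      rw [map_mul C, map_pow C, map_mul, map_pow, map_ofNat C 2, map_ofNat φ 2]
    rw [h1, ← hφ, ← map_mul]
    congr 1
    have h2' : (C (1 / (2 * b ^ 2)) : k[X]) * C (2 * b ^ 2) = 1 := by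
      rw [← map_mul, one_div, inv_mul_cancel₀ (mul_ne_zero h2 (pow_ne_zero _ hb)), map_one]
    linear_combination -(v ^ 10 - C c) * h2'
  have hdv : derivative v = C (3 * m : k) * X ^ (3 * m - 1) := by
    rw [hv, derivative_X_pow]
    push_cast
    rfl
  have hgv : C (b ^ 2 * μ ^ 2) * X ^ (2 * m) * g =
      T₁ θ ν v * derivative (T₂ s θ ν v) - T₂ s θ ν v * derivative (T₁ θ ν v) := by
    rw [wr, hdv, hg]
    have e1 : (C (b ^ 2 * μ ^ 2) : k[X]) * C (6 * m * θ / (b ^ 2 * μ ^ 2)) =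
        2 * C θ * C (3 * m : k) := by
      rw [← map_mul, mul_div_cancel₀ _ (mul_ne_zero (pow_ne_zero _ hb) (pow_ne_zero _ hμ0)),
        show (6 * (m : k) * θ) = 2 * θ * (3 * m) by ring, map_mul, map_mul, map_ofNat]
    have e2 : (X : k[X]) ^ (2 * m) * X ^ (m - 1) = X ^ (3 * m - 1) := by
      rw [← pow_add]
      congr 1
      omega
    have e3 : (X : k[X]) ^ (18 * m) = v ^ 6 := by
      rw [hv, ← pow_mul]; congr 1; ring
    have e4 : (X : k[X]) ^ (12 * m) = v ^ 4 := by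
      rw [hv, ← pow_mul]; congr 1; ring
    have e5 : (X : k[X]) ^ (6 * m) = v ^ 2 := by
      rw [hv, ← pow_mul]; congr 1; ring
    rw [e3, e4, e5]
    set A := v ^ 6 - C ((s - 1) * ν) * v ^ 4 + C ((s - 1) * ν ^ 2) * v ^ 2 - C (ν ^ 3) with hA
    calc C (b ^ 2 * μ ^ 2) * X ^ (2 * m) * (C (6 * m * θ / (b ^ 2 * μ ^ 2)) * X ^ (m - 1) * A)
        = (C (b ^ 2 * μ ^ 2) * C (6 * m * θ / (b ^ 2 * μ ^ 2))) * (X ^ (2 * m) * X ^ (m - 1)) * A := by
          ring
      _ = _ := by rw [e1, e2]; ring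
  have hddg : dd δ (ar (1 / (2 * b ^ 2)) c (5 * m)) x y = φ g := by
    rw [← har, hdd, hδ.poly, hδ.poly, ← map_mul, ← map_mul, ← map_sub, ← hgv]
    rw [div_eq_iff (mul_ne_zero (pow_ne_zero _ hCb) (pow_ne_zero _
      (by rw [Ne, map_eq_zero_iff φ hφi]; exact hz0)))]
    have hh : (C (b ^ 2 * μ ^ 2) * X ^ (2 * m) : k[X]) = (C b) ^ 2 * z ^ 2 := by
      rw [hz, mul_pow, ← pow_mul, mul_comm m 2]
      simp only [map_mul, map_pow]
      ring
    rw [hh, map_mul φ, map_mul φ, map_pow φ, map_pow φ]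
    ring
  rw [har] at hxy
  refine hP k p l δ hp hδ (5 * m) (1 / (2 * b ^ 2)) c (by omega) ?_ ?_ hc x y hy hxy g hddg ?_
  · intro h
    have hpr : p.Prime := Fact.out
    rcases (hpr.dvd_mul).mp h with h | h
    · exact hp5 ((Nat.prime_dvd_prime_iff_eq hpr (by norm_num)).mp h)
    · exact hpm h
  · exact one_div_ne_zero (mul_ne_zero h2 (pow_ne_zero _ hb))
  · have hd1 : (X ^ (18 * m) - C ((s - 1) * ν) * X ^ (12 * m) + C ((s - 1) * ν ^ 2) * X ^ (6 * m)
        - C (ν ^ 3) : k[X]).natDegree ≤ 18 * m := by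
      refine (natDegree_sub_le _ _).trans (max_le ?_ (by rw [natDegree_C]; omega))
      refine (natDegree_add_le _ _).trans (max_le ?_
        ((natDegree_C_mul_X_pow_le _ _).trans (by omega)))
      exact (natDegree_sub_le _ _).trans (max_le (natDegree_X_pow_le _)
        ((natDegree_C_mul_X_pow_le _ _).trans (by omega)))
    have hd2 : (C (6 * m * θ / (b ^ 2 * μ ^ 2)) * X ^ (m - 1) : k[X]).natDegree ≤ m - 1 :=
      natDegree_C_mul_X_pow_le _ _
    have hd3 : g.natDegree ≤ (m - 1) + 18 * m := by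
      rw [hg]
      exact natDegree_mul_le.trans (Nat.add_le_add hd2 hd1)
    omega

end Pool.Agent.N163.KG.E30
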