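import Pool.Agent.N163.KG.Stm
import Pool.Agent.N163.KN.DER

/-!
# `MP_3da457_ag`: the explicit solution at the fraction `1 / 6`
-/

set_option autoImplicit false

namespace Pool.Agent.N163.KG.E6

open Polynomial Pool.Agent.N163.KN Pool.Agent.N163.KG

theorem t_E6 (hW : S_WRO) (hP : S_PT) : Pool.Agent.N163.KG.S_E6 := by
  intro k _ p l _ _ hp n b c γ μ hn hpn hb hc hγ hμ
  have hprime : p.Prime := Fact.out
  have hl : 1 ≤ l := by
    rcases Nat.eq_zero_or_pos l with h | h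
    · subst h
      rw [hp] at hprime
      exact absurd hprime (by norm_num)
    · exact h
  have h2 : (2 : k) ≠ 0 := by
    intro h
    have h' : ((2 : ℕ) : k) = 0 := by exact_mod_cast h
    rw [CharP.cast_eq_zero_iff k p 2] at h'
    have := Nat.le_of_dvd (by norm_num) h'
    omega
  have h3 : (3 : k) ≠ 0 := by
    intro h
    have h' : ((3 : ℕ) : k) = 0 := by exact_mod_cast h
    rw [CharP.cast_eq_zero_iff k p 3] at h'
    have := Nat.le_of_dvd (by norm_num) h'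
    omega
  have hμ0 : μ ≠ 0 := by
    rintro rfl
    apply h2
    have : b * 0 ^ 3 = (0 : k) := by ring
    rw [this] at hμ
    linear_combination hμ
  obtain ⟨⟨δ, hδ⟩, -⟩ := Pool.Agent.N163.KN.DER.t_DER k
  set A := algebraMap k[X] (RatFunc k) with hA
  have hinj : Function.Injective A := RatFunc.algebraMap_injective k
  have hA0 : ∀ f : k[X], f ≠ 0 → A f ≠ 0 := fun f hf h => hf (hinj (by rw [h, map_zero]))
  have hK2 : (2 : RatFunc k) ≠ 0 := by
    have : (2 : RatFunc k) = A (C 2) := by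
      rw [show (C 2 : k[X]) = 2 from map_ofNat C 2, map_ofNat]
    rw [this]
    exact hA0 _ (C_ne_zero.2 h2)
  have hK3 : (3 : RatFunc k) ≠ 0 := by
    have : (3 : RatFunc k) = A (C 3) := by
      rw [show (C 3 : k[X]) = 3 from map_ofNat C 3, map_ofNat]
    rw [this]
    exact hA0 _ (C_ne_zero.2 h3)
  have hBM : (C b : k[X]) * C μ ^ 3 = -2 := by
    rw [← C_pow, ← C_mul, hμ, C_neg, show (C 2 : k[X]) = 2 from map_ofNat C 2]
  have hGC : (C γ : k[X]) ^ 2 = C c := by rw [← C_pow, hγ]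
  have hX3 : (X : k[X]) ^ (3 * n) = (X ^ n) ^ 3 := by rw [← pow_mul, mul_comm]
  have hX6 : (X : k[X]) ^ (6 * n) = (X ^ n) ^ 6 := by rw [← pow_mul, mul_comm]
  obtain ⟨x, y, hy, hxy, hdd⟩ := hW (RatFunc k) δ (A (C b)) (A (X ^ (6 * n) - C c))
    (A (C μ * X ^ n)) (A (X ^ (3 * n) - C γ)) (A (X ^ (3 * n) + C γ)) hδ.dn hK2 hK3
    (by rw [hδ.poly, derivative_C, map_zero])
    (hA0 _ (C_ne_zero.2 hb))
    (hA0 _ (X_pow_sub_C_ne_zero (by omega) c))
    (hA0 _ (mul_ne_zero (C_ne_zero.2 hμ0) (pow_ne_zero _ X_ne_zero)))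
    (hA0 _ (X_pow_sub_C_ne_zero (by omega) γ))
    (hA0 _ (X_pow_add_C_ne_zero (by omega) γ))
    (by
      rw [← map_add]
      apply hA0
      have : (X ^ (3 * n) - C γ + (X ^ (3 * n) + C γ) : k[X]) = C 2 * X ^ (3 * n) := by
        rw [show (C 2 : k[X]) = 2 from map_ofNat C 2]; ring
      rw [this]
      exact mul_ne_zero (C_ne_zero.2 h2) (pow_ne_zero _ X_ne_zero))
    (by
      have : A (X ^ (3 * n) - C γ) + 2 * A (X ^ (3 * n) + C γ) =
          A (C 3 * X ^ (3 * n) + C γ) := by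
        rw [show (C 3 : k[X]) = 3 from map_ofNat C 3]
        simp only [map_sub, map_add, map_mul, map_ofNat]
        ring
      rw [this]
      apply hA0
      intro h
      have h' := congrArg (fun q : k[X] => q.coeff (3 * n)) h
      simp only [coeff_add, coeff_C_mul, coeff_X_pow, coeff_zero, if_true, coeff_C] at h'
      rw [if_neg (by omega)] at h'
      apply h3
      linear_combination h')
    (by
      rw [← map_add, ← map_mul, ← map_mul, ← map_neg, ← map_pow, ← map_mul, ← map_mul]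
      congr 1
      rw [hX3, hX6, ← hGC]
      linear_combination (-((X : k[X]) ^ n) ^ 3 * (((X : k[X]) ^ n) ^ 6 - C γ ^ 2)) * hBM)
  have hbb : (2 * b ^ 2 : k) ≠ 0 := mul_ne_zero h2 (pow_ne_zero _ hb)
  have hbm : (b ^ 2 * μ ^ 2 : k) ≠ 0 := mul_ne_zero (pow_ne_zero _ hb) (pow_ne_zero _ hμ0)
  have hα : (1 / (2 * b ^ 2) : k) ≠ 0 := one_div_ne_zero hbb
  have hae : A (X ^ (6 * n) - C c) / (2 * A (C b) ^ 2) = ar (1 / (2 * b ^ 2)) c n := by
    have hb2 : (2 * A (C b) ^ 2 : RatFunc k) = A (C (2 * b ^ 2)) := by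
      simp only [map_mul, map_pow, map_ofNat]
    rw [hb2, div_eq_iff (hA0 _ (C_ne_zero.2 hbb)), ar, ap, ← hA, ← map_mul]
    congr 1
    have h5 : (C (1 / (2 * b ^ 2)) : k[X]) * C (2 * b ^ 2) = 1 := by
      rw [← C_mul, one_div, inv_mul_cancel₀ hbb, C_1]
    linear_combination (-(X ^ (6 * n) - C c)) * h5
  rw [hae] at hxy hdd
  refine hP k p l δ hp hδ n (1 / (2 * b ^ 2)) c hn hpn hα hc x y hy hxy _ ?_ ?_
  · rw [hdd, ← hA, div_eq_iff (mul_ne_zero (pow_ne_zero _ (hA0 _ (C_ne_zero.2 hb)))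
      (pow_ne_zero _ (hA0 _ (mul_ne_zero (C_ne_zero.2 hμ0) (pow_ne_zero _ X_ne_zero)))))]
    rw [hδ.poly, hδ.poly, ← hA]
    simp only [← map_mul, ← map_pow, ← map_sub]
    congr 1
    have hd1 : derivative (X ^ (3 * n) - C γ : k[X]) = C ((3 * n : ℕ) : k) * X ^ (3 * n - 1) := by
      simp [derivative_X_pow]
    have hd2 : derivative (X ^ (3 * n) + C γ : k[X]) = C ((3 * n : ℕ) : k) * X ^ (3 * n - 1) := by
      simp [derivative_X_pow]
    rw [hd1, hd2]
    have hX : (X : k[X]) ^ (3 * n - 1) = X ^ (n - 1) * (X ^ n) ^ 2 := by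
      rw [← pow_mul, ← pow_add]
      congr 1
      omega
    have hc1 : (C (-6 * n * γ / (b ^ 2 * μ ^ 2)) : k[X]) * (C b ^ 2 * C μ ^ 2) =
        -2 * C γ * C ((3 * n : ℕ) : k) := by
      rw [← C_pow, ← C_pow, ← C_mul, ← C_mul, div_mul_cancel₀ _ hbm,
        show (-2 : k[X]) = C (-2) by rw [C_neg, show (C 2 : k[X]) = 2 from map_ofNat C 2],
        ← C_mul, ← C_mul]
      congr 1
      push_cast
      ring
    rw [hX]
    simp only [C_pow]
    linear_combination (-(X : k[X]) ^ (n - 1) * (X ^ n) ^ 2) * hc1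
  · have h7 := natDegree_C_mul_X_pow_le (-6 * n * γ / (b ^ 2 * μ ^ 2)) (n - 1)
    omega

end Pool.Agent.N163.KG.E6
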