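import Pool.Agent.N163.KG.Stm

/-!
# `MP_3da457_ag`: complete answer, the last statements
-/

set_option autoImplicit false

namespace Pool.Agent.N163.KG

open Polynomial Pool.Agent.N163.KN Pool.Agent.N420.KS

/-- **ORD**: ordinary curves exist only in characteristic `p = 1` modulo `6`. -/
def S_ORD : Prop := ∀ (F : Type) [Field F] [Finite F] (b c : F), Admissible F b c →
  ∃ p l : ℕ, p.Prime ∧ CharP F p ∧ p = 6 * l + 1

open Classical in
/-- **INF**: one point with `x ≠ 0` gives positive rank and infinitely many points. -/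
def S_INF : Prop := ∀ (F : Type) [Field F] [Finite F] (p l : ℕ) [Fact p.Prime] [CharP F p],
  p = 6 * l + 1 → ∀ b c : F, Admissible F b c → ∀ n : ℕ, 1 ≤ n → ¬ p ∣ n →
  (∃ x y : RatFunc F, x ≠ 0 ∧ y ^ 2 = x ^ 3 + ar (1 / (2 * b ^ 2)) c n ^ 2) →
  0 < Module.rank ℤ (weierstrass F b c n).Point ∧ (affinePoints F b c n).Infinite

/-- **CONV**: if all points have `x = 0` the group has three elements and there are no affine
points on the cubic. -/
def S_CONV : Prop := ∀ (F : Type) [Field F] [Finite F] (p l : ℕ) [Fact p.Prime] [CharP F p],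
  p = 6 * l + 1 → ∀ b c : F, Admissible F b c → ∀ n : ℕ, 1 ≤ n →
  (∀ x y : RatFunc F, y ^ 2 = x ^ 3 + ar (1 / (2 * b ^ 2)) c n ^ 2 → x = 0) →
  Nat.card (weierstrass F b c n).Point = 3 ∧ affinePoints F b c n = ∅

/-- **EX**: examples of admissible triples. -/
def S_EX : Prop :=
  haveI : Fact (Nat.Prime 7) := ⟨by norm_num⟩
  (Admissible (ZMod 7) 2 6 ∧ ¬ (Nat.card (ZMod 7) % 5 ≠ 1 ∧ ∃ β : ZMod 7, (2 : ZMod 7) = 10 * β ^ 3)) ∧
  (Admissible (ZMod 7) 3 6 ∧ (Nat.card (ZMod 7) % 5 ≠ 1 ∧ ∃ β : ZMod 7, (3 : ZMod 7) = 10 * β ^ 3))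

end Pool.Agent.N163.KG
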