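import Mathlib
import Pool.Agent.N163.KG.Stm2

/-!
# `MP_3da457_ag`: examples of admissible triples (helper424)
-/

set_option autoImplicit false

namespace Pool.Agent.N163.KG.EX

open Pool.Agent.N420.KS

instance fact7 : Fact (Nat.Prime 7) := ⟨by norm_num⟩

theorem card_two : Nat.card {P : ZMod 7 × ZMod 7 // P.2 ^ 2 = P.1 ^ 3 - 2} = 6 := by
  rw [Nat.card_eq_fintype_card]
  decide +kernel

theorem card_three : Nat.card {P : ZMod 7 × ZMod 7 // P.2 ^ 2 = P.1 ^ 3 - 3} = 2 := by
  rw [Nat.card_eq_fintype_card]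
  decide +kernel

theorem t_EX : Pool.Agent.N163.KG.S_EX := by
  unfold Pool.Agent.N163.KG.S_EX
  refine ⟨⟨?_, ?_⟩, ?_, ?_⟩
  · refine ⟨?_, ?_, ?_, ?_, ?_, ?_, ?_⟩
    · rw [ZMod.ringChar_zmod_n]; norm_num
    · decide +kernel
    · decide +kernel
    · rw [ZMod.ringChar_zmod_n, card_two, Nat.card_zmod]
      decide
    · decide +kernel
    · decide +kernel
    · decide +kernel
  · rintro ⟨-, h⟩
    revert h
    decide +kernel
  · refine ⟨?_, ?_, ?_, ?_, ?_, ?_, ?_⟩
    · rw [ZMod.ringChar_zmod_n]; norm_num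
    · decide +kernel
    · decide +kernel
    · rw [ZMod.ringChar_zmod_n, card_three, Nat.card_zmod]
      decide
    · decide +kernel
    · decide +kernel
    · decide +kernel
  · rw [Nat.card_zmod]
    refine ⟨by norm_num, 1, ?_⟩
    decide +kernel

end Pool.Agent.N163.KG.EX
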