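import Pool.Agent.N163.KG.Stm

/-!
# Project KG (helper163), part F12: the fractions `1 / 12`, `7 / 12` are impossible (helper247)
-/

set_option autoImplicit false

namespace Pool.Agent.N163.KG.F12

open Polynomial Pool.Agent.N163.KN Pool.Agent.N420.KS Pool.Agent.N163.KG

/-- the fixed elements of the `q`-power map -/
lemma fixed {k K : Type} [Field k] [Finite k] [Field K] [Algebra k K] (x : K)
    (h : x ^ Nat.card k = x) : ∃ y : k, algebraMap k K y = x := by
  classical
  have := Fintype.ofFinite k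
  rw [Nat.card_eq_fintype_card] at h
  by_contra hc
  push Not at hc
  have hq : 1 < Fintype.card k := Fintype.one_lt_card
  have hP0 : (X ^ Fintype.card k - X : K[X]) ≠ 0 := FiniteField.X_pow_card_sub_X_ne_zero K hq
  have hdeg := FiniteField.X_pow_card_sub_X_natDegree_eq K hq
  have hsub : (insert x ((Finset.univ : Finset k).image (algebraMap k K))) ⊆
      (X ^ Fintype.card k - X : K[X]).roots.toFinset := by
    intro z hz
    rw [Multiset.mem_toFinset, mem_roots hP0, IsRoot.def, eval_sub, eval_pow, eval_X, sub_eq_zero]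
    rcases Finset.mem_insert.1 hz with rfl | hz
    · exact h
    · obtain ⟨y, -, rfl⟩ := Finset.mem_image.1 hz
      rw [← map_pow, FiniteField.pow_card]
  have hcard : (insert x ((Finset.univ : Finset k).image (algebraMap k K))).card =
      Fintype.card k + 1 := by
    rw [Finset.card_insert_of_notMem, Finset.card_image_of_injective _ (algebraMap k K).injective,
      Finset.card_univ]
    intro hz
    obtain ⟨y, -, hy⟩ := Finset.mem_image.1 hz
    exact hc y hy
  have h1 := Finset.card_le_card hsub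
  have h2 := Multiset.toFinset_card_le (X ^ Fintype.card k - X : K[X]).roots
  have h3 := card_roots' (X ^ Fintype.card k - X : K[X])
  omega

/-- small numbers are nonzero -/
lemma cast_ne (K : Type) [Field K] (p : ℕ) [CharP K p] (m : ℕ) (h : ¬ p ∣ m) : (m : K) ≠ 0 :=
  fun h' => h ((CharP.cast_eq_zero_iff K p m).1 h')

lemma not_dvd (p l : ℕ) (hpr : p.Prime) (hp : p = 6 * l + 1) : ¬ p ∣ 2 ∧ ¬ p ∣ 3 := by
  have h7 : 7 ≤ p := by
    have := hpr.two_le
    omega
  exact ⟨fun h => by have := Nat.le_of_dvd (by norm_num) h; omega,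
    fun h => by have := Nat.le_of_dvd (by norm_num) h; omega⟩

lemma two_ne (K : Type) [Field K] (p l : ℕ) [Fact p.Prime] [CharP K p] (hp : p = 6 * l + 1) :
    (2 : K) ≠ 0 ∧ (3 : K) ≠ 0 := by
  have h := not_dvd p l Fact.out hp
  have h2 := cast_ne K p 2 h.1
  have h3 := cast_ne K p 3 h.2
  exact ⟨by exact_mod_cast h2, by exact_mod_cast h3⟩

lemma key {k K : Type} [Field k] [Finite k] [Field K] [Algebra k K] (hE : S_E12) (hC : S_CMP)
    (p l : ℕ) [Fact p.Prime] [CharP k p] [CharP K p] (hp : p = 6 * l + 1) (b c : k) (hb : b ≠ 0)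
    (hc : c ≠ 0) (m : ℕ) (g : k[X]) (hm : 1 ≤ m) (hpm : ¬ p ∣ 2 * m)
    (hR : Rel p l (2 * m) (1 / (2 * b ^ 2)) c g) (β γ μ : K) (hγ : γ ^ 2 = -algebraMap k K c)
    (hβ : β ^ 2 = 2 * γ) (hμ : algebraMap k K b * μ ^ 3 = 2 * β) :
    ∃ κ : K, κ ≠ 0 ∧ κ ^ 3 * (algebraMap k K b) ^ 4 = 54 * (m : K) ^ 3 * β ∧
      (Nat.card k % 12 = 1 →
        algebraMap k K (g.coeff (m - 1)) * (κ * γ) ^ Nat.card k =
          algebraMap k K (g.coeff (m - 1)) * (κ * γ) ∧
        algebraMap k K (g.coeff (7 * m - 1)) * (-κ) ^ Nat.card k =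
          algebraMap k K (g.coeff (7 * m - 1)) * (-κ)) ∧
      (Nat.card k % 12 = 7 →
        algebraMap k K (g.coeff (7 * m - 1)) * (κ * γ) ^ Nat.card k =
          algebraMap k K (g.coeff (m - 1)) * (-κ) ∧
        algebraMap k K (g.coeff (m - 1)) * (-κ) ^ Nat.card k =
          algebraMap k K (g.coeff (7 * m - 1)) * (κ * γ)) := by
  obtain ⟨h2, h3⟩ := two_ne K p l hp
  obtain ⟨h2', -⟩ := two_ne k p l hp
  have hpm' : ¬ p ∣ m := fun h => hpm (h.mul_left 2)
  have hmK : (m : K) ≠ 0 := cast_ne K p m hpm'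
  have hB : algebraMap k K b ≠ 0 := by
    rwa [Ne, map_eq_zero]
  have hc' : algebraMap k K c ≠ 0 := by
    rwa [Ne, map_eq_zero]
  have hα : algebraMap k K (1 / (2 * b ^ 2)) = 1 / (2 * (algebraMap k K b) ^ 2) := by
    rw [map_div₀, map_one, map_mul, map_pow, map_ofNat]
  have hα0 : (1 / (2 * b ^ 2) : k) ≠ 0 := one_div_ne_zero (mul_ne_zero h2' (pow_ne_zero 2 hb))
  have hγ0 : γ ≠ 0 := by
    rintro rfl
    rw [zero_pow two_ne_zero] at hγ
    exact hc' (neg_eq_zero.1 hγ.symm)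
  have hβ0 : β ≠ 0 := by
    rintro rfl
    rw [zero_pow two_ne_zero] at hβ
    exact mul_ne_zero h2 hγ0 hβ.symm
  have hμ0 : μ ≠ 0 := by
    rintro rfl
    rw [zero_pow three_ne_zero, mul_zero] at hμ
    exact mul_ne_zero h2 hβ0 hμ.symm
  have hE' := hE K p l hp m (algebraMap k K b) (algebraMap k K c) β γ μ hm hpm' hB hc' hγ hβ hμ
  have h6 : (6 : K) ≠ 0 := by
    have := mul_ne_zero h2 h3
    norm_num at this ⊢
    exact this
  obtain ⟨κ, hκ⟩ : ∃ κ : K, κ = 6 * m * β / ((algebraMap k K b) ^ 2 * μ ^ 2) := ⟨_, rfl⟩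
  have hden : (algebraMap k K b) ^ 2 * μ ^ 2 ≠ 0 := mul_ne_zero (pow_ne_zero 2 hB) (pow_ne_zero 2 hμ0)
  have hκ0 : κ ≠ 0 := by
    rw [hκ]
    exact div_ne_zero (mul_ne_zero (mul_ne_zero h6 hmK) hβ0) hden
  have hκ1 : κ * ((algebraMap k K b) ^ 2 * μ ^ 2) = 6 * m * β := by
    rw [hκ, div_mul_cancel₀ _ hden]
  have hneg : -6 * (m : K) * β / ((algebraMap k K b) ^ 2 * μ ^ 2) = -κ := by
    rw [hκ]
    ring
  rw [hneg] at hE'
  have hg0 : C (-κ) * X ^ (m - 1) * (X ^ (6 * m) - C γ) =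
      C (-κ) * X ^ (7 * m - 1) + C (κ * γ) * X ^ (m - 1) := by
    have e1 : (X : K[X]) ^ (7 * m - 1) = X ^ (m - 1) * X ^ (6 * m) := by
      rw [← pow_add]
      congr 1
      omega
    rw [e1, C_mul, C_neg]
    ring
  rw [hg0] at hE'
  have hc1 : (C (-κ) * X ^ (7 * m - 1) + C (κ * γ) * X ^ (m - 1) : K[X]).coeff (m - 1) = κ * γ := by
    rw [coeff_add, coeff_C_mul_X_pow, coeff_C_mul_X_pow, if_neg (by omega), if_pos rfl, zero_add]
  have hc7 : (C (-κ) * X ^ (7 * m - 1) + C (κ * γ) * X ^ (m - 1) : K[X]).coeff (7 * m - 1) = -κ := by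
    rw [coeff_add, coeff_C_mul_X_pow, coeff_C_mul_X_pow, if_pos rfl, if_neg (by omega), add_zero]
  have hmod : ∀ a : ℕ, (a * m) % (6 * (2 * m)) = (a % 12) * m := by
    intro a
    rw [show 6 * (2 * m) = 12 * m by ring, Nat.mul_mod_mul_right]
  have hmod7 : ∀ a : ℕ, (a * (7 * m)) % (6 * (2 * m)) = ((a * 7) % 12) * m := by
    intro a
    rw [← mul_assoc, hmod]
  have hCMP := hC k K p l hp (2 * m) (1 / (2 * b ^ 2)) c (by omega) hpm hα0 hc g _ hR
    (by rw [hα]; exact hE') {m, 7 * m} (by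
      intro u hu
      rw [Finset.mem_insert, Finset.mem_singleton] at hu
      have hp12 : p % 12 = 1 ∨ p % 12 = 7 := by omega
      rcases hu with rfl | rfl
      · refine ⟨hm, by omega, ?_, ?_⟩
        · rw [hmod, Finset.mem_insert, Finset.mem_singleton]
          rcases hp12 with h | h
          · left; rw [h, one_mul]
          · right; rw [h]
        · rw [hc1]
          exact mul_ne_zero hκ0 hγ0
      · refine ⟨by omega, by omega, ?_, ?_⟩
        · rw [hmod7, Finset.mem_insert, Finset.mem_singleton]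
          rcases hp12 with h | h
          · right
            rw [show (p * 7) % 12 = 7 by omega]
          · left
            rw [show (p * 7) % 12 = 1 by omega, one_mul]
        · rw [hc7]
          exact neg_ne_zero.2 hκ0)
  have c1 := (hCMP m (by simp)).2
  have c7 := (hCMP (7 * m) (by simp)).2
  rw [hmod, hc1] at c1
  rw [hmod7, hc7] at c7
  refine ⟨κ, hκ0, ?_, fun hq => ?_, fun hq => ?_⟩
  · have h4 : (algebraMap k K b) ^ 2 * μ ^ 6 = 4 * β ^ 2 := by
      linear_combination (algebraMap k K b * μ ^ 3 + 2 * β) * hμ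
    have h40 : 4 * β ^ 2 ≠ 0 := by
      refine mul_ne_zero ?_ (pow_ne_zero 2 hβ0)
      have := mul_ne_zero h2 h2
      norm_num at this ⊢
      exact this
    refine mul_left_cancel₀ h40 ?_
    rw [← h4]
    have h5 : (κ * ((algebraMap k K b) ^ 2 * μ ^ 2)) ^ 3 = (6 * m * β) ^ 3 := by rw [hκ1]
    linear_combination h5 - 54 * (m : K) ^ 3 * β * h4
  · rw [hq, one_mul, hc1] at c1
    rw [show (Nat.card k * 7) % 12 = 7 by omega, hc7] at c7
    exact ⟨c1, c7⟩
  · rw [hq, hc7] at c1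
    rw [show (Nat.card k * 7) % 12 = 1 by omega, one_mul, hc1] at c7
    exact ⟨c1, c7⟩

theorem t_F12 (hE : S_E12) (hC : S_CMP) : Pool.Agent.N163.KG.S_F12 := by
  classical
  intro k _ _ p l _ _ hp b c hA n g hn hpn hR u hu1 hu4 hu hg
  have hF := Fintype.ofFinite k
  obtain ⟨m, rfl⟩ : ∃ m, n = 2 * m := ⟨n / 2, by omega⟩
  have hm : 1 ≤ m := by omega
  have hu' : u = m ∨ u = 7 * m := by omega
  have hpm : ¬ p ∣ m := fun h => hpn (h.mul_left 2)
  have hb := hA.b_ne
  have hc := hA.c_ne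
  have : CharP (AlgebraicClosure k) p :=
    charP_of_injective_algebraMap (algebraMap k (AlgebraicClosure k)).injective p
  set K := AlgebraicClosure k with hK
  obtain ⟨h2, h3⟩ := two_ne k p l hp
  obtain ⟨h2K, h3K⟩ := two_ne K p l hp
  have hmk : (m : k) ≠ 0 := cast_ne k p m hpm
  have hmK : (m : K) ≠ 0 := cast_ne K p m hpm
  have h54 : (54 : k) ≠ 0 := by
    have := mul_ne_zero h2 (pow_ne_zero 3 h3)
    norm_num at this ⊢
    exact this
  have h18 : (18 : k) ≠ 0 := by
    have := mul_ne_zero h2 (pow_ne_zero 2 h3)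
    norm_num at this ⊢
    exact this
  have hB : algebraMap k K b ≠ 0 := by
    rwa [Ne, map_eq_zero]
  have hinj := (algebraMap k K).injective
  -- the order of `k`
  have hq6 : Nat.card k % 6 = 1 := by
    obtain ⟨f, -, hf⟩ := FiniteField.card k p
    rw [Nat.card_eq_fintype_card, hf, Nat.pow_mod, show p % 6 = 1 by omega]
    simp
  have hq12 : Nat.card k % 12 = 1 ∨ Nat.card k % 12 = 7 := by omega
  -- the choice of `β` and `μ`
  have hch : ∀ γ : K, ∃ β μ : K, β ^ 2 = 2 * γ ∧ algebraMap k K b * μ ^ 3 = 2 * β := by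
    intro γ
    obtain ⟨β, hβ⟩ := IsAlgClosed.exists_pow_nat_eq (2 * γ) (n := 2) (by norm_num)
    obtain ⟨μ, hμ⟩ := IsAlgClosed.exists_pow_nat_eq (2 * β / algebraMap k K b) (n := 3) (by norm_num)
    exact ⟨β, μ, hβ, by rw [hμ, mul_div_cancel₀ _ hB]⟩
  have hA0 : algebraMap k K (g.coeff (u - 1)) ≠ 0 := by
    rwa [Ne, map_eq_zero]
  rcases hq12 with hq | hq
  · -- `q ≡ 1` modulo `12`
    obtain ⟨γ, hγ⟩ := IsAlgClosed.exists_pow_nat_eq (-algebraMap k K c) (n := 2) (by norm_num)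
    obtain ⟨β, μ, hβ, hμ⟩ := hch γ
    obtain ⟨κ, hκ0, hκ3, h1, -⟩ := key hE hC p l hp b c hb hc m g hm hpn hR β γ μ hγ hβ hμ
    obtain ⟨e1, e7⟩ := h1 hq
    have hfin : ∀ y : k, algebraMap k K y = γ → False := by
      intro y hy
      have h4 : y ^ 2 = -c := by
        apply hinj
        rw [map_pow, hy, hγ, map_neg]
      have h5 : IsSquare (-1 : k) := by
        rw [FiniteField.isSquare_neg_one_iff, ← Nat.card_eq_fintype_card]
        omega
      obtain ⟨i, hi⟩ := h5
      exact hA.c_nonsq ⟨i * y, by linear_combination h4 + y ^ 2 * hi⟩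
    rcases hu' with rfl | rfl
    · obtain ⟨y, hy⟩ := fixed (k := k) (κ * γ) (mul_left_cancel₀ hA0 e1)
      -- `β γ` is in `k`
      have h6 : algebraMap k K (y ^ 3 * b ^ 4 / (54 * (u : k) ^ 3 * (-c))) = β * γ := by
        rw [map_div₀, map_mul, map_pow, map_pow, hy, map_mul, map_mul, map_pow, map_neg, map_natCast,
          map_ofNat, ← hγ]
        have h54K : (54 : K) ≠ 0 := by
          have := mul_ne_zero h2K (pow_ne_zero 3 h3K)
          norm_num at this ⊢
          exact this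
        have hγ0 : γ ≠ 0 := by
          rintro rfl
          rw [zero_pow two_ne_zero] at hγ
          exact hc (hinj (by rw [map_zero]; exact neg_eq_zero.1 hγ.symm))
        rw [div_eq_iff (mul_ne_zero (mul_ne_zero h54K (pow_ne_zero 3 hmK)) (pow_ne_zero 2 hγ0))]
        linear_combination γ ^ 3 * hκ3
      refine hfin ((y ^ 3 * b ^ 4 / (54 * (u : k) ^ 3 * (-c))) ^ 2 / (2 * (-c))) ?_
      rw [map_div₀, map_pow, h6, map_mul, map_ofNat, map_neg, ← hγ]
      have hγ0 : γ ≠ 0 := by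
        rintro rfl
        rw [zero_pow two_ne_zero] at hγ
        exact hc (hinj (by rw [map_zero]; exact neg_eq_zero.1 hγ.symm))
      rw [div_eq_iff (mul_ne_zero h2K (pow_ne_zero 2 hγ0))]
      linear_combination γ ^ 2 * hβ
    · obtain ⟨y, hy⟩ := fixed (k := k) (-κ) (mul_left_cancel₀ hA0 e7)
      have h54K : (54 : K) ≠ 0 := by
        have := mul_ne_zero h2K (pow_ne_zero 3 h3K)
        norm_num at this ⊢
        exact this
      have h6 : algebraMap k K (-y ^ 3 * b ^ 4 / (54 * (m : k) ^ 3)) = β := by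
        rw [map_div₀, map_mul, map_neg, map_pow, map_pow, hy, map_mul, map_pow, map_natCast,
          map_ofNat]
        rw [div_eq_iff (mul_ne_zero h54K (pow_ne_zero 3 hmK))]
        linear_combination hκ3
      refine hfin ((-y ^ 3 * b ^ 4 / (54 * (m : k) ^ 3)) ^ 2 / 2) ?_
      rw [map_div₀, map_pow, h6, map_ofNat, hβ, mul_div_cancel_left₀ _ h2K]
  · -- `q ≡ 7` modulo `12`
    have hsq : IsSquare (-c) := by
      have h4 : ¬ IsSquare (-1 : k) := by
        rw [FiniteField.isSquare_neg_one_iff, ← Nat.card_eq_fintype_card]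
        omega
      have h5 := quadraticChar_neg_one_iff_not_isSquare.2 h4
      have h6 := quadraticChar_neg_one_iff_not_isSquare.2 hA.c_nonsq
      have h7 : quadraticChar k (-1 * c) = 1 := by
        rw [map_mul, h5, h6]
        norm_num
      rw [neg_one_mul] at h7
      exact (quadraticChar_one_iff_isSquare (neg_ne_zero.2 hc)).1 h7
    obtain ⟨γ₀, hγ₀⟩ := hsq
    have hγ00 : γ₀ ≠ 0 := by
      rintro rfl
      rw [mul_zero] at hγ₀
      exact hc (neg_eq_zero.1 hγ₀)
    have hγ : (algebraMap k K γ₀) ^ 2 = -algebraMap k K c := by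
      rw [← map_neg, hγ₀, map_mul, sq]
    have hγK : algebraMap k K γ₀ ≠ 0 := by
      rwa [Ne, map_eq_zero]
    obtain ⟨β, μ, hβ, hμ⟩ := hch (algebraMap k K γ₀)
    obtain ⟨κ, hκ0, hκ3, -, h1⟩ := key hE hC p l hp b c hb hc m g hm hpn hR β _ μ hγ hβ hμ
    obtain ⟨e1, e7⟩ := h1 hq
    have hboth : algebraMap k K (g.coeff (m - 1)) ≠ 0 ∧ algebraMap k K (g.coeff (7 * m - 1)) ≠ 0 := by
      rcases hu' with rfl | rfl
      · refine ⟨hA0, fun h => ?_⟩
        rw [h, zero_mul] at e1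
        exact mul_ne_zero hA0 (neg_ne_zero.2 hκ0) e1.symm
      · refine ⟨fun h => ?_, hA0⟩
        rw [h, zero_mul] at e1
        exact mul_ne_zero hA0 (pow_ne_zero _ (mul_ne_zero hκ0 hγK)) e1
    have e8 : (κ * algebraMap k K γ₀ * (-κ)) ^ Nat.card k = κ * algebraMap k K γ₀ * (-κ) := by
      refine mul_left_cancel₀ (mul_ne_zero hboth.2 hboth.1) ?_
      rw [mul_pow]
      linear_combination (algebraMap k K (g.coeff (m - 1)) * (-κ) ^ Nat.card k) * e1 +
        (algebraMap k K (g.coeff (m - 1)) * (-κ)) * e7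
    obtain ⟨y, hy⟩ := fixed (k := k) _ e8
    have hz : (-y / γ₀) ^ 3 * b ^ 8 = 5832 * (m : k) ^ 6 * γ₀ := by
      apply hinj
      rw [map_mul, map_pow, map_pow, map_div₀, map_neg, hy, map_mul, map_mul, map_pow, map_natCast,
        map_ofNat]
      have h9 : -(κ * algebraMap k K γ₀ * -κ) / algebraMap k K γ₀ = κ ^ 2 := by
        rw [div_eq_iff hγK]
        ring
      rw [h9]
      linear_combination (κ ^ 3 * (algebraMap k K b) ^ 4 + 54 * (m : K) ^ 3 * β) * hκ3 +
        2916 * (m : K) ^ 6 * hβ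
    obtain ⟨χ, hχ⟩ := hA.c_cube
    refine hA.b_noncube ⟨-b ^ 3 * (-y / γ₀) * χ / (18 * (m : k) ^ 2 * γ₀), ?_⟩
    generalize -y / γ₀ = z at hz
    rw [div_pow, div_eq_iff (pow_ne_zero 3 (mul_ne_zero (mul_ne_zero h18 (pow_ne_zero 2 hmk)) hγ00))]
    linear_combination (-(b * χ ^ 3)) * hz + (5832 * b * (m : k) ^ 6 * γ₀) * hγ₀ -
      (5832 * b * (m : k) ^ 6 * γ₀) * hχ

end Pool.Agent.N163.KG.F12
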