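import Pool.Agent.N163.KG.Stm

/-!
# Project KG (helper163), part F2: the fraction `1 / 2`
-/

set_option autoImplicit false

namespace Pool.Agent.N163.KG.F2

open Polynomial Pool.Agent.N163.KN Pool.Agent.N420.KS Pool.Agent.N163.KG

/-- The elements fixed by the Frobenius of `k` are in `k`. -/
theorem fixed {k K : Type} [Field k] [Finite k] [Field K] [Algebra k K] (x : K)
    (hx : x ^ Nat.card k = x) : ∃ y : k, algebraMap k K y = x := by
  classical
  have := Fintype.ofFinite k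
  by_contra hcon
  push Not at hcon
  rw [Nat.card_eq_fintype_card] at hx
  have hq : 1 < Fintype.card k := Fintype.one_lt_card
  have hf : (X ^ Fintype.card k - X : K[X]) ≠ 0 := FiniteField.X_pow_card_sub_X_ne_zero K hq
  have hsub : insert x (Finset.univ.image (algebraMap k K)) ⊆
      (X ^ Fintype.card k - X : K[X]).roots.toFinset := by
    intro z hz
    rw [Multiset.mem_toFinset, mem_roots hf, IsRoot.def, eval_sub, eval_pow, eval_X, sub_eq_zero]
    rcases Finset.mem_insert.1 hz with rfl | hz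
    · exact hx
    · obtain ⟨y, _, rfl⟩ := Finset.mem_image.1 hz
      rw [← map_pow, FiniteField.pow_card]
  have h1 := Finset.card_le_card hsub
  rw [Finset.card_insert_of_notMem (by
    intro h
    obtain ⟨y, _, hy⟩ := Finset.mem_image.1 h
    exact hcon y hy), Finset.card_image_of_injective _ (algebraMap k K).injective,
    Finset.card_univ] at h1
  have h2 : (X ^ Fintype.card k - X : K[X]).roots.toFinset.card ≤
      (X ^ Fintype.card k - X : K[X]).natDegree :=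
    (Multiset.toFinset_card_le _).trans (card_roots' _)
  rw [FiniteField.X_pow_card_sub_X_natDegree_eq K hq] at h2
  omega

/-- Numbers prime to `p`. -/
theorem natCast_ne {k : Type} [Field k] (p : ℕ) [CharP k p] (m : ℕ) (h : ¬ p ∣ m) :
    (m : k) ≠ 0 := fun h0 => h ((CharP.cast_eq_zero_iff k p m).1 h0)

theorem two_ne {k : Type} [Field k] (p l : ℕ) [Fact p.Prime] [CharP k p] (hp : p = 6 * l + 1) :
    (2 : k) ≠ 0 ∧ (3 : k) ≠ 0 := by
  have hpp : p.Prime := Fact.out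
  have h1 := hpp.two_le
  constructor
  · have := natCast_ne (k := k) p 2 (fun h => by have := Nat.le_of_dvd (by norm_num) h; omega)
    exact_mod_cast this
  · have := natCast_ne (k := k) p 3 (fun h => by have := Nat.le_of_dvd (by norm_num) h; omega)
    exact_mod_cast this

theorem t_F2 (hE : S_E2) (hC : S_CMP) : Pool.Agent.N163.KG.S_F2 := by
  intro k _ _ p l _ _ hp b c hA n g hn hpn hrel u hu1 hu4 hu hg
  have hu3 : u = 3 * n := by
    have : 2 * u = 6 * n := hu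
    omega
  subst hu3
  let K := AlgebraicClosure k
  have hinj : Function.Injective (algebraMap k K) := (algebraMap k K).injective
  have : CharP K p := charP_of_injective_algebraMap hinj p
  obtain ⟨h2, h3⟩ := two_ne (k := K) p l hp
  have hnK : (n : K) ≠ 0 := natCast_ne p n hpn
  obtain ⟨b', hb'⟩ : ∃ b' : K, b' = algebraMap k K b := ⟨_, rfl⟩
  obtain ⟨c', hc'⟩ : ∃ c' : K, c' = algebraMap k K c := ⟨_, rfl⟩
  have hb0 : b' ≠ 0 := by
    rw [hb']
    exact (_root_.map_ne_zero _).2 hA.b_ne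
  have hc0 : c' ≠ 0 := by
    rw [hc']
    exact (_root_.map_ne_zero _).2 hA.c_ne
  obtain ⟨γ, hγ⟩ := IsAlgClosed.exists_pow_nat_eq c' (n := 2) (by norm_num)
  obtain ⟨μ, hμ⟩ := IsAlgClosed.exists_pow_nat_eq (-2 * γ / b') (n := 3) (by norm_num)
  have hμ' : b' * μ ^ 3 = -2 * γ := by
    rw [hμ, mul_comm, div_mul_cancel₀ _ hb0]
  have hγ0 : γ ≠ 0 := by
    rintro rfl
    apply hc0
    rw [← hγ]
    ring
  have hμ0 : μ ≠ 0 := by
    rintro rfl
    have h : (-2 : K) * γ = 0 := by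
      rw [← hμ']
      ring
    rcases mul_eq_zero.1 h with h | h
    · exact h2 (neg_eq_zero.1 h)
    · exact hγ0 h
  have h6 : (6 : K) ≠ 0 := by
    have : (6 : K) = 2 * 3 := by norm_num
    rw [this]
    exact mul_ne_zero h2 h3
  have hE' := hE K p l hp n b' c' γ μ hn hpn hb0 hc0 hγ hμ'
  obtain ⟨κ, hκ⟩ : ∃ κ : K, κ = 6 * n * γ / (b' ^ 2 * μ ^ 2) := ⟨_, rfl⟩
  rw [← hκ] at hE'
  have hκ0 : κ ≠ 0 := by
    rw [hκ]
    exact div_ne_zero (mul_ne_zero (mul_ne_zero h6 hnK) hγ0)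
      (mul_ne_zero (pow_ne_zero _ hb0) (pow_ne_zero _ hμ0))
  obtain ⟨g₀, hg₀⟩ : ∃ g₀ : K[X], g₀ = C κ * X ^ (3 * n - 1) := ⟨_, rfl⟩
  rw [← hg₀] at hE'
  have hco : g₀.coeff (3 * n - 1) = κ := by
    rw [hg₀, coeff_C_mul_X_pow, if_pos rfl]
  have hmod : ∀ m : ℕ, m % 2 = 1 → (m * (3 * n)) % (6 * n) = 3 * n := by
    intro m hm
    obtain ⟨s, rfl⟩ : ∃ s, m = 2 * s + 1 := ⟨m / 2, by omega⟩
    have h : (2 * s + 1) * (3 * n) = 3 * n + 6 * n * s := by ring
    rw [h, Nat.add_mul_mod_self_left, Nat.mod_eq_of_lt (by omega)]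
  have hC' := hC k K p l hp n (1 / (2 * b ^ 2)) c hn hpn
    (by
      obtain ⟨h2', _⟩ := two_ne (k := k) p l hp
      exact one_div_ne_zero (mul_ne_zero h2' (pow_ne_zero _ hA.b_ne))) hA.c_ne g g₀ hrel
    (by
      rw [map_div₀, map_one, map_mul, map_pow, map_ofNat, ← hb', ← hc']
      exact hE') {3 * n}
    (by
      intro u hu
      rw [Finset.mem_singleton] at hu
      subst hu
      refine ⟨by omega, by omega, ?_, ?_⟩
      · rw [Finset.mem_singleton]
        exact hmod p (by omega)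
      · rw [hco]
        exact hκ0) (3 * n) (Finset.mem_singleton_self _)
  obtain ⟨h4, h5⟩ := hC'
  rw [Finset.mem_singleton] at h4
  rw [h4, hco] at h5
  have hg' : algebraMap k K (g.coeff (3 * n - 1)) ≠ 0 := (_root_.map_ne_zero _).2 hg
  have hfix : κ ^ Nat.card k = κ := mul_left_cancel₀ hg' h5
  obtain ⟨κ₀, hκ₀⟩ := fixed κ hfix
  have e1 : κ ^ 3 * b' ^ 4 = 54 * n ^ 3 * γ := by
    have h7 : κ * (b' ^ 2 * μ ^ 2) = 6 * n * γ := by
      rw [hκ, div_mul_cancel₀ _ (mul_ne_zero (pow_ne_zero _ hb0) (pow_ne_zero _ hμ0))]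
    have h8 : κ ^ 3 * (b' ^ 4 * (4 * γ ^ 2)) = 216 * n ^ 3 * γ ^ 3 := by
      have h9 : κ ^ 3 * (b' ^ 6 * μ ^ 6) = 216 * n ^ 3 * γ ^ 3 := by
        calc κ ^ 3 * (b' ^ 6 * μ ^ 6) = (κ * (b' ^ 2 * μ ^ 2)) ^ 3 := by ring
          _ = 216 * n ^ 3 * γ ^ 3 := by rw [h7]; ring
      rw [← h9]
      have h10 : (b' * μ ^ 3) ^ 2 = 4 * γ ^ 2 := by rw [hμ']; ring
      rw [← h10]
      ring
    have h11 : (4 * γ ^ 2 : K) ≠ 0 := by
      have : (4 : K) = 2 * 2 := by norm_num
      rw [this]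
      exact mul_ne_zero (mul_ne_zero h2 h2) (pow_ne_zero _ hγ0)
    apply mul_right_cancel₀ h11
    linear_combination h8
  have e2 : γ = algebraMap k K (κ₀ ^ 3 * b ^ 4 / (54 * n ^ 3)) := by
    have h54 : (54 * (n : K) ^ 3 : K) ≠ 0 := by
      have : (54 : K) = 2 * 3 * 3 * 3 := by norm_num
      rw [this]
      exact mul_ne_zero (mul_ne_zero (mul_ne_zero (mul_ne_zero h2 h3) h3) h3) (pow_ne_zero _ hnK)
    rw [map_div₀, map_mul, map_pow, map_pow, map_mul, map_pow, map_natCast, map_ofNat, hκ₀, ← hb',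
      eq_div_iff h54, e1]
    ring
  apply hA.c_nonsq
  refine ⟨κ₀ ^ 3 * b ^ 4 / (54 * n ^ 3), hinj ?_⟩
  rw [map_mul, ← e2, ← hc', ← hγ]
  ring

end Pool.Agent.N163.KG.F2
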