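import Pool.Agent.N163.KG.Stm

/-!
# `MP_3da457_ag`: part F3, the fraction one third is impossible (helper370)
-/

set_option autoImplicit false

namespace Pool.Agent.N163.KG.F3

open Polynomial Pool.Agent.N163.KG Pool.Agent.N420.KS

lemma fixed {k K : Type} [Field k] [Finite k] [Field K] [Algebra k K] (x : K)
    (hx : x ^ Nat.card k = x) : ∃ a : k, algebraMap k K a = x := by
  classical
  have := Fintype.ofFinite k
  rw [Nat.card_eq_fintype_card] at hx
  have hq : 1 < Fintype.card k := Fintype.one_lt_card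
  have hP : (X ^ Fintype.card k - X : K[X]) ≠ 0 := FiniteField.X_pow_card_sub_X_ne_zero K hq
  have hsub : (Finset.univ.image (algebraMap k K)) ⊆
      (X ^ Fintype.card k - X : K[X]).roots.toFinset := by
    intro y hy
    obtain ⟨a, _, rfl⟩ := Finset.mem_image.1 hy
    rw [Multiset.mem_toFinset, mem_roots hP]
    simp only [IsRoot.def, eval_sub, eval_pow, eval_X]
    rw [← map_pow, FiniteField.pow_card, sub_self]
  have hcard : (X ^ Fintype.card k - X : K[X]).roots.toFinset.card ≤ Fintype.card k :=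
    (Multiset.toFinset_card_le _).trans ((card_roots' _).trans
      (FiniteField.X_pow_card_sub_X_natDegree_eq K hq).le)
  have heq := Finset.eq_of_subset_of_card_le hsub (by
    rw [Finset.card_image_of_injective _ (algebraMap k K).injective, Finset.card_univ]
    exact hcard)
  have hm : x ∈ (X ^ Fintype.card k - X : K[X]).roots.toFinset := by
    rw [Multiset.mem_toFinset, mem_roots hP]
    simp only [IsRoot.def, eval_sub, eval_pow, eval_X]
    rw [hx, sub_self]
  rw [← heq] at hm
  obtain ⟨a, _, ha⟩ := Finset.mem_image.1 hm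
  exact ⟨a, ha⟩

lemma wlem {L : Type} [Field L] (h2 : (2 : L) ≠ 0) (s : L) (hs : s ^ 2 = -3) :
    ((-1 + s) / 2) ^ 2 + (-1 + s) / 2 + 1 = 0 := by
  field_simp
  linear_combination hs

lemma blem {L : Type} [Field L] {β : L} (hβ : β ≠ 0) : β ^ 3 / β ^ 2 = β := by
  field_simp

theorem t_F3 (hE : S_E3) (hC : S_CMP) : Pool.Agent.N163.KG.S_F3 := by
  intro k _ _ p l _ _ hp b c hadm n g hn hpn hRel u hu1 hu4 hE3 hne
  have hu : u = 2 * n := by omega
  subst hu
  set K := AlgebraicClosure k with hK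
  have : CharP K p := charP_of_injective_algebraMap (algebraMap k K).injective p
  have hprime : p.Prime := Fact.out
  have hl : 1 ≤ l := by
    rcases Nat.eq_zero_or_pos l with h | h
    · subst h
      rw [hp] at hprime
      exact absurd hprime (by norm_num)
    · exact h
  have hfix : ∀ a : k, (algebraMap k K a) ^ Nat.card k = algebraMap k K a := by
    intro a
    have := Fintype.ofFinite k
    rw [Nat.card_eq_fintype_card, ← map_pow, FiniteField.pow_card]
  have hnat : ∀ m : ℕ, ¬ p ∣ m → (m : k) ≠ 0 := by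
    intro m hm h
    exact hm ((CharP.cast_eq_zero_iff k p m).1 h)
  have h2k : (2 : k) ≠ 0 := by
    have := hnat 2 (fun h => by have := Nat.le_of_dvd (by norm_num) h; omega)
    exact_mod_cast this
  have h3k : (3 : k) ≠ 0 := by
    have := hnat 3 (fun h => by have := Nat.le_of_dvd (by norm_num) h; omega)
    exact_mod_cast this
  have hnk : (n : k) ≠ 0 := hnat n hpn
  have h2K : (2 : K) ≠ 0 := by
    have := (_root_.map_ne_zero (algebraMap k K)).2 h2k
    rwa [map_ofNat] at this
  -- `q` is one modulo three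
  have hq3 : Nat.card k % 3 = 1 := by
    have := Fintype.ofFinite k
    obtain ⟨f, _, hf⟩ := FiniteField.card k p
    rw [Nat.card_eq_fintype_card, hf, Nat.pow_mod]
    have : p % 3 = 1 := by omega
    simp [this]
  have hq6 : (Nat.card k * (2 * n)) % (6 * n) = 2 * n := by
    obtain ⟨m, hm⟩ : ∃ m, Nat.card k = 3 * m + 1 := ⟨Nat.card k / 3, by omega⟩
    rw [hm]
    have : (3 * m + 1) * (2 * n) = 2 * n + (6 * n) * m := by ring
    rw [this, Nat.add_mul_mod_self_left]
    exact Nat.mod_eq_of_lt (by omega)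
  -- the cube root of unity
  obtain ⟨s, hs⟩ := IsAlgClosed.exists_pow_nat_eq (k := K) (-3) (n := 2) (by norm_num)
  have hw : ((-1 + s) / 2) ^ 2 + (-1 + s) / 2 + 1 = 0 := wlem h2K s hs
  set w : K := (-1 + s) / 2 with hwdef
  have hw3 : w ^ 3 = 1 := by linear_combination (w - 1) * hw
  have hwq : w ^ Nat.card k = w := by
    obtain ⟨m, hm⟩ : ∃ m, Nat.card k = 3 * m + 1 := ⟨Nat.card k / 3, by omega⟩
    rw [hm, pow_succ, pow_mul, hw3, one_pow, one_mul]
  obtain ⟨w0, hw0⟩ := fixed w hwq
  obtain ⟨χ, hχ⟩ := hadm.c_cube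
  have hχ0 : χ ≠ 0 := by
    rintro rfl
    exact hadm.c_ne (by rw [← hχ]; ring)
  obtain ⟨β, hβ⟩ := IsAlgClosed.exists_pow_nat_eq (k := K) (algebraMap k K b) (n := 3) (by norm_num)
  have hbK : algebraMap k K b ≠ 0 := (_root_.map_ne_zero _).2 hadm.b_ne
  have hcK : algebraMap k K c ≠ 0 := (_root_.map_ne_zero _).2 hadm.c_ne
  have hβ0 : β ≠ 0 := by
    rintro rfl
    exact hbK (by rw [← hβ]; ring)
  have hw0e : w0 ^ 2 + w0 + 1 = 0 := by
    apply (algebraMap k K).injective
    rw [map_add, map_add, map_pow, hw0, map_one, map_zero]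
    exact hw
  have hwd : w0 ^ 2 - w0 ≠ 0 := by
    intro h
    have h1 : w0 * (w0 - 1) = 0 := by linear_combination h
    rcases mul_eq_zero.1 h1 with h2 | h2
    · rw [h2] at hw0e
      norm_num at hw0e
    · have h3 : w0 = 1 := sub_eq_zero.1 h2
      rw [h3] at hw0e
      exact h3k (by linear_combination hw0e)
  have hRel0 := hE K p l hp n (algebraMap k K b) (algebraMap k K c) β (algebraMap k K χ) w hn hpn
    hbK hcK hβ (by rw [← map_pow, hχ]) hw
  set A : k := 2 * n * χ * (w0 ^ 2 - w0) / b ^ 2 with hA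
  have hA0 : A ≠ 0 := by
    rw [hA]
    exact div_ne_zero (mul_ne_zero (mul_ne_zero (mul_ne_zero h2k hnk) hχ0) hwd)
      (pow_ne_zero _ hadm.b_ne)
  have hκ : 2 * (n : K) * β ^ 2 * algebraMap k K χ * (w ^ 2 - w) / algebraMap k K b ^ 2 =
      algebraMap k K A * β ^ 2 := by
    rw [hA, map_div₀, map_mul, map_mul, map_mul, map_sub, map_pow, map_pow, map_natCast,
      map_ofNat, hw0]
    ring
  rw [hκ] at hRel0
  have hα : (1 : k) / (2 * b ^ 2) ≠ 0 :=
    div_ne_zero one_ne_zero (mul_ne_zero h2k (pow_ne_zero _ hadm.b_ne))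
  have hαK : (1 : K) / (2 * algebraMap k K b ^ 2) = algebraMap k K (1 / (2 * b ^ 2)) := by
    rw [map_div₀, map_one, map_mul, map_pow, map_ofNat]
  rw [hαK] at hRel0
  have hκ0 : algebraMap k K A * β ^ 2 ≠ 0 :=
    mul_ne_zero ((_root_.map_ne_zero _).2 hA0) (pow_ne_zero _ hβ0)
  have hcoef : (C (algebraMap k K A * β ^ 2) * X ^ (2 * n - 1) : K[X]).coeff (2 * n - 1) =
      algebraMap k K A * β ^ 2 := by
    rw [coeff_C_mul, coeff_X_pow, if_pos rfl, mul_one]
  have hpm : (p * (2 * n)) % (6 * n) = 2 * n := by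
    have : p * (2 * n) = 2 * n + (6 * n) * (2 * l) := by rw [hp]; ring
    rw [this, Nat.add_mul_mod_self_left]
    exact Nat.mod_eq_of_lt (by omega)
  have hcmp := (hC k K p l hp n (1 / (2 * b ^ 2)) c hn hpn hα hadm.c_ne g _ hRel hRel0 {2 * n}
    (by
      intro u hu
      rw [Finset.mem_singleton] at hu
      subst hu
      refine ⟨by omega, by omega, ?_, ?_⟩
      · rw [hpm]; exact Finset.mem_singleton_self _
      · rw [hcoef]; exact hκ0) (2 * n) (Finset.mem_singleton_self _)).2
  rw [hq6, hcoef] at hcmp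
  have hgK : algebraMap k K (g.coeff (2 * n - 1)) ≠ 0 := (_root_.map_ne_zero _).2 hne
  have hκq := mul_left_cancel₀ hgK hcmp
  rw [mul_pow, hfix] at hκq
  have hβq : (β ^ 2) ^ Nat.card k = β ^ 2 := mul_left_cancel₀ ((_root_.map_ne_zero _).2 hA0) hκq
  obtain ⟨γ, hγ⟩ := fixed (β ^ 2) hβq
  refine hadm.b_noncube ⟨b / γ, ?_⟩
  apply (algebraMap k K).injective
  rw [map_pow, map_div₀, hγ, ← hβ]
  rw [blem hβ0]

end Pool.Agent.N163.KG.F3
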