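import Pool.Agent.N163.KG.Stm

/-!
# Project KG (helper163), part F30: the fractions `1/30, 7/30, 13/30, 19/30` (helper899)
-/

set_option autoImplicit false

namespace Pool.Agent.N163.KG.F30

open Polynomial Pool.Agent.N163.KN Pool.Agent.N420.KS

/-! ### Algebra in a subfield -/

section alg

variable {K : Type} [Field K] (S : Subfield K)

/-- the cube of `κ` -/
lemma kap3 {b m μ θ κ : K} (hb : b ≠ 0) (hμ : b * μ ^ 3 = -2 * θ) (hθ : θ ≠ 0) (h2 : (2 : K) ≠ 0)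
    (hκ : κ = 6 * m * θ / (b ^ 2 * μ ^ 2)) : κ ^ 3 * b ^ 4 = 54 * m ^ 3 * θ := by
  have hμ0 : μ ≠ 0 := by
    rintro rfl
    have h1 : (2 : K) * θ = 0 := by linear_combination hμ
    rcases mul_eq_zero.1 h1 with h | h
    · exact h2 h
    · exact hθ h
  have h3 : κ * (b ^ 2 * μ ^ 2) = 6 * m * θ := by
    rw [hκ]
    field_simp
  have h4 : (κ ^ 3 * b ^ 4) * (4 * θ ^ 2) = (54 * m ^ 3 * θ) * (4 * θ ^ 2) := by
    have h5 : κ ^ 3 * (b ^ 6 * μ ^ 6) = 216 * m ^ 3 * θ ^ 3 := by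
      have h6 : (κ * (b ^ 2 * μ ^ 2)) ^ 3 = (6 * m * θ) ^ 3 := by rw [h3]
      linear_combination h6
    have h7 : b ^ 2 * μ ^ 6 = 4 * θ ^ 2 := by
      have h8 : (b * μ ^ 3) ^ 2 = (-2 * θ) ^ 2 := by rw [hμ]
      linear_combination h8
    linear_combination h5 - κ ^ 3 * b ^ 4 * h7
  have h9 : (4 : K) * θ ^ 2 ≠ 0 := by
    have h10 : (4 : K) = 2 ^ 2 := by norm_num
    rw [h10]
    exact mul_ne_zero (pow_ne_zero _ h2) (pow_ne_zero _ hθ)
  exact mul_right_cancel₀ h9 h4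

/-- `ν` is in `S` if two coprime powers are -/
lemma nu_mem {ν : K} (hν0 : ν ≠ 0) (h5 : ν ^ 5 ∈ S) (e : ℕ) (he : e = 0 ∨ e = 3 ∨ e = 6 ∨ e = 9)
    (h : ν ^ (2 * e + 1) ∈ S) : ν ∈ S := by
  rcases he with rfl | rfl | rfl | rfl
  · simpa using h
  · have h2 : ν ^ 2 ∈ S := by
      have := S.div_mem h h5
      have e1 : ν ^ (2 * 3 + 1) / ν ^ 5 = ν ^ 2 := by field_simp
      rwa [e1] at this
    have := S.div_mem h5 (S.pow_mem h2 2)
    have e1 : ν ^ 5 / (ν ^ 2) ^ 2 = ν := by field_simp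
    rwa [e1] at this
  · have h3 : ν ^ 3 ∈ S := by
      have := S.div_mem h (S.pow_mem h5 2)
      have e1 : ν ^ (2 * 6 + 1) / (ν ^ 5) ^ 2 = ν ^ 3 := by field_simp
      rwa [e1] at this
    have := S.div_mem (S.pow_mem h3 2) h5
    have e1 : (ν ^ 3) ^ 2 / ν ^ 5 = ν := by field_simp
    rwa [e1] at this
  · have h4 : ν ^ 4 ∈ S := by
      have := S.div_mem h (S.pow_mem h5 3)
      have e1 : ν ^ (2 * 9 + 1) / (ν ^ 5) ^ 3 = ν ^ 4 := by field_simp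
      rwa [e1] at this
    have := S.div_mem h5 h4
    have e1 : ν ^ 5 / ν ^ 4 = ν := by field_simp
    rwa [e1] at this

/-- case `q = 1` modulo `5` -/
lemma case1 {b c m s ν θ κ r : K} (h2 : (2 : K) ≠ 0) (h3 : (3 : K) ≠ 0) (hbS : b ∈ S) (hcS : c ∈ S)
    (hmS : m ∈ S) (hsS : s ∈ S) (hrS : r ∈ S) (hb : b ≠ 0) (hm : m ≠ 0) (hs5 : 5 + 2 * s ≠ 0)
    (hν0 : ν ≠ 0) (hν : ν ^ 5 = -c) (hθ : θ ^ 2 = (5 + 2 * s) * ν)
    (hκ : κ ^ 3 * b ^ 4 = 54 * m ^ 3 * θ) (hr : r ^ 2 = -(5 + 2 * s)) (e : ℕ)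
    (he : e = 0 ∨ e = 1 ∨ e = 2 ∨ e = 3) (hA : κ * ν ^ e ∈ S) : ∃ y ∈ S, y ^ 2 = c := by
  have h54 : (54 : K) ≠ 0 := by
    have h10 : (54 : K) = 2 * 3 ^ 3 := by norm_num
    rw [h10]
    exact mul_ne_zero h2 (pow_ne_zero _ h3)
  have h54m : (54 : K) * m ^ 3 ≠ 0 := mul_ne_zero h54 (pow_ne_zero _ hm)
  have hnat : ∀ n : ℕ, (n : K) ∈ S := fun n => natCast_mem S n
  have h54S : (54 : K) * m ^ 3 ∈ S := S.mul_mem (by exact_mod_cast hnat 54) (S.pow_mem hmS 3)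
  have h5sS : 5 + 2 * s ∈ S :=
    S.add_mem (by exact_mod_cast hnat 5) (S.mul_mem (by exact_mod_cast hnat 2) hsS)
  have h4 : θ * ν ^ (3 * e) ∈ S := by
    have h5 : (κ * ν ^ e) ^ 3 * b ^ 4 / (54 * m ^ 3) ∈ S :=
      S.div_mem (S.mul_mem (S.pow_mem hA 3) (S.pow_mem hbS 4)) h54S
    have h6 : (κ * ν ^ e) ^ 3 * b ^ 4 / (54 * m ^ 3) = θ * ν ^ (3 * e) := by
      rw [div_eq_iff h54m]
      have h7 : (κ * ν ^ e) ^ 3 * b ^ 4 = (κ ^ 3 * b ^ 4) * ν ^ (3 * e) := by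
        rw [mul_pow, ← pow_mul, mul_comm e 3]
        ring
      rw [h7, hκ]
      ring
    rwa [h6] at h5
  have h5 : ν ^ (2 * (3 * e) + 1) ∈ S := by
    have h6 := S.div_mem (S.pow_mem h4 2) h5sS
    have h7 : (θ * ν ^ (3 * e)) ^ 2 / (5 + 2 * s) = ν ^ (2 * (3 * e) + 1) := by
      rw [div_eq_iff hs5, mul_pow, hθ, ← pow_mul, pow_succ]
      ring
    rwa [h7] at h6
  have hνS : ν ∈ S := by
    refine nu_mem S hν0 (by rw [hν]; exact S.neg_mem hcS) (3 * e) ?_ h5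
    omega
  have hθS : θ ∈ S := by
    have h6 := S.div_mem h4 (S.pow_mem hνS (3 * e))
    have h7 : θ * ν ^ (3 * e) / ν ^ (3 * e) = θ := by
      rw [mul_div_assoc, div_self (pow_ne_zero _ hν0), mul_one]
    rwa [h7] at h6
  have hr0 : r ≠ 0 := by
    rintro rfl
    apply hs5
    linear_combination hr
  refine ⟨θ ^ 5 / ((5 + 2 * s) ^ 2 * r),
    S.div_mem (S.pow_mem hθS 5) (S.mul_mem (S.pow_mem h5sS 2) hrS), ?_⟩
  have h8 : θ ^ 10 = ((5 + 2 * s) * ν) ^ 5 := by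
    rw [← hθ]
    ring
  have h9 : ((5 + 2 * s) ^ 2 * r) ≠ 0 := mul_ne_zero (pow_ne_zero _ hs5) hr0
  rw [div_pow, div_eq_iff (pow_ne_zero _ h9)]
  have h10 : ((5 + 2 * s) ^ 2 * r) ^ 2 = -(5 + 2 * s) ^ 5 := by
    rw [mul_pow, hr]
    ring
  rw [h10, ← pow_mul, h8, mul_pow, hν]
  ring

/-- case `q = 4` modulo `5` -/
lemma case4 {b m s ν θ κ ρ : K} (h2 : (2 : K) ≠ 0) (h3 : (3 : K) ≠ 0) (h5 : (5 : K) ≠ 0) (hbS : b ∈ S)
    (hmS : m ∈ S) (hsS : s ∈ S) (hρS : ρ ∈ S) (hκS : κ ^ 2 ∈ S) (hb : b ≠ 0) (hm : m ≠ 0)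
    (hs : s ^ 2 = 5) (hρ0 : ρ ≠ 0) (hν : ν = ρ ^ 3) (hθ : θ ^ 2 = (5 + 2 * s) * ν)
    (hκ : κ ^ 3 * b ^ 4 = 54 * m ^ 3 * θ) : ∃ β ∈ S, b = 10 * β ^ 3 := by
  have hs0 : s ≠ 0 := by
    rintro rfl
    apply h5
    linear_combination -hs
  have hs1 : 1 + s ≠ 0 := by
    intro h
    have h4 : (2 : K) * 2 = 0 := by
      linear_combination (s - 1) * h - hs
    rcases mul_eq_zero.1 h4 with h' | h'
    · exact h2 h'
    · exact h2 h'
  have hnat : ∀ n : ℕ, (n : K) ∈ S := fun n => natCast_mem S n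
  have h18 : (18 : K) ≠ 0 := by
    have h10 : (18 : K) = 2 * 3 ^ 2 := by norm_num
    rw [h10]
    exact mul_ne_zero h2 (pow_ne_zero _ h3)
  obtain ⟨d, hd⟩ : ∃ d : K, d = 9 * m ^ 2 * (s * (1 + s)) * ρ := ⟨_, rfl⟩
  have h9 : (9 : K) ≠ 0 := by
    have h10 : (9 : K) = 3 ^ 2 := by norm_num
    rw [h10]
    exact pow_ne_zero _ h3
  have hd0 : d ≠ 0 := by
    rw [hd]
    exact mul_ne_zero (mul_ne_zero (mul_ne_zero h9 (pow_ne_zero _ hm)) (mul_ne_zero hs0 hs1)) hρ0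
  have hdS : d ∈ S := by
    rw [hd]
    exact S.mul_mem (S.mul_mem (S.mul_mem (by exact_mod_cast hnat 9) (S.pow_mem hmS 2))
      (S.mul_mem hsS (S.add_mem S.one_mem hsS))) hρS
  refine ⟨κ ^ 2 * b ^ 3 / d, S.div_mem (S.mul_mem hκS (S.pow_mem hbS 3)) hdS, ?_⟩
  have hd3 : d ^ 3 = 729 * m ^ 6 * (40 * (5 + 2 * s)) * ρ ^ 3 := by
    have e1 : (s * (1 + s)) ^ 3 = 40 * (5 + 2 * s) := by
      have : s ^ 3 = 5 * s := by linear_combination s * hs
      linear_combination (s ^ 4 + 3 * s ^ 3 + 8 * s ^ 2 + 16 * s + 40) * hs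
    rw [hd]
    linear_combination 729 * m ^ 6 * ρ ^ 3 * e1
  have hk6 : κ ^ 6 * b ^ 8 = 2916 * m ^ 6 * ((5 + 2 * s) * ρ ^ 3) := by
    have e1 : (κ ^ 3 * b ^ 4) ^ 2 = (54 * m ^ 3 * θ) ^ 2 := by rw [hκ]
    rw [hν] at hθ
    linear_combination e1 + 2916 * m ^ 6 * hθ
  rw [div_pow, ← mul_div_assoc, eq_div_iff (pow_ne_zero _ hd0), hd3]
  linear_combination (-10 * b) * hk6

/-- case `q = 2` or `3` modulo `5` -/
lemma case23 {b m s ν θ κ ρ P : K} (h2 : (2 : K) ≠ 0) (h3 : (3 : K) ≠ 0) (h5 : (5 : K) ≠ 0)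
    (hbS : b ∈ S) (hmS : m ∈ S) (hρS : ρ ∈ S) (hPS : P ∈ S) (hb : b ≠ 0) (hm : m ≠ 0)
    (hs : s ^ 2 = 5) (hρ0 : ρ ≠ 0) (hν : ν = ρ ^ 3) (hθ : θ ^ 2 = (5 + 2 * s) * ν)
    (hκ : κ ^ 3 * b ^ 4 = 54 * m ^ 3 * θ) (hP : P = κ ^ 4 * (s - 1) ^ 2 * ν ^ 6) :
    ∃ β ∈ S, b = 10 * β ^ 3 := by
  have hnat : ∀ n : ℕ, (n : K) ∈ S := fun n => natCast_mem S n
  have h648 : (648 : K) ≠ 0 := by
    have h10 : (648 : K) = 2 ^ 3 * 3 ^ 4 := by norm_num
    rw [h10]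
    exact mul_ne_zero (pow_ne_zero _ h2) (pow_ne_zero _ h3)
  have h10 : (10 : K) ≠ 0 := by
    have h10 : (10 : K) = 2 * 5 := by norm_num
    rw [h10]
    exact mul_ne_zero h2 h5
  obtain ⟨d, hd⟩ : ∃ d : K, d = 648 * m ^ 4 * ρ ^ 20 := ⟨_, rfl⟩
  have hd0 : d ≠ 0 := by
    rw [hd]
    exact mul_ne_zero (mul_ne_zero h648 (pow_ne_zero _ hm)) (pow_ne_zero _ hρ0)
  have hdS : d ∈ S := by
    rw [hd]
    exact S.mul_mem (S.mul_mem (by exact_mod_cast hnat 648) (S.pow_mem hmS 4)) (S.pow_mem hρS 20)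
  have hs1 : (5 + 2 * s) * (s - 1) ^ 3 = 8 * s := by
    linear_combination (2 * s ^ 2 - s + 1) * hs
  have hP3 : b ^ 16 * P ^ 3 = 10 * d ^ 3 := by
    have e1 : (κ ^ 3 * b ^ 4) ^ 4 = (54 * m ^ 3 * θ) ^ 4 := by rw [hκ]
    have e2 : θ ^ 4 = ((5 + 2 * s) * ν) ^ 2 := by
      rw [← hθ]
      ring
    have e3 : ((5 + 2 * s) * (s - 1) ^ 3) ^ 2 = 320 := by
      rw [hs1]
      linear_combination 64 * hs
    calc b ^ 16 * P ^ 3 = (κ ^ 3 * b ^ 4) ^ 4 * ((s - 1) ^ 6 * ν ^ 18) := by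
          rw [hP]
          ring
      _ = 54 ^ 4 * m ^ 12 * θ ^ 4 * ((s - 1) ^ 6 * ν ^ 18) := by
          rw [e1]
          ring
      _ = 54 ^ 4 * m ^ 12 * (((5 + 2 * s) * (s - 1) ^ 3) ^ 2) * ν ^ 20 := by
          rw [e2]
          ring
      _ = 10 * d ^ 3 := by
          rw [e3, hd, hν]
          ring
  obtain ⟨ε, hε⟩ : ∃ ε : K, ε = P * b ^ 6 / d := ⟨_, rfl⟩
  have hεS : ε ∈ S := by
    rw [hε]
    exact S.div_mem (S.mul_mem hPS (S.pow_mem hbS 6)) hdS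
  have hε3 : ε ^ 3 = 10 * b ^ 2 := by
    rw [hε, div_pow, div_eq_iff (pow_ne_zero _ hd0)]
    linear_combination b ^ 2 * hP3
  refine ⟨ε ^ 2 / (10 * b), S.div_mem (S.pow_mem hεS 2)
    (S.mul_mem (by exact_mod_cast hnat 10) hbS), ?_⟩
  rw [div_pow, ← mul_div_assoc, eq_div_iff (pow_ne_zero _ (mul_ne_zero h10 hb))]
  linear_combination (-10 * (ε ^ 3 + 10 * b ^ 2)) * hε3

end alg

/-! ### Coefficients, residues -/

/-- the polynomial of `E30` -/
noncomputable def G0 {K : Type} [Field K] (m : ℕ) (κ s ν : K) : K[X] :=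
  C κ * X ^ (m - 1) * (X ^ (18 * m) - C ((s - 1) * ν) * X ^ (12 * m) +
    C ((s - 1) * ν ^ 2) * X ^ (6 * m) - C (ν ^ 3))

lemma coeff_shift {K : Type} [Field K] (m : ℕ) (κ : K) (P : K[X]) (j i : ℕ) (h : i = j + (m - 1)) :
    (C κ * X ^ (m - 1) * P).coeff i = κ * P.coeff j := by
  rw [mul_assoc, coeff_C_mul, h, coeff_X_pow_mul]

lemma G0_19 {K : Type} [Field K] (m : ℕ) (hm : 1 ≤ m) (κ s ν : K) :
    (G0 m κ s ν).coeff (19 * m - 1) = κ := by
  rw [G0, coeff_shift m κ _ (18 * m) _ (by omega)]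
  simp only [coeff_add, coeff_sub, coeff_C_mul, coeff_X_pow, coeff_C]
  rw [if_pos trivial, if_neg (by omega), if_neg (by omega), if_neg (by omega)]
  ring

lemma G0_13 {K : Type} [Field K] (m : ℕ) (hm : 1 ≤ m) (κ s ν : K) :
    (G0 m κ s ν).coeff (13 * m - 1) = -(κ * (s - 1) * ν) := by
  rw [G0, coeff_shift m κ _ (12 * m) _ (by omega)]
  simp only [coeff_add, coeff_sub, coeff_C_mul, coeff_X_pow, coeff_C]
  rw [if_neg (by omega), if_pos trivial, if_neg (by omega), if_neg (by omega)]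
  ring

lemma G0_7 {K : Type} [Field K] (m : ℕ) (hm : 1 ≤ m) (κ s ν : K) :
    (G0 m κ s ν).coeff (7 * m - 1) = κ * (s - 1) * ν ^ 2 := by
  rw [G0, coeff_shift m κ _ (6 * m) _ (by omega)]
  simp only [coeff_add, coeff_sub, coeff_C_mul, coeff_X_pow, coeff_C]
  rw [if_neg (by omega), if_neg (by omega), if_pos trivial, if_neg (by omega)]
  ring

lemma G0_1 {K : Type} [Field K] (m : ℕ) (hm : 1 ≤ m) (κ s ν : K) :
    (G0 m κ s ν).coeff (1 * m - 1) = -(κ * ν ^ 3) := by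
  rw [G0, coeff_shift m κ _ 0 _ (by omega)]
  simp only [coeff_add, coeff_sub, coeff_C_mul, coeff_X_pow, coeff_C]
  rw [if_neg (by omega), if_neg (by omega), if_neg (by omega), if_pos trivial]
  ring

lemma modm (q w m R : ℕ) (hR : q % 30 = R) : (q * (w * m)) % (6 * (5 * m)) = ((R * w) % 30) * m := by
  have e1 : q * (w * m) = (q * w) * m := by ring
  have e2 : 6 * (5 * m) = 30 * m := by ring
  rw [e1, e2, Nat.mul_mod_mul_right, ← hR, Nat.mod_mul_mod]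

/-- fixed elements -/
lemma mem_range (k K : Type) [Field k] [Fintype k] [Field K] [Algebra k K] (x : K)
    (hx : x ^ (Fintype.card k) = x) : ∃ a : k, algebraMap k K a = x := by
  classical
  have hq : 1 < Fintype.card k := Fintype.one_lt_card
  have hne : (X ^ Fintype.card k - X : K[X]) ≠ 0 := FiniteField.X_pow_card_sub_X_ne_zero K hq
  have hsub : Finset.univ.image (algebraMap k K) ⊆
      (X ^ Fintype.card k - X : K[X]).roots.toFinset := by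
    intro y hy
    obtain ⟨a, -, rfl⟩ := Finset.mem_image.1 hy
    rw [Multiset.mem_toFinset, mem_roots hne]
    simp [IsRoot, ← map_pow, FiniteField.pow_card]
  have hcard : ((X ^ Fintype.card k - X : K[X]).roots.toFinset).card ≤
      (Finset.univ.image (algebraMap k K)).card := by
    rw [Finset.card_image_of_injective _ (algebraMap k K).injective, Finset.card_univ]
    exact (Multiset.toFinset_card_le _).trans
      ((card_roots' _).trans (FiniteField.X_pow_card_sub_X_natDegree_eq K hq).le)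
  have heq := Finset.eq_of_subset_of_card_le hsub hcard
  have hx' : x ∈ (X ^ Fintype.card k - X : K[X]).roots.toFinset := by
    rw [Multiset.mem_toFinset, mem_roots hne]
    simp [IsRoot, hx]
  rw [← heq] at hx'
  obtain ⟨a, -, ha⟩ := Finset.mem_image.1 hx'
  exact ⟨a, ha⟩

/-- `-c` has a fifth root if `5` does not divide `q - 1` -/
lemma fifth (k : Type) [Field k] [Fintype k] (h5 : Fintype.card k % 5 ≠ 1) (h0 : Fintype.card k % 5 ≠ 0)
    (c : k) (hc : c ≠ 0) : ∃ ν : k, ν ^ 5 = c := by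
  have h1 : c ^ (Fintype.card k - 1) = 1 := FiniteField.pow_card_sub_one_eq_one c hc
  have hq : 1 < Fintype.card k := Fintype.one_lt_card
  have key : ∀ j t : ℕ, 5 * t = j * (Fintype.card k - 1) + 1 → ∃ ν : k, ν ^ 5 = c := by
    intro j t h
    refine ⟨c ^ t, ?_⟩
    rw [← pow_mul, mul_comm t 5, h, pow_succ, mul_comm j, pow_mul, h1, one_pow, one_mul]
  have h2 : Fintype.card k % 5 = 2 ∨ Fintype.card k % 5 = 3 ∨ Fintype.card k % 5 = 4 := by omega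
  rcases h2 with h2 | h2 | h2
  · exact key 4 ((4 * (Fintype.card k - 1) + 1) / 5) (by omega)
  · exact key 2 ((2 * (Fintype.card k - 1) + 1) / 5) (by omega)
  · exact key 3 ((3 * (Fintype.card k - 1) + 1) / 5) (by omega)

/-- the residues -/
def W : Finset ℕ := {1, 7, 13, 19}

lemma W_mul : ∀ R ∈ W, ∀ w ∈ W, (R * w) % 30 ∈ W := by decide

lemma W_bd : ∀ w ∈ W, 1 ≤ w ∧ w < 20 := by decide

lemma W_cases {w : ℕ} (h : w ∈ W) : w = 1 ∨ w = 7 ∨ w = 13 ∨ w = 19 := by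
  simpa [W] using h

lemma W_of {r : ℕ} (h6 : r % 6 = 1) (h5 : r % 5 ≠ 0) : r % 30 ∈ W := by
  have : r % 30 = 1 ∨ r % 30 = 7 ∨ r % 30 = 13 ∨ r % 30 = 19 := by omega
  simpa [W] using this

/-- the comparison with the known solution -/
lemma setup (hE : S_E30) (hC : S_CMP) (k : Type) [Field k] [Finite k] (K : Type) [Field K]
    [Algebra k K] [IsAlgClosed K] (p l : ℕ) [Fact p.Prime] [CharP k p] [CharP K p]
    (hp : p = 6 * l + 1) (hp5 : p % 5 ≠ 0) (b c : k) (hb : b ≠ 0) (hc : c ≠ 0) (m : ℕ) (hm : 1 ≤ m)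
    (hpm : ¬ p ∣ 5 * m) (g : k[X]) (hR : Rel p l (5 * m) (1 / (2 * b ^ 2)) c g) (s ν : K)
    (h2 : (2 : K) ≠ 0) (h3 : (3 : K) ≠ 0) (hmK : (m : K) ≠ 0)
    (hs : s ^ 2 = 5) (hs1 : s - 1 ≠ 0) (hs5 : 5 + 2 * s ≠ 0) (hν : ν ^ 5 = -algebraMap k K c) :
    ∃ θ κ : K, θ ^ 2 = (5 + 2 * s) * ν ∧
      κ ^ 3 * (algebraMap k K b) ^ 4 = 54 * (m : K) ^ 3 * θ ∧ ∀ w ∈ W,
      (G0 m κ s ν).coeff (w * m - 1) ≠ 0 ∧
      algebraMap k K (g.coeff (((Nat.card k % 30) * w) % 30 * m - 1)) *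
        (G0 m κ s ν).coeff (w * m - 1) ^ Nat.card k =
      algebraMap k K (g.coeff (w * m - 1)) *
        (G0 m κ s ν).coeff (((Nat.card k % 30) * w) % 30 * m - 1) := by
  have hbK : algebraMap k K b ≠ 0 := by
    rw [Ne, map_eq_zero]
    exact hb
  have hcK : algebraMap k K c ≠ 0 := by
    rw [Ne, map_eq_zero]
    exact hc
  have hν0 : ν ≠ 0 := by
    rintro rfl
    apply hcK
    have : (0 : K) ^ 5 = 0 := by norm_num
    rw [this] at hν
    exact neg_eq_zero.1 hν.symm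
  obtain ⟨θ, hθ⟩ := IsAlgClosed.exists_pow_nat_eq ((5 + 2 * s) * ν) (n := 2) (by norm_num)
  have hθ0 : θ ≠ 0 := by
    rintro rfl
    have h0 : (5 + 2 * s) * ν = 0 := by
      rw [← hθ]
      norm_num
    exact mul_ne_zero hs5 hν0 h0
  obtain ⟨μ, hμ⟩ := IsAlgClosed.exists_pow_nat_eq (-2 * θ / algebraMap k K b) (n := 3) (by norm_num)
  have hμ' : algebraMap k K b * μ ^ 3 = -2 * θ := by
    rw [hμ]
    field_simp
  have hμ0 : μ ≠ 0 := by
    rintro rfl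
    have h1 : (2 : K) * θ = 0 := by linear_combination hμ'
    exact mul_ne_zero h2 hθ0 h1
  obtain ⟨κ, hκ⟩ : ∃ κ : K, κ = 6 * (m : K) * θ / ((algebraMap k K b) ^ 2 * μ ^ 2) := ⟨_, rfl⟩
  have h6 : (6 : K) ≠ 0 := by
    have : (6 : K) = 2 * 3 := by norm_num
    rw [this]
    exact mul_ne_zero h2 h3
  have hκ0 : κ ≠ 0 := by
    rw [hκ]
    exact div_ne_zero (mul_ne_zero (mul_ne_zero h6 hmK) hθ0)
      (mul_ne_zero (pow_ne_zero _ hbK) (pow_ne_zero _ hμ0))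
  have hne : ∀ w ∈ W, (G0 m κ s ν).coeff (w * m - 1) ≠ 0 := by
    intro w hw
    rcases W_cases hw with rfl | rfl | rfl | rfl
    · rw [G0_1 m hm]
      exact neg_ne_zero.2 (mul_ne_zero hκ0 (pow_ne_zero _ hν0))
    · rw [G0_7 m hm]
      exact mul_ne_zero (mul_ne_zero hκ0 hs1) (pow_ne_zero _ hν0)
    · rw [G0_13 m hm]
      exact neg_ne_zero.2 (mul_ne_zero (mul_ne_zero hκ0 hs1) hν0)
    · rw [G0_19 m hm]
      exact hκ0
  refine ⟨θ, κ, hθ, kap3 hbK hμ' hθ0 h2 hκ, fun w hw => ⟨hne w hw, ?_⟩⟩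
  have hpm' : ¬ p ∣ m := fun h => hpm (h.mul_left 5)
  have hrel := hE K p l hp m (algebraMap k K b) (algebraMap k K c) s ν θ μ hm hpm' hbK hcK hs hν hθ
    hμ'
  rw [← hκ] at hrel
  have e1 : algebraMap k K (1 / (2 * b ^ 2)) = 1 / (2 * (algebraMap k K b) ^ 2) := by
    rw [map_div₀, map_one, map_mul, map_pow, map_ofNat]
  have h2k : (2 : k) ≠ 0 := by
    intro h
    apply h2
    have := congrArg (algebraMap k K) h
    rwa [map_ofNat, map_zero] at this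
  have hα : (1 / (2 * b ^ 2) : k) ≠ 0 :=
    one_div_ne_zero (mul_ne_zero h2k (pow_ne_zero _ hb))
  have hpW : p % 30 ∈ W := W_of (by omega) hp5
  have hU : ∀ u ∈ W.image (fun w => w * m), 1 ≤ u ∧ u < 4 * (5 * m) ∧
      (p * u) % (6 * (5 * m)) ∈ W.image (fun w => w * m) ∧ (G0 m κ s ν).coeff (u - 1) ≠ 0 := by
    intro u hu
    obtain ⟨w', hw', rfl⟩ := Finset.mem_image.1 hu
    obtain ⟨b1, b2⟩ := W_bd w' hw'
    refine ⟨Nat.mul_pos b1 hm, ?_, ?_, hne w' hw'⟩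
    · have : w' * m < 20 * m := Nat.mul_lt_mul_of_pos_right b2 hm
      omega
    · rw [modm p w' m _ rfl]
      exact Finset.mem_image.2 ⟨_, W_mul _ hpW _ hw', rfl⟩
  have h4 := (hC k K p l hp (5 * m) (1 / (2 * b ^ 2)) c (by omega) hpm hα hc g (G0 m κ s ν) hR
    (by rw [e1]; exact hrel) _ hU (w * m) (Finset.mem_image.2 ⟨w, hw, rfl⟩)).2
  rw [modm (Nat.card k) w m _ rfl] at h4
  exact h4

lemma chain2 {K : Type} [Field K] (q : ℕ) (a0 a1 A0 A1 : K) (h0 : a1 * A0 ^ q = a0 * A1)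
    (h1 : a0 * A1 ^ q = a1 * A0) (ha : a0 ≠ 0) (hA1 : A1 ≠ 0) : (A0 * A1) ^ q = A0 * A1 := by
  have ha1 : a1 ≠ 0 := by
    rintro rfl
    rw [zero_mul] at h0
    exact mul_ne_zero ha hA1 h0.symm
  refine mul_left_cancel₀ (mul_ne_zero ha1 ha) ?_
  calc a1 * a0 * (A0 * A1) ^ q = (a1 * A0 ^ q) * (a0 * A1 ^ q) := by
        rw [mul_pow]
        ring
    _ = (a0 * A1) * (a1 * A0) := by rw [h0, h1]
    _ = a1 * a0 * (A0 * A1) := by ring

lemma chain4 {K : Type} [Field K] (q : ℕ) (a0 a1 a2 a3 A0 A1 A2 A3 : K)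
    (h0 : a1 * A0 ^ q = a0 * A1) (h1 : a2 * A1 ^ q = a1 * A2) (h2 : a3 * A2 ^ q = a2 * A3)
    (h3 : a0 * A3 ^ q = a3 * A0) (ha : a0 ≠ 0) (hA1 : A1 ≠ 0) (hA2 : A2 ≠ 0) (hA3 : A3 ≠ 0) :
    (A0 * A1 * A2 * A3) ^ q = A0 * A1 * A2 * A3 := by
  have ha1 : a1 ≠ 0 := by
    rintro rfl
    rw [zero_mul] at h0
    exact mul_ne_zero ha hA1 h0.symm
  have ha2 : a2 ≠ 0 := by
    rintro rfl
    rw [zero_mul] at h1
    exact mul_ne_zero ha1 hA2 h1.symm
  have ha3 : a3 ≠ 0 := by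
    rintro rfl
    rw [zero_mul] at h2
    exact mul_ne_zero ha2 hA3 h2.symm
  refine mul_left_cancel₀ (mul_ne_zero (mul_ne_zero ha1 ha2) (mul_ne_zero ha3 ha)) ?_
  calc a1 * a2 * (a3 * a0) * (A0 * A1 * A2 * A3) ^ q =
        (a1 * A0 ^ q) * (a2 * A1 ^ q) * (a3 * A2 ^ q) * (a0 * A3 ^ q) := by
        rw [mul_pow, mul_pow, mul_pow]
        ring
    _ = (a0 * A1) * (a1 * A2) * (a2 * A3) * (a3 * A0) := by rw [h0, h1, h2, h3]
    _ = a1 * a2 * (a3 * a0) * (A0 * A1 * A2 * A3) := by ring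

lemma back4 : ∀ R : ℕ, (R = 7 ∨ R = 13) → ∀ w ∈ W,
    (R * ((R * ((R * ((R * w) % 30)) % 30)) % 30)) % 30 = w := by
  rintro R (rfl | rfl) <;> decide

lemma perm4 {K : Type} [Field K] (A : ℕ → K) : ∀ R : ℕ, (R = 7 ∨ R = 13) → ∀ w ∈ W,
    A w * A ((R * w) % 30) * A ((R * ((R * w) % 30)) % 30) *
      A ((R * ((R * ((R * w) % 30)) % 30)) % 30) = A 1 * A 7 * A 13 * A 19 := by
  rintro R (rfl | rfl) w hw <;> rcases W_cases hw with rfl | rfl | rfl | rfl <;>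
    simp only [Nat.reduceMul, Nat.reduceMod] <;> ring

lemma exists_zeta (K : Type) [Field K] [IsAlgClosed K] :
    ∃ ζ : K, ζ ^ 4 + ζ ^ 3 + ζ ^ 2 + ζ + 1 = 0 := by
  have hd : (X ^ 4 + X ^ 3 + X ^ 2 + X + 1 : K[X]).degree = 4 := by compute_degree!
  obtain ⟨ζ, hζ⟩ := IsAlgClosed.exists_root (X ^ 4 + X ^ 3 + X ^ 2 + X + 1 : K[X])
    (by rw [hd]; norm_num)
  exact ⟨ζ, by simpa [IsRoot] using hζ⟩

/-- **F30** -/
theorem t_F30 (hE : S_E30) (hC : S_CMP) : Pool.Agent.N163.KG.S_F30 := by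
  intro k _ _ p l _ _ hp b c hadm n g hn hpn hR u hu1 hu4 hu hgu
  obtain ⟨m, w, hwW, rfl, rfl⟩ : ∃ m w : ℕ, w ∈ W ∧ n = 5 * m ∧ u = w * m := by
    rcases hu with h | h | h | h
    · exact ⟨n / 5, 1, by decide, by omega, by omega⟩
    · exact ⟨n / 5, 7, by decide, by omega, by omega⟩
    · exact ⟨n / 5, 13, by decide, by omega, by omega⟩
    · exact ⟨n / 5, 19, by decide, by omega, by omega⟩
  have hm : 1 ≤ m := by omega
  have : Fintype k := Fintype.ofFinite k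
  obtain ⟨K, iK, iA, iC⟩ : ∃ (K : Type) (_ : Field K) (_ : Algebra k K), IsAlgClosed K :=
    ⟨AlgebraicClosure k, inferInstance, inferInstance, inferInstance⟩
  have hpp : p.Prime := Fact.out
  have hch : CharP K p := charP_of_injective_algebraMap (algebraMap k K).injective p
  have hp7 : 7 ≤ p := by
    have := hpp.two_le
    omega
  have hp5 : p % 5 ≠ 0 := by
    intro h
    have h1 := (Nat.prime_dvd_prime_iff_eq (by norm_num) hpp).1 (Nat.dvd_of_mod_eq_zero h)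
    omega
  have hK : ∀ j : ℕ, ¬ p ∣ j → (j : K) ≠ 0 := fun j h h0 => h ((CharP.cast_eq_zero_iff K p j).1 h0)
  have h2 : (2 : K) ≠ 0 := by
    exact_mod_cast hK 2 (Nat.not_dvd_of_pos_of_lt (by norm_num) (by omega))
  have h3 : (3 : K) ≠ 0 := by
    exact_mod_cast hK 3 (Nat.not_dvd_of_pos_of_lt (by norm_num) (by omega))
  have h5 : (5 : K) ≠ 0 := by
    exact_mod_cast hK 5 (Nat.not_dvd_of_pos_of_lt (by norm_num) (by omega))
  have hmK : (m : K) ≠ 0 := hK m (fun h => hpn (h.mul_left 5))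
  -- the order of the field
  obtain ⟨f, -, hf⟩ := FiniteField.card k p
  have hcard : Nat.card k = Fintype.card k := Nat.card_eq_fintype_card
  have hq6 : Nat.card k % 6 = 1 := by
    have h6 : p % 6 = 1 := by omega
    rw [hcard, hf, Nat.pow_mod, h6, one_pow]
    rfl
  have hq5 : Nat.card k % 5 ≠ 0 := by
    intro h
    rw [hcard, hf] at h
    exact hp5 (Nat.mod_eq_zero_of_dvd
      (Nat.Prime.dvd_of_dvd_pow (by norm_num) (Nat.dvd_of_mod_eq_zero h)))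
  -- the fixed field
  obtain ⟨S, hS⟩ : ∃ S : Subfield K, ∀ x : K, x ∈ S ↔ x ^ Nat.card k = x := by
    refine ⟨((FiniteField.frobeniusAlgHom k K : K →ₐ[k] K) : K →+* K).eqLocusField
      (RingHom.id K), fun x => ?_⟩
    rw [hcard]
    exact Iff.rfl
  have hSk : ∀ a : k, algebraMap k K a ∈ S := by
    intro a
    rw [hS, hcard, ← map_pow, FiniteField.pow_card]
  have hSr : ∀ x ∈ S, ∃ a : k, algebraMap k K a = x := by
    intro x hx
    rw [hS, hcard] at hx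
    exact mem_range k K x hx
  have hnat : ∀ j : ℕ, (j : K) ∈ S := fun j => natCast_mem S j
  -- the fifth roots of unity
  obtain ⟨ζ, hζ⟩ := exists_zeta K
  have hζ5 : ζ ^ 5 = 1 := by linear_combination (ζ - 1) * hζ
  have hζq : ζ ^ Nat.card k = ζ ^ (Nat.card k % 5) := by
    conv_lhs => rw [← Nat.div_add_mod (Nat.card k) 5, pow_add, pow_mul, hζ5, one_pow, one_mul]
  obtain ⟨s, hsd⟩ : ∃ s : K, s = 1 + 2 * (ζ + ζ ^ 4) := ⟨_, rfl⟩
  have hs : s ^ 2 = 5 := by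
    rw [hsd]
    linear_combination (4 * ζ ^ 4 - 4 * ζ ^ 3 + 8 * ζ - 4) * hζ
  have hs1 : s - 1 ≠ 0 := by
    intro h
    have h4 : (2 : K) * 2 = 0 := by linear_combination (s + 1) * h - hs
    exact mul_ne_zero h2 h2 h4
  have hs5 : 5 + 2 * s ≠ 0 := by
    intro h
    apply h5
    linear_combination (5 - 2 * s) * h + 4 * hs
  have hbK : algebraMap k K b ≠ 0 := by
    rw [Ne, map_eq_zero]
    exact hadm.b_ne
  have hcK : algebraMap k K c ≠ 0 := by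
    rw [Ne, map_eq_zero]
    exact hadm.c_ne
  have hgK : algebraMap k K (g.coeff (w * m - 1)) ≠ 0 := by
    rw [Ne, map_eq_zero]
    exact hgu
  by_cases h1 : Nat.card k % 5 = 1
  · exfalso
    have hζS : ζ ∈ S := by
      rw [hS, hζq, h1, pow_one]
    have hsS : s ∈ S := by
      rw [hsd]
      exact S.add_mem S.one_mem (S.mul_mem (by exact_mod_cast hnat 2)
        (S.add_mem hζS (S.pow_mem hζS 4)))
    have hs1S : s - 1 ∈ S := S.sub_mem hsS S.one_mem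
    obtain ⟨ν, hν⟩ := IsAlgClosed.exists_pow_nat_eq (-algebraMap k K c) (n := 5) (by norm_num)
    have hν0 : ν ≠ 0 := by
      rintro rfl
      apply hcK
      have : (0 : K) ^ 5 = 0 := by norm_num
      rw [this] at hν
      exact neg_eq_zero.1 hν.symm
    obtain ⟨θ, κ, hθ, hκ, hA⟩ := setup hE hC k K p l hp hp5 b c hadm.b_ne hadm.c_ne m hm hpn g hR s ν
      h2 h3 hmK hs hs1 hs5 hν
    have hR30 : Nat.card k % 30 = 1 := by omega
    obtain ⟨hne, hcmp⟩ := hA w hwW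
    have hw30 : w % 30 = w := Nat.mod_eq_of_lt (by have := (W_bd w hwW).2; omega)
    rw [hR30, one_mul, hw30] at hcmp
    have hAS : (G0 m κ s ν).coeff (w * m - 1) ∈ S := (hS _).2 (mul_left_cancel₀ hgK hcmp)
    have hκe : ∃ e : ℕ, (e = 0 ∨ e = 1 ∨ e = 2 ∨ e = 3) ∧ κ * ν ^ e ∈ S := by
      rcases W_cases hwW with rfl | rfl | rfl | rfl
      · rw [G0_1 m hm] at hAS
        exact ⟨3, by simp, by simpa using S.neg_mem hAS⟩
      · rw [G0_7 m hm] at hAS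
        refine ⟨2, by simp, ?_⟩
        have h6 := S.div_mem hAS hs1S
        have h7 : κ * (s - 1) * ν ^ 2 / (s - 1) = κ * ν ^ 2 := by field_simp
        rwa [h7] at h6
      · rw [G0_13 m hm] at hAS
        refine ⟨1, by simp, ?_⟩
        have h6 := S.div_mem (S.neg_mem hAS) hs1S
        have h7 : - -(κ * (s - 1) * ν) / (s - 1) = κ * ν ^ 1 := by field_simp
        rwa [h7] at h6
      · rw [G0_19 m hm] at hAS
        exact ⟨0, by simp, by simpa using hAS⟩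
    obtain ⟨e, he, hAe⟩ := hκe
    have hx0 : ζ + ζ ^ 4 ≠ 0 := by
      intro h
      apply hs1
      rw [hsd, h]
      ring
    have hrS : (ζ - ζ ^ 4) / (ζ + ζ ^ 4) ∈ S :=
      S.div_mem (S.sub_mem hζS (S.pow_mem hζS 4)) (S.add_mem hζS (S.pow_mem hζS 4))
    have hr : ((ζ - ζ ^ 4) / (ζ + ζ ^ 4)) ^ 2 = -(5 + 2 * s) := by
      rw [div_pow, div_eq_iff (pow_ne_zero _ hx0), hsd]
      linear_combination (4 * ζ ^ 8 - 4 * ζ ^ 7 + 12 * ζ ^ 5 - 4 * ζ ^ 4 - 4 * ζ ^ 3 + 8 * ζ ^ 2) * hζ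
    obtain ⟨y, hy, hyc⟩ := case1 S h2 h3 (hSk b) (hSk c) (hnat m) hsS hrS hbK hmK hs5 hν0 hν hθ hκ
      hr e he hAe
    obtain ⟨a, ha⟩ := hSr y hy
    apply hadm.c_nonsq
    refine ⟨a, (algebraMap k K).injective ?_⟩
    rw [map_mul, ha, ← hyc, sq]
  · refine ⟨h1, ?_⟩
    obtain ⟨ν₀, hν₀⟩ := fifth k (by rw [← hcard]; exact h1) (by rw [← hcard]; exact hq5) (-c)
      (neg_ne_zero.2 hadm.c_ne)
    obtain ⟨γ, hγ⟩ := hadm.c_cube
    have hγ0 : γ ≠ 0 := by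
      rintro rfl
      apply hadm.c_ne
      rw [← hγ]
      norm_num
    have hν00 : ν₀ ≠ 0 := by
      rintro rfl
      apply hadm.c_ne
      have : (0 : k) ^ 5 = 0 := by norm_num
      rw [this] at hν₀
      exact neg_eq_zero.1 hν₀.symm
    obtain ⟨ρ₀, hρ₀⟩ : ∃ ρ₀ : k, ρ₀ = ν₀ ^ 2 / (-γ) := ⟨_, rfl⟩
    have hρν : ν₀ = ρ₀ ^ 3 := by
      rw [hρ₀, div_pow, eq_div_iff (pow_ne_zero _ (neg_ne_zero.2 hγ0))]
      linear_combination (-ν₀) * hγ - ν₀ * hν₀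
    have hρ00 : ρ₀ ≠ 0 := by
      rw [hρ₀]
      exact div_ne_zero (pow_ne_zero _ hν00) (neg_ne_zero.2 hγ0)
    have hρK : algebraMap k K ρ₀ ≠ 0 := by
      rw [Ne, map_eq_zero]
      exact hρ00
    have hν : (algebraMap k K ν₀) ^ 5 = -algebraMap k K c := by
      rw [← map_pow, hν₀, map_neg]
    have hνρ : algebraMap k K ν₀ = (algebraMap k K ρ₀) ^ 3 := by
      rw [← map_pow, ← hρν]
    have hν0 : algebraMap k K ν₀ ≠ 0 := by
      rw [Ne, map_eq_zero]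
      exact hν00
    obtain ⟨θ, κ, hθ, hκ, hA⟩ := setup hE hC k K p l hp hp5 b c hadm.b_ne hadm.c_ne m hm hpn g hR s
      (algebraMap k K ν₀) h2 h3 hmK hs hs1 hs5 hν
    have fin : (∃ β ∈ S, algebraMap k K b = 10 * β ^ 3) → ∃ β : k, b = 10 * β ^ 3 := by
      rintro ⟨β, hβS, hβ⟩
      obtain ⟨a, rfl⟩ := hSr β hβS
      refine ⟨a, (algebraMap k K).injective ?_⟩
      rw [hβ, map_mul, map_pow, map_ofNat]
    by_cases h4 : Nat.card k % 5 = 4
    · have hR30 : Nat.card k % 30 = 19 := by omega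
      rw [hR30] at hA
      have hζS : ζ ^ Nat.card k = ζ ^ 4 := by rw [hζq, h4]
      have hsS : s ∈ S := by
        rw [hS]
        have e1 : s ^ Nat.card k = (FiniteField.frobeniusAlgHom k K : K →ₐ[k] K) s := by
          rw [hcard]
          rfl
        have e2 : (FiniteField.frobeniusAlgHom k K : K →ₐ[k] K) ζ = ζ ^ 4 := by
          rw [← hζS, hcard]
          rfl
        rw [e1, hsd, map_add, map_one, map_mul, map_ofNat, map_add, map_pow, e2]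
        linear_combination (2 * ζ ^ 12 - 2 * ζ ^ 11 + 2 * ζ ^ 7 - 2 * ζ ^ 6 + 2 * ζ ^ 2 - 2 * ζ) * hζ
      have hs1S : s - 1 ∈ S := S.sub_mem hsS S.one_mem
      have hνS : algebraMap k K ν₀ ∈ S := hSk ν₀
      have hκS : κ ^ 2 ∈ S := by
        have hw' : (19 * w) % 30 ∈ W := W_mul 19 (by decide) w hwW
        obtain ⟨n0, c0⟩ := hA w hwW
        obtain ⟨n1, c1⟩ := hA _ hw'
        have hback : ∀ w ∈ W, (19 * ((19 * w) % 30)) % 30 = w := by decide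
        rw [hback w hwW] at c1
        have hprod := (hS _).2 (chain2 (Nat.card k) _ _ _ _ c0 c1 hgK n1)
        have e19 : (19 * 1) % 30 = 19 := rfl
        have e7 : (19 * 7) % 30 = 13 := rfl
        have e13 : (19 * 13) % 30 = 7 := rfl
        have e1 : (19 * 19) % 30 = 1 := rfl
        rcases W_cases hwW with rfl | rfl | rfl | rfl
        · rw [e19, G0_1 m hm, G0_19 m hm] at hprod
          have h6 := S.div_mem (S.neg_mem hprod) (S.pow_mem hνS 3)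
          have h7 : -(-(κ * algebraMap k K ν₀ ^ 3) * κ) / algebraMap k K ν₀ ^ 3 = κ ^ 2 := by
            field_simp
          rwa [h7] at h6
        · rw [e7, G0_7 m hm, G0_13 m hm] at hprod
          have h6 := S.div_mem (S.neg_mem hprod) (S.mul_mem (S.pow_mem hs1S 2) (S.pow_mem hνS 3))
          have h7 : -(κ * (s - 1) * algebraMap k K ν₀ ^ 2 * -(κ * (s - 1) * algebraMap k K ν₀)) /
              ((s - 1) ^ 2 * algebraMap k K ν₀ ^ 3) = κ ^ 2 := by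
            field_simp
          rwa [h7] at h6
        · rw [e13, G0_7 m hm, G0_13 m hm] at hprod
          have h6 := S.div_mem (S.neg_mem hprod) (S.mul_mem (S.pow_mem hs1S 2) (S.pow_mem hνS 3))
          have h7 : -(-(κ * (s - 1) * algebraMap k K ν₀) * (κ * (s - 1) * algebraMap k K ν₀ ^ 2)) /
              ((s - 1) ^ 2 * algebraMap k K ν₀ ^ 3) = κ ^ 2 := by
            field_simp
          rwa [h7] at h6
        · rw [e1, G0_1 m hm, G0_19 m hm] at hprod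
          have h6 := S.div_mem (S.neg_mem hprod) (S.pow_mem hνS 3)
          have h7 : -(κ * -(κ * algebraMap k K ν₀ ^ 3)) / algebraMap k K ν₀ ^ 3 = κ ^ 2 := by
            field_simp
          rwa [h7] at h6
      exact fin (case4 S h2 h3 h5 (hSk b) (hnat m) hsS (hSk ρ₀) hκS hbK hmK hs hρK hνρ hθ hκ)
    · obtain ⟨P, hP⟩ : ∃ P : K, P = κ ^ 4 * (s - 1) ^ 2 * (algebraMap k K ν₀) ^ 6 := ⟨_, rfl⟩
      have hPS : P ∈ S := by
        have hRc : Nat.card k % 30 = 7 ∨ Nat.card k % 30 = 13 := by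
          have h23 : Nat.card k % 5 = 2 ∨ Nat.card k % 5 = 3 := by
            clear hA
            omega
          rcases h23 with h23 | h23
          · left
            omega
          · right
            omega
        obtain ⟨R, hRd⟩ : ∃ R : ℕ, R = Nat.card k % 30 := ⟨_, rfl⟩
        rw [← hRd] at hA hRc
        have hRW : R ∈ W := by
          rcases hRc with h | h <;> rw [h] <;> decide
        have hw1 : (R * w) % 30 ∈ W := W_mul R hRW w hwW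
        have hw2 : (R * ((R * w) % 30)) % 30 ∈ W := W_mul R hRW _ hw1
        have hw3 : (R * ((R * ((R * w) % 30)) % 30)) % 30 ∈ W := W_mul R hRW _ hw2
        obtain ⟨n0, c0⟩ := hA w hwW
        obtain ⟨n1, c1⟩ := hA _ hw1
        obtain ⟨n2, c2⟩ := hA _ hw2
        obtain ⟨n3, c3⟩ := hA _ hw3
        rw [back4 R hRc w hwW] at c3
        have hprod := (hS _).2 (chain4 (Nat.card k) _ _ _ _ _ _ _ _ c0 c1 c2 c3 hgK n1 n2 n3)
        have hperm := perm4 (fun w => (G0 m κ s (algebraMap k K ν₀)).coeff (w * m - 1)) R hRc w hwW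
        rw [hperm] at hprod
        have key : (G0 m κ s (algebraMap k K ν₀)).coeff (1 * m - 1) *
            (G0 m κ s (algebraMap k K ν₀)).coeff (7 * m - 1) *
            (G0 m κ s (algebraMap k K ν₀)).coeff (13 * m - 1) *
            (G0 m κ s (algebraMap k K ν₀)).coeff (19 * m - 1) = P := by
          rw [G0_1 m hm, G0_7 m hm, G0_13 m hm, G0_19 m hm, hP]
          ring
        rw [← key]
        exact hprod
      exact fin (case23 S h2 h3 h5 (hSk b) (hnat m) (hSk ρ₀) hPS hbK hmK hs hρK hνρ hθ hκ hP)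

end Pool.Agent.N163.KG.F30
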