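import Pool.Agent.N163.KG.Stm

/-!
# `MP_3da457_ag`: the fraction `1 / 6` is impossible
-/

set_option autoImplicit false

namespace Pool.Agent.N163.KG.F6

open Polynomial

theorem core {k K : Type} [Field k] [Finite k] [Field K] [Algebra k K] [IsAlgClosed K]
    (p l : ℕ) [Fact p.Prime] [CharP k p] [CharP K p] (hE : Pool.Agent.N163.KG.S_E6)
    (hC : Pool.Agent.N163.KG.S_CMP) (hp : p = 6 * l + 1) (hp7 : 7 ≤ p) (b c : k)
    (hA : Pool.Agent.N420.KS.Admissible k b c) (g : k[X]) (u : ℕ) (hn : 1 ≤ u) (hpn : ¬ p ∣ u)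
    (hRel : Pool.Agent.N163.KG.Rel p l u (1 / (2 * b ^ 2)) c g) (hgu : g.coeff (u - 1) ≠ 0) :
    False := by
  have hcast : ∀ m : ℕ, ¬ p ∣ m → ((m : ℕ) : K) ≠ 0 := by
    intro m hm h0
    exact hm ((CharP.cast_eq_zero_iff K p m).1 h0)
  have h2 : (2 : K) ≠ 0 := by
    have := hcast 2 (fun h => by have := Nat.le_of_dvd (by norm_num) h; omega)
    simpa using this
  have h3 : (3 : K) ≠ 0 := by
    have := hcast 3 (fun h => by have := Nat.le_of_dvd (by norm_num) h; omega)
    simpa using this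
  have h6 : (6 : K) ≠ 0 := by
    have : (6 : K) = 2 * 3 := by norm_num
    rw [this]; exact mul_ne_zero h2 h3
  have hnK : (u : K) ≠ 0 := hcast u hpn
  have hbk : b ≠ 0 := hA.b_ne
  have hck : c ≠ 0 := hA.c_ne
  have hbK : algebraMap k K b ≠ 0 := by simpa using hbk
  have hcK : algebraMap k K c ≠ 0 := by simpa using hck
  obtain ⟨γ, hγ⟩ := IsAlgClosed.exists_pow_nat_eq (algebraMap k K c) (n := 2) (by norm_num)
  obtain ⟨μ, hμ⟩ := IsAlgClosed.exists_pow_nat_eq (-2 / algebraMap k K b) (n := 3) (by norm_num)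
  have hμ' : algebraMap k K b * μ ^ 3 = -2 := by
    rw [hμ]; field_simp
  have hγ0 : γ ≠ 0 := by
    rintro rfl
    apply hcK
    rw [← hγ]; ring
  have hμ0 : μ ≠ 0 := by
    rintro rfl
    have : (2 : K) = 0 := by linear_combination hμ'
    exact h2 this
  set κ : K := -6 * u * γ / ((algebraMap k K b) ^ 2 * μ ^ 2) with hκ
  have hκ0 : κ ≠ 0 := by
    rw [hκ]
    apply div_ne_zero
    · exact mul_ne_zero (mul_ne_zero (neg_ne_zero.2 h6) hnK) hγ0
    · exact mul_ne_zero (pow_ne_zero _ hbK) (pow_ne_zero _ hμ0)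
  have hRel0 := hE K p l hp u (algebraMap k K b) (algebraMap k K c) γ μ hn hpn hbK hcK hγ hμ'
  rw [← hκ] at hRel0
  have hα : (1 / (2 * b ^ 2) : k) ≠ 0 := by
    have h2k : (2 : k) ≠ 0 := by
      intro h
      apply h2
      have := congrArg (algebraMap k K) h
      rwa [map_ofNat, map_zero] at this
    exact one_div_ne_zero (mul_ne_zero h2k (pow_ne_zero _ hbk))
  have hαm : algebraMap k K (1 / (2 * b ^ 2)) = 1 / (2 * (algebraMap k K b) ^ 2) := by
    rw [map_div₀, map_one, map_mul, map_pow, map_ofNat]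
  have hco : (C κ * X ^ (u - 1) : K[X]).coeff (u - 1) = κ := by
    simp
  have hcmp := hC k K p l hp u (1 / (2 * b ^ 2)) c hn hpn hα hck g (C κ * X ^ (u - 1)) hRel
    (by rw [hαm]; exact hRel0) {u} (by
      intro v hv
      rw [Finset.mem_singleton] at hv
      subst hv
      refine ⟨hn, by omega, ?_, ?_⟩
      · rw [Finset.mem_singleton]
        have : p * v = v + (6 * v) * l := by rw [hp]; ring
        rw [this, Nat.add_mul_mod_self_left]
        exact Nat.mod_eq_of_lt (by omega)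
      · rw [hco]; exact hκ0) u (Finset.mem_singleton_self u)
  obtain ⟨hm, he⟩ := hcmp
  rw [Finset.mem_singleton] at hm
  rw [hm, hco] at he
  have hgK : algebraMap k K (g.coeff (u - 1)) ≠ 0 := by simpa using hgu
  have hκq : κ ^ Nat.card k = κ := mul_left_cancel₀ hgK he
  -- `κ ^ 3` determines `γ`
  set d : k := b ^ 4 / (-54 * (u : k) ^ 3 * c) with hd
  have h54 : (54 : K) ≠ 0 := by
    have : (54 : K) = 2 * 3 * 3 * 3 := by norm_num
    rw [this]
    exact mul_ne_zero (mul_ne_zero (mul_ne_zero h2 h3) h3) h3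
  have hγd : γ = κ ^ 3 * algebraMap k K d := by
    have hdm : algebraMap k K d =
        (algebraMap k K b) ^ 4 / (-54 * (u : K) ^ 3 * algebraMap k K c) := by
      have e54 : algebraMap k K 54 = 54 := map_ofNat _ 54
      have eu : algebraMap k K (u : k) = (u : K) := map_natCast _ u
      rw [hd, map_div₀, map_mul, map_mul, map_neg, map_pow, map_pow, e54, eu]
    rw [hdm, hκ]
    have hμ6 : (algebraMap k K b) ^ 2 * μ ^ 6 = 4 := by
      have : (algebraMap k K b) ^ 2 * μ ^ 6 = (algebraMap k K b * μ ^ 3) ^ 2 := by ring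
      rw [this, hμ']; norm_num
    have hne : (-54 * (u : K) ^ 3 * algebraMap k K c) ≠ 0 :=
      mul_ne_zero (mul_ne_zero (neg_ne_zero.2 h54) (pow_ne_zero _ hnK)) hcK
    have hden : ((algebraMap k K b) ^ 2 * μ ^ 2) ^ 3 ≠ 0 :=
      pow_ne_zero _ (mul_ne_zero (pow_ne_zero _ hbK) (pow_ne_zero _ hμ0))
    rw [div_pow, div_mul_div_comm, eq_div_iff (mul_ne_zero hden hne)]
    have e1 : ((algebraMap k K b) ^ 2 * μ ^ 2) ^ 3 = 4 * (algebraMap k K b) ^ 4 := by
      rw [← hμ6]; ring
    rw [e1]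
    linear_combination (4 * 54 * (algebraMap k K b) ^ 4 * (u : K) ^ 3 * γ) * hγ
  have : Fintype k := Fintype.ofFinite k
  have hγq : γ ^ Nat.card k = γ := by
    conv_lhs => rw [hγd]
    rw [mul_pow, ← pow_mul, mul_comm 3, pow_mul, hκq, ← map_pow, Nat.card_eq_fintype_card,
      FiniteField.pow_card, ← hγd]
  have hodd : Fintype.card k % 2 = 1 := by
    apply FiniteField.odd_card_of_char_ne_two
    intro h
    have := hA.char_gt
    omega
  have hγq1 : γ ^ (2 * (Fintype.card k / 2)) = 1 := by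
    have h1 : γ ^ (2 * (Fintype.card k / 2)) * γ = 1 * γ := by
      rw [← pow_succ, one_mul]
      have : 2 * (Fintype.card k / 2) + 1 = Nat.card k := by
        rw [Nat.card_eq_fintype_card]; omega
      rw [this, hγq]
    exact mul_right_cancel₀ hγ0 h1
  apply hA.c_nonsq
  rw [FiniteField.isSquare_iff (by have := hA.char_gt; omega) hck]
  apply (algebraMap k K).injective
  rw [map_pow, map_one, ← hγ, ← pow_mul, hγq1]

theorem t_F6 (hE : Pool.Agent.N163.KG.S_E6) (hC : Pool.Agent.N163.KG.S_CMP) :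
    Pool.Agent.N163.KG.S_F6 := by
  intro k _ _ p l _ _ hp b c hA n g hn hpn hRel u hu1 hu4 hE' hgu
  have hun : u = n := by omega
  subst hun
  have hprime : p.Prime := Fact.out
  have hp7 : 7 ≤ p := by
    have := hprime.one_lt
    omega
  have : CharP (AlgebraicClosure k) p :=
    charP_of_injective_algebraMap (algebraMap k (AlgebraicClosure k)).injective p
  exact core (K := AlgebraicClosure k) p l hE hC hp hp7 b c hA g u hn hpn hRel hgu

end Pool.Agent.N163.KG.F6
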