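import Pool.Agent.N163.KN.Stm
import Pool.Agent.N420.KS.Defs

/-!
# `MP_3da457_ag`: complete answer, statements

`y² = x³ + a²`, `a = α (t ^ (6 n) - c)`, over `k(t)`, `k` of characteristic `p = 6 l + 1`.
-/

set_option autoImplicit false

namespace Pool.Agent.N163.KG

open Polynomial Pool.Agent.N163.KN Pool.Agent.N420.KS

/-- The polynomial `α (t ^ (6 n) - c)`. -/
noncomputable def ap {k : Type} [Field k] (α c : k) (n : ℕ) : k[X] := C α * (X ^ (6 * n) - C c)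

/-- The rational function `α (t ^ (6 n) - c)`. -/
noncomputable def ar {k : Type} [Field k] (α c : k) (n : ℕ) : RatFunc k :=
  algebraMap k[X] (RatFunc k) (ap α c n)

/-- The height of a rational function. -/
noncomputable def ht {k : Type} [Field k] (f : RatFunc k) : ℕ :=
  max f.num.natDegree f.denom.natDegree

/-- The height of a point of `y² = x³ + a²`. -/
noncomputable def Hp {k : Type} [Field k] {a : RatFunc k} : (W (a ^ 2)).Point → ℕ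
  | .zero => 0
  | .some x _ _ => ht (x ^ 3 / a ^ 2)

/-- The relations between the coefficients of a logarithmic derivative. -/
def Rel {k : Type} [Field k] (p l n : ℕ) (α c : k) (g : k[X]) : Prop :=
  ∀ u v j : ℕ, 1 ≤ u → u < 4 * n → v < 6 * n → p * u = v + 6 * n * j →
    (Nat.choose (3 * l) l : k) * g.coeff (u - 1) ^ p =
      α ^ (4 * l) * (-c) ^ (4 * l - j) * (Nat.choose (4 * l) j : k) * g.coeff (v - 1)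

/-- **OM** -/
def S_OM : Prop := ∀ (K : Type) [Field K] [DecidableEq K] (e w : K)
  (φ : (W e).Point →+ (W e).Point), (2 : K) ≠ 0 → (3 : K) ≠ 0 → e ≠ 0 → w ^ 2 + w + 1 = 0 →
  (∀ P x y, IsPt P x y → IsPt (φ P) (w * x) y) → ∀ P, P + φ P + φ (φ P) = 0

/-- **DER** -/
def S_DER : Prop := ∀ (k : Type) [Field k] (p : ℕ) [Fact p.Prime] [CharP k p]
  (δ : RatFunc k → RatFunc k), IsDer δ →
  (∀ f, δ^[p] f = 0) ∧ ∀ z, z ≠ 0 → δ^[p - 1] (δ z / z) = -(δ z / z) ^ p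

/-- **CAR** -/
def S_CAR : Prop := ∀ (K : Type) [Field K] (p l : ℕ) [Fact p.Prime] [CharP K p] (δ : K → K)
  (a x y : K), p = 6 * l + 1 → IsDn δ → (∀ f, δ^[p] f = 0) →
  (∀ z, z ≠ 0 → δ^[p - 1] (δ z / z) = -(δ z / z) ^ p) → a ≠ 0 → y ≠ 0 →
  y ^ 2 = x ^ 3 + a ^ 2 →
  δ^[p - 1] (a ^ (4 * l) * dd δ a x y) = -(Nat.choose (3 * l) l : K) * dd δ a x y ^ p

/-- **COEF** -/
def S_COEF : Prop := ∀ (k : Type) [Field k] (p l : ℕ) [Fact p.Prime] [CharP k p],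
  p = 6 * l + 1 → ∀ (n : ℕ) (α c : k) (g : k[X]), 1 ≤ n → ¬ p ∣ n → g.natDegree + 2 ≤ 4 * n →
  derivative^[p - 1] (ap α c n ^ (4 * l) * g) = -(C (Nat.choose (3 * l) l : k)) * g ^ p →
  Rel p l n α c g

/-- **KER** -/
def S_KER : Prop := ∀ (k : Type) [Field k] [Finite k] (p l : ℕ) [Fact p.Prime] [CharP k p]
  (δ : RatFunc k → RatFunc k), p = 6 * l + 1 → IsDer δ → ∀ a x y : RatFunc k, a ≠ 0 → y ≠ 0 →
  y ^ 2 = x ^ 3 + a ^ 2 → dd δ a x y = 0 →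
  ∃ x₁ y₁ : RatFunc k, y₁ ^ 2 = x₁ ^ 3 + a ^ 2 ∧ x = x₁ ^ p / a ^ (4 * l) ∧
    y = y₁ ^ p / a ^ (6 * l)

/-- **INT** -/
def S_INT : Prop := ∀ (k : Type) [Field k] (δ : RatFunc k → RatFunc k), IsDer δ →
  (2 : k) ≠ 0 → (3 : k) ≠ 0 → ∀ (n : ℕ) (α c : k), (n : k) ≠ 0 → α ≠ 0 → c ≠ 0 →
  ∀ x y : RatFunc k, y ≠ 0 → y ^ 2 = x ^ 3 + ar α c n ^ 2 →
  ∃ g : k[X], g.natDegree + 2 ≤ 4 * n ∧ dd δ (ar α c n) x y = algebraMap k[X] (RatFunc k) g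

/-- **CUBE** -/
def S_CUBE : Prop := ∀ (k : Type) [Field k], (2 : k) ≠ 0 → (3 : k) ≠ 0 →
  ∀ (n : ℕ) (α c : k), (n : k) ≠ 0 → α ≠ 0 → c ≠ 0 →
  ∀ (d : k) (x : RatFunc k), d ≠ 0 → x ^ 3 ≠ RatFunc.C d * ar α c n ^ 2

/-- **NZ** -/
def S_NZ : Prop := ∀ (k : Type) [Field k] [Finite k] (p l : ℕ) [Fact p.Prime] [CharP k p]
  (δ : RatFunc k → RatFunc k), p = 6 * l + 1 → IsDer δ → ∀ (n : ℕ) (α c : k), 1 ≤ n → ¬ p ∣ n →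
  α ≠ 0 → c ≠ 0 → ∀ x y : RatFunc k, x ≠ 0 → y ^ 2 = x ^ 3 + ar α c n ^ 2 →
  ∃ x₁ y₁ : RatFunc k, y₁ ^ 2 = x₁ ^ 3 + ar α c n ^ 2 ∧ dd δ (ar α c n) x₁ y₁ ≠ 0

/-- **SEMI** -/
def S_SEMI : Prop := ∀ (k : Type) [Field k] [Finite k] (p : ℕ) [Fact p.Prime] [CharP k p]
  (V : Type) [Fintype V] (T : (V → k) →ₗ[k] (V → k)) (A : k), A ≠ 0 →
  ∀ (r : ℕ) (g : Fin r → V → k),
  (∀ i, T (g i) = fun s => A * g i s ^ p) → ∀ v : Fin r → k, ∑ i, v i • g i = 0 →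
  v ∈ Submodule.span k {w : Fin r → k | ∃ c : Fin r → ℤ, (∀ s, ∑ i, (c i : k) * g i s = 0) ∧
    w = fun i => (c i : k)}

/-- **ALG** -/
def S_ALG : Prop := ∀ (N M p : ℕ) (G Ω : Matrix (Fin N) (Fin N) ℤ), 0 < M → 3 ∣ M → ¬ p ∣ M →
  p.Prime → G * Ω = Ω * G → G ^ M = 1 → Ω ^ 2 + Ω + 1 = 0 →
  ∀ (k : Type) [Field k] [CharP k p] (ζ : k), IsPrimitiveRoot ζ M → ∀ (u ε : ℕ) (v : Fin N → k),
  v ≠ 0 → (G.map (Int.castRingHom k)).mulVec v = ζ ^ u • v →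
  (Ω.map (Int.castRingHom k)).mulVec v = ζ ^ (M / 3 * ε) • v →
  ∀ t : ℕ, t.Coprime M → t % 3 = 1 → ∃ v' : Fin N → k, v' ≠ 0 ∧
    (G.map (Int.castRingHom k)).mulVec v' = ζ ^ (t * u) • v' ∧
    (Ω.map (Int.castRingHom k)).mulVec v' = ζ ^ (M / 3 * ε) • v'

/-- **QUAD**: exactness. -/
def S_QUAD : Prop := ∀ (M : Type) [AddCommGroup M] (F : M →+ M) (H : M → ℕ) (p C₁ C₂ : ℕ),
  2 ≤ p → (∀ P Q, H (P + Q) + H (P - Q) ≤ 2 * H P + 2 * H Q + C₁) →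
  (∀ P, 4 * H P ≤ H (P + P) + C₂) → (∀ P, H (F P) = p * H P) →
  ∀ P Q, H (P + Q) + H (P - Q) = 2 * H P + 2 * H Q

/-- The parallelogram law. -/
def Par {M : Type} [AddCommGroup M] (H : M → ℕ) : Prop :=
  ∀ P Q, H (P + Q) + H (P - Q) = 2 * H P + 2 * H Q

/-- **DESC**: descent by `1 - ω`. -/
def S_DESC : Prop := ∀ (M : Type) [AddCommGroup M] (Ω : M →+ M) (H : M → ℕ), Par H →
  (∀ P, P + Ω P + Ω (Ω P) = 0) → (∀ P, H (Ω P) = H P) → (∀ B : ℕ, {P | H P ≤ B}.Finite) →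
  (∃ S : Finset M, ∀ P, ∃ s ∈ S, ∃ Q, P = s + (Q - Ω Q)) → AddGroup.FG M

/-- **HFIN** -/
def S_HFIN : Prop := (∀ (k : Type) [Field k] [Finite k] (a : RatFunc k), a ≠ 0 →
    ∀ B : ℕ, {P : (W (a ^ 2)).Point | Hp P ≤ B}.Finite) ∧
  ∀ (k : Type) [Field k], (∀ (f : RatFunc k) (m : ℕ), ht (f ^ m) = m * ht f) ∧
    ∀ f : RatFunc k, ht f = 0 → ∃ c : k, f = RatFunc.C c

/-- **HPAR** -/
def S_HPAR : Prop := ∀ (k : Type) [Field k] [DecidableEq (RatFunc k)], (2 : k) ≠ 0 → (3 : k) ≠ 0 →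
  ∀ a : k[X], a ≠ 0 → ∃ C₁ : ℕ, ∀ P Q : (W (algebraMap k[X] (RatFunc k) a ^ 2)).Point,
    Hp (P + Q) + Hp (P - Q) ≤ 2 * Hp P + 2 * Hp Q + C₁

/-- **HDBL** -/
def S_HDBL : Prop := ∀ (k : Type) [Field k] [DecidableEq (RatFunc k)], (2 : k) ≠ 0 → (3 : k) ≠ 0 →
  ∀ a : k[X], a ≠ 0 → ∃ C₂ : ℕ, ∀ P : (W (algebraMap k[X] (RatFunc k) a ^ 2)).Point,
    4 * Hp P ≤ Hp (P + P) + C₂

/-- **THREE**: the image of `1 - ω` has finite index. -/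
def S_THREE : Prop := ∀ (k : Type) [Field k] [Finite k] [DecidableEq (RatFunc k)] (w : k),
  (2 : k) ≠ 0 → (3 : k) ≠ 0 → w ^ 2 + w + 1 = 0 → ∀ a : k[X], a ≠ 0 →
  ∀ Ω : (W (algebraMap k[X] (RatFunc k) a ^ 2)).Point →+
      (W (algebraMap k[X] (RatFunc k) a ^ 2)).Point,
  (∀ P x y, IsPt P x y → IsPt (Ω P) (RatFunc.C w * x) y) →
  ∃ S : Finset (W (algebraMap k[X] (RatFunc k) a ^ 2)).Point, ∀ P, ∃ s ∈ S, ∃ Q,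
    P = s + (Q - Ω Q)

/-- **LAT**: the determinant of a similitude of a lattice. -/
def S_LAT : Prop := ∀ (L : Type) [AddCommGroup L] [Module.Free ℤ L] [Module.Finite ℤ L]
  (H : L → ℕ) (p : ℕ), Par H → (∀ x, H x = 0 → x = 0) → ∀ F : L →ₗ[ℤ] L,
  (∀ x, H (F x) = p * H x) → LinearMap.det F ^ 2 = (p : ℤ) ^ Module.finrank ℤ L

/-- **OMD**: the eigenspaces of `ω` modulo `p` have the same dimension. -/
def S_OMD : Prop := ∀ (r : ℕ) (Ω : Matrix (Fin r) (Fin r) ℤ), Ω ^ 2 + Ω + 1 = 0 →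
  ∀ (k : Type) [Field k] (w : k), (3 : k) ≠ 0 → w ^ 2 + w + 1 = 0 →
  2 * Module.finrank k (LinearMap.ker
    (Matrix.toLin' (Ω.map (Int.castRingHom k)) - w • LinearMap.id)) = r

/-- **MAIN** -/
def S_MAIN : Prop := ∀ (k : Type) [Field k] [Finite k] (p l : ℕ) [Fact p.Prime] [CharP k p]
  (n : ℕ) (ζ w α c : k), p = 6 * l + 1 → 1 ≤ n → ¬ p ∣ n → α ≠ 0 → c ≠ 0 →
  IsPrimitiveRoot ζ (6 * n) → w ^ 2 + w + 1 = 0 →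
  ∀ (M : Type) [AddCommGroup M], AddGroup.FG M → ∀ (G Ω F : M →+ M) (D : M →+ k[X]) (H : M → ℕ),
  (∀ P, G^[6 * n] P = P) → (∀ P, G (Ω P) = Ω (G P)) → (∀ P, P + Ω P + Ω (Ω P) = 0) →
  (∀ P, F P = 0 → P = 0) → Par H → (∀ P, H (F P) = p * H P) →
  (∀ P, H P = 0 → ∃ m : ℕ, 0 < m ∧ m • P = 0) →
  (∀ P i, (D (G P)).coeff i = ζ ^ (i + 1) * (D P).coeff i) → (∀ P, D (Ω P) = C w * D P) →
  (∀ P, D (F P) = 0) → (∀ P, (D P).natDegree + 2 ≤ 4 * n) → (∀ P, D P = 0 → ∃ Q, P = F Q) →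
  (∀ P, Rel p l n α c (D P)) →
  ∀ P u, 1 ≤ u → (D P).coeff (u - 1) ≠ 0 →
  ∀ t : ℕ, t.Coprime (6 * n) → t % 3 = 1 → (t * u) % (6 * n) < 4 * n

/-- **FG** -/
def S_FG : Prop := ∀ (k : Type) [Field k] [Finite k] (p l : ℕ) [Fact p.Prime] [CharP k p]
  [DecidableEq (RatFunc k)], p = 6 * l + 1 → ∀ a : k[X], a ≠ 0 →
  Par (Hp : (W (algebraMap k[X] (RatFunc k) a ^ 2)).Point → ℕ) ∧
  AddGroup.FG (W (algebraMap k[X] (RatFunc k) a ^ 2)).Point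

/-- **WRO**: explicit points and their logarithmic derivatives. -/
def S_WRO : Prop := ∀ (K : Type) [Field K] (δ : K → K) (b e z T₁ T₂ : K), IsDn δ →
  (2 : K) ≠ 0 → (3 : K) ≠ 0 → δ b = 0 → b ≠ 0 → e ≠ 0 → z ≠ 0 → T₁ ≠ 0 → T₂ ≠ 0 → T₁ + T₂ ≠ 0 →
  T₁ + 2 * T₂ ≠ 0 → -(T₁ * T₂ * (T₁ + T₂)) = b * e * z ^ 3 →
  ∃ x y : K, y ≠ 0 ∧ y ^ 2 = x ^ 3 + (e / (2 * b ^ 2)) ^ 2 ∧
    dd δ (e / (2 * b ^ 2)) x y = (T₁ * δ T₂ - T₂ * δ T₁) / (b ^ 2 * z ^ 2)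

/-- **PT**: the relations for the points. -/
def S_PT : Prop := ∀ (k : Type) [Field k] (p l : ℕ) [Fact p.Prime] [CharP k p]
  (δ : RatFunc k → RatFunc k), p = 6 * l + 1 → IsDer δ → ∀ (n : ℕ) (α c : k), 1 ≤ n → ¬ p ∣ n →
  α ≠ 0 → c ≠ 0 → ∀ x y : RatFunc k, y ≠ 0 → y ^ 2 = x ^ 3 + ar α c n ^ 2 →
  ∀ g : k[X], dd δ (ar α c n) x y = algebraMap k[X] (RatFunc k) g →
  g.natDegree + 2 ≤ 4 * n → Rel p l n α c g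

/-- **E2** -/
def S_E2 : Prop := ∀ (k : Type) [Field k] (p l : ℕ) [Fact p.Prime] [CharP k p], p = 6 * l + 1 →
  ∀ (n : ℕ) (b c γ μ : k), 1 ≤ n → ¬ p ∣ n → b ≠ 0 → c ≠ 0 → γ ^ 2 = c → b * μ ^ 3 = -2 * γ →
  Rel p l n (1 / (2 * b ^ 2)) c (C (6 * n * γ / (b ^ 2 * μ ^ 2)) * X ^ (3 * n - 1))

/-- **E3** -/
def S_E3 : Prop := ∀ (k : Type) [Field k] (p l : ℕ) [Fact p.Prime] [CharP k p], p = 6 * l + 1 →
  ∀ (n : ℕ) (b c β χ w : k), 1 ≤ n → ¬ p ∣ n → b ≠ 0 → c ≠ 0 → β ^ 3 = b → χ ^ 3 = c →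
  w ^ 2 + w + 1 = 0 →
  Rel p l n (1 / (2 * b ^ 2)) c
    (C (2 * n * β ^ 2 * χ * (w ^ 2 - w) / b ^ 2) * X ^ (2 * n - 1))

/-- **E6** -/
def S_E6 : Prop := ∀ (k : Type) [Field k] (p l : ℕ) [Fact p.Prime] [CharP k p], p = 6 * l + 1 →
  ∀ (n : ℕ) (b c γ μ : k), 1 ≤ n → ¬ p ∣ n → b ≠ 0 → c ≠ 0 → γ ^ 2 = c → b * μ ^ 3 = -2 →
  Rel p l n (1 / (2 * b ^ 2)) c (C (-6 * n * γ / (b ^ 2 * μ ^ 2)) * X ^ (n - 1))

/-- **E12** -/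
def S_E12 : Prop := ∀ (k : Type) [Field k] (p l : ℕ) [Fact p.Prime] [CharP k p], p = 6 * l + 1 →
  ∀ (m : ℕ) (b c β γ μ : k), 1 ≤ m → ¬ p ∣ m → b ≠ 0 → c ≠ 0 → γ ^ 2 = -c → β ^ 2 = 2 * γ →
  b * μ ^ 3 = 2 * β →
  Rel p l (2 * m) (1 / (2 * b ^ 2)) c
    (C (-6 * m * β / (b ^ 2 * μ ^ 2)) * X ^ (m - 1) * (X ^ (6 * m) - C γ))

/-- **E30** -/
def S_E30 : Prop := ∀ (k : Type) [Field k] (p l : ℕ) [Fact p.Prime] [CharP k p], p = 6 * l + 1 →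
  ∀ (m : ℕ) (b c s ν θ μ : k), 1 ≤ m → ¬ p ∣ m → b ≠ 0 → c ≠ 0 → s ^ 2 = 5 → ν ^ 5 = -c →
  θ ^ 2 = (5 + 2 * s) * ν → b * μ ^ 3 = -2 * θ →
  Rel p l (5 * m) (1 / (2 * b ^ 2)) c
    (C (6 * m * θ / (b ^ 2 * μ ^ 2)) * X ^ (m - 1) *
      (X ^ (18 * m) - C ((s - 1) * ν) * X ^ (12 * m) + C ((s - 1) * ν ^ 2) * X ^ (6 * m)
        - C (ν ^ 3)))

/-- **CMP**: comparison of two solutions of the relations. -/
def S_CMP : Prop := ∀ (k K : Type) [Field k] [Finite k] [Field K] [Algebra k K] (p l : ℕ)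
  [Fact p.Prime] [CharP k p] [CharP K p], p = 6 * l + 1 → ∀ (n : ℕ) (α c : k), 1 ≤ n → ¬ p ∣ n →
  α ≠ 0 → c ≠ 0 → ∀ (g : k[X]) (g₀ : K[X]), Rel p l n α c g →
  Rel p l n (algebraMap k K α) (algebraMap k K c) g₀ → ∀ U : Finset ℕ,
  (∀ u ∈ U, 1 ≤ u ∧ u < 4 * n ∧ (p * u) % (6 * n) ∈ U ∧ g₀.coeff (u - 1) ≠ 0) →
  ∀ u ∈ U, (Nat.card k * u) % (6 * n) ∈ U ∧
    algebraMap k K (g.coeff ((Nat.card k * u) % (6 * n) - 1)) * g₀.coeff (u - 1) ^ Nat.card k =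
      algebraMap k K (g.coeff (u - 1)) * g₀.coeff ((Nat.card k * u) % (6 * n) - 1)

/-- **LAST** (parts): the coefficients at the exceptional fractions. -/
def LastStm (E : ℕ → ℕ → Prop) (R : ∀ (k : Type) [Field k], k → Prop) : Prop :=
  ∀ (k : Type) [Field k] [Finite k] (p l : ℕ) [Fact p.Prime] [CharP k p], p = 6 * l + 1 →
  ∀ b c : k, Admissible k b c → ∀ (n : ℕ) (g : k[X]), 1 ≤ n → ¬ p ∣ n →
  Rel p l n (1 / (2 * b ^ 2)) c g → ∀ u, 1 ≤ u → u < 4 * n → E n u → g.coeff (u - 1) ≠ 0 →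
  R k b

/-- **F2** -/
def S_F2 : Prop := LastStm (fun n u => 2 * u = 6 * n) fun _ _ _ => False

/-- **F3** -/
def S_F3 : Prop := LastStm (fun n u => 3 * u = 6 * n) fun _ _ _ => False

/-- **F6** -/
def S_F6 : Prop := LastStm (fun n u => 6 * u = 6 * n) fun _ _ _ => False

/-- **F12** -/
def S_F12 : Prop :=
  LastStm (fun n u => 12 * u = 6 * n ∨ 12 * u = 7 * (6 * n)) fun _ _ _ => False

/-- **F30** -/
def S_F30 : Prop :=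
  LastStm (fun n u => 30 * u = 6 * n ∨ 30 * u = 7 * (6 * n) ∨ 30 * u = 13 * (6 * n) ∨
    30 * u = 19 * (6 * n)) fun k _ b => Nat.card k % 5 ≠ 1 ∧ ∃ β : k, b = 10 * β ^ 3

/-- **POS**: a point over `k(t)`. -/
def S_POS : Prop := ∀ (k : Type) [Field k] [Finite k] (b c : k), Admissible k b c →
  (Nat.card k % 5 = 2 ∨ Nat.card k % 5 = 3) → (∃ β : k, b = 10 * β ^ 3) →
  ∃ x y : RatFunc k, x ≠ 0 ∧ y ^ 2 = x ^ 3 + ar (1 / (2 * b ^ 2)) c 5 ^ 2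

end Pool.Agent.N163.KG
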