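import Mathlib
import Pool.Agent.N163.KG.Stm

/-!
# KG/FG: the parallelogram law and finite generation of the group of points

By helper937.
-/

set_option autoImplicit false

namespace Pool.Agent.N163.KG.FG

open Polynomial
open Pool.Agent.N163.KN (W IsPt)
open Pool.Agent.N163.KG

theorem exists_omega (k : Type) [Field k] [Finite k] (p l : ℕ) [hp : Fact p.Prime] [CharP k p]
    (hpl : p = 6 * l + 1) : ∃ w : k, w ^ 2 + w + 1 = 0 := by
  classical
  haveI : Fintype k := Fintype.ofFinite k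
  obtain ⟨n, -, hn⟩ := FiniteField.card k p
  have hcard : Fintype.card kˣ = p ^ (n : ℕ) - 1 := by
    rw [Fintype.card_units, hn]
  have h3 : 3 ∣ Fintype.card kˣ := by
    rw [hcard]
    have h1 : p - 1 ∣ p ^ (n : ℕ) - 1 ^ (n : ℕ) := Nat.sub_dvd_pow_sub_pow p 1 n
    rw [one_pow] at h1
    refine Dvd.dvd.trans ?_ h1
    rw [hpl]
    exact ⟨2 * l, by omega⟩
  haveI : Fact (Nat.Prime 3) := ⟨by norm_num⟩
  obtain ⟨g, hg⟩ := exists_prime_orderOf_dvd_card 3 h3
  have hg3 : (g : k) ^ 3 = 1 := by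
    have := pow_orderOf_eq_one g
    rw [hg] at this
    have h5 := congrArg Units.val this
    rwa [Units.val_pow_eq_pow_val, Units.val_one] at h5
  have hg1 : (g : k) ≠ 1 := by
    intro h
    have h1 : g = 1 := Units.ext h
    rw [h1, orderOf_one] at hg
    omega
  refine ⟨g, ?_⟩
  have h4 : ((g : k) - 1) * ((g : k) ^ 2 + g + 1) = 0 := by linear_combination hg3
  exact (mul_eq_zero.1 h4).resolve_left (sub_ne_zero.2 hg1)

theorem Hp_some {k : Type} [Field k] {a : RatFunc k} {P : (W (a ^ 2)).Point} {x y : RatFunc k}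
    (h : IsPt P x y) : Hp P = ht (x ^ 3 / a ^ 2) := by
  obtain ⟨h1, rfl⟩ := h
  rfl

theorem t_FG (h1 : Pool.Agent.N163.KN.S_HOM) (h2 : S_OM) (h3 : S_HFIN) (h4 : S_HPAR)
    (h5 : S_HDBL) (h6 : S_QUAD) (h7 : S_THREE) (h8 : S_DESC) : Pool.Agent.N163.KG.S_FG := by
  intro k _ _ p l hp hch _ hpl a ha
  have hp1 := hp.out.one_lt
  have hp7 : 7 ≤ p := by omega
  haveI hchK : CharP (RatFunc k) p :=
    charP_of_injective_algebraMap (algebraMap k (RatFunc k)).injective p
  have k2 : (2 : k) ≠ 0 := by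
    intro h
    have := Nat.le_of_dvd (by norm_num) ((CharP.cast_eq_zero_iff k p 2).1 (by exact_mod_cast h))
    omega
  have k3 : (3 : k) ≠ 0 := by
    intro h
    have := Nat.le_of_dvd (by norm_num) ((CharP.cast_eq_zero_iff k p 3).1 (by exact_mod_cast h))
    omega
  have c2 : (2 : RatFunc k) ≠ 0 := by
    intro h
    have := Nat.le_of_dvd (by norm_num)
      ((CharP.cast_eq_zero_iff (RatFunc k) p 2).1 (by exact_mod_cast h))
    omega
  have c3 : (3 : RatFunc k) ≠ 0 := by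
    intro h
    have := Nat.le_of_dvd (by norm_num)
      ((CharP.cast_eq_zero_iff (RatFunc k) p 3).1 (by exact_mod_cast h))
    omega
  obtain ⟨w, hw⟩ := exists_omega k p l hpl
  set A : RatFunc k := algebraMap k[X] (RatFunc k) a with hA
  have A0 : A ≠ 0 := by
    rw [hA]
    exact (map_ne_zero_iff _ (IsFractionRing.injective k[X] (RatFunc k))).2 ha
  have A20 : A ^ 2 ≠ 0 := pow_ne_zero _ A0
  set v : RatFunc k := RatFunc.C w with hv
  have hvw : v ^ 2 + v + 1 = 0 := by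
    rw [hv, ← map_pow, ← map_add, ← map_one (RatFunc.C (K := k)), ← map_add, hw, map_zero]
  have hv3 : v ^ 3 = 1 := by linear_combination (v - 1) * hvw
  have hv0 : v ≠ 0 := by
    intro h
    rw [h] at hv3
    norm_num at hv3
  -- the automorphism
  obtain ⟨Om, hO⟩ := h1 (RatFunc k) (A ^ 2) (A ^ 2) (v ^ 2) (RingHom.id _) c2 c3
    (pow_ne_zero _ hv0) (by
      rw [RingHom.id_apply]
      have : (v ^ 2) ^ 6 = (v ^ 3) ^ 4 := by ring
      rw [this, hv3, one_pow, one_mul])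
  have hO' : ∀ P x y, IsPt P x y → IsPt (Om P) (v * x) y := by
    intro P x y hP
    have := hO P x y hP
    rw [RingHom.id_apply, RingHom.id_apply] at this
    have e1 : (v ^ 2) ^ 2 * x = v * x := by linear_combination (v * x) * hv3
    have e2 : (v ^ 2) ^ 3 * y = y := by linear_combination (v ^ 3 * y + y) * hv3
    rwa [e1, e2] at this
  have om := h2 (RatFunc k) (A ^ 2) v Om c2 c3 A20 hvw hO'
  -- the Frobenius endomorphism
  obtain ⟨F, hF⟩ := h1 (RatFunc k) (A ^ 2) (A ^ 2) (A⁻¹ ^ (2 * l)) (frobenius (RatFunc k) p) c2 c3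
    (pow_ne_zero _ (inv_ne_zero A0)) (by
      rw [frobenius_def, ← pow_mul, ← pow_mul]
      have e1 : 2 * p = 2 * l * 6 + 2 := by omega
      rw [e1, pow_add, ← mul_assoc, ← mul_pow, inv_mul_cancel₀ A0, one_pow, one_mul])
  have hHF : ∀ P, Hp (F P) = p * Hp P := by
    intro P
    match P with
    | .zero =>
      have e0 : F (.zero : (W (A ^ 2)).Point) = 0 := map_zero F
      rw [e0]
      show (0 : ℕ) = p * 0
      rw [mul_zero]
    | .some x y h =>
      have e1 := hF (.some x y h) x y ⟨h, rfl⟩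
      rw [Hp_some e1, Hp_some (P := .some x y h) ⟨h, rfl⟩, ← (h3.2 k).1, frobenius_def]
      congr 1
      have e2 : 2 * p = 2 * l * 2 * 3 + 2 := by omega
      have e3 : (x ^ 3 / A ^ 2) ^ p = x ^ (3 * p) * A⁻¹ ^ (2 * p) := by
        rw [div_eq_mul_inv, ← inv_pow, mul_pow, ← pow_mul, ← pow_mul]
      have e4 : ((A⁻¹ ^ (2 * l)) ^ 2 * x ^ p) ^ 3 / A ^ 2 =
          x ^ (3 * p) * A⁻¹ ^ (2 * l * 2 * 3 + 2) := by
        rw [div_eq_mul_inv, ← inv_pow, mul_pow, ← pow_mul, ← pow_mul, ← pow_mul, pow_add,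
          mul_comm p 3]
        ring
      rw [e3, e4, e2]
  obtain ⟨C₁, hC₁⟩ := h4 k k2 k3 a ha
  obtain ⟨C₂, hC₂⟩ := h5 k k2 k3 a ha
  have hPar : Par (Hp : (W (A ^ 2)).Point → ℕ) :=
    h6 (W (A ^ 2)).Point F Hp p C₁ C₂ (by omega) hC₁ hC₂ hHF
  refine ⟨hPar, ?_⟩
  refine h8 (W (A ^ 2)).Point Om Hp hPar om ?_ (h3.1 k A A0) (h7 k w k2 k3 hw a ha Om hO')
  intro P
  match P with
  | .zero =>
    have e0 : Om (.zero : (W (A ^ 2)).Point) = 0 := map_zero Om
    rw [e0]
    rfl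
  | .some x y h =>
    have e1 := hO' (.some x y h) x y ⟨h, rfl⟩
    rw [Hp_some e1, Hp_some (P := .some x y h) ⟨h, rfl⟩, mul_pow, hv3, one_mul]

end Pool.Agent.N163.KG.FG
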