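import Pool.Agent.N163.KG.TopC
import Pool.Agent.N163.KG.Stm2
import Pool.Agent.N420.KS.Main

/-! Assembly, last part. -/

set_option autoImplicit false

namespace Pool.Agent.N163.KG.Fin

open Pool.Agent.N163.KG Pool.Agent.N420.KS
open Pool.Agent.N163.KG.Top (Cond)

lemma rank_zero {M : Type} [AddCommGroup M] (h : Nat.card M = 3) : Module.rank ℤ M = 0 := by
  rw [rank_eq_zero_iff]
  intro x
  refine ⟨3, by norm_num, ?_⟩
  have h1 : Nat.card M • x = 0 := card_nsmul_eq_zero'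
  rw [h] at h1
  exact_mod_cast h1

open Classical in
theorem fin (hORD : S_ORD) (hCONV : S_CONV)
    (hTOP : ∀ (k : Type) [Field k] [Finite k] (p l : ℕ) [Fact p.Prime] [CharP k p],
      p = 6 * l + 1 → ∀ b : k, ¬ Cond k b → ∀ n : ℕ, 1 ≤ n → ∀ c : k, Admissible k b c →
      ∀ x y : RatFunc k, y ^ 2 = x ^ 3 + ar (1 / (2 * b ^ 2)) c n ^ 2 → x = 0)
    (F : Type) [Field F] [Finite F] (b c : F) (h : Admissible F b c) :
    ((∃ n, 1 ≤ n ∧ 0 < Module.rank ℤ (weierstrass F b c n).Point) ↔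
      (Nat.card F % 5 ≠ 1 ∧ ∃ β : F, b = 10 * β ^ 3)) ∧
    ((Nat.card F % 5 ≠ 1 ∧ ∃ β : F, b = 10 * β ^ 3) →
      0 < Module.rank ℤ (weierstrass F b c 5).Point ∧ (affinePoints F b c 5).Infinite) ∧
    (¬ (Nat.card F % 5 ≠ 1 ∧ ∃ β : F, b = 10 * β ^ 3) → ∀ n, 1 ≤ n →
      Nat.card (weierstrass F b c n).Point = 3 ∧ affinePoints F b c n = ∅) := by
  have hpos : (Nat.card F % 5 ≠ 1 ∧ ∃ β : F, b = 10 * β ^ 3) →
      0 < Module.rank ℤ (weierstrass F b c 5).Point ∧ (affinePoints F b c 5).Infinite :=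
    fun hc => main h hc.1 hc.2
  have hneg : ¬ (Nat.card F % 5 ≠ 1 ∧ ∃ β : F, b = 10 * β ^ 3) → ∀ n, 1 ≤ n →
      Nat.card (weierstrass F b c n).Point = 3 ∧ affinePoints F b c n = ∅ := by
    intro hc n hn
    obtain ⟨p, l, hp, hch, hl⟩ := hORD F b c h
    have := Fact.mk hp
    exact hCONV F p l hl b c h n hn (hTOP F p l hl b hc n hn c h)
  refine ⟨⟨?_, fun hc => ⟨5, by norm_num, (hpos hc).1⟩⟩, hpos, hneg⟩
  rintro ⟨n, hn, hr⟩
  by_contra hc
  exact hr.ne' (rank_zero (hneg hc n hn).1)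

end Pool.Agent.N163.KG.Fin
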