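import Pool.Agent.N163.KG.Fin
import Pool.Agent.N163.KN.HOM
import Pool.Agent.N163.KN.TAU

/-! Assembly, last part, for every `n`. -/

set_option autoImplicit false

namespace Pool.Agent.N163.KG.Fin

open Polynomial Pool.Agent.N163.KG Pool.Agent.N420.KS
open Pool.Agent.N163.KG.Top (Cond)

/-- The substitution `t ↦ t ^ m`. -/
lemma sub_hom (F : Type) [Field F] (m : ℕ) (hm : 1 ≤ m) : ∃ σ : RatFunc F →+* RatFunc F,
    σ RatFunc.X = RatFunc.X ^ m ∧ ∀ c, σ (RatFunc.C c) = RatFunc.C c := by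
  obtain ⟨σ, hσ⟩ := Pool.Agent.N163.KN.TAU.ext_hom
    ((expand F m : F[X] →ₐ[F] F[X]) : F[X] →+* F[X]) (expand_injective (by omega))
  refine ⟨σ, ?_, fun c => ?_⟩
  · rw [← RatFunc.algebraMap_X, hσ, RingHom.coe_coe, expand_X, map_pow]
  · rw [← RatFunc.algebraMap_C, hσ, RingHom.coe_coe, expand_C]

open Classical in
lemma rank_mono (F : Type) [Field F] (h2 : (2 : F) ≠ 0) (h3 : (3 : F) ≠ 0) (b c : F) (n m : ℕ)
    (hm : 1 ≤ m) : Module.rank ℤ (weierstrass F b c n).Point ≤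
      Module.rank ℤ (weierstrass F b c (n * m)).Point := by
  obtain ⟨σ, hX, hC⟩ := sub_hom F m hm
  have hσ : (1 : RatFunc F) ^ 6 *
      σ (((RatFunc.X ^ (6 * n) - RatFunc.C c) / (2 * RatFunc.C b ^ 2)) ^ 2) =
      ((RatFunc.X ^ (6 * (n * m)) - RatFunc.C c) / (2 * RatFunc.C b ^ 2)) ^ 2 := by
    rw [one_pow, one_mul, map_pow, map_div₀, map_sub, map_pow, hX, hC, map_mul, map_pow, hC,
      map_ofNat, ← pow_mul]
    congr 4
    ring
  have h2' : (2 : RatFunc F) ≠ 0 := by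
    have := (_root_.map_ne_zero (RatFunc.C : F →+* RatFunc F)).2 h2
    rwa [map_ofNat] at this
  have h3' : (3 : RatFunc F) ≠ 0 := by
    have := (_root_.map_ne_zero (RatFunc.C : F →+* RatFunc F)).2 h3
    rwa [map_ofNat] at this
  obtain ⟨φ, hφ⟩ := Pool.Agent.N163.KN.HOM.t_HOM (RatFunc F) _ _ 1 σ h2' h3' one_ne_zero hσ
  have hinj : Function.Injective φ := by
    rw [injective_iff_map_eq_zero]
    intro P hP
    rcases P with _ | ⟨x, y, h⟩
    · rfl
    · obtain ⟨h', h''⟩ := hφ _ x y ⟨h, rfl⟩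
      rw [hP] at h''
      exact nomatch h''
  exact LinearMap.rank_le_of_injective φ.toIntLinearMap hinj

lemma aff_mono (F : Type) [Field F] (b c : F) (n m : ℕ) (hm : 1 ≤ m)
    (h : (affinePoints F b c n).Infinite) : (affinePoints F b c (n * m)).Infinite := by
  obtain ⟨σ, hX, hC⟩ := sub_hom F m hm
  have hinj : Function.Injective (fun P : RatFunc F × RatFunc F => (σ P.1, σ P.2)) := by
    intro P Q hPQ
    have h1 := congrArg Prod.fst hPQ
    have h2 := congrArg Prod.snd hPQ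
    exact Prod.ext (σ.injective h1) (σ.injective h2)
  refine Set.infinite_of_injOn_mapsTo hinj.injOn ?_ h
  intro P hP
  have h1 : (P.2 ^ 3 - RatFunc.C b) * RatFunc.X ^ (6 * n) =
    RatFunc.C c * (P.1 ^ 3 - RatFunc.C b) := hP
  have h2 := congrArg σ h1
  rw [map_mul, map_mul, map_sub, map_sub, map_pow, map_pow, map_pow, hX, hC, hC, ← pow_mul,
    show m * (6 * n) = 6 * (n * m) by ring] at h2
  exact h2

open Classical in
theorem fin2 (hORD : S_ORD) (hCONV : S_CONV)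
    (hTOP : ∀ (k : Type) [Field k] [Finite k] (p l : ℕ) [Fact p.Prime] [CharP k p],
      p = 6 * l + 1 → ∀ (b : k) (n : ℕ), ¬ (Cond k b ∧ 5 ∣ n) → 1 ≤ n → ∀ c : k,
      Admissible k b c →
      ∀ x y : RatFunc k, y ^ 2 = x ^ 3 + ar (1 / (2 * b ^ 2)) c n ^ 2 → x = 0)
    (F : Type) [Field F] [Finite F] (b c : F) (h : Admissible F b c) (n : ℕ) (hn : 1 ≤ n) :
    (0 < Module.rank ℤ (weierstrass F b c n).Point ↔
      (5 ∣ n ∧ Nat.card F % 5 ≠ 1 ∧ ∃ β : F, b = 10 * β ^ 3)) ∧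
    ((5 ∣ n ∧ Nat.card F % 5 ≠ 1 ∧ ∃ β : F, b = 10 * β ^ 3) →
      (affinePoints F b c n).Infinite) ∧
    (¬ (5 ∣ n ∧ Nat.card F % 5 ≠ 1 ∧ ∃ β : F, b = 10 * β ^ 3) →
      Nat.card (weierstrass F b c n).Point = 3 ∧ affinePoints F b c n = ∅) := by
  obtain ⟨p, l, hp, hch, hl⟩ := hORD F b c h
  have hpf := Fact.mk hp
  have hl1 : 1 ≤ l := by
    rcases Nat.eq_zero_or_pos l with h0 | h0
    · subst h0
      rw [hl] at hp
      exact absurd hp (by norm_num)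
    · exact h0
  have h2 : (2 : F) ≠ 0 := by
    intro h0
    have h1 : ((2 : ℕ) : F) = 0 := by exact_mod_cast h0
    have h3 := Nat.le_of_dvd (by norm_num) ((CharP.cast_eq_zero_iff F p 2).1 h1)
    omega
  have h3 : (3 : F) ≠ 0 := by
    intro h0
    have h1 : ((3 : ℕ) : F) = 0 := by exact_mod_cast h0
    have h3 := Nat.le_of_dvd (by norm_num) ((CharP.cast_eq_zero_iff F p 3).1 h1)
    omega
  have hpos : (5 ∣ n ∧ Nat.card F % 5 ≠ 1 ∧ ∃ β : F, b = 10 * β ^ 3) →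
      0 < Module.rank ℤ (weierstrass F b c n).Point ∧ (affinePoints F b c n).Infinite := by
    rintro ⟨⟨m, rfl⟩, h4, h5⟩
    have hm : 1 ≤ m := by omega
    obtain ⟨h6, h7⟩ := main h h4 h5
    exact ⟨h6.trans_le (rank_mono F h2 h3 b c 5 m hm), aff_mono F b c 5 m hm h7⟩
  have hneg : ¬ (5 ∣ n ∧ Nat.card F % 5 ≠ 1 ∧ ∃ β : F, b = 10 * β ^ 3) →
      Nat.card (weierstrass F b c n).Point = 3 ∧ affinePoints F b c n = ∅ := by
    intro hc
    exact hCONV F p l hl b c h n hn (hTOP F p l hl b n (fun h0 => hc ⟨h0.2, h0.1⟩) hn c h)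
  refine ⟨⟨fun hr => ?_, fun hc => (hpos hc).1⟩, fun hc => (hpos hc).2, hneg⟩
  by_contra hc
  exact hr.ne' (rank_zero (hneg hc).1)

end Pool.Agent.N163.KG.Fin
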