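import Pool.Agent.N163.KG.Stm

/-!
# `MP_3da457_ag`: the height of `2 P` (helper562)

With `u = x ^ 3 / a ^ 2` one has `u (2 P) = u (u - 8) ^ 3 / (64 (u + 1) ^ 3)`, so `H (2 P) = 4 H (P)`
for `y ≠ 0`.
-/

set_option autoImplicit false

namespace Pool.Agent.N163.KG.HDBL

open Polynomial Pool.Agent.N163.KN Pool.Agent.N163.KG

section

variable {k : Type} [Field k]

theorem le_ht (A B : k[X]) (hB : B ≠ 0) (h : IsCoprime A B) (f : RatFunc k)
    (hf : f = algebraMap k[X] (RatFunc k) A / algebraMap k[X] (RatFunc k) B) :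
    max A.natDegree B.natDegree ≤ ht f := by
  have h1 : f.num * B = A * f.denom := (RatFunc.num_mul_eq_mul_denom_iff hB).2 hf
  have hA : A ∣ f.num := h.dvd_of_dvd_mul_right (Dvd.intro _ h1.symm)
  have hBd : B ∣ f.denom := h.symm.dvd_of_dvd_mul_left (by
    rw [← h1]; exact Dvd.intro_left _ rfl)
  unfold ht
  refine max_le_max ?_ (natDegree_le_of_dvd hBd f.denom_ne_zero)
  rcases eq_or_ne A 0 with rfl | hA0
  · simp
  · refine natDegree_le_of_dvd hA ?_
    intro h0
    rw [h0, zero_mul] at h1
    exact (mul_ne_zero hA0 f.denom_ne_zero) h1.symm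

/-- the degrees -/
theorem degs (N D : k[X]) (h9 : (9 : k) ≠ 0) (h64 : (64 : k) ≠ 0) (hD : D ≠ 0)
    (hS : N + D ≠ 0) :
    4 * max N.natDegree D.natDegree ≤
      max (N * (N - C 8 * D) ^ 3).natDegree (C 64 * (D * (N + D) ^ 3)).natDegree := by
  set M := max N.natDegree D.natDegree with hM
  have key : (N.natDegree = M ∧ (N - C 8 * D).coeff M ≠ 0) ∨
      (D.natDegree = M ∧ (N + D).coeff M ≠ 0) := by
    have c1 : (N - C 8 * D).coeff M = N.coeff M - 8 * D.coeff M := by
      rw [coeff_sub, coeff_C_mul]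
    have c2 : (N + D).coeff M = N.coeff M + D.coeff M := coeff_add _ _ _
    rcases lt_trichotomy N.natDegree D.natDegree with h | h | h
    · right
      have hm : M = D.natDegree := max_eq_right h.le
      refine ⟨hm.symm, ?_⟩
      rw [c2, hm, coeff_eq_zero_of_natDegree_lt h, zero_add]
      exact leadingCoeff_ne_zero.2 hD
    · have hm : M = D.natDegree := max_eq_right h.le
      have hm' : N.natDegree = M := by omega
      by_contra hcon
      rw [not_or, not_and, not_and, not_not, not_not] at hcon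
      have h1 := hcon.1 hm'
      have h2 := hcon.2 hm.symm
      rw [c1] at h1
      rw [c2] at h2
      have h3 : 9 * D.coeff M = 0 := by linear_combination h2 - h1
      rcases mul_eq_zero.1 h3 with h4 | h4
      · exact h9 h4
      · rw [hm] at h4
        exact leadingCoeff_ne_zero.2 hD h4
    · left
      have hm : M = N.natDegree := max_eq_left h.le
      refine ⟨hm.symm, ?_⟩
      rw [c1, hm, coeff_eq_zero_of_natDegree_lt h, mul_zero, sub_zero]
      refine leadingCoeff_ne_zero.2 ?_
      rintro rfl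
      simp at h
  rcases key with ⟨h1, h2⟩ | ⟨h1, h2⟩
  · have h3 := le_natDegree_of_ne_zero h2
    rcases eq_or_ne N 0 with h4 | h4
    · have : M = 0 := by rw [← h1, h4, natDegree_zero]
      rw [this]
      omega
    · have h5 : N - C 8 * D ≠ 0 := by
        intro h
        rw [h, coeff_zero] at h2
        exact h2 rfl
      refine le_trans ?_ (le_max_left _ _)
      rw [natDegree_mul h4 (pow_ne_zero _ h5), natDegree_pow]
      omega
  · have h3 := le_natDegree_of_ne_zero h2
    refine le_trans ?_ (le_max_right _ _)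
    rw [natDegree_C_mul h64, natDegree_mul hD (pow_ne_zero _ hS), natDegree_pow]
    omega

theorem ht4 (h2 : (2 : k) ≠ 0) (h3 : (3 : k) ≠ 0) (u : RatFunc k) (hu : u + 1 ≠ 0) :
    4 * ht u ≤ ht (u * (u - 8) ^ 3 / (64 * (u + 1) ^ 3)) := by
  set N := u.num with hN
  set D := u.denom with hD
  have hD0 : D ≠ 0 := u.denom_ne_zero
  have hDm : algebraMap k[X] (RatFunc k) D ≠ 0 := RatFunc.algebraMap_ne_zero hD0
  have hu1 : u = algebraMap k[X] (RatFunc k) N / algebraMap k[X] (RatFunc k) D :=
    (RatFunc.num_div_denom u).symm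
  have hc : IsCoprime N D := RatFunc.isCoprime_num_denom u
  have hS : N + D ≠ 0 := by
    intro h
    apply hu
    have h4 : algebraMap k[X] (RatFunc k) N + algebraMap k[X] (RatFunc k) D = 0 := by
      rw [← map_add, h, map_zero]
    rw [hu1, div_add_one hDm, h4, zero_div]
  have h64 : (64 : k) ≠ 0 := by
    have : (64 : k) = 2 ^ 6 := by norm_num
    rw [this]
    exact pow_ne_zero _ h2
  have h9 : (9 : k) ≠ 0 := by
    have : (9 : k) = 3 ^ 2 := by norm_num
    rw [this]
    exact pow_ne_zero _ h3
  have hB0 : C 64 * (D * (N + D) ^ 3) ≠ 0 :=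
    mul_ne_zero (C_ne_zero.2 h64) (mul_ne_zero hD0 (pow_ne_zero _ hS))
  refine (degs N D h9 h64 hD0 hS).trans (le_ht _ _ hB0 ?_ _ ?_)
  · -- coprimality
    have c1 : IsCoprime N (N + D) := by
      have := hc.add_mul_left_right 1
      rw [mul_one, add_comm] at this
      exact this
    have c2 : IsCoprime (N - C 8 * D) D := by
      have := hc.add_mul_right_left (-C 8)
      have e1 : N + -C 8 * D = N - C 8 * D := by ring
      rw [e1] at this
      exact this
    have c3 : IsCoprime (N + D) D := by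
      have := hc.add_mul_right_left 1
      rw [one_mul] at this
      exact this
    have c4 : IsCoprime (N - C 8 * D) (N + D) := by
      have c5 : IsCoprime (-(C 9 * D)) (N + D) :=
        ((isCoprime_mul_unit_left_left (isUnit_C.2 h9.isUnit) D (N + D)).2 c3.symm).neg_left
      have c7 := c5.add_mul_left_left 1
      have e1 : -(C 9 * D) + (N + D) * 1 = N - C 8 * D := by
        have e2 : (C 9 : k[X]) = C 8 + 1 := by
          rw [← C_1, ← C_add]
          norm_num
        rw [e2]
        ring
      rw [e1] at c7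
      exact c7
    have c6 : IsCoprime (N * (N - C 8 * D) ^ 3) (D * (N + D) ^ 3) :=
      IsCoprime.mul_left (IsCoprime.mul_right hc c1.pow_right)
        (IsCoprime.pow_left (IsCoprime.mul_right c2 c4.pow_right))
    exact (isCoprime_mul_unit_left_right (isUnit_C.2 h64.isUnit) _ _).2 c6
  · rw [hu1]
    have hSm : algebraMap k[X] (RatFunc k) N + algebraMap k[X] (RatFunc k) D ≠ 0 := by
      rw [← map_add]
      exact RatFunc.algebraMap_ne_zero hS
    have e8 : algebraMap k[X] (RatFunc k) (C 8) = 8 := by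
      rw [map_ofNat C 8, map_ofNat]
    have e64 : algebraMap k[X] (RatFunc k) (C 64) = 64 := by
      rw [map_ofNat C 64, map_ofNat]
    have h64' : (64 : RatFunc k) ≠ 0 := by
      rw [← e64]
      exact RatFunc.algebraMap_ne_zero (C_ne_zero.2 h64)
    simp only [map_mul, map_pow, map_add, map_sub, e8, e64]
    field_simp

theorem dbl [DecidableEq (RatFunc k)] (h2 : (2 : k) ≠ 0) (h3 : (3 : k) ≠ 0) (b : RatFunc k)
    (hb : b ≠ 0) (P : (W (b ^ 2)).Point) : 4 * Hp P ≤ Hp (P + P) := by
  rcases P with _ | ⟨x, y, h⟩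
  · show 4 * 0 ≤ _
    omega
  · have heq : y ^ 2 = x ^ 3 + b ^ 2 := by
      have := (WeierstrassCurve.Affine.equation_iff _ _).1 h.1
      simp only [W] at this
      linear_combination this
    show 4 * ht (x ^ 3 / b ^ 2) ≤ _
    by_cases hy : y = 0
    · have h5 : x ^ 3 / b ^ 2 = RatFunc.C (-1) := by
        rw [hy] at heq
        rw [map_neg, map_one, div_eq_iff (pow_ne_zero _ hb)]
        linear_combination -heq
      have h6 : ht (x ^ 3 / b ^ 2) = 0 := by
        rw [h5]
        unfold ht
        rw [RatFunc.num_C, RatFunc.denom_C]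
        simp
      rw [h6]
      omega
    · have h2' : (2 : RatFunc k) ≠ 0 := by
        have : (2 : RatFunc k) = RatFunc.C 2 := (map_ofNat _ 2).symm
        rw [this]
        exact (_root_.map_ne_zero _).2 h2
      have hyn : y ≠ (W (b ^ 2)).negY x y := by
        intro h5
        rw [WeierstrassCurve.Affine.negY] at h5
        simp only [W] at h5
        apply hy
        have h6 : 2 * y = 0 := by linear_combination h5
        exact (mul_eq_zero.1 h6).resolve_left h2'
      rw [WeierstrassCurve.Affine.Point.add_self_of_Y_ne hyn]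
      have hx : (W (b ^ 2)).addX x x ((W (b ^ 2)).slope x x y y) =
          (3 * x ^ 2 / (2 * y)) ^ 2 - 2 * x := by
        rw [WeierstrassCurve.Affine.slope_of_Y_ne rfl hyn, WeierstrassCurve.Affine.addX,
          WeierstrassCurve.Affine.negY]
        simp only [W]
        have h6 : y - (-y - 0 * x - 0) = 2 * y := by ring
        rw [h6]
        ring
      show _ ≤ ht ((W (b ^ 2)).addX x x ((W (b ^ 2)).slope x x y y) ^ 3 / b ^ 2)
      rw [hx]
      have hu : x ^ 3 / b ^ 2 + 1 ≠ 0 := by
        rw [div_add_one (pow_ne_zero _ hb), ← heq]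
        exact div_ne_zero (pow_ne_zero _ hy) (pow_ne_zero _ hb)
      have h7 := ht4 h2 h3 (x ^ 3 / b ^ 2) hu
      have h8 : x ^ 3 / b ^ 2 * (x ^ 3 / b ^ 2 - 8) ^ 3 / (64 * (x ^ 3 / b ^ 2 + 1) ^ 3) =
          ((3 * x ^ 2 / (2 * y)) ^ 2 - 2 * x) ^ 3 / b ^ 2 := by
        have h9 : (3 * x ^ 2 / (2 * y)) ^ 2 - 2 * x = x * (x ^ 3 - 8 * b ^ 2) / (4 * y ^ 2) := by
          have h10 : (4 : RatFunc k) ≠ 0 := by
            have : (4 : RatFunc k) = 2 ^ 2 := by norm_num
            rw [this]
            exact pow_ne_zero _ h2'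
          rw [div_pow, div_sub' (by positivity), div_eq_div_iff]
          · rw [mul_pow, mul_pow, heq]
            ring
          · exact pow_ne_zero _ (mul_ne_zero h2' hy)
          · exact mul_ne_zero h10 (pow_ne_zero _ hy)
        rw [h9]
        have h11 : x ^ 3 / b ^ 2 + 1 = y ^ 2 / b ^ 2 := by
          rw [div_add_one (pow_ne_zero _ hb), heq]
        rw [h11]
        have h12 : x ^ 3 / b ^ 2 - 8 = (x ^ 3 - 8 * b ^ 2) / b ^ 2 := by
          rw [div_sub' (pow_ne_zero _ hb)]
          ring_nf
        rw [h12]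
        have h64 : (64 : RatFunc k) = 4 ^ 3 := by norm_num
        rw [h64]
        field_simp
      rw [h8] at h7
      exact h7

end

theorem t_HDBL : Pool.Agent.N163.KG.S_HDBL := by
  intro k _ _ h2 h3 a ha
  exact ⟨0, fun P => dbl h2 h3 _ (RatFunc.algebraMap_ne_zero ha) P⟩

end Pool.Agent.N163.KG.HDBL
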