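import Pool.Agent.N163.KG.Stm
import Pool.Agent.N163.KN.HT

/-!
# `MP_3da457_ag`: finite balls and heights of powers (helper717, after helper134)
-/

set_option autoImplicit false

namespace Pool.Agent.N163.KG.HFIN

open Polynomial Pool.Agent.N163.KN

variable {k : Type} [Field k]

theorem ht_eq (f : RatFunc k) : Pool.Agent.N163.KG.ht f = Pool.Agent.N163.KN.HT.ht f := rfl

theorem cube_fin {K : Type} [Field K] (c : K) : {x : K | x ^ 3 = c}.Finite := by
  classical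
  refine ((nthRoots 3 c).toFinset.finite_toSet).subset fun x hx => ?_
  rw [Finset.mem_coe, Multiset.mem_toFinset, mem_nthRoots (by norm_num)]
  exact hx

theorem fin_pt [Finite k] (a : RatFunc k) (ha : a ≠ 0) (B : ℕ) :
    {P : (W (a ^ 2)).Point | Hp P ≤ B}.Finite := by
  have h0 : {x : RatFunc k | HT.ht (x ^ 3 / a ^ 2) ≤ B}.Finite := by
    refine (Set.Finite.biUnion (HT.rat_fin (k := k) B) (t := fun g => {x | x ^ 3 = g * a ^ 2})
      fun g _ => cube_fin _).subset ?_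
    intro x hx
    simp only [Set.mem_iUnion]
    refine ⟨x ^ 3 / a ^ 2, hx, ?_⟩
    change x ^ 3 = x ^ 3 / a ^ 2 * a ^ 2
    rw [div_mul_cancel₀ _ (pow_ne_zero 2 ha)]
  have h1 : {q : RatFunc k × RatFunc k | HT.ht (q.1 ^ 3 / a ^ 2) ≤ B ∧
      q.2 ^ 2 = q.1 ^ 3 + a ^ 2}.Finite := by
    refine (Set.Finite.biUnion h0 (t := fun x =>
      (fun y => (x, y)) '' {y | y ^ 2 = x ^ 3 + a ^ 2}) fun x _ => (HT.sq_fin _).image _).subset ?_
    rintro ⟨x, y⟩ ⟨h1, h2⟩
    simp only [Set.mem_iUnion]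
    exact ⟨x, h1, y, h2, rfl⟩
  have h2 : (insert none (some '' {q : RatFunc k × RatFunc k | HT.ht (q.1 ^ 3 / a ^ 2) ≤ B ∧
      q.2 ^ 2 = q.1 ^ 3 + a ^ 2})).Finite := (h1.image _).insert _
  refine Set.Finite.of_finite_image (f := HT.co) (h2.subset ?_) HT.co_inj.injOn
  rintro _ ⟨P, hP, rfl⟩
  rcases P with _ | ⟨x, y, hn⟩
  · exact Or.inl rfl
  · exact Or.inr ⟨(x, y), ⟨hP, HT.eqn hn⟩, rfl⟩

theorem ht_pow_le (f : RatFunc k) (m : ℕ) : HT.ht (f ^ m) ≤ m * HT.ht f := by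
  have h : f ^ m = algebraMap k[X] (RatFunc k) (f.num ^ m) /
      algebraMap k[X] (RatFunc k) (f.denom ^ m) := by
    rw [map_pow, map_pow, ← div_pow, RatFunc.num_div_denom]
  rw [h]
  refine (HT.ht_div_le _ _ (pow_ne_zero m f.denom_ne_zero)).trans ?_
  rw [natDegree_pow, natDegree_pow]
  exact max_le (Nat.mul_le_mul_left m (le_max_left _ _)) (Nat.mul_le_mul_left m (le_max_right _ _))

theorem t_HFIN : Pool.Agent.N163.KG.S_HFIN := by
  refine ⟨fun k _ _ a ha B => fin_pt a ha B, fun k _ => ⟨fun f m => ?_, fun f hf => ?_⟩⟩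
  · exact le_antisymm (ht_pow_le f m) (HT.ht_pow f m)
  · have h1 : f.num.natDegree = 0 := Nat.le_zero.1 (le_trans (le_max_left _ _) hf.le)
    have h2 : f.denom.natDegree = 0 := Nat.le_zero.1 (le_trans (le_max_right _ _) hf.le)
    have h3 : f.denom = 1 := eq_one_of_monic_natDegree_zero f.monic_denom h2
    refine ⟨f.num.coeff 0, ?_⟩
    rw [← RatFunc.algebraMap_C, ← eq_C_of_natDegree_eq_zero h1]
    conv_lhs => rw [← f.num_div_denom, h3, map_one, div_one]

end Pool.Agent.N163.KG.HFIN
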