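import Pool.Agent.N163.KG.Stm

/-!
# `MP_3da457_ag`: the height inequality for `P + Q` and `P - Q` (helper261)
-/

set_option autoImplicit false

namespace Pool.Agent.N163.KG.HPAR

open Polynomial WeierstrassCurve Pool.Agent.N163.KN

variable {k : Type} [Field k]

theorem ht_div_le (A B : k[X]) (hB : B ≠ 0) :
    ht (algebraMap k[X] (RatFunc k) A / algebraMap k[X] (RatFunc k) B) ≤
      max A.natDegree B.natDegree := by
  unfold ht
  rcases eq_or_ne A 0 with rfl | hA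
  · simp
  · exact max_le_max (natDegree_le_of_dvd (RatFunc.num_div_dvd A hB) hA)
      (natDegree_le_of_dvd (RatFunc.denom_div_dvd A B) hB)

theorem ht_mul_le (f g : RatFunc k) : ht (f * g) ≤ ht f + ht g := by
  have h : f * g = algebraMap k[X] (RatFunc k) (f.num * g.num) /
      algebraMap k[X] (RatFunc k) (f.denom * g.denom) := by
    rw [map_mul, map_mul, mul_div_mul_comm, RatFunc.num_div_denom, RatFunc.num_div_denom]
  rw [h]
  refine (ht_div_le _ _ (mul_ne_zero f.denom_ne_zero g.denom_ne_zero)).trans ?_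
  exact max_le (natDegree_mul_le.trans (add_le_add (le_max_left _ _) (le_max_left _ _)))
    (natDegree_mul_le.trans (add_le_add (le_max_right _ _) (le_max_right _ _)))

theorem le_ht (A B : k[X]) (hB : B ≠ 0) (h : IsCoprime A B) (f : RatFunc k)
    (hf : f = algebraMap k[X] (RatFunc k) A / algebraMap k[X] (RatFunc k) B) :
    max A.natDegree B.natDegree ≤ ht f := by
  have hB' : algebraMap k[X] (RatFunc k) B ≠ 0 := RatFunc.algebraMap_ne_zero hB
  have hD' : algebraMap k[X] (RatFunc k) f.denom ≠ 0 := RatFunc.algebraMap_ne_zero f.denom_ne_zero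
  have h1 : A * f.denom = f.num * B := by
    apply RatFunc.algebraMap_injective k
    rw [map_mul, map_mul]
    have h2 := f.num_div_denom
    rw [div_eq_iff hD'] at h2
    rw [h2]
    have h3 : f * algebraMap k[X] (RatFunc k) B = algebraMap k[X] (RatFunc k) A := by
      rw [hf, div_mul_cancel₀ _ hB']
    rw [← h3]
    ring
  have hA : A ∣ f.num := h.dvd_of_dvd_mul_right (Dvd.intro _ h1)
  have hBd : B ∣ f.denom := h.symm.dvd_of_dvd_mul_left (by
    rw [h1]; exact Dvd.intro_left _ rfl)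
  unfold ht
  refine max_le_max ?_ (natDegree_le_of_dvd hBd f.denom_ne_zero)
  rcases eq_or_ne A 0 with rfl | hA0
  · simp
  · refine natDegree_le_of_dvd hA ?_
    intro h0
    rw [h0, zero_mul] at h1
    exact (mul_ne_zero hA0 f.denom_ne_zero) h1

theorem ht_pow (f : RatFunc k) (n : ℕ) : n * ht f ≤ ht (f ^ n) := by
  have h1 := le_ht (f.num ^ n) (f.denom ^ n) (pow_ne_zero _ f.denom_ne_zero)
    (f.isCoprime_num_denom.pow) (f ^ n) (by
      rw [map_pow, map_pow, ← div_pow, RatFunc.num_div_denom])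
  refine le_trans ?_ h1
  rw [natDegree_pow, natDegree_pow]
  unfold ht
  rcases le_total f.num.natDegree f.denom.natDegree with h | h
  · rw [max_eq_right h]; exact le_max_right _ _
  · rw [max_eq_left h]; exact le_max_left _ _

theorem ht_up (a : k[X]) (ha : a ≠ 0) (x : RatFunc k) :
    ht (x ^ 3 / algebraMap k[X] (RatFunc k) a ^ 2) ≤ 3 * ht x + 2 * a.natDegree := by
  have h1 : x ^ 3 / algebraMap k[X] (RatFunc k) a ^ 2 =
      (x * (x * x)) * (algebraMap k[X] (RatFunc k) 1 / algebraMap k[X] (RatFunc k) (a ^ 2)) := by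
    rw [map_one, map_pow]
    ring
  rw [h1]
  have h2 := ht_mul_le (x * (x * x))
    (algebraMap k[X] (RatFunc k) 1 / algebraMap k[X] (RatFunc k) (a ^ 2))
  have h3 := ht_mul_le x (x * x)
  have h4 := ht_mul_le x x
  have h5 := ht_div_le (1 : k[X]) (a ^ 2) (pow_ne_zero 2 ha)
  rw [natDegree_one, natDegree_pow] at h5
  have h6 : max 0 (2 * a.natDegree) = 2 * a.natDegree := by simp
  rw [h6] at h5
  omega

theorem ht_low (a : k[X]) (ha : a ≠ 0) (x : RatFunc k) :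
    3 * ht x ≤ ht (x ^ 3 / algebraMap k[X] (RatFunc k) a ^ 2) + 2 * a.natDegree := by
  have ha' : algebraMap k[X] (RatFunc k) a ≠ 0 := RatFunc.algebraMap_ne_zero ha
  have h1 : x ^ 3 = (x ^ 3 / algebraMap k[X] (RatFunc k) a ^ 2) *
      (algebraMap k[X] (RatFunc k) (a ^ 2) / algebraMap k[X] (RatFunc k) 1) := by
    rw [map_one, map_pow, div_one, div_mul_cancel₀ _ (pow_ne_zero 2 ha')]
  have h2 := ht_mul_le (x ^ 3 / algebraMap k[X] (RatFunc k) a ^ 2)
    (algebraMap k[X] (RatFunc k) (a ^ 2) / algebraMap k[X] (RatFunc k) 1)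
  rw [← h1] at h2
  have h5 := ht_div_le (a ^ 2) (1 : k[X]) one_ne_zero
  rw [natDegree_one, natDegree_pow] at h5
  have h6 : max (2 * a.natDegree) 0 = 2 * a.natDegree := by simp
  rw [h6] at h5
  have h7 := ht_pow x 3
  omega

/-- the two roots of a quadratic equation -/
theorem pair (N₀ N₁ N₂ : k[X]) (h0 : N₀ ≠ 0) (x y : RatFunc k)
    (h1 : algebraMap k[X] (RatFunc k) N₀ * (x + y) = algebraMap k[X] (RatFunc k) N₁)
    (h2 : algebraMap k[X] (RatFunc k) N₀ * (x * y) = algebraMap k[X] (RatFunc k) N₂)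
    (D : ℕ) (hD₀ : N₀.natDegree ≤ D) (hD₁ : N₁.natDegree ≤ D) (hD₂ : N₂.natDegree ≤ D) :
    ht x + ht y ≤ D := by
  obtain ⟨A, hA⟩ : ∃ A, A = x.num := ⟨_, rfl⟩
  obtain ⟨B, hB⟩ : ∃ B, B = x.denom := ⟨_, rfl⟩
  obtain ⟨A', hA'⟩ : ∃ A', A' = y.num := ⟨_, rfl⟩
  obtain ⟨B', hB'⟩ : ∃ B', B' = y.denom := ⟨_, rfl⟩
  have hB0 : B ≠ 0 := hB ▸ x.denom_ne_zero
  have hB'0 : B' ≠ 0 := hB' ▸ y.denom_ne_zero
  have hc : IsCoprime A B := hA ▸ hB ▸ x.isCoprime_num_denom
  have hc' : IsCoprime A' B' := hA' ▸ hB' ▸ y.isCoprime_num_denom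
  have hb : algebraMap k[X] (RatFunc k) B ≠ 0 := RatFunc.algebraMap_ne_zero hB0
  have hb' : algebraMap k[X] (RatFunc k) B' ≠ 0 := RatFunc.algebraMap_ne_zero hB'0
  have hx : algebraMap k[X] (RatFunc k) A = x * algebraMap k[X] (RatFunc k) B := by
    have h3 := x.num_div_denom
    rw [← hA, ← hB] at h3
    rwa [div_eq_iff hb] at h3
  have hy : algebraMap k[X] (RatFunc k) A' = y * algebraMap k[X] (RatFunc k) B' := by
    have h3 := y.num_div_denom
    rw [← hA', ← hB'] at h3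
    rwa [div_eq_iff hb'] at h3
  have e1 : N₀ * (A * B' + A' * B) = N₁ * (B * B') := by
    apply RatFunc.algebraMap_injective k
    simp only [map_mul, map_add, hx, hy, ← h1]
    ring
  have e2 : N₀ * (A * A') = N₂ * (B * B') := by
    apply RatFunc.algebraMap_injective k
    simp only [map_mul, hx, hy, ← h2]
    ring
  -- `B B'` divides `N₀`
  have d1 : B * B' ∣ N₀ * (A * B' + A' * B) := by rw [e1]; exact Dvd.intro_left _ rfl
  have d2 : B * B' ∣ N₀ * (A * A') := by rw [e2]; exact Dvd.intro_left _ rfl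
  have d0 : B * B' ∣ N₀ * (B * B') := Dvd.intro_left _ rfl
  have d3 : B * B' ∣ N₀ * (A ^ 2 * B') := by
    have : N₀ * (A ^ 2 * B') = A * (N₀ * (A * B' + A' * B)) - B * (N₀ * (A * A')) := by ring
    rw [this]
    exact dvd_sub (d1.mul_left _) (d2.mul_left _)
  have d4 : B * B' ∣ N₀ * (A' ^ 2 * B) := by
    have : N₀ * (A' ^ 2 * B) = A' * (N₀ * (A * B' + A' * B)) - B' * (N₀ * (A * A')) := by ring
    rw [this]
    exact dvd_sub (d1.mul_left _) (d2.mul_left _)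
  have d5 : B * B' ∣ N₀ * B' := by
    obtain ⟨u, v, huv⟩ : IsCoprime (A ^ 2) B := hc.pow_left
    have : N₀ * B' = u * (N₀ * (A ^ 2 * B')) + v * (N₀ * (B * B')) := by
      linear_combination (-(N₀ * B')) * huv
    rw [this]
    exact dvd_add (d3.mul_left _) (d0.mul_left _)
  have d6 : B * B' ∣ N₀ * B := by
    obtain ⟨u, v, huv⟩ : IsCoprime (A' ^ 2) B' := hc'.pow_left
    have : N₀ * B = u * (N₀ * (A' ^ 2 * B)) + v * (N₀ * (B * B')) := by
      linear_combination (-(N₀ * B)) * huv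
    rw [this]
    exact dvd_add (d4.mul_left _) (d0.mul_left _)
  have d7 : B * B' ∣ N₀ * A' := by
    obtain ⟨u, v, huv⟩ := hc
    have : N₀ * A' = u * (N₀ * (A * A')) + v * A' * (N₀ * B) := by
      linear_combination (-(N₀ * A')) * huv
    rw [this]
    exact dvd_add (d2.mul_left _) (d6.mul_left _)
  have d8 : B * B' ∣ N₀ := by
    obtain ⟨u, v, huv⟩ := hc'
    have : N₀ = u * (N₀ * A') + v * (N₀ * B') := by
      linear_combination (-N₀) * huv
    rw [this]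
    exact dvd_add (d7.mul_left _) (d5.mul_left _)
  obtain ⟨l, hl⟩ := d8
  have hl0 : l ≠ 0 := by
    rintro rfl
    exact h0 (by rw [hl, mul_zero])
  have hBB : B * B' ≠ 0 := mul_ne_zero hB0 hB'0
  have f1 : N₁ = l * (A * B' + A' * B) := by
    apply mul_right_cancel₀ hBB
    rw [← e1, hl]
    ring
  have f2 : N₂ = l * (A * A') := by
    apply mul_right_cancel₀ hBB
    rw [← e2, hl]
    ring
  have key : ∀ g : k[X], (l * g).natDegree ≤ D → g.natDegree ≤ D := by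
    intro g hg
    rcases eq_or_ne g 0 with rfl | hg0
    · simp
    · rw [natDegree_mul hl0 hg0] at hg
      omega
  have g0 : B.natDegree + B'.natDegree ≤ D := by
    rw [← natDegree_mul hB0 hB'0]
    apply key
    rw [mul_comm, ← hl]
    exact hD₀
  have g1 : (A * B' + A' * B).natDegree ≤ D := key _ (by rw [← f1]; exact hD₁)
  have g2 : (A * A').natDegree ≤ D := key _ (by rw [← f2]; exact hD₂)
  unfold ht
  rw [← hA, ← hB, ← hA', ← hB']
  rcases le_or_gt A.natDegree B.natDegree with c1 | c1 <;>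
  rcases le_or_gt A'.natDegree B'.natDegree with c2 | c2
  · rw [max_eq_right c1, max_eq_right c2]
    exact g0
  · rw [max_eq_right c1, max_eq_left c2.le]
    have hA'0 : A' ≠ 0 := by
      rintro rfl
      simp at c2
    have h5 : (A * B').natDegree < (A' * B).natDegree := by
      rw [natDegree_mul hA'0 hB0]
      refine lt_of_le_of_lt natDegree_mul_le ?_
      omega
    rw [natDegree_add_eq_right_of_natDegree_lt h5, natDegree_mul hA'0 hB0] at g1
    omega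
  · rw [max_eq_left c1.le, max_eq_right c2]
    have hA0 : A ≠ 0 := by
      rintro rfl
      simp at c1
    have h5 : (A' * B).natDegree < (A * B').natDegree := by
      rw [natDegree_mul hA0 hB'0]
      refine lt_of_le_of_lt natDegree_mul_le ?_
      omega
    rw [natDegree_add_eq_left_of_natDegree_lt h5, natDegree_mul hA0 hB'0] at g1
    exact g1
  · rw [max_eq_left c1.le, max_eq_left c2.le]
    have hA0 : A ≠ 0 := by
      rintro rfl
      simp at c1
    have hA'0 : A' ≠ 0 := by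
      rintro rfl
      simp at c2
    rwa [natDegree_mul hA0 hA'0] at g2

/-- representation of a rational function -/
theorem rep (x : RatFunc k) : ∃ n d : k[X], d ≠ 0 ∧ n.natDegree ≤ ht x ∧ d.natDegree ≤ ht x ∧
    algebraMap k[X] (RatFunc k) n = x * algebraMap k[X] (RatFunc k) d := by
  refine ⟨x.num, x.denom, x.denom_ne_zero, le_max_left _ _, le_max_right _ _, ?_⟩
  have hb : algebraMap k[X] (RatFunc k) x.denom ≠ 0 := RatFunc.algebraMap_ne_zero x.denom_ne_zero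
  have h3 := x.num_div_denom
  rwa [div_eq_iff hb] at h3

theorem deg_two (M : k[X]) (D : ℕ) (h : M.natDegree ≤ D) : (M + M).natDegree ≤ D :=
  natDegree_add_le_of_degree_le h h

theorem deg_sub (M N : k[X]) (D : ℕ) (h : M.natDegree ≤ D) (h' : N.natDegree ≤ D) :
    (M - N).natDegree ≤ D :=
  (natDegree_sub_le M N).trans (max_le h h')

/-- the two abscissas -/
theorem two_roots (a : k[X]) (x₁ x₂ y₁ y₂ : RatFunc k) (hx : x₁ ≠ x₂)
    (h₁ : y₁ ^ 2 = x₁ ^ 3 + algebraMap k[X] (RatFunc k) a ^ 2)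
    (h₂ : y₂ ^ 2 = x₂ ^ 3 + algebraMap k[X] (RatFunc k) a ^ 2) :
    ht (((y₁ - y₂) / (x₁ - x₂)) ^ 2 - x₁ - x₂) + ht (((y₁ + y₂) / (x₁ - x₂)) ^ 2 - x₁ - x₂) ≤
      2 * ht x₁ + 2 * ht x₂ + 2 * a.natDegree := by
  obtain ⟨n₁, d₁, hd₁, hn1, hm1, e₁⟩ := rep x₁
  obtain ⟨n₂, d₂, hd₂, hn2, hm2, e₂⟩ := rep x₂
  set α := algebraMap k[X] (RatFunc k) a with hα
  set b₁ := algebraMap k[X] (RatFunc k) d₁ with hb₁
  set b₂ := algebraMap k[X] (RatFunc k) d₂ with hb₂
  have hb₁0 : b₁ ≠ 0 := RatFunc.algebraMap_ne_zero hd₁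
  have hb₂0 : b₂ ≠ 0 := RatFunc.algebraMap_ne_zero hd₂
  have hu : x₁ - x₂ ≠ 0 := sub_ne_zero.2 hx
  set X3 := ((y₁ - y₂) / (x₁ - x₂)) ^ 2 - x₁ - x₂ with hX3
  set X4 := ((y₁ + y₂) / (x₁ - x₂)) ^ 2 - x₁ - x₂ with hX4
  have g3 : X3 * (x₁ - x₂) ^ 2 = (y₁ - y₂) ^ 2 - (x₁ + x₂) * (x₁ - x₂) ^ 2 := by
    rw [hX3, div_pow, sub_mul, sub_mul, div_mul_cancel₀ _ (pow_ne_zero 2 hu)]
    ring
  have g4 : X4 * (x₁ - x₂) ^ 2 = (y₁ + y₂) ^ 2 - (x₁ + x₂) * (x₁ - x₂) ^ 2 := by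
    rw [hX4, div_pow, sub_mul, sub_mul, div_mul_cancel₀ _ (pow_ne_zero 2 hu)]
    ring
  clear_value X3 X4
  have gs : (x₁ - x₂) ^ 2 * (X3 + X4) = 2 * (x₁ * x₂ * (x₁ + x₂) + 2 * α ^ 2) := by
    linear_combination g3 + g4 + 2 * h₁ + 2 * h₂
  have gp : (x₁ - x₂) ^ 2 * (X3 * X4) = x₁ ^ 2 * x₂ ^ 2 - 4 * α ^ 2 * (x₁ + x₂) := by
    apply mul_left_cancel₀ (pow_ne_zero 2 hu)
    linear_combination (X4 * (x₁ - x₂) ^ 2) * g3 +
      ((y₁ - y₂) ^ 2 - (x₁ + x₂) * (x₁ - x₂) ^ 2) * g4 +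
      ((y₁ ^ 2 - y₂ ^ 2) + (x₁ ^ 3 - x₂ ^ 3)) * (h₁ - h₂) -
      2 * (x₁ + x₂) * (x₁ - x₂) ^ 2 * (h₁ + h₂)
  set s : k[X] := n₁ * d₂ + n₂ * d₁ with hs
  have hsdeg : s.natDegree ≤ ht x₁ + ht x₂ := by
    refine natDegree_add_le_of_degree_le (natDegree_mul_le_of_le hn1 hm2) ?_
    refine (natDegree_mul_le_of_le hn2 hm1).trans ?_
    omega
  have hddeg : (d₁ * d₂).natDegree ≤ ht x₁ + ht x₂ := natDegree_mul_le_of_le hm1 hm2
  have hndeg : (n₁ * n₂).natDegree ≤ ht x₁ + ht x₂ := natDegree_mul_le_of_le hn1 hn2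
  have hsA : algebraMap k[X] (RatFunc k) s = (x₁ + x₂) * (b₁ * b₂) := by
    rw [hs, map_add, map_mul, map_mul, e₁, e₂, ← hb₁, ← hb₂]
    ring
  set M : k[X] := n₁ * n₂ * s + (a ^ 2 * (d₁ * d₂) ^ 2 + a ^ 2 * (d₁ * d₂) ^ 2) with hM
  set T : k[X] := a ^ 2 * (d₁ * d₂ * s) with hT
  have hE1 : (a ^ 2 * (d₁ * d₂) ^ 2).natDegree ≤ 2 * ht x₁ + 2 * ht x₂ + 2 * a.natDegree := by
    refine (natDegree_mul_le_of_le (natDegree_pow_le_of_le 2 le_rfl)
      (natDegree_pow_le_of_le 2 hddeg)).trans ?_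
    omega
  have hMd : M.natDegree ≤ 2 * ht x₁ + 2 * ht x₂ + 2 * a.natDegree := by
    refine natDegree_add_le_of_degree_le ?_ (deg_two _ _ hE1)
    refine (natDegree_mul_le_of_le hndeg hsdeg).trans ?_
    omega
  have hTd : T.natDegree ≤ 2 * ht x₁ + 2 * ht x₂ + 2 * a.natDegree := by
    refine (natDegree_mul_le_of_le (natDegree_pow_le_of_le 2 le_rfl)
      (natDegree_mul_le_of_le hddeg hsdeg)).trans ?_
    omega
  refine pair ((n₁ * d₂ - n₂ * d₁) ^ 2) (M + M) ((n₁ * n₂) ^ 2 - ((T + T) + (T + T))) ?_ X3 X4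
    ?_ ?_ _ ?_ (deg_two _ _ hMd) ?_
  · intro h0
    have h5 : algebraMap k[X] (RatFunc k) ((n₁ * d₂ - n₂ * d₁) ^ 2) =
        (x₁ - x₂) ^ 2 * (b₁ * b₂) ^ 2 := by
      rw [map_pow, map_sub, map_mul, map_mul, e₁, e₂, ← hb₁, ← hb₂]
      ring
    rw [h0, map_zero] at h5
    exact (mul_ne_zero (pow_ne_zero 2 hu) (pow_ne_zero 2 (mul_ne_zero hb₁0 hb₂0))) h5.symm
  · rw [hM]
    simp only [map_pow, map_sub, map_mul, map_add, hsA, e₁, e₂, ← hb₁, ← hb₂, ← hα]
    linear_combination (b₁ * b₂) ^ 2 * gs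
  · rw [hT]
    simp only [map_pow, map_sub, map_mul, map_add, hsA, e₁, e₂, ← hb₁, ← hb₂, ← hα]
    linear_combination (b₁ * b₂) ^ 2 * gp
  · have h6 : (n₁ * d₂ - n₂ * d₁).natDegree ≤ ht x₁ + ht x₂ :=
      deg_sub _ _ _ (natDegree_mul_le_of_le hn1 hm2)
        ((natDegree_mul_le_of_le hn2 hm1).trans (by omega))
    refine (natDegree_pow_le_of_le 2 h6).trans ?_
    omega
  · refine (natDegree_sub_le_of_le (m := 2 * ht x₁ + 2 * ht x₂ + 2 * a.natDegree)
      (n := 2 * ht x₁ + 2 * ht x₂ + 2 * a.natDegree) ?_ (deg_two _ _ (deg_two _ _ hTd))).trans ?_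
    · refine (natDegree_pow_le_of_le 2 hndeg).trans ?_
      omega
    · simp

/-- the abscissa of `2 P` -/
theorem double (a : k[X]) (x y l : RatFunc k) (h2 : (2 : RatFunc k) ≠ 0) (hy : y ≠ 0)
    (h : y ^ 2 = x ^ 3 + algebraMap k[X] (RatFunc k) a ^ 2) (hl : l * (2 * y) = 3 * x ^ 2) :
    ht (l ^ 2 - x - x) ≤ 4 * ht x + 2 * a.natDegree := by
  obtain ⟨n, d, hd, hn, hm, e⟩ := rep x
  set α := algebraMap k[X] (RatFunc k) a with hα
  set b := algebraMap k[X] (RatFunc k) d with hb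
  have hb0 : b ≠ 0 := RatFunc.algebraMap_ne_zero hd
  set T : k[X] := a ^ 2 * (n * d ^ 3) with hT
  set M : k[X] := d * (n ^ 3 + a ^ 2 * d ^ 3) with hM
  have hTd : T.natDegree ≤ 4 * ht x + 2 * a.natDegree := by
    refine (natDegree_mul_le_of_le (natDegree_pow_le_of_le 2 le_rfl)
      (natDegree_mul_le_of_le hn (natDegree_pow_le_of_le 3 hm))).trans ?_
    omega
  have hMd : M.natDegree ≤ 4 * ht x + 2 * a.natDegree := by
    refine (natDegree_mul_le_of_le hm (natDegree_add_le_of_degree_le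
      (n := 3 * ht x + 2 * a.natDegree) ?_ ?_)).trans ?_
    · exact (natDegree_pow_le_of_le 3 hn).trans (by omega)
    · refine (natDegree_mul_le_of_le (natDegree_pow_le_of_le 2 le_rfl)
        (natDegree_pow_le_of_le 3 hm)).trans ?_
      omega
    · omega
  have hMA : algebraMap k[X] (RatFunc k) ((M + M) + (M + M)) = (2 * y) ^ 2 * b ^ 4 := by
    rw [hM]
    simp only [map_pow, map_mul, map_add, e, ← hb, ← hα]
    linear_combination (-4 * b ^ 4) * h
  have hNA : algebraMap k[X] (RatFunc k)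
      (n ^ 4 - (((T + T) + (T + T)) + ((T + T) + (T + T)))) =
      (x ^ 4 - 8 * α ^ 2 * x) * b ^ 4 := by
    rw [hT]
    simp only [map_pow, map_mul, map_add, map_sub, e, ← hb, ← hα]
    ring
  have hM0 : (M + M) + (M + M) ≠ 0 := by
    intro h0
    rw [h0, map_zero] at hMA
    exact (mul_ne_zero (pow_ne_zero 2 (mul_ne_zero h2 hy)) (pow_ne_zero 4 hb0)) hMA.symm
  have key : l ^ 2 - x - x = algebraMap k[X] (RatFunc k)
      (n ^ 4 - (((T + T) + (T + T)) + ((T + T) + (T + T)))) /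
      algebraMap k[X] (RatFunc k) ((M + M) + (M + M)) := by
    rw [hMA, hNA, eq_div_iff (mul_ne_zero (pow_ne_zero 2 (mul_ne_zero h2 hy)) (pow_ne_zero 4 hb0))]
    linear_combination b ^ 4 * (l * (2 * y) + 3 * x ^ 2) * hl - 8 * x * b ^ 4 * h
  rw [key]
  refine (ht_div_le _ _ hM0).trans (max_le ?_ (deg_two _ _ (deg_two _ _ hMd)))
  refine (natDegree_sub_le_of_le (m := 4 * ht x + 2 * a.natDegree)
    (n := 4 * ht x + 2 * a.natDegree) ?_
    (deg_two _ _ (deg_two _ _ (deg_two _ _ hTd)))).trans (by simp)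
  exact (natDegree_pow_le_of_le 4 hn).trans (by omega)

section main

variable {K : Type} [Field K]

theorem eqn {e x y : K} (h : (W e).Nonsingular x y) : y ^ 2 = x ^ 3 + e := by
  have h1 := ((W e).equation_iff x y).1 h.1
  simp only [W] at h1
  linear_combination h1

theorem negY_eq {e : K} (x y : K) : (W e).negY x y = -y := by simp [Affine.negY, W]

theorem addX_eq {e : K} (x₁ x₂ l : K) : (W e).addX x₁ x₂ l = l ^ 2 - x₁ - x₂ := by
  simp [Affine.addX, W]

end main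

theorem Hp_neg {a : RatFunc k} (P : (W (a ^ 2)).Point) : Hp (-P) = Hp P := by
  rcases P with _ | ⟨x, y, h⟩
  · rfl
  · rfl

theorem Hp_add_X_ne [DecidableEq (RatFunc k)] {a x₁ y₁ x₂ y₂ : RatFunc k}
    (h₁ : (W (a ^ 2)).Nonsingular x₁ y₁) (h₂ : (W (a ^ 2)).Nonsingular x₂ y₂) (hx : x₁ ≠ x₂) :
    Hp ((.some x₁ y₁ h₁ : (W (a ^ 2)).Point) + .some x₂ y₂ h₂) =
      ht ((((y₁ - y₂) / (x₁ - x₂)) ^ 2 - x₁ - x₂) ^ 3 / a ^ 2) := by
  rw [Affine.Point.add_of_X_ne hx]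
  show ht ((W (a ^ 2)).addX x₁ x₂ ((W (a ^ 2)).slope x₁ x₂ y₁ y₂) ^ 3 / a ^ 2) = _
  rw [addX_eq, Affine.slope_of_X_ne hx]

theorem t_HPAR : S_HPAR := by
  intro k _ _ h2 h3 a ha
  refine ⟨18 * a.natDegree, fun P Q => ?_⟩
  have h2' : (2 : RatFunc k) ≠ 0 := by
    have h5 : algebraMap k[X] (RatFunc k) (C 2) ≠ 0 := RatFunc.algebraMap_ne_zero (C_ne_zero.2 h2)
    intro h6
    apply h5
    rw [show (C 2 : k[X]) = 2 from rfl, map_ofNat]
    exact h6
  rcases P with _ | ⟨x₁, y₁, h₁⟩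
  · rw [← Affine.Point.zero_def, zero_add, zero_sub, Hp_neg]
    omega
  rcases Q with _ | ⟨x₂, y₂, h₂⟩
  · rw [← Affine.Point.zero_def, add_zero, sub_zero]
    omega
  have he₁ := eqn h₁
  have he₂ := eqn h₂
  have hp : Hp (.some x₁ y₁ h₁ : (W (algebraMap k[X] (RatFunc k) a ^ 2)).Point) =
    ht (x₁ ^ 3 / algebraMap k[X] (RatFunc k) a ^ 2) := rfl
  have hq : Hp (.some x₂ y₂ h₂ : (W (algebraMap k[X] (RatFunc k) a ^ 2)).Point) =
    ht (x₂ ^ 3 / algebraMap k[X] (RatFunc k) a ^ 2) := rfl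
  have l₁ := ht_low a ha x₁
  have l₂ := ht_low a ha x₂
  rw [sub_eq_add_neg, Affine.Point.neg_some]
  have hneg := negY_eq (e := algebraMap k[X] (RatFunc k) a ^ 2) x₂ y₂
  by_cases hx : x₁ = x₂
  · subst hx
    have hH : ∀ (y y' : RatFunc k)
        (h : (W (algebraMap k[X] (RatFunc k) a ^ 2)).Nonsingular x₁ y)
        (h' : (W (algebraMap k[X] (RatFunc k) a ^ 2)).Nonsingular x₁ y'),
        Hp ((.some x₁ y h : (W (algebraMap k[X] (RatFunc k) a ^ 2)).Point) + .some x₁ y' h') ≤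
          3 * (4 * ht x₁ + 2 * a.natDegree) + 2 * a.natDegree := by
      intro y y' h h'
      by_cases hy : y = (W (algebraMap k[X] (RatFunc k) a ^ 2)).negY x₁ y'
      · rw [Affine.Point.add_of_Y_eq rfl hy]
        exact Nat.zero_le _
      · have hyy : y = y' := Affine.Y_eq_of_Y_ne h.1 h'.1 rfl hy
        subst hyy
        have hy0 : y ≠ 0 := by
          rintro rfl
          apply hy
          rw [negY_eq, neg_zero]
        rw [Affine.Point.add_self_of_Y_ne hy]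
        refine (ht_up a ha _).trans ?_
        have h7 : ht ((W (algebraMap k[X] (RatFunc k) a ^ 2)).addX x₁ x₁
            ((W (algebraMap k[X] (RatFunc k) a ^ 2)).slope x₁ x₁ y y)) ≤
            4 * ht x₁ + 2 * a.natDegree := by
          rw [addX_eq]
          refine double a x₁ y _ h2' hy0 (eqn h) ?_
          rw [Affine.slope_of_Y_ne rfl hy, negY_eq]
          simp only [W]
          have h8 : y - -y ≠ 0 := by
            rw [sub_neg_eq_add, ← two_mul]
            exact mul_ne_zero h2' hy0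
          rw [div_mul_eq_mul_div, div_eq_iff h8]
          ring
        omega
    by_cases hy : y₁ = (W (algebraMap k[X] (RatFunc k) a ^ 2)).negY x₁ y₂
    · have e1 : Hp ((.some x₁ y₁ h₁ : (W (algebraMap k[X] (RatFunc k) a ^ 2)).Point) +
          .some x₁ y₂ h₂) = 0 := by
        rw [Affine.Point.add_of_Y_eq rfl hy]
        rfl
      have e2 := hH y₁ _ h₁ ((Affine.nonsingular_neg x₁ y₂).2 h₂)
      omega
    · have hyy : y₁ = y₂ := Affine.Y_eq_of_Y_ne h₁.1 h₂.1 rfl hy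
      subst hyy
      have e1 : Hp ((.some x₁ y₁ h₁ : (W (algebraMap k[X] (RatFunc k) a ^ 2)).Point) +
          .some x₁ _ ((Affine.nonsingular_neg x₁ y₁).2 h₂)) = 0 := by
        rw [Affine.Point.add_of_Y_eq rfl (by rw [negY_eq, negY_eq, neg_neg])]
        rfl
      have e2 := hH y₁ y₁ h₁ h₂
      omega
  · have r := two_roots a x₁ x₂ y₁ y₂ hx he₁ he₂
    rw [Hp_add_X_ne h₁ h₂ hx, Hp_add_X_ne h₁ _ hx, hneg, sub_neg_eq_add]
    have u1 := ht_up a ha (((y₁ - y₂) / (x₁ - x₂)) ^ 2 - x₁ - x₂)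
    have u2 := ht_up a ha (((y₁ + y₂) / (x₁ - x₂)) ^ 2 - x₁ - x₂)
    omega

end Pool.Agent.N163.KG.HPAR
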