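import Pool.Agent.N163.KG.Stm2
import Pool.Agent.N420.KS.Main

/-!
Leaf KG/INF (helper280), project KG (helper163): one point with `x ≠ 0` gives positive rank and
infinitely many affine points.
-/

set_option autoImplicit false

namespace Pool.Agent.N163.KG.INF

open Polynomial Pool.Agent.N163.KN Pool.Agent.N163.KG Pool.Agent.N420.KS

/-! ### the height of the multiples -/

section par

variable {M : Type} [AddCommGroup M] {H : M → ℕ}

theorem H_mul (hP : Pool.Agent.N163.KG.Par H) (h0 : H 0 = 0) (P : M) :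
    ∀ m : ℕ, H (m • P) = m ^ 2 * H P ∧ H ((m + 1) • P) = (m + 1) ^ 2 * H P := by
  intro m
  induction m with
  | zero => simp [h0]
  | succ m ih =>
    refine ⟨ih.2, ?_⟩
    have h1 := hP ((m + 1) • P) P
    have e1 : (m + 1) • P + P = (m + 1 + 1) • P := (succ_nsmul P (m + 1)).symm
    have e2 : (m + 1) • P - P = m • P := by rw [succ_nsmul, add_sub_cancel_right]
    rw [e1, e2, ih.1, ih.2] at h1
    have h2 : H ((m + 1 + 1) • P) + m ^ 2 * H P = (m + 1 + 1) ^ 2 * H P + m ^ 2 * H P := by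
      rw [h1]
      ring
    exact Nat.add_right_cancel h2

theorem rank_of (hP : Pool.Agent.N163.KG.Par H) (h0 : H 0 = 0) (P : M) (hpos : H P ≠ 0) :
    0 < Module.rank ℤ M := by
  rw [pos_iff_ne_zero]
  intro h
  rw [rank_eq_zero_iff] at h
  obtain ⟨a, ha, hx⟩ := h P
  have h1 : a.natAbs • P = 0 := by
    rcases Int.natAbs_eq a with h2 | h2
    · rw [h2, natCast_zsmul] at hx
      exact hx
    · rw [h2, neg_zsmul, natCast_zsmul, neg_eq_zero] at hx
      exact hx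
  have h2 := (H_mul hP h0 P a.natAbs).1
  rw [h1, h0] at h2
  have h3 : 0 < a.natAbs := Int.natAbs_pos.2 ha
  have h4 : 0 < a.natAbs ^ 2 * H P := by positivity
  omega

end par

/-! ### points on the cubic -/

section field

variable {K : Type} [Field K]

theorem nonsing {e x y : K} (h3 : (3 : K) ≠ 0) (hx : x ≠ 0) (h : y ^ 2 = x ^ 3 + e) :
    (W e).Nonsingular x y := by
  rw [WeierstrassCurve.Affine.nonsingular_iff']
  constructor
  · rw [WeierstrassCurve.Affine.equation_iff]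
    simp only [W]
    linear_combination h
  · left
    simp only [W]
    have h1 : 0 * y - (3 * x ^ 2 + 2 * 0 * x + 0) = -(3 * x ^ 2) := by ring
    rw [h1]
    exact neg_ne_zero.2 (mul_ne_zero h3 (pow_ne_zero 2 hx))

theorem eqn {e x y : K} (h : (W e).Nonsingular x y) : y ^ 2 = x ^ 3 + e := by
  have h1 := (WeierstrassCurve.Affine.equation_iff _ _).1 h.1
  simp only [W] at h1
  linear_combination h1

/-- from the Weierstrass form to `-q (1 + q) = b e z ^ 3` -/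
theorem zq_eq (h2 : (2 : K) ≠ 0) {b e x y : K} (hb : b ≠ 0) (he : e ≠ 0)
    (h : y ^ 2 = x ^ 3 + (e / (2 * b ^ 2)) ^ 2) :
    -(1 * ((2 * b ^ 2 * y / e - 1) / 2) * (1 + (2 * b ^ 2 * y / e - 1) / 2)) =
      b * e * (-(b * x / e)) ^ 3 := by
  have h1 : 4 * b ^ 4 * y ^ 2 = 4 * b ^ 4 * x ^ 3 + e ^ 2 := by
    have h4 : (4 : K) = 2 * 2 := by norm_num
    rw [h]
    field_simp
    rw [h4]
    ring
  field_simp
  linear_combination (-1 : K) * h1

/-- the cubic -/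
theorem sect {ω γ b c q z T : K} (h3 : (3 : K) ≠ 0) (hω : ω ^ 2 + ω + 1 = 0)
    (hγ : γ ^ 3 = c) (hγ0 : γ ≠ 0) (hz : z ≠ 0) (hT : T ≠ 0)
    (h : -(1 * q * (1 + q)) = b * (T ^ 3 - c) * z ^ 3) :
    ((((1 - ω) * 1 + (ω ^ 2 - ω) * q) / (3 * z * T)) ^ 3 - b) * T ^ 3
      = c * ((-((1 - ω ^ 2) * 1 + (ω - ω ^ 2) * q) / (3 * γ * z)) ^ 3 - b) := by
  have key := cube_id (p := 1) (q := q) hω
  set a := (1 - ω) * 1 + (ω ^ 2 - ω) * q with ha
  set d := -((1 - ω ^ 2) * 1 + (ω - ω ^ 2) * q) with hd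
  have h27 : (27 : K) = 3 ^ 3 := by norm_num
  have e1 : (a / (3 * z * T)) ^ 3 * T ^ 3 = a ^ 3 / (27 * z ^ 3) := by
    rw [h27]
    field_simp
  have e2 : c * (d / (3 * γ * z)) ^ 3 = d ^ 3 / (27 * z ^ 3) := by
    rw [h27, ← hγ]
    field_simp
  have h27' : (27 : K) ≠ 0 := by
    rw [h27]
    exact pow_ne_zero 3 h3
  have e3 : a ^ 3 / (27 * z ^ 3) - d ^ 3 / (27 * z ^ 3) = b * (T ^ 3 - c) := by
    rw [← sub_div, div_eq_iff (mul_ne_zero h27' (pow_ne_zero 3 hz)), key]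
    linear_combination 27 * h
  linear_combination e1 - e2 + e3

theorem sinj {ω γ q z q' z' T : K} (h3 : (3 : K) ≠ 0) (hω : ω ^ 2 + ω + 1 = 0)
    (hγ0 : γ ≠ 0) (hz : z ≠ 0) (hz' : z' ≠ 0) (hT : T ≠ 0)
    (h1 : ((1 - ω) * 1 + (ω ^ 2 - ω) * q) / (3 * z * T)
      = ((1 - ω) * 1 + (ω ^ 2 - ω) * q') / (3 * z' * T))
    (h2 : -((1 - ω ^ 2) * 1 + (ω - ω ^ 2) * q) / (3 * γ * z)
      = -((1 - ω ^ 2) * 1 + (ω - ω ^ 2) * q') / (3 * γ * z')) :
    z = z' ∧ q = q' := by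
  have hω3 : ω ^ 3 = 1 := by linear_combination (ω - 1) * hω
  have hω0 : ω ≠ 0 := by
    rintro rfl
    norm_num at hω
  have g1 : ((1 - ω) * 1 + (ω ^ 2 - ω) * q) * z' = ((1 - ω) * 1 + (ω ^ 2 - ω) * q') * z := by
    rw [div_eq_div_iff (mul_ne_zero (mul_ne_zero h3 hz) hT)
      (mul_ne_zero (mul_ne_zero h3 hz') hT)] at h1
    have : (3 * T) * (((1 - ω) * 1 + (ω ^ 2 - ω) * q) * z')
        = (3 * T) * (((1 - ω) * 1 + (ω ^ 2 - ω) * q') * z) := by
      linear_combination h1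
    exact mul_left_cancel₀ (mul_ne_zero h3 hT) this
  have g2 : -((1 - ω ^ 2) * 1 + (ω - ω ^ 2) * q) * z'
      = -((1 - ω ^ 2) * 1 + (ω - ω ^ 2) * q') * z := by
    rw [div_eq_div_iff (mul_ne_zero (mul_ne_zero h3 hγ0) hz)
      (mul_ne_zero (mul_ne_zero h3 hγ0) hz')] at h2
    have : (3 * γ) * (-((1 - ω ^ 2) * 1 + (ω - ω ^ 2) * q) * z')
        = (3 * γ) * (-((1 - ω ^ 2) * 1 + (ω - ω ^ 2) * q') * z) := by
      linear_combination h2
    exact mul_left_cancel₀ (mul_ne_zero h3 hγ0) this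
  have f1 : z' = z := by
    have : 3 * z' = 3 * z := by
      linear_combination g1 - g2 + (z' - z) * hω
    exact mul_left_cancel₀ h3 this
  have f2 : q * z' = q' * z := by
    have : (3 * ω ^ 2) * (q * z') = (3 * ω ^ 2) * (q' * z) := by
      linear_combination g1 - ω * g2 + ((1 + q) * z' - (1 + q') * z) * hω3
        + (q * z' - q' * z) * hω
    exact mul_left_cancel₀ (mul_ne_zero h3 (pow_ne_zero 2 hω0)) this
  rw [f1] at f2
  exact ⟨f1.symm, mul_right_cancel₀ hz f2⟩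

end field

/-! ### the main theorem -/

section main

variable {F : Type} [Field F]

theorem ar_eq (b c : F) (n : ℕ) :
    ar (1 / (2 * b ^ 2)) c n = (RatFunc.X ^ (6 * n) - RatFunc.C c) / (2 * RatFunc.C b ^ 2) := by
  have h1 : (RatFunc.C (1 / (2 * b ^ 2)) : RatFunc F) = 1 / (2 * RatFunc.C b ^ 2) := by
    rw [map_div₀, map_one, map_mul, map_pow, map_ofNat]
  unfold ar ap
  rw [map_mul, RatFunc.algebraMap_C, h1, map_sub, map_pow, RatFunc.algebraMap_X,
    RatFunc.algebraMap_C]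
  rw [div_mul_eq_mul_div, one_mul]

theorem wei_W (b c : F) (n : ℕ) :
    weierstrass F b c n = W (ar (1 / (2 * b ^ 2)) c n ^ 2) := by
  rw [ar_eq]
  rfl

theorem ht_zero : ht (0 : RatFunc F) = 0 := by
  unfold ht
  rw [RatFunc.num_zero, RatFunc.denom_zero]
  simp

theorem gen (hFG : S_FG) (hU : S_CUBE) (hHF : S_HFIN) [Finite F] (p l : ℕ) [Fact p.Prime]
    [CharP F p] [DecidableEq (RatFunc F)] (hp : p = 6 * l + 1) (b c : F)
    (hA : Admissible F b c) (n : ℕ) (hn : 1 ≤ n) (hpn : ¬ p ∣ n) (x y : RatFunc F) (hx : x ≠ 0)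
    (hxy : y ^ 2 = x ^ 3 + ar (1 / (2 * b ^ 2)) c n ^ 2) :
    0 < Module.rank ℤ (W (ar (1 / (2 * b ^ 2)) c n ^ 2)).Point ∧
      (affinePoints F b c n).Infinite := by
  have hb0 := hA.b_ne
  have hchar : ringChar F = p := ringChar.eq F p
  have h3p : 3 < p := by
    have := hA.char_gt
    rwa [hchar] at this
  have h2 : (2 : F) ≠ 0 := by
    intro h
    have h' : ((2 : ℕ) : F) = 0 := by exact_mod_cast h
    have := Nat.le_of_dvd (by norm_num) ((CharP.cast_eq_zero_iff F p 2).1 h')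
    omega
  have h3 : (3 : F) ≠ 0 := by
    intro h
    have h' : ((3 : ℕ) : F) = 0 := by exact_mod_cast h
    have := Nat.le_of_dvd (by norm_num) ((CharP.cast_eq_zero_iff F p 3).1 h')
    omega
  have hnF : (n : F) ≠ 0 := fun h => hpn ((CharP.cast_eq_zero_iff F p n).1 h)
  have hα : (1 / (2 * b ^ 2) : F) ≠ 0 := one_div_ne_zero (mul_ne_zero h2 (pow_ne_zero 2 hb0))
  obtain ⟨ω, hω⟩ := exists_omega b hb0 hA.b_noncube
  obtain ⟨γ, hγ⟩ := hA.c_cube
  have hγ0 : γ ≠ 0 := by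
    rintro rfl
    apply hA.c_ne
    rw [← hγ]
    ring
  have h2' : (2 : RatFunc F) ≠ 0 := two_ne (h2 := h2)
  have h3' : (3 : RatFunc F) ≠ 0 := three_ne (h3 := h3)
  have hb' : (RatFunc.C b : RatFunc F) ≠ 0 := RC_ne hb0
  have hap : ap (1 / (2 * b ^ 2)) c n ≠ 0 :=
    mul_ne_zero (C_ne_zero.2 hα) (num_ne (by omega) c)
  have har : ar (1 / (2 * b ^ 2)) c n ≠ 0 := ι_ne hap
  obtain ⟨hPar, -⟩ := hFG F p l hp (ap (1 / (2 * b ^ 2)) c n) hap
  have hPar' : Pool.Agent.N163.KG.Par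
    (Hp : (W (ar (1 / (2 * b ^ 2)) c n ^ 2)).Point → ℕ) := hPar
  have hns : (W (ar (1 / (2 * b ^ 2)) c n ^ 2)).Nonsingular x y := nonsing h3' hx hxy
  obtain ⟨P, hPdef⟩ : ∃ P : (W (ar (1 / (2 * b ^ 2)) c n ^ 2)).Point, P = .some x y hns := ⟨_, rfl⟩
  have h0 : Hp (0 : (W (ar (1 / (2 * b ^ 2)) c n ^ 2)).Point) = 0 := rfl
  have hpos : Hp P ≠ 0 := by
    intro h
    rw [hPdef] at h
    have h1 : ht (x ^ 3 / ar (1 / (2 * b ^ 2)) c n ^ 2) = 0 := h
    obtain ⟨d, hd⟩ := ((hHF.2 F).2 _ h1)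
    have h4 : x ^ 3 = RatFunc.C d * ar (1 / (2 * b ^ 2)) c n ^ 2 := by
      rw [← hd, div_mul_cancel₀ _ (pow_ne_zero 2 har)]
    have hd0 : d ≠ 0 := by
      rintro rfl
      rw [map_zero, zero_mul] at h4
      exact hx (pow_eq_zero_iff (by norm_num) |>.1 h4)
    exact hU F h2 h3 n _ c hnF hα hA.c_ne d x hd0 h4
  refine ⟨rank_of hPar' h0 P hpos, ?_⟩
  have hH : ∀ m : ℕ, Hp (m • P) = m ^ 2 * Hp P := fun m => (H_mul hPar' h0 P m).1
  -- the points
  have hpt : ∀ m : ℕ, ∃ (u v : RatFunc F) (h : (W (ar (1 / (2 * b ^ 2)) c n ^ 2)).Nonsingular u v),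
      u ≠ 0 ∧ (m + 1) • P = .some u v h := by
    intro m
    have h1 : Hp ((m + 1) • P) ≠ 0 := by
      rw [hH]
      positivity
    rcases hQ : (m + 1) • P with _ | ⟨u, v, h⟩
    · rw [hQ] at h1
      exact absurd rfl h1
    · refine ⟨u, v, h, ?_, rfl⟩
      rintro rfl
      rw [hQ] at h1
      apply h1
      show ht ((0 : RatFunc F) ^ 3 / _) = 0
      rw [zero_pow (by norm_num), zero_div]
      exact ht_zero
  choose u v hs hu hm using hpt
  obtain ⟨e, he⟩ : ∃ e : RatFunc F, e = RatFunc.X ^ (6 * n) - RatFunc.C c := ⟨_, rfl⟩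
  have hare : ar (1 / (2 * b ^ 2)) c n = e / (2 * RatFunc.C b ^ 2) := by rw [ar_eq, he]
  have he0 : e ≠ 0 := by
    rintro rfl
    rw [zero_div] at hare
    exact har hare
  have hT3 : e = (RatFunc.X ^ (2 * n)) ^ 3 - RatFunc.C c := by
    rw [he, ← pow_mul]
    congr 2
    ring
  have hT0 : (RatFunc.X ^ (2 * n) : RatFunc F) ≠ 0 := pow_ne_zero _ RX_ne
  have hw1 : (RatFunc.C ω : RatFunc F) ^ 2 + RatFunc.C ω + 1 = 0 := by
    rw [← map_pow, ← map_add, ← map_one RatFunc.C, ← map_add, hω, map_zero]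
  have hg1 : (RatFunc.C γ : RatFunc F) ^ 3 = RatFunc.C c := by rw [← map_pow, hγ]
  have hg0 : (RatFunc.C γ : RatFunc F) ≠ 0 := RC_ne hγ0
  obtain ⟨z, hz⟩ : ∃ z : ℕ → RatFunc F, z = fun m => -(RatFunc.C b * u m / e) := ⟨_, rfl⟩
  obtain ⟨q, hq⟩ : ∃ q : ℕ → RatFunc F, q = fun m => (2 * RatFunc.C b ^ 2 * v m / e - 1) / 2 :=
    ⟨_, rfl⟩
  have hz0 : ∀ m, z m ≠ 0 := by
    intro m
    rw [hz]
    exact neg_ne_zero.2 (div_ne_zero (mul_ne_zero hb' (hu m)) he0)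
  have hzq : ∀ m, -(1 * q m * (1 + q m)) = RatFunc.C b * e * z m ^ 3 := by
    intro m
    have h1 := eqn (hs m)
    rw [hare] at h1
    rw [hz, hq]
    exact zq_eq h2' hb' he0 h1
  refine Set.infinite_of_injective_forall_mem (f := fun m : ℕ =>
    (-((1 - (RatFunc.C ω : RatFunc F) ^ 2) * 1 + (RatFunc.C ω - RatFunc.C ω ^ 2) * q m) /
        (3 * RatFunc.C γ * z m),
      ((1 - (RatFunc.C ω : RatFunc F)) * 1 + (RatFunc.C ω ^ 2 - RatFunc.C ω) * q m) /
        (3 * z m * RatFunc.X ^ (2 * n)))) ?_ ?_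
  · intro k m hkm
    have e1 := congrArg Prod.fst hkm
    have e2 := congrArg Prod.snd hkm
    simp only at e1 e2
    obtain ⟨f1, f2⟩ := sinj h3' hw1 hg0 (hz0 k) (hz0 m) hT0 e2 e1
    rw [hz] at f1
    rw [hq] at f2
    have g1 : u k = u m := by
      have h1 := neg_injective f1
      rw [div_left_inj' he0] at h1
      exact mul_left_cancel₀ hb' h1
    have g2 : v k = v m := by
      have h1 : (2 * RatFunc.C b ^ 2 * v k / e - 1) / 2 = (2 * RatFunc.C b ^ 2 * v m / e - 1) / 2 := f2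
      rw [div_left_inj' h2', sub_left_inj, div_left_inj' he0] at h1
      exact mul_left_cancel₀ (mul_ne_zero h2' (pow_ne_zero 2 hb')) h1
    have g3 : (k + 1) • P = (m + 1) • P := by
      rw [hm k, hm m]
      congr 1
    have g4 := congrArg Hp g3
    rw [hH, hH] at g4
    have g5 := Nat.eq_of_mul_eq_mul_right (Nat.pos_of_ne_zero hpos) g4
    have g6 := Nat.pow_left_injective (n := 2) (by norm_num) g5
    omega
  · intro m
    have h1 := hzq m
    rw [hT3] at h1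
    have h4 := sect (b := RatFunc.C b) h3' hw1 hg1 hg0 (hz0 m) hT0 h1
    have h5 : (RatFunc.X ^ (2 * n) : RatFunc F) ^ 3 = RatFunc.X ^ (6 * n) := by
      rw [← pow_mul]
      congr 1
      ring
    rw [h5] at h4
    exact h4

end main

theorem t_INF (hFG : S_FG) (hU : S_CUBE) (hHF : S_HFIN) : Pool.Agent.N163.KG.S_INF := by
  classical
  intro F _ _ p l _ _ hp b c hA n hn hpn ⟨x, y, hx, hxy⟩
  rw [wei_W]
  exact gen hFG hU hHF p l hp b c hA n hn hpn x y hx hxy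

end Pool.Agent.N163.KG.INF
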