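import Pool.Agent.N163.KG.Stm
import Pool.Agent.N163.KN.INT

/-!
Project KG, leaf INT (helper663, from the file KN/INT of helper221): the logarithmic derivative of a
point is a polynomial of degree at most `4 n - 2`, for `a = α (t ^ (6 n) - c)`.
-/

set_option autoImplicit false

namespace Pool.Agent.N163.KG.INT

open Polynomial Pool.Agent.N163.KN
open Pool.Agent.N163.KG (ap ar)
open Pool.Agent.N163.KN.INT (deg_part ident dvd_part repr)

theorem sep_ap {k : Type} [Field k] {n : ℕ} {α c : k} (h6 : ((6 * n : ℕ) : k) ≠ 0) (hα : α ≠ 0)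
    (hc : c ≠ 0) : (ap α c n).Separable := by
  obtain ⟨u, v, huv⟩ := separable_X_pow_sub_C c h6 hc
  unfold ap
  refine ⟨C α⁻¹ * u, C α⁻¹ * v, ?_⟩
  rw [derivative_C_mul]
  have h1 : (C α⁻¹ : k[X]) * C α = 1 := by
    rw [← C_mul, inv_mul_cancel₀ hα, C_1]
  linear_combination (u * (X ^ (6 * n) - C c) + v * derivative (X ^ (6 * n) - C c)) * h1 + huv

theorem deg_ap {k : Type} [Field k] {n : ℕ} {α c : k} (hα : α ≠ 0) :
    (ap α c n).natDegree = 6 * n := by
  unfold ap
  rw [natDegree_C_mul hα, natDegree_X_pow_sub_C]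

theorem t_INT : Pool.Agent.N163.KG.S_INT := by
  intro k _ δ hδ h2 h3 n α c' hn hα hc' x y hy h
  have hn1 : 1 ≤ n := by
    rcases Nat.eq_zero_or_pos n with rfl | h0
    · exact absurd Nat.cast_zero hn
    · exact h0
  have h6 : ((6 * n : ℕ) : k) ≠ 0 := by
    rw [Nat.cast_mul]
    refine mul_ne_zero ?_ hn
    have : ((6 : ℕ) : k) = 2 * 3 := by norm_num
    rw [this]
    exact mul_ne_zero h2 h3
  have hsep : (ap α c' n).Separable := sep_ap h6 hα hc'
  have hdeg : (ap α c' n).natDegree = 6 * n := deg_ap hα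
  unfold ar at h ⊢
  set a : k[X] := ap α c' n
  obtain ⟨A, B, c, hB, hAB, hc, hx1, hy1⟩ := repr h
  have hB1 := RatFunc.algebraMap_ne_zero hB
  have hc0 : c ≠ 0 := by
    intro h0
    rw [h0, map_zero] at hy1
    exact mul_ne_zero hy (pow_ne_zero 3 hB1) hy1
  obtain ⟨g, hg⟩ := dvd_part hsep hAB hc0 hc
  refine ⟨g, ?_, ?_⟩
  · refine deg_part hn1 hdeg hB hc0 hc (by rw [hg]; ring) ?_
    have h1 := ident hc
    rw [hg] at h1
    apply mul_left_cancel₀ hc0
    linear_combination h1
  · have hd1 : x * algebraMap k[X] (RatFunc k) (derivative (B * B)) +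
        algebraMap k[X] (RatFunc k) (B * B) * δ x = algebraMap k[X] (RatFunc k) (derivative A) := by
      rw [← hδ.poly, ← hδ.poly, ← hx1, ← map_pow, sq, hδ.dn.mul]
    rw [derivative_mul] at hd1
    simp only [map_add, map_mul] at hd1
    have hg' := congrArg (algebraMap k[X] (RatFunc k)) hg
    simp only [map_sub, map_mul, map_ofNat] at hg'
    unfold dd
    rw [hδ.poly, div_eq_iff hy]
    apply mul_right_cancel₀ (pow_ne_zero 3 hB1)
    rw [mul_assoc _ y, hy1, mul_comm _ (algebraMap k[X] (RatFunc k) c), ← hg', ← hx1]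
    rw [← hd1]
    ring

end Pool.Agent.N163.KG.INT
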