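import Pool.Agent.N163.KG.Stm

/-!
# Project KG (helper163), part KER (helper764, after KN/KER.lean of helper152): the kernel of the
logarithmic derivative
-/

set_option autoImplicit false

namespace Pool.Agent.N163.KG.KER

open Polynomial Pool.Agent.N163.KN

theorem dn_one {K : Type} [Field K] {δ : K → K} (h : IsDn δ) : δ 1 = 0 := by
  have := h.mul 1 1
  rw [mul_one, one_mul] at this
  linear_combination -this

theorem dn_pow {K : Type} [Field K] {δ : K → K} (h : IsDn δ) (x : K) (n : ℕ) :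
    δ (x ^ (n + 1)) = (n + 1) * x ^ n * δ x := by
  induction n with
  | zero => simp
  | succ n ih =>
    rw [pow_succ x (n + 1), h.mul, ih]
    push_cast
    ring

theorem poly_pow {k : Type} [Field k] [Finite k] (p : ℕ) [hp : Fact p.Prime] [CharP k p] (f : k[X])
    (hf : derivative f = 0) : ∃ g : k[X], f = g ^ p := by
  have h1 : expand k p (contract p f) = f := expand_contract p hf hp.out.ne_zero
  have hs : Function.Surjective (frobenius k p) :=
    Finite.injective_iff_surjective.1 (frobenius_inj k p)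
  obtain ⟨g, hg⟩ := Polynomial.map_surjective (frobenius k p) hs (contract p f)
  refine ⟨g, ?_⟩
  rw [← h1, ← hg, ← Polynomial.map_expand, map_frobenius_expand]

theorem rat_pow {k : Type} [Field k] [Finite k] (p : ℕ) [hp : Fact p.Prime] [CharP k p]
    (δ : RatFunc k → RatFunc k) (hδ : IsDer δ) (f : RatFunc k) (hf : δ f = 0) :
    ∃ h : RatFunc k, f = h ^ p := by
  have : CharP (RatFunc k) p :=
    charP_of_injective_algebraMap (algebraMap k (RatFunc k)).injective p
  obtain ⟨m, hm⟩ : ∃ m, p = m + 1 := ⟨p - 1, by have := hp.out.pos; omega⟩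
  have hp0 : ((m : RatFunc k) + 1) = 0 := by
    have h1 := CharP.cast_eq_zero (RatFunc k) p
    have h2 : ((p : ℕ) : RatFunc k) = (m : RatFunc k) + 1 := by rw [hm]; push_cast; rfl
    rw [← h2, h1]
  have hB : f.denom ≠ 0 := RatFunc.denom_ne_zero f
  have hB' : algebraMap k[X] (RatFunc k) f.denom ≠ 0 := by
    intro h
    exact hB ((map_eq_zero_iff _ (RatFunc.algebraMap_injective k)).1 h)
  have hAB : algebraMap k[X] (RatFunc k) (f.num * f.denom ^ m) =
      f * algebraMap k[X] (RatFunc k) f.denom ^ (m + 1) := by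
    have e1 : algebraMap k[X] (RatFunc k) f.num = f * algebraMap k[X] (RatFunc k) f.denom := by
      conv_rhs => lhs; rw [← RatFunc.num_div_denom f]
      rw [div_mul_cancel₀ _ hB']
    rw [map_mul, map_pow, e1]
    ring
  have hd : algebraMap k[X] (RatFunc k) (derivative (f.num * f.denom ^ m)) = 0 := by
    have e1 := dn_pow hδ.dn (algebraMap k[X] (RatFunc k) f.denom) m
    rw [← hδ.poly, hAB, hδ.dn.mul, hf, e1]
    linear_combination (f * algebraMap k[X] (RatFunc k) f.denom ^ m *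
      δ (algebraMap k[X] (RatFunc k) f.denom)) * hp0
  obtain ⟨g, hg⟩ := poly_pow p (f.num * f.denom ^ m)
    ((map_eq_zero_iff _ (RatFunc.algebraMap_injective k)).1 hd)
  refine ⟨algebraMap k[X] (RatFunc k) g / algebraMap k[X] (RatFunc k) f.denom, ?_⟩
  rw [hg, map_pow, ← hm] at hAB
  rw [div_pow, hAB, mul_div_assoc, div_self (pow_ne_zero _ hB'), mul_one]

theorem t_KER : Pool.Agent.N163.KG.S_KER := by
  intro k _ _ p l hp _ δ hpl hδ a x y ha hy hxy hdd
  have hp0 : p ≠ 0 := hp.out.ne_zero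
  have : CharP (RatFunc k) p :=
    charP_of_injective_algebraMap (algebraMap k (RatFunc k)).injective p
  have h2 : (2 : RatFunc k) ≠ 0 := by
    intro h
    have h1 : ((2 : ℕ) : RatFunc k) = 0 := by exact_mod_cast h
    have h3 := Nat.le_of_dvd (by norm_num) ((CharP.cast_eq_zero_iff (RatFunc k) p 2).1 h1)
    have h4 := hp.out.two_le
    omega
  have h3 : 3 * a * δ x - 2 * δ a * x = 0 := by
    unfold dd at hdd
    rcases div_eq_zero_iff.1 hdd with h | h
    · exact h
    · exact absurd h hy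
  obtain ⟨w, hw⟩ : ∃ w, w = y / a := ⟨_, rfl⟩
  obtain ⟨z, hz⟩ : ∃ z, z = x ^ 3 / a ^ 2 := ⟨_, rfl⟩
  have hwz : w ^ 2 = z + 1 := by
    rw [hw, hz, div_pow, hxy]
    field_simp
  have hw0 : w ≠ 0 := by
    rw [hw]
    exact div_ne_zero hy ha
  have hDz : δ z = 0 := by
    have e1 : x ^ 3 = z * a ^ 2 := by
      rw [hz]
      field_simp
    have e2 := congrArg δ e1
    rw [hδ.dn.mul, dn_pow hδ.dn x 2, dn_pow hδ.dn a 1] at e2
    push_cast at e2
    have e3 : a ^ 2 * δ z * a = 0 := by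
      linear_combination (-a) * e2 + x ^ 2 * h3 + 2 * δ a * e1
    have e4 : a ^ 2 * a ≠ 0 := mul_ne_zero (pow_ne_zero _ ha) ha
    have e5 : δ z * (a ^ 2 * a) = 0 := by linear_combination e3
    exact (mul_eq_zero.1 e5).resolve_right e4
  have hDw : δ w = 0 := by
    have e2 := congrArg δ hwz
    rw [dn_pow hδ.dn w 1, hδ.dn.add, hDz, dn_one hδ.dn, add_zero] at e2
    push_cast at e2
    have e3 : 2 * w ≠ 0 := mul_ne_zero h2 hw0
    have e4 : (2 * w) * δ w = 0 := by linear_combination e2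
    exact (mul_eq_zero.1 e4).resolve_left e3
  obtain ⟨w₁, hw₁⟩ := rat_pow p δ hδ w hDw
  have hz₁ : z = (w₁ ^ 2 - 1) ^ p := by
    rw [sub_pow_char, one_pow, ← pow_mul, mul_comm 2 p, pow_mul, ← hw₁, hwz]
    ring
  obtain ⟨z₁, hz₁'⟩ : ∃ z₁, z₁ = w₁ ^ 2 - 1 := ⟨_, rfl⟩
  rw [← hz₁'] at hz₁
  have hyw : y = a * w₁ ^ p := by
    rw [← hw₁, hw]
    field_simp
  have hx3 : x ^ 3 = z₁ ^ p * a ^ 2 := by
    rw [← hz₁, hz]
    field_simp
  have hap : a ^ p = a * a ^ (6 * l) := by rw [hpl]; ring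
  have ha6 : a ^ (6 * l) ≠ 0 := pow_ne_zero _ ha
  have hyy : y = (a * w₁) ^ p / a ^ (6 * l) := by
    rw [hyw, mul_pow, hap, eq_div_iff ha6]
    ring
  by_cases h0 : z₁ = 0
  · have hx0 : x = 0 := by
      rw [h0, zero_pow hp0, zero_mul] at hx3
      exact pow_eq_zero_iff (by norm_num) |>.1 hx3
    refine ⟨0, a * w₁, ?_, ?_, hyy⟩
    · rw [h0] at hz₁'
      linear_combination (-a ^ 2) * hz₁'
    · rw [hx0, zero_pow hp0, zero_div]
  · have hz6 : z₁ ^ (2 * l) ≠ 0 := pow_ne_zero _ h0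
    have e1 : (x / z₁ ^ (2 * l)) ^ 3 = z₁ * a ^ 2 := by
      have e0 : z₁ ^ p = z₁ * (z₁ ^ (2 * l)) ^ 3 := by rw [hpl]; ring
      rw [div_pow, hx3, e0, div_eq_iff (pow_ne_zero _ hz6)]
      ring
    refine ⟨x / z₁ ^ (2 * l), a * w₁, ?_, ?_, hyy⟩
    · rw [e1, hz₁']
      ring
    · have e2 : (x / z₁ ^ (2 * l)) ^ p = (x / z₁ ^ (2 * l)) *
          ((x / z₁ ^ (2 * l)) ^ 3) ^ (2 * l) := by
        rw [← pow_mul, ← pow_succ', hpl]
        congr 1
        ring
      have e3 : (z₁ * a ^ 2) ^ (2 * l) = z₁ ^ (2 * l) * a ^ (4 * l) := by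
        rw [mul_pow, ← pow_mul]
        congr 2
        ring
      rw [e2, e1, e3, eq_div_iff (pow_ne_zero _ ha)]
      field_simp

end Pool.Agent.N163.KG.KER
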