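import Pool.Agent.N163.KG.Stm

/-!
# KG/LAT (helper67 for helper163): the determinant of a similitude of a lattice
-/

set_option autoImplicit false

namespace Pool.Agent.N163.KG.LAT

open Module

variable {L : Type} [AddCommGroup L] {H : L → ℕ}

/-- the polar form -/
def B (H : L → ℕ) (x y : L) : ℤ := (H (x + y) : ℤ) - H x - H y

theorem par (hP : Par H) (x y : L) :
    (H (x + y) : ℤ) + H (x - y) = 2 * H x + 2 * H y := by exact_mod_cast hP x y

theorem h0 (hP : Par H) : (H (0 : L) : ℤ) = 0 := by
  have h := par hP 0 0
  rw [add_zero, sub_zero] at h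
  linarith

theorem B_comm (x y : L) : B H x y = B H y x := by
  unfold B
  rw [add_comm x y]
  ring

theorem B_self (hP : Par H) (x : L) : B H x x = 2 * H x := by
  have h := par hP x x
  rw [sub_self, h0 hP] at h
  unfold B
  linarith

theorem B_add (hP : Par H) (x y z : L) : B H x (y + z) = B H x y + B H x z := by
  have a := par hP (x + y) z
  have b := par hP (x - z) y
  have c := par hP x (y + z)
  have d := par hP x z
  have e1 : x - z + y = x + y - z := by abel
  have e2 : x - z - y = x - (y + z) := by abel
  have e3 : x + (y + z) = x + y + z := by abel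
  rw [e1, e2] at b
  rw [e3] at c
  unfold B
  rw [e3]
  linarith

/-- the polar form as a bilinear form -/
def Bf (hP : Par H) : LinearMap.BilinForm ℤ L :=
  LinearMap.mk₂ ℤ (fun x y => B H x y)
    (fun x x' y => by
      show B H (x + x') y = B H x y + B H x' y
      rw [B_comm, B_add hP, B_comm y x, B_comm y x'])
    (fun n x y => by
      have h := map_zsmul (AddMonoidHom.mk' (fun x => B H y x) (fun u v => B_add hP y u v)) n x
      show B H (n • x) y = n • B H x y
      rw [B_comm, B_comm x y]
      exact h)
    (fun x y y' => B_add hP x y y')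
    (fun n x y => by
      have h := map_zsmul (AddMonoidHom.mk' (fun y => B H x y) (fun u v => B_add hP x u v)) n y
      exact h)

theorem Bf_apply (hP : Par H) (x y : L) : Bf hP x y = B H x y := rfl

theorem nondeg (hP : Par H) (h : ∀ x, H x = 0 → x = 0) : (Bf hP).Nondegenerate := by
  constructor
  · intro x hx
    have h1 := hx x
    rw [Bf_apply, B_self hP] at h1
    exact h x (by omega)
  · intro x hx
    have h1 := hx x
    rw [Bf_apply, B_self hP] at h1
    exact h x (by omega)

theorem t_LAT : Pool.Agent.N163.KG.S_LAT := by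
  intro L _ _ _ H p hP h F hF
  classical
  let b := Module.Free.chooseBasis ℤ L
  have hB : (Bf hP).comp F F = (p : ℤ) • Bf hP := by
    ext x y
    show B H (F x) (F y) = (p : ℤ) * B H x y
    unfold B
    rw [← map_add, hF, hF, hF]
    push_cast
    ring
  have h1 := congrArg (LinearMap.BilinForm.toMatrix b) hB
  rw [LinearMap.BilinForm.toMatrix_comp b b, map_smul] at h1
  have h2 := congrArg Matrix.det h1
  rw [Matrix.det_mul, Matrix.det_mul, Matrix.det_transpose, Matrix.det_smul,
    LinearMap.det_toMatrix] at h2
  have h3 : (LinearMap.BilinForm.toMatrix b (Bf hP)).det ≠ 0 :=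
    (LinearMap.BilinForm.nondegenerate_iff_det_ne_zero b).1 (nondeg hP h)
  have h4 : Fintype.card (Module.Free.ChooseBasisIndex ℤ L) = Module.finrank ℤ L :=
    (Module.finrank_eq_card_chooseBasisIndex ℤ L).symm
  rw [h4] at h2
  have h5 : (LinearMap.det F ^ 2) * (LinearMap.BilinForm.toMatrix b (Bf hP)).det =
      (p : ℤ) ^ Module.finrank ℤ L * (LinearMap.BilinForm.toMatrix b (Bf hP)).det := by
    rw [← h2]
    ring
  exact mul_right_cancel₀ h3 h5

end Pool.Agent.N163.KG.LAT
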