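import Mathlib
import Pool.Agent.N163.KG.Stm
import Pool.Agent.N163.KN.MAIN

/-!
# Conjugates of the exponents of logarithmic derivatives, general characteristic `6 l + 1`
-/

set_option autoImplicit false

namespace Pool.Agent.N163.KG.MAIN

open Polynomial Module
open Pool.Agent.N163.KN.MAIN (rho rho_apply mz mz_apply Dk Dk_apply Dk_rho mulVec_rho Dk_mulVec)

/-- the linear operator for SEMI -/
noncomputable def Top (k : Type) [Field k] (p l n : ℕ) (α c : k) :
    (Fin (4 * n) → k) →ₗ[k] (Fin (4 * n) → k) where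
  toFun x := fun s => if (s : ℕ) + 1 < 4 * n then
      (α ^ (4 * l) * (-c) ^ (4 * l - p * ((s : ℕ) + 1) / (6 * n)) *
        ((Nat.choose (4 * l) (p * ((s : ℕ) + 1) / (6 * n)) : ℕ) : k)) *
        (if h : p * ((s : ℕ) + 1) % (6 * n) - 1 < 4 * n then x ⟨_, h⟩ else 0) else 0
  map_add' x y := by
    funext s
    simp only [Pi.add_apply]
    split_ifs <;> ring
  map_smul' a x := by
    funext s
    simp only [Pi.smul_apply, smul_eq_mul, RingHom.id_apply]
    split_ifs <;> ring

theorem Top_eq {k : Type} [Field k] {p l n : ℕ} {α c : k} (hp : p ≠ 0) (hn : 1 ≤ n) {g : k[X]}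
    (hg : g.natDegree + 2 ≤ 4 * n) (hR : Rel p l n α c g) :
    Top k p l n α c (fun s => g.coeff s) =
      fun s : Fin (4 * n) => (Nat.choose (3 * l) l : k) * g.coeff s ^ p := by
  funext s
  change (if (s : ℕ) + 1 < 4 * n then
      (α ^ (4 * l) * (-c) ^ (4 * l - p * ((s : ℕ) + 1) / (6 * n)) *
        ((Nat.choose (4 * l) (p * ((s : ℕ) + 1) / (6 * n)) : ℕ) : k)) *
        (if h : p * ((s : ℕ) + 1) % (6 * n) - 1 < 4 * n then
          g.coeff ((⟨p * ((s : ℕ) + 1) % (6 * n) - 1, h⟩ : Fin (4 * n)) : ℕ) else 0) else 0) = _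
  by_cases h1 : (s : ℕ) + 1 < 4 * n
  · rw [if_pos h1]
    have h2 := hR ((s : ℕ) + 1) (p * ((s : ℕ) + 1) % (6 * n)) (p * ((s : ℕ) + 1) / (6 * n))
      (by omega) h1 (Nat.mod_lt _ (by omega)) (Nat.mod_add_div _ _).symm
    rw [Nat.add_sub_cancel] at h2
    rw [h2]
    congr 1
    split_ifs with h3
    · rfl
    · symm
      exact coeff_eq_zero_of_natDegree_lt (by omega)
  · rw [if_neg h1, coeff_eq_zero_of_natDegree_lt (by omega), zero_pow hp, mul_zero]

theorem choose_ne {k : Type} [Field k] {p l : ℕ} [hp : Fact p.Prime] [CharP k p]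
    (h : p = 6 * l + 1) : (Nat.choose (3 * l) l : k) ≠ 0 := by
  intro h0
  have h1 := (CharP.cast_eq_zero_iff k p _).1 h0
  have h2 : p ∣ (3 * l).factorial := by
    rw [← Nat.choose_mul_factorial_mul_factorial (show l ≤ 3 * l by omega), mul_assoc]
    exact h1.mul_right _
  have h3 := (hp.out.dvd_factorial).1 h2
  omega

theorem card_range {L : Type} [AddCommGroup L] [Module.Free ℤ L] [Module.Finite ℤ L] (F : L →+ L)
    (hF : ∀ x, F x = 0 → x = 0) {V : Type} [AddCommGroup V] (D : L →+ V)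
    (hDF : ∀ x, D (F x) = 0) (hker : ∀ x, D x = 0 → ∃ Q, x = F Q) :
    Nat.card D.range = Int.natAbs (LinearMap.det F.toIntLinearMap) := by
  have hinj : Function.Injective F.toIntLinearMap :=
    (injective_iff_map_eq_zero F.toIntLinearMap).2 hF
  have h1 := Submodule.natAbs_det_equiv (LinearMap.range F.toIntLinearMap)
    (LinearEquiv.ofInjective F.toIntLinearMap hinj)
  have h2 : ((LinearMap.range F.toIntLinearMap).subtype ∘ₗ AddMonoidHom.toIntLinearMap
      ((LinearEquiv.ofInjective F.toIntLinearMap hinj : L ≃ₗ[ℤ] _) : L →+ _)) =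
      F.toIntLinearMap := by
    ext x
    rfl
  rw [h2] at h1
  rw [h1]
  have h3 : LinearMap.ker D.toIntLinearMap = LinearMap.range F.toIntLinearMap := by
    ext x
    constructor
    · intro hx
      obtain ⟨Q, hQ⟩ := hker x hx
      exact ⟨Q, hQ.symm⟩
    · rintro ⟨Q, rfl⟩
      exact hDF Q
  rw [← h3, Nat.card_congr D.toIntLinearMap.quotKerEquivRange.toEquiv]
  rfl

theorem exists_indep {L : Type} [AddCommGroup L] {k : Type} [Field k] {p : ℕ}
    [hp : Fact p.Prime] [CharP k p] (D : L →+ k[X]) (s : ℕ) (hs : Nat.card D.range = p ^ s) :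
    ∃ x : Fin s → L, ∀ c : Fin s → ℤ, ∑ i, c i • D (x i) = 0 → ∀ i, ((c i : ℤ) : k) = 0 := by
  let _ : Algebra (ZMod p) k := ZMod.algebra k p
  let V : Submodule (ZMod p) k[X] := AddSubgroup.toZModSubmodule p D.range
  have hV : Nat.card V = p ^ s := hs
  have hfin : Finite V := Nat.finite_of_card_ne_zero (by rw [hV]; exact pow_ne_zero _ hp.out.ne_zero)
  have : Fintype V := Fintype.ofFinite V
  have hfd : Module.Finite (ZMod p) V := Module.Finite.of_finite
  have hfr : finrank (ZMod p) V = s := by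
    have h1 := Module.card_eq_pow_finrank (K := ZMod p) (V := V)
    rw [← Nat.card_eq_fintype_card, hV, ZMod.card] at h1
    exact (Nat.pow_right_injective hp.out.two_le h1).symm
  let B : Basis (Fin s) (ZMod p) V := Module.finBasisOfFinrankEq (ZMod p) V hfr
  have hx : ∀ i, ∃ x : L, D x = (B i : k[X]) := fun i => (B i).2
  choose x hx using hx
  refine ⟨x, fun c hc i => ?_⟩
  have h1 : ∑ i, ((c i : ℤ) : ZMod p) • B i = 0 := by
    apply Subtype.ext
    rw [Submodule.coe_sum, Submodule.coe_zero, ← hc]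
    refine Finset.sum_congr rfl fun i _ => ?_
    rw [Submodule.coe_smul, ← hx i, Int.cast_smul_eq_zsmul]
  have h2 := Fintype.linearIndependent_iff.1 B.linearIndependent (fun i => ((c i : ℤ) : ZMod p)) h1 i
  rw [CharP.intCast_eq_zero_iff k p]
  exact (ZMod.intCast_zmod_eq_zero_iff_dvd _ _).1 h2

theorem claim (hS : S_SEMI) (hL : S_LAT) (hO : S_OMD) {k : Type} [Field k] [Finite k] {p l : ℕ}
    [hp : Fact p.Prime] [CharP k p] (hpl : p = 6 * l + 1) {n : ℕ} (hn : 1 ≤ n) {w α c : k}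
    (h3 : (3 : k) ≠ 0) (hw : w ^ 2 + w + 1 = 0)
    {M : Type} [AddCommGroup M] {r : ℕ} (b : Basis (Fin r) ℤ M) (Ω F : M →+ M) (D : M →+ k[X])
    (H : M → ℕ) (hΩz : mz b Ω ^ 2 + mz b Ω + 1 = 0)
    (hinj : ∀ P, F P = 0 → P = 0) (hPar : Par H) (hHF : ∀ P, H (F P) = p * H P)
    (hH0 : ∀ P, H P = 0 → P = 0)
    (hDO : ∀ v : Fin r → k, Dk D b (((mz b Ω).map (Int.castRingHom k)).mulVec v) = w • Dk D b v)
    (hDF : ∀ P, D (F P) = 0)
    (hdeg : ∀ P, (D P).natDegree + 2 ≤ 4 * n) (hker : ∀ P, D P = 0 → ∃ Q, P = F Q)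
    (hRel : ∀ P, Rel p l n α c (D P)) (v : Fin r → k) (h1 : Dk D b v = 0)
    (h2 : ((mz b Ω).map (Int.castRingHom k)).mulVec v = w • v) : v = 0 := by
  have : Module.Free ℤ M := Module.Free.of_basis b
  have : Module.Finite ℤ M := Module.Finite.of_basis b
  set O : Matrix (Fin r) (Fin r) k := (mz b Ω).map (Int.castRingHom k) with hOdef
  have hΩk : O ^ 2 + O + 1 = 0 := by
    have h1 := congrArg (Int.castRingHom k).mapMatrix hΩz
    rw [map_add, map_add, map_pow, map_one, map_zero] at h1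
    exact h1
  have hww : w - w ^ 2 ≠ 0 := by
    intro h0
    have e1 : w = w ^ 2 := sub_eq_zero.1 h0
    have e2 : w * (w - 1) = 0 := by linear_combination -h0
    rcases mul_eq_zero.1 e2 with e3 | e3
    · rw [e3] at hw
      norm_num at hw
    · have e4 : w = 1 := by linear_combination e3
      rw [e4] at hw
      apply h3
      linear_combination hw
  let K : Submodule k (Fin r → k) := LinearMap.ker (Matrix.toLin' O - w • LinearMap.id)
  have hK : ∀ y, y ∈ K ↔ O.mulVec y = w • y := by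
    intro y
    rw [LinearMap.mem_ker, LinearMap.sub_apply, LinearMap.smul_apply, LinearMap.id_apply,
      Matrix.toLin'_apply, sub_eq_zero]
  obtain ⟨s, hs⟩ : ∃ s, s = finrank k K := ⟨_, rfl⟩
  have hr : 2 * s = r := by
    rw [hs]
    exact hO r (mz b Ω) hΩz k w h3 hw
  have hdet : (LinearMap.det F.toIntLinearMap).natAbs = p ^ s := by
    have e1 := hL M H p hPar hH0 F.toIntLinearMap hHF
    rw [Module.finrank_eq_card_basis b, Fintype.card_fin, ← hr] at e1
    have e2 := congrArg Int.natAbs e1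
    rw [Int.natAbs_pow, Int.natAbs_pow, Int.natAbs_natCast, mul_comm 2 s, pow_mul] at e2
    exact Nat.pow_left_injective (by norm_num) e2
  have hcard : Nat.card D.range = p ^ s := by
    rw [card_range F hinj D hDF hker, hdet]
  obtain ⟨x, hx⟩ := exists_indep D s hcard
  -- independence over the field
  have hind : ∀ a : Fin s → k, ∑ i, a i • D (x i) = 0 → ∀ i, a i = 0 := by
    intro a ha
    have e1 := hS k p (Fin (4 * n)) (Top k p l n α c) (Nat.choose (3 * l) l : k) (choose_ne hpl) s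
      (fun i t => (D (x i)).coeff t)
      (fun i => Top_eq hp.out.ne_zero hn (hdeg _) (hRel _)) a (by
        funext t
        have h4 := congrArg (fun q : k[X] => q.coeff t) ha
        simp only [finsetSum_coeff, coeff_smul, coeff_zero] at h4
        rw [Finset.sum_apply]
        exact h4)
    have e2 : Submodule.span k {w : Fin s → k | ∃ c : Fin s → ℤ,
        (∀ t : Fin (4 * n), ∑ i, (c i : k) * (D (x i)).coeff t = 0) ∧ w = fun i => (c i : k)} ≤ ⊥ := by
      rw [Submodule.span_le]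
      rintro w ⟨d, hd, rfl⟩
      have e3 : ∑ i, d i • D (x i) = 0 := by
        ext t
        have e5 : ∀ i, (d i • D (x i)).coeff t = ((d i : ℤ) : k) * (D (x i)).coeff t := by
          intro i
          rw [← Int.cast_smul_eq_zsmul k, coeff_smul, smul_eq_mul]
        simp only [finsetSum_coeff, coeff_zero, e5]
        by_cases ht : t < 4 * n
        · exact hd ⟨t, ht⟩
        · refine Finset.sum_eq_zero fun i _ => ?_
          rw [coeff_eq_zero_of_natDegree_lt (by have := hdeg (x i); omega), mul_zero]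
      have e4 := hx d e3
      change (fun i => (d i : k)) = 0
      funext i
      exact e4 i
    have e3 := e2 e1
    rw [Submodule.mem_bot] at e3
    intro i
    rw [e3]
    rfl
  -- the components in the eigenspace
  have hOO : ∀ v : Fin r → k, O.mulVec (O.mulVec v) = -O.mulVec v - v := by
    intro v
    have h1 : (O ^ 2 + O + 1).mulVec v = 0 := by rw [hΩk, Matrix.zero_mulVec]
    rw [Matrix.add_mulVec, Matrix.add_mulVec, Matrix.one_mulVec, sq, ← Matrix.mulVec_mulVec] at h1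
    have h2 : O.mulVec (O.mulVec v) + (O.mulVec v + v) = 0 := by rw [← add_assoc]; exact h1
    rw [eq_neg_of_add_eq_zero_left h2]
    abel
  have hw3 : w ^ 3 = 1 := by linear_combination (w - 1) * hw
  have hy : ∀ i, ∃ y : K, Dk D b y = D (x i) := by
    intro i
    refine ⟨⟨(w - w ^ 2)⁻¹ • (O.mulVec (rho k b (x i)) - (w ^ 2) • rho k b (x i)), ?_⟩, ?_⟩
    · rw [hK, Matrix.mulVec_smul, smul_comm]
      congr 1
      rw [Matrix.mulVec_sub, hOO, Matrix.mulVec_smul, smul_sub, smul_smul, ← pow_succ', hw3,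
        one_smul]
      have e1 : w ^ 2 = -w - 1 := by linear_combination hw
      rw [e1]
      module
    · change Dk D b ((w - w ^ 2)⁻¹ • (O.mulVec (rho k b (x i)) - (w ^ 2) • rho k b (x i))) = _
      rw [map_smul, map_sub, map_smul, hDO, Dk_rho, ← sub_smul, smul_smul, inv_mul_cancel₀ hww,
        one_smul]
  choose y hy using hy
  have hyind : LinearIndependent k y := by
    rw [Fintype.linearIndependent_iff]
    intro a ha
    apply hind a
    have e1 := congrArg (fun z : K => Dk D b (z : Fin r → k)) ha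
    simp only [Submodule.coe_sum, Submodule.coe_smul, map_sum, map_smul, hy, Submodule.coe_zero,
      map_zero] at e1
    exact e1
  have hspan := hyind.span_eq_top_of_card_eq_finrank' (by rw [Fintype.card_fin, hs])
  have hv : (⟨v, (hK v).2 h2⟩ : K) ∈ Submodule.span k (Set.range y) := by
    rw [hspan]
    exact Submodule.mem_top
  obtain ⟨a, ha⟩ := (Submodule.mem_span_range_iff_exists_fun k).1 hv
  have e1 := congrArg (fun z : K => Dk D b (z : Fin r → k)) ha
  simp only [Submodule.coe_sum, Submodule.coe_smul, map_sum, map_smul, hy] at e1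
  rw [h1] at e1
  have e2 := hind a e1
  have e3 := congrArg (fun z : K => (z : Fin r → k)) ha
  simp only [e2, zero_smul, Finset.sum_const_zero, Submodule.coe_zero] at e3
  exact e3.symm

theorem free_case (hS : S_SEMI) (hA : S_ALG) (hL : S_LAT) (hOM : S_OMD)
    {k : Type} [Field k] [Finite k] {p l : ℕ} [hp : Fact p.Prime] [CharP k p]
    (hpl : p = 6 * l + 1) {n : ℕ} {ζ w α c : k} (hn : 1 ≤ n) (hpn : ¬ p ∣ n)
    (hζ : IsPrimitiveRoot ζ (6 * n)) (hw : w ^ 2 + w + 1 = 0)
    {M : Type} [AddCommGroup M] {r : ℕ} (b : Basis (Fin r) ℤ M) (G Ω F : M →+ M) (D : M →+ k[X])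
    (H : M → ℕ)
    (hG : ∀ P, G^[6 * n] P = P) (hc : ∀ P, G (Ω P) = Ω (G P))
    (hΩ : ∀ P, P + Ω P + Ω (Ω P) = 0)
    (hinj : ∀ P, F P = 0 → P = 0) (hPar : Par H) (hHF : ∀ P, H (F P) = p * H P)
    (hH0 : ∀ P, H P = 0 → P = 0)
    (hDG : ∀ P i, (D (G P)).coeff i = ζ ^ (i + 1) * (D P).coeff i)
    (hDΩ : ∀ P, D (Ω P) = C w * D P) (hDF : ∀ P, D (F P) = 0)
    (hdeg : ∀ P, (D P).natDegree + 2 ≤ 4 * n) (hker : ∀ P, D P = 0 → ∃ Q, P = F Q)
    (hRel : ∀ P, Rel p l n α c (D P)) (P : M) (u : ℕ) (hu : 1 ≤ u) (hP : (D P).coeff (u - 1) ≠ 0)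
    (t : ℕ) (ht : t.Coprime (6 * n)) (ht3 : t % 3 = 1) : (t * u) % (6 * n) < 4 * n := by
  classical
  have hl : 1 ≤ l := by
    rcases Nat.eq_zero_or_pos l with h0 | h0
    · rw [h0] at hpl
      exact absurd hp.out (by rw [hpl]; norm_num)
    · exact h0
  have hnat : ∀ m : ℕ, ¬ p ∣ m → (m : k) ≠ 0 := fun m h h0 => h ((CharP.cast_eq_zero_iff k p m).1 h0)
  have h3 : (3 : k) ≠ 0 := by
    have h0 := hnat 3 (fun h => by have := Nat.le_of_dvd (by norm_num) h; omega)
    exact_mod_cast h0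
  have hp6n : ¬ p ∣ 6 * n := by
    intro h
    rcases (hp.out.dvd_mul).1 h with h | h
    · have := Nat.le_of_dvd (by norm_num) h
      omega
    · exact hpn h
  have hw3 : w ^ 3 = 1 := by linear_combination (w - 1) * hw
  have hww : w - w ^ 2 ≠ 0 := by
    intro h0
    have e2 : w * (w - 1) = 0 := by linear_combination -h0
    rcases mul_eq_zero.1 e2 with e3 | e3
    · rw [e3] at hw
      norm_num at hw
    · have e4 : w = 1 := by linear_combination e3
      rw [e4] at hw
      apply h3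
      linear_combination hw
  -- the integral matrices
  have hcz : mz b G * mz b Ω = mz b Ω * mz b G := by
    rw [mz, mz, ← map_mul, ← map_mul]
    congr 1
    ext x
    exact hc x
  have hGz : mz b G ^ (6 * n) = 1 := by
    rw [mz, ← map_pow, ← map_one (LinearMap.toMatrixAlgEquiv b)]
    congr 1
    ext x
    rw [Module.End.pow_apply]
    exact hG x
  have hΩz : mz b Ω ^ 2 + mz b Ω + 1 = 0 := by
    rw [mz, ← map_pow, ← map_one (LinearMap.toMatrixAlgEquiv b), ← map_add, ← map_add,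
      ← map_zero (LinearMap.toMatrixAlgEquiv b)]
    congr 1
    ext x
    have h1 := hΩ x
    rw [add_comm, ← add_assoc] at h1
    rw [LinearMap.add_apply, LinearMap.add_apply, sq]
    change Ω (Ω x) + Ω x + x = 0
    rw [← hΩ x]
    abel
  set A : Matrix (Fin r) (Fin r) k := (mz b G).map (Int.castRingHom k) with hAdef
  set O : Matrix (Fin r) (Fin r) k := (mz b Ω).map (Int.castRingHom k) with hOdef
  have hck : A * O = O * A := by
    have h1 := congrArg (Int.castRingHom k).mapMatrix hcz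
    rw [map_mul, map_mul] at h1
    exact h1
  have hGk : A ^ (6 * n) = 1 := by
    have h1 := congrArg (Int.castRingHom k).mapMatrix hGz
    rw [map_pow, map_one] at h1
    exact h1
  have hΩk : O ^ 2 + O + 1 = 0 := by
    have h1 := congrArg (Int.castRingHom k).mapMatrix hΩz
    rw [map_add, map_add, map_pow, map_one, map_zero] at h1
    exact h1
  have hDA : ∀ (v : Fin r → k) (s : ℕ), (Dk D b (A.mulVec v)).coeff s =
      ζ ^ (s + 1) * (Dk D b v).coeff s := by
    intro v s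
    rw [hAdef, Dk_mulVec, Dk_apply]
    simp only [finsetSum_coeff, coeff_smul, smul_eq_mul, hDG, Finset.mul_sum]
    exact Finset.sum_congr rfl fun j _ => by ring
  have hDO : ∀ (v : Fin r → k), Dk D b (O.mulVec v) = w • Dk D b v := by
    intro v
    rw [hOdef, Dk_mulVec, Dk_apply, Finset.smul_sum]
    refine Finset.sum_congr rfl fun j _ => ?_
    rw [hDΩ, smul_comm, smul_eq_C_mul w]
  have hDAi : ∀ (v : Fin r → k) (s i : ℕ), (Dk D b ((A ^ i).mulVec v)).coeff s =
      ζ ^ ((s + 1) * i) * (Dk D b v).coeff s := by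
    intro v s i
    induction i with
    | zero => simp
    | succ i ih =>
      rw [pow_succ', ← Matrix.mulVec_mulVec, hDA, ih]
      ring
  have h6n : 0 < 6 * n := by omega
  have hζ0 : ζ ≠ 0 := hζ.ne_zero h6n.ne'
  -- the eigenvector
  set v : Fin r → k := rho k b P with hv
  have hDv : Dk D b v = D P := Dk_rho D b P
  set y : Fin r → k := O.mulVec v - (w ^ 2) • v with hy
  have hOO : O.mulVec (O.mulVec v) = -O.mulVec v - v := by
    have h1 : (O ^ 2 + O + 1).mulVec v = 0 := by rw [hΩk, Matrix.zero_mulVec]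
    rw [Matrix.add_mulVec, Matrix.add_mulVec, Matrix.one_mulVec, sq, ← Matrix.mulVec_mulVec] at h1
    have h2 : O.mulVec (O.mulVec v) + (O.mulVec v + v) = 0 := by rw [← add_assoc]; exact h1
    rw [eq_neg_of_add_eq_zero_left h2]
    abel
  have hOy : O.mulVec y = w • y := by
    rw [hy, Matrix.mulVec_sub, hOO, Matrix.mulVec_smul, smul_sub, smul_smul, ← pow_succ', hw3,
      one_smul]
    have e1 : w ^ 2 = -w - 1 := by linear_combination hw
    rw [e1]
    module
  have hDy : Dk D b y = (w - w ^ 2) • D P := by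
    rw [hy, map_sub, map_smul, hDO, hDv, ← sub_smul]
  let f : ℕ → Fin r → k := fun i => (ζ⁻¹) ^ (u * i) • (A ^ i).mulVec y
  set v0 : Fin r → k := ∑ i ∈ Finset.range (6 * n), f i with hv0
  have hAv0 : A.mulVec v0 = ζ ^ u • v0 := by
    have h1 : ∀ i, A.mulVec (f i) = ζ ^ u • f (i + 1) := by
      intro i
      simp only [f]
      rw [Matrix.mulVec_smul, Matrix.mulVec_mulVec, ← pow_succ', smul_smul]
      congr 1
      rw [mul_add, mul_one, pow_add, mul_comm (ζ⁻¹ ^ (u * i)), ← mul_assoc, ← mul_pow,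
        mul_inv_cancel₀ hζ0, one_pow, one_mul]
    have h2 : f (6 * n) = f 0 := by
      simp only [f]
      rw [hGk, mul_zero, pow_zero, pow_zero, mul_comm, pow_mul, inv_pow, hζ.pow_eq_one, inv_one,
        one_pow]
    have h3 : ∑ i ∈ Finset.range (6 * n), f (i + 1) = v0 := by
      have h4 := Finset.sum_range_succ f (6 * n)
      have h5 := Finset.sum_range_succ' f (6 * n)
      rw [h4, h2] at h5
      exact (add_right_cancel h5).symm
    rw [hv0, Matrix.mulVec_sum, Finset.sum_congr rfl fun i _ => h1 i, ← Finset.smul_sum, h3]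
  have hOv0 : O.mulVec v0 = w • v0 := by
    rw [hv0, Matrix.mulVec_sum, Finset.smul_sum]
    refine Finset.sum_congr rfl fun i _ => ?_
    have h1 : O * A ^ i = A ^ i * O := (Commute.pow_right (show Commute O A from hck.symm) i)
    simp only [f]
    rw [Matrix.mulVec_smul, Matrix.mulVec_mulVec, h1, ← Matrix.mulVec_mulVec, hOy,
      Matrix.mulVec_smul, smul_comm]
  have hv0ne : v0 ≠ 0 := by
    intro h0
    have h1 : (Dk D b v0).coeff (u - 1) =
        ((6 * n : ℕ) : k) * ((w - w ^ 2) * (D P).coeff (u - 1)) := by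
      rw [hv0, map_sum, finsetSum_coeff]
      have h2 : ∀ i ∈ Finset.range (6 * n), (Dk D b (f i)).coeff (u - 1) =
          (w - w ^ 2) * (D P).coeff (u - 1) := by
        intro i _
        simp only [f]
        rw [map_smul, coeff_smul, smul_eq_mul, hDAi, hDy, coeff_smul, smul_eq_mul,
          Nat.sub_add_cancel hu, ← mul_assoc, ← mul_pow, inv_mul_cancel₀ hζ0, one_pow, one_mul]
      rw [Finset.sum_congr rfl h2, Finset.sum_const, Finset.card_range, nsmul_eq_mul]
    rw [h0, map_zero, coeff_zero] at h1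
    have h2 : ((6 * n : ℕ) : k) ≠ 0 := hnat _ hp6n
    exact (mul_ne_zero h2 (mul_ne_zero hww hP)) h1.symm
  -- `w` is a power of the root of unity
  obtain ⟨ε, -, hε⟩ : ∃ ε < 3, (ζ ^ (2 * n)) ^ ε = w := by
    have h1 : IsPrimitiveRoot (ζ ^ (2 * n)) 3 := hζ.pow h6n (by ring)
    exact h1.eq_pow_of_pow_eq_one hw3
  have hε' : ζ ^ (6 * n / 3 * ε) = w := by
    have h1 : 6 * n / 3 = 2 * n := by omega
    rw [h1, pow_mul]
    exact hε
  obtain ⟨v', hv', hAv', hOv'⟩ := hA r (6 * n) p (mz b G) (mz b Ω) h6n ⟨2 * n, by ring⟩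
    hp6n hp.out hcz hGz hΩz k ζ hζ u ε v0 hv0ne hAv0 (by rw [hε']; exact hOv0) t ht ht3
  rw [hε'] at hOv'
  have hDv' : Dk D b v' ≠ 0 := fun h0 => hv' (claim hS hL hOM hpl hn h3 hw b Ω F D H hΩz hinj hPar
    hHF hH0 hDO hDF hdeg hker hRel v' h0 hOv')
  obtain ⟨i, hi⟩ : ∃ i, (Dk D b v').coeff i ≠ 0 := by
    by_contra h0
    push Not at h0
    exact hDv' (Polynomial.ext h0)
  have hi4 : i + 2 ≤ 4 * n := by
    by_contra h0
    apply hi
    rw [Dk_apply, finsetSum_coeff]
    refine Finset.sum_eq_zero fun j _ => ?_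
    rw [coeff_smul, coeff_eq_zero_of_natDegree_lt (by have := hdeg (b j); omega), smul_zero]
  have h1 := hDA v' i
  rw [hAv', map_smul, coeff_smul, smul_eq_mul] at h1
  have h2 : ζ ^ (t * u) = ζ ^ (i + 1) := mul_right_cancel₀ hi h1
  have h3 : ζ ^ (t * u) = ζ ^ ((t * u) % (6 * n)) := by
    conv_lhs => rw [← Nat.div_add_mod (t * u) (6 * n)]
    rw [pow_add, pow_mul, hζ.pow_eq_one, one_pow, one_mul]
  have h4 := hζ.pow_inj (Nat.mod_lt _ h6n) (by omega : i + 1 < 6 * n) (h3.symm.trans h2)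
  omega

/-! ### The height and the torsion -/

theorem par_zero {M : Type} [AddCommGroup M] {H : M → ℕ} (h : Par H) : H 0 = 0 := by
  have := h 0 0
  rw [add_zero, sub_zero] at this
  omega

theorem par_seq {M : Type} [AddCommGroup M] {H : M → ℕ} (h : Par H) (P t : M) (j : ℕ) :
    (H (P + (j : ℤ) • t) : ℤ) = H P + j * ((H (P + t) : ℤ) - H P - H t) + H t * j ^ 2 ∧
    (H (P + ((j + 1 : ℕ) : ℤ) • t) : ℤ) =
      H P + ((j + 1 : ℕ) : ℤ) * ((H (P + t) : ℤ) - H P - H t) + H t * ((j + 1 : ℕ) : ℤ) ^ 2 := by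
  induction j with
  | zero =>
    constructor
    · simp
    · norm_num
      ring
  | succ j ih =>
    refine ⟨ih.2, ?_⟩
    have h1 := h (P + ((j + 1 : ℕ) : ℤ) • t) t
    have h2 : P + ((j + 1 : ℕ) : ℤ) • t + t = P + ((j + 1 + 1 : ℕ) : ℤ) • t := by
      push_cast
      module
    have h3 : P + ((j + 1 : ℕ) : ℤ) • t - t = P + (j : ℤ) • t := by
      push_cast
      module
    rw [h2, h3] at h1
    have h4 : (H (P + ((j + 1 + 1 : ℕ) : ℤ) • t) : ℤ) + H (P + (j : ℤ) • t) =
        2 * H (P + ((j + 1 : ℕ) : ℤ) • t) + 2 * H t := by exact_mod_cast h1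
    have h5 : (H (P + ((j + 1 + 1 : ℕ) : ℤ) • t) : ℤ) =
        2 * H (P + ((j + 1 : ℕ) : ℤ) • t) + 2 * H t - H (P + (j : ℤ) • t) := by linarith
    rw [h5, ih.1, ih.2]
    push_cast
    ring

theorem par_tor {M : Type} [AddCommGroup M] {H : M → ℕ} (h : Par H) {t : M} {m : ℕ} (hm : 0 < m)
    (ht : (m : ℤ) • t = 0) : H t = 0 := by
  have h1 := (par_seq h 0 t m).1
  rw [ht, zero_add, zero_add, par_zero h] at h1
  have h2 : (H t : ℤ) * (m : ℤ) ^ 2 = 0 := by
    push_cast at h1
    linarith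
  have hm' : ((m : ℤ) ^ 2) ≠ 0 := pow_ne_zero _ (by exact_mod_cast hm.ne')
  have h3 := (mul_eq_zero.1 h2).resolve_right hm'
  exact_mod_cast h3

theorem par_add {M : Type} [AddCommGroup M] {H : M → ℕ} (h : Par H) {t : M} {m : ℕ} (hm : 0 < m)
    (ht : (m : ℤ) • t = 0) (P : M) : H (P + t) = H P := by
  have h0 := par_tor h hm ht
  have h1 := (par_seq h P t m).1
  rw [ht, add_zero, h0] at h1
  have h2 : (m : ℤ) * ((H (P + t) : ℤ) - H P) = 0 := by
    push_cast at h1
    linarith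
  have hm' : (m : ℤ) ≠ 0 := by exact_mod_cast hm.ne'
  have h3 := (mul_eq_zero.1 h2).resolve_left hm'
  have h4 : (H (P + t) : ℤ) = H P := by linarith
  exact_mod_cast h4

theorem t_MAIN (hS : S_SEMI) (hA : S_ALG) (hL : S_LAT) (hO : S_OMD) :
    Pool.Agent.N163.KG.S_MAIN := by
  classical
  intro k _ _ p l hp _ n ζ w α c hpl hn hpn hα hc0 hζ hw M _ hfg G Ω F D H hG hc hΩ hinj hPar hHF
    hH0 hDG hDΩ hDF hdeg hker hRel P u hu hP t ht ht3
  have : Module.Finite ℤ M := Module.Finite.iff_addGroup_fg.2 hfg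
  let T : Submodule ℤ M := Submodule.torsion ℤ M
  have hT : ∀ x, x ∈ T ↔ ∃ m : ℕ, 0 < m ∧ (m : ℤ) • x = 0 := by
    intro x
    rw [Submodule.mem_torsion_iff]
    constructor
    · rintro ⟨a, ha⟩
      have ha0 : (a : ℤ) ≠ 0 := nonZeroDivisors.coe_ne_zero a
      refine ⟨(a : ℤ).natAbs, Int.natAbs_pos.2 ha0, ?_⟩
      have ha' : (a : ℤ) • x = 0 := ha
      rcases Int.natAbs_eq (a : ℤ) with h | h
      · rw [← h]; exact ha'
      · rw [h, neg_smul, neg_eq_zero] at ha'
        exact ha'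
    · rintro ⟨m, hm, hx⟩
      exact ⟨⟨(m : ℤ), mem_nonZeroDivisors_of_ne_zero (by exact_mod_cast hm.ne')⟩, hx⟩
  have hf : ∀ f : M →+ M, T ≤ T.comap (f.toIntLinearMap) := by
    intro f x hx
    obtain ⟨m, hm, h1⟩ := (hT x).1 hx
    refine (hT _).2 ⟨m, hm, ?_⟩
    change (m : ℤ) • f x = 0
    rw [← map_zsmul, h1, map_zero]
  -- the logarithmic derivative vanishes at the torsion points
  have hfin : _root_.Finite T := Module.finite_of_fg_torsion T (Submodule.torsion_isTorsion)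
  have hDT : T ≤ LinearMap.ker (D.toIntLinearMap) := by
    intro x hx
    let φ : T → T := fun z => ⟨F z, hf F z.2⟩
    have hφ : Function.Injective φ := by
      intro a b hab
      have e1 : F (a : M) = F (b : M) := congrArg Subtype.val hab
      have e2 : F ((a : M) - b) = 0 := by rw [map_sub, e1, sub_self]
      exact Subtype.ext (sub_eq_zero.1 (hinj _ e2))
    obtain ⟨z, hz⟩ := Finite.surjective_of_injective hφ ⟨x, hx⟩
    have e3 : F (z : M) = x := congrArg Subtype.val hz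
    change D x = 0
    rw [← e3]
    exact hDF _
  let G' : (M ⧸ T) →+ (M ⧸ T) := (T.mapQ T G.toIntLinearMap (hf G)).toAddMonoidHom
  let Ω' : (M ⧸ T) →+ (M ⧸ T) := (T.mapQ T Ω.toIntLinearMap (hf Ω)).toAddMonoidHom
  let F' : (M ⧸ T) →+ (M ⧸ T) := (T.mapQ T F.toIntLinearMap (hf F)).toAddMonoidHom
  let D' : (M ⧸ T) →+ k[X] := (T.liftQ D.toIntLinearMap hDT).toAddMonoidHom
  have eG : ∀ x, G' (T.mkQ x) = T.mkQ (G x) := fun x => rfl
  have eΩ : ∀ x, Ω' (T.mkQ x) = T.mkQ (Ω x) := fun x => rfl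
  have eF : ∀ x, F' (T.mkQ x) = T.mkQ (F x) := fun x => rfl
  have eD : ∀ x, D' (T.mkQ x) = D x := fun x => rfl
  have eGi : ∀ (i : ℕ) (x : M), G'^[i] (T.mkQ x) = T.mkQ (G^[i] x) := by
    intro i
    induction i with
    | zero => intro x; rfl
    | succ i ih => intro x; rw [Function.iterate_succ_apply, Function.iterate_succ_apply, eG, ih]
  have hsur := T.mkQ_surjective
  have hmk : ∀ x, T.mkQ x = 0 ↔ x ∈ T := by
    intro x
    rw [Submodule.mkQ_apply, Submodule.Quotient.mk_eq_zero]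
  let H' : (M ⧸ T) → ℕ := fun z => H (Function.surjInv hsur z)
  have eH : ∀ x, H' (T.mkQ x) = H x := by
    intro x
    have e1 : T.mkQ (Function.surjInv hsur (T.mkQ x)) = T.mkQ x := Function.surjInv_eq hsur _
    have e2 : Function.surjInv hsur (T.mkQ x) - x ∈ T := by
      rw [← hmk, map_sub, e1, sub_self]
    obtain ⟨m, hm, h1⟩ := (hT _).1 e2
    have e3 := par_add hPar hm h1 x
    rw [add_sub_cancel] at e3
    exact e3
  refine free_case hS hA hL hO hpl (α := α) (c := c) hn hpn hζ hw (Module.finBasis ℤ (M ⧸ T))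
    G' Ω' F' D' H' ?_ ?_ ?_ ?_ ?_ ?_ ?_ ?_ ?_ ?_ ?_ ?_ ?_ (T.mkQ P) u hu (by rw [eD]; exact hP)
    t ht ht3
  · intro z
    obtain ⟨x, rfl⟩ := hsur z
    rw [eGi, hG]
  · intro z
    obtain ⟨x, rfl⟩ := hsur z
    rw [eΩ, eG, eG, eΩ, hc]
  · intro z
    obtain ⟨x, rfl⟩ := hsur z
    rw [eΩ, eΩ, ← map_add, ← map_add, hΩ, map_zero]
  · intro z hz
    obtain ⟨x, rfl⟩ := hsur z
    rw [eF, hmk] at hz
    rw [hmk]
    obtain ⟨m, hm, h1⟩ := (hT _).1 hz
    refine (hT _).2 ⟨m, hm, hinj _ ?_⟩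
    rw [map_zsmul, h1]
  · intro z z'
    obtain ⟨x, rfl⟩ := hsur z
    obtain ⟨x', rfl⟩ := hsur z'
    rw [← map_add, ← map_sub, eH, eH, eH, eH]
    exact hPar x x'
  · intro z
    obtain ⟨x, rfl⟩ := hsur z
    rw [eF, eH, eH, hHF]
  · intro z hz
    obtain ⟨x, rfl⟩ := hsur z
    rw [eH] at hz
    obtain ⟨m, hm, h1⟩ := hH0 x hz
    rw [hmk]
    refine (hT _).2 ⟨m, hm, ?_⟩
    rw [natCast_zsmul]
    exact h1
  · intro z i
    obtain ⟨x, rfl⟩ := hsur z
    rw [eG, eD, eD, hDG]
  · intro z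
    obtain ⟨x, rfl⟩ := hsur z
    rw [eΩ, eD, eD, hDΩ]
  · intro z
    obtain ⟨x, rfl⟩ := hsur z
    rw [eF, eD, hDF]
  · intro z
    obtain ⟨x, rfl⟩ := hsur z
    rw [eD]
    exact hdeg x
  · intro z hz
    obtain ⟨x, rfl⟩ := hsur z
    rw [eD] at hz
    obtain ⟨Q, hQ⟩ := hker x hz
    refine ⟨T.mkQ Q, ?_⟩
    rw [eF, ← hQ]
  · intro z
    obtain ⟨x, rfl⟩ := hsur z
    rw [eD]
    exact hRel x

end Pool.Agent.N163.KG.MAIN
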