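import Pool.Agent.N163.KG.Stm

/-!
# KG/NZ: a point with nonzero logarithmic derivative, general p (helper744, after KN/NZ of helper933)
-/

set_option autoImplicit false

namespace Pool.Agent.N163.KG.NZ

open Polynomial Pool.Agent.N163.KN Pool.Agent.N163.KG

/-- the height -/
noncomputable def hh {k : Type} [Field k] (z : RatFunc k) : ℕ :=
  z.num.natDegree + z.denom.natDegree

theorem hh_pow {k : Type} [Field k] (p : ℕ) (z : RatFunc k) (hz : z ≠ 0) :
    p * hh z ≤ hh (z ^ p) := by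
  have hz7 : z ^ p ≠ 0 := pow_ne_zero p hz
  have hcop : IsCoprime (z.num ^ p) (z.denom ^ p) := (z.isCoprime_num_denom).pow
  have hinj := RatFunc.algebraMap_injective k
  have h1 : algebraMap k[X] (RatFunc k) z.num / algebraMap k[X] (RatFunc k) z.denom = z :=
    z.num_div_denom
  have h2 : algebraMap k[X] (RatFunc k) (z ^ p).num / algebraMap k[X] (RatFunc k) (z ^ p).denom =
      z ^ p := (z ^ p).num_div_denom
  have hd1 : algebraMap k[X] (RatFunc k) z.denom ≠ 0 :=
    (map_ne_zero_iff _ hinj).2 z.denom_ne_zero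
  have hd2 : algebraMap k[X] (RatFunc k) (z ^ p).denom ≠ 0 :=
    (map_ne_zero_iff _ hinj).2 (z ^ p).denom_ne_zero
  have h3 : (z ^ p).num * z.denom ^ p = z.num ^ p * (z ^ p).denom := by
    apply hinj
    rw [map_mul, map_mul, map_pow, map_pow]
    have h4 : algebraMap k[X] (RatFunc k) (z ^ p).num =
        z ^ p * algebraMap k[X] (RatFunc k) (z ^ p).denom := by
      exact (div_eq_iff hd2).1 h2
    have h5 : algebraMap k[X] (RatFunc k) z.num = z * algebraMap k[X] (RatFunc k) z.denom := by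
      exact (div_eq_iff hd1).1 h1
    rw [h4, h5]
    ring
  have hn : z.num ^ p ∣ (z ^ p).num :=
    hcop.dvd_of_dvd_mul_right ⟨(z ^ p).denom, h3⟩
  have hd : z.denom ^ p ∣ (z ^ p).denom :=
    hcop.symm.dvd_of_dvd_mul_left ⟨(z ^ p).num, by rw [← h3]; ring⟩
  have hnum0 : (z ^ p).num ≠ 0 := RatFunc.num_ne_zero hz7
  have e1 := natDegree_le_of_dvd hn hnum0
  have e2 := natDegree_le_of_dvd hd (z ^ p).denom_ne_zero
  rw [natDegree_pow] at e1 e2
  unfold hh
  rw [mul_add]
  omega

theorem const_of_hh {k : Type} [Field k] (z : RatFunc k) (hz : hh z = 0) :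
    ∃ c : k, z = RatFunc.C c := by
  unfold hh at hz
  have h1 : z.num.natDegree = 0 := by omega
  have h2 : z.denom.natDegree = 0 := by omega
  obtain ⟨α, hα⟩ := natDegree_eq_zero.1 h1
  obtain ⟨β, hβ⟩ := natDegree_eq_zero.1 h2
  refine ⟨α / β, ?_⟩
  have h3 := z.num_div_denom
  rw [← hα, ← hβ, RatFunc.algebraMap_C, RatFunc.algebraMap_C] at h3
  rw [map_div₀]
  exact h3.symm

theorem t_NZ (hK : S_KER) (hC : S_CUBE) : Pool.Agent.N163.KG.S_NZ := by
  intro k _ _ p l hp _ δ hpl hδ n α c₀ hn h7 hα hc₀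
  have hpp := hp.out
  have hp7 : 7 ≤ p := by
    rcases Nat.eq_zero_or_pos l with h | h
    · rw [h] at hpl
      rw [hpl] at hpp
      exact absurd hpp (by norm_num)
    · omega
  have h2k : (2 : k) ≠ 0 := by
    have : ((2 : ℕ) : k) ≠ 0 := by
      rw [Ne, CharP.cast_eq_zero_iff k p]
      intro h
      have := Nat.le_of_dvd (by norm_num) h
      omega
    exact_mod_cast this
  have h3k : (3 : k) ≠ 0 := by
    have : ((3 : ℕ) : k) ≠ 0 := by
      rw [Ne, CharP.cast_eq_zero_iff k p]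
      intro h
      have := Nat.le_of_dvd (by norm_num) h
      omega
    exact_mod_cast this
  have hnk : (n : k) ≠ 0 := by
    rw [Ne, CharP.cast_eq_zero_iff k p]
    exact h7
  have hCC := hC k h2k h3k n α c₀ hnk hα hc₀
  obtain ⟨a, haa⟩ : ∃ a, a = ar α c₀ n := ⟨_, rfl⟩
  rw [← haa] at hCC ⊢
  have ha : a ≠ 0 := by
    intro h
    refine hCC 1 0 one_ne_zero ?_
    rw [h]
    simp
  have key : ∀ N : ℕ, ∀ x y : RatFunc k, hh (x ^ 3 / a ^ 2) ≤ N → x ≠ 0 →
      y ^ 2 = x ^ 3 + a ^ 2 →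
      ∃ x₁ y₁ : RatFunc k, y₁ ^ 2 = x₁ ^ 3 + a ^ 2 ∧ dd δ a x₁ y₁ ≠ 0 := by
    intro N
    induction N using Nat.strong_induction_on with
    | _ N ih =>
      intro x y hN hx hxy
      by_cases hdd : dd δ a x y = 0
      · have hy : y ≠ 0 := by
          intro hy
          rw [hy] at hxy
          refine hCC (-1) x (neg_ne_zero.2 one_ne_zero) ?_
          rw [map_neg, map_one]
          linear_combination -hxy
        obtain ⟨x₁, y₁, h1, h2, h3⟩ := hK k p l δ hpl hδ a x y ha hy hxy hdd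
        have hx1 : x₁ ≠ 0 := by
          rintro rfl
          apply hx
          rw [h2, zero_pow (by omega), zero_div]
        have hz1 : x₁ ^ 3 / a ^ 2 ≠ 0 := div_ne_zero (pow_ne_zero _ hx1) (pow_ne_zero _ ha)
        have hz : x ^ 3 / a ^ 2 = (x₁ ^ 3 / a ^ 2) ^ p := by
          rw [h2, div_pow, div_pow, div_div, ← pow_mul, ← pow_mul, ← pow_mul, ← pow_mul, ← pow_add]
          congr 1
          · congr 1
            ring
          · congr 1
            rw [hpl]
            ring
        have hht := hh_pow p _ hz1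
        rw [← hz] at hht
        rcases Nat.eq_zero_or_pos (hh (x₁ ^ 3 / a ^ 2)) with h0 | h0
        · exfalso
          obtain ⟨c, hc⟩ := const_of_hh _ h0
          have hc0 : c ≠ 0 := by
            rintro rfl
            rw [map_zero] at hc
            exact hz1 hc
          refine hCC c x₁ hc0 ?_
          rw [← hc, div_mul_cancel₀ _ (pow_ne_zero _ ha)]
        · have h7h : 7 * hh (x₁ ^ 3 / a ^ 2) ≤ p * hh (x₁ ^ 3 / a ^ 2) :=
            Nat.mul_le_mul_right _ hp7
          exact ih (hh (x₁ ^ 3 / a ^ 2)) (by omega) x₁ y₁ le_rfl hx1 h1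
      · exact ⟨x, y, hxy, hdd⟩
  intro x y hx hxy
  exact key _ x y le_rfl hx hxy

end Pool.Agent.N163.KG.NZ
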