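import Pool.Agent.N163.KG.Stm

/-!
# The eigenspaces of an integral matrix of order three modulo a prime
-/

set_option autoImplicit false

namespace Pool.Agent.N163.KG.OMD

open Polynomial

theorem charpoly_eq (r : ℕ) (Ω : Matrix (Fin r) (Fin r) ℤ) (h : Ω ^ 2 + Ω + 1 = 0) :
    ∃ a, 2 * a = r ∧ Ω.charpoly = (X ^ 2 + X + 1) ^ a := by
  have hpr : Prime (X ^ 2 + X + 1 : ℤ[X]) := by
    rw [← cyclotomic_three]
    exact (cyclotomic.irreducible (by norm_num)).prime
  have hmon : (X ^ 2 + X + 1 : ℤ[X]).Monic := by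
    rw [← cyclotomic_three]
    exact cyclotomic.monic 3 ℤ
  have hdeg : (X ^ 2 + X + 1 : ℤ[X]).natDegree = 2 := by
    compute_degree!
  let c : Matrix (Fin r) (Fin r) ℤ →+* Matrix (Fin r) (Fin r) ℤ[X] := (C : ℤ →+* ℤ[X]).mapMatrix
  let s : Matrix (Fin r) (Fin r) ℤ[X] := Matrix.scalar (Fin r) (X : ℤ[X])
  have hc : c Ω ^ 2 + c Ω + 1 = 0 := by
    rw [← map_pow, ← map_one c, ← map_add, ← map_add, h, map_zero]
  have hcomm : s * c Ω = c Ω * s :=
    (Matrix.scalar_commute (X : ℤ[X]) (fun r' => Commute.all _ _) (c Ω)).eq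
  have hprod : (s - c Ω) * (s + c Ω + 1) = Matrix.scalar (Fin r) (X ^ 2 + X + 1 : ℤ[X]) := by
    have e1 : (s - c Ω) * (s + c Ω + 1) =
        s ^ 2 + s + 1 - (c Ω ^ 2 + c Ω + 1) + (s * c Ω - c Ω * s) := by noncomm_ring
    rw [e1, hc, hcomm, sub_self, add_zero, sub_zero, map_add, map_add, map_pow, map_one]
  have hdet := congrArg Matrix.det hprod
  rw [Matrix.det_mul] at hdet
  have hsc : (Matrix.scalar (Fin r) (X ^ 2 + X + 1 : ℤ[X])).det = (X ^ 2 + X + 1) ^ r := by
    rw [Matrix.scalar_apply, Matrix.det_diagonal, Finset.prod_const, Finset.card_univ,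
      Fintype.card_fin]
  rw [hsc] at hdet
  have hch : (s - c Ω).det = Ω.charpoly := rfl
  rw [hch] at hdet
  have hdvd : Ω.charpoly ∣ (X ^ 2 + X + 1) ^ r := ⟨_, hdet.symm⟩
  obtain ⟨a, _, ha⟩ := (dvd_prime_pow hpr r).1 hdvd
  have heq : Ω.charpoly = (X ^ 2 + X + 1) ^ a :=
    eq_of_monic_of_associated Ω.charpoly_monic (hmon.pow a) ha
  refine ⟨a, ?_, heq⟩
  have h1 := congrArg natDegree heq
  rw [Matrix.charpoly_natDegree_eq_dim, Fintype.card_fin, natDegree_pow, hdeg] at h1
  omega

theorem rootMult (k : Type) [Field k] (w w' : k) (hne : w ≠ w') (a : ℕ) :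
    ((((X : k[X]) - C w) * (X - C w')) ^ a).rootMultiplicity w = a := by
  rw [mul_pow, mul_comm, rootMultiplicity_mul_X_sub_C_pow (pow_ne_zero _ (X_sub_C_ne_zero w')),
    rootMultiplicity_eq_zero, zero_add]
  intro h
  rw [IsRoot.def, eval_pow, eval_sub, eval_X, eval_C] at h
  exact pow_ne_zero a (sub_ne_zero.2 hne) h

theorem t_OMD : Pool.Agent.N163.KG.S_OMD := by
  intro r Ω hΩ k _ w h3 hw
  obtain ⟨a, har, hch⟩ := charpoly_eq r Ω hΩ
  set w' : k := -1 - w with hw'
  have hne : w ≠ w' := by
    intro h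
    have h1 : 2 * w + 1 = 0 := by
      rw [hw'] at h
      linear_combination h
    apply h3
    have h2 : (2 * w + 1) ^ 2 = -3 := by linear_combination 4 * hw
    rw [h1] at h2
    linear_combination h2
  set M : Matrix (Fin r) (Fin r) k := Ω.map (Int.castRingHom k) with hM
  set T : Module.End k (Fin r → k) := Matrix.toLin' M with hT
  have hchT : T.charpoly = (((X : k[X]) - C w) * (X - C w')) ^ a := by
    have e1 : T.charpoly = M.charpoly := Matrix.charpoly_toLin' M
    have e2 : M.charpoly = Ω.charpoly.map (Int.castRingHom k) :=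
      Matrix.charpoly_map Ω (Int.castRingHom k)
    rw [e1, e2, hch, Polynomial.map_pow]
    congr 1
    have e3 : C w * C w' = (1 : k[X]) := by
      rw [← C_mul, hw', show w * (-1 - w) = 1 by linear_combination -hw, C_1]
    have e4 : C w + C w' = (-1 : k[X]) := by
      rw [← C_add, hw', show w + (-1 - w) = -1 by ring, C_neg, C_1]
    simp only [Polynomial.map_add, Polynomial.map_pow, Polynomial.map_X, Polynomial.map_one]
    linear_combination X * e4 - e3
  have hT2 : T ^ 2 + T + 1 = 0 := by
    have e1 : M ^ 2 + M + 1 = 0 := by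
      have := congrArg (Int.castRingHom k).mapMatrix hΩ
      rw [map_add, map_add, map_pow, map_one, map_zero] at this
      exact this
    have e2 := congrArg (Matrix.toLinAlgEquiv' : Matrix (Fin r) (Fin r) k ≃ₐ[k] _) e1
    rw [map_add, map_add, map_pow, map_one, map_zero] at e2
    exact e2
  have hfac : (T - w • 1) * (T - w' • 1) = 0 := by
    apply LinearMap.ext
    intro v
    have h2 := LinearMap.congr_fun hT2 v
    simp only [LinearMap.add_apply, pow_two, Module.End.mul_apply, Module.End.one_apply,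
      LinearMap.zero_apply] at h2
    simp only [Module.End.mul_apply, LinearMap.sub_apply, LinearMap.smul_apply, map_sub, map_smul,
      Module.End.one_apply, LinearMap.zero_apply]
    have e : T (T v) - w • T v - w' • (T v - w • v) =
        (T (T v) + T v + v) - (w ^ 2 + w + 1) • v := by
      rw [hw']
      module
    rw [e, h2, hw, zero_smul, sub_zero]
  have hr1 : LinearMap.range (T - w' • 1) ≤ LinearMap.ker (T - w • 1) := by
    rintro _ ⟨v, rfl⟩
    rw [LinearMap.mem_ker]
    exact LinearMap.congr_fun hfac v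
  have hrn := LinearMap.finrank_range_add_finrank_ker (T - w' • (1 : Module.End k (Fin r → k)))
  rw [Module.finrank_fin_fun] at hrn
  have hle := Submodule.finrank_mono hr1
  have b1 : Module.finrank k (LinearMap.ker (T - w • (1 : Module.End k (Fin r → k)))) ≤ a := by
    have := LinearMap.finrank_eigenspace_le T w
    rw [hchT, rootMult k w w' hne, Module.End.eigenspace_def] at this
    exact this
  have b2 : Module.finrank k (LinearMap.ker (T - w' • (1 : Module.End k (Fin r → k)))) ≤ a := by
    have := LinearMap.finrank_eigenspace_le T w'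
    rw [hchT, mul_comm (X - C w), rootMult k w' w hne.symm, Module.End.eigenspace_def] at this
    exact this
  change 2 * Module.finrank k (LinearMap.ker (T - w • (1 : Module.End k (Fin r → k)))) = r
  omega

end Pool.Agent.N163.KG.OMD
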