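import Pool.Agent.N163.KG.Stm2

set_option autoImplicit false

namespace Pool.Agent.N163.KG.ORD

open Pool.Agent.N420.KS Pool.Agent.N163.KG

theorem card_cast {F : Type} [Field F] [Fintype F] [DecidableEq F] (hF : ringChar F ≠ 2) (b : F) :
    ((Nat.card {P : F × F // P.2 ^ 2 = P.1 ^ 3 - b} : ℕ) : F) =
      ∑ x : F, ((x ^ 3 - b) ^ (Fintype.card F / 2) + 1) := by
  have e : {P : F × F // P.2 ^ 2 = P.1 ^ 3 - b} ≃ Σ x : F, {y : F // y ^ 2 = x ^ 3 - b} :=
    { toFun := fun P => ⟨P.1.1, ⟨P.1.2, P.2⟩⟩
      invFun := fun s => ⟨(s.1, s.2.1), s.2.2⟩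
      left_inv := fun P => by rfl
      right_inv := fun s => by rfl }
  rw [Nat.card_congr e, Nat.card_eq_fintype_card, Fintype.card_sigma, Nat.cast_sum]
  refine Finset.sum_congr rfl fun x _ => ?_
  have h := quadraticChar_card_sqrts hF (x ^ 3 - b)
  have h2 := quadraticChar_eq_pow_of_char_ne_two' hF (x ^ 3 - b)
  have h3 : (Fintype.card {y : F // y ^ 2 = x ^ 3 - b}) =
      ({y : F | y ^ 2 = x ^ 3 - b}.toFinset).card := by
    rw [Set.toFinset_card]
    exact Fintype.card_congr (Equiv.refl _)
  rw [h3, ← h2]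
  have h4 := congrArg (fun z : ℤ => (z : F)) h
  simpa using h4

/-- power sums in the range we need -/
theorem term_zero {F : Type} [Field F] [Fintype F] [DecidableEq F] (p : ℕ) [Fact p.Prime]
    [CharP F p] (hp3 : 3 < p) (hp : p % 3 = 2) (j : ℕ) (hj : j ≤ Fintype.card F / 2) :
    (((Fintype.card F / 2).choose j : ℕ) : F) * ∑ x : F, x ^ (3 * j) = 0 := by
  have hpp : p.Prime := Fact.out
  obtain ⟨f, -, hq⟩ := FiniteField.card F p
  have hf : (f : ℕ) ≠ 0 := f.pos.ne'
  have hodd : p % 2 = 1 := by
    rcases hpp.eq_two_or_odd with h | h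
    · omega
    · exact h
  have hpq : p ∣ Fintype.card F := by
    rw [hq]; exact dvd_pow_self p hf
  have hqodd : Fintype.card F % 2 = 1 := by
    rw [hq, Nat.pow_mod, hodd]; simp
  have hq1 : 1 < Fintype.card F := Fintype.one_lt_card
  rcases Nat.eq_zero_or_pos j with rfl | hj0
  · simp
  by_cases hd : Fintype.card F - 1 ∣ 3 * j
  · -- then `3 j = q - 1`
    obtain ⟨k, hk⟩ := hd
    have hk1 : k = 1 := by
      rcases Nat.lt_or_ge k 2 with hk2 | hk2
      · interval_cases k
        · omega
        · rfl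
      · have : (Fintype.card F - 1) * 2 ≤ (Fintype.card F - 1) * k := Nat.mul_le_mul_left _ hk2
        omega
    subst hk1
    rw [mul_one] at hk
    have hc : ((Fintype.card F / 2).choose j) ≡
        ((Fintype.card F / 2) % p).choose (j % p) *
          ((Fintype.card F / 2) / p).choose (j / p) [MOD p] :=
      Choose.choose_modEq_choose_mod_mul_choose_div_nat
    obtain ⟨m, hm⟩ := hpq
    have h1 : (Fintype.card F / 2) % p = (p - 1) / 2 := by
      have hn : 2 * (Fintype.card F / 2) + 1 = p * m := by omega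
      have hlt : (Fintype.card F / 2) % p < p := Nat.mod_lt _ hpp.pos
      have hdm := Nat.div_add_mod (Fintype.card F / 2) p
      set r := (Fintype.card F / 2) % p
      set d := (Fintype.card F / 2) / p
      have h2 : p ∣ 2 * r + 1 := by
        have : 2 * (p * d + r) + 1 = p * m := by rw [hdm]; exact hn
        have h5 : p ∣ p * (2 * d) + (2 * r + 1) := ⟨m, by rw [← this]; ring⟩
        exact (Nat.dvd_add_right ⟨2 * d, rfl⟩).1 h5
      obtain ⟨t, ht⟩ := h2
      have ht2 : t < 2 := by
        by_contra hcon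
        have : p * 2 ≤ p * t := Nat.mul_le_mul_left _ (by omega)
        omega
      interval_cases t
      · omega
      · omega
    have h2 : (p - 1) / 2 < j % p := by
      have hlt : j % p < p := Nat.mod_lt _ hpp.pos
      have hdm := Nat.div_add_mod j p
      have hn : 3 * j + 1 = p * m := by omega
      set r := j % p
      set d := j / p
      have h2 : p ∣ 3 * r + 1 := by
        have : 3 * (p * d + r) + 1 = p * m := by rw [hdm]; exact hn
        have h5 : p ∣ p * (3 * d) + (3 * r + 1) := ⟨m, by rw [← this]; ring⟩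
        exact (Nat.dvd_add_right ⟨3 * d, rfl⟩).1 h5
      obtain ⟨t, ht⟩ := h2
      have ht2 : t < 3 := by
        by_contra hcon
        have : p * 3 ≤ p * t := Nat.mul_le_mul_left _ (by omega)
        omega
      interval_cases t
      · omega
      · omega
      · omega
    rw [h1, Nat.choose_eq_zero_of_lt h2, zero_mul] at hc
    have h3 : (((Fintype.card F / 2).choose j : ℕ) : F) = 0 := by
      rw [CharP.cast_eq_zero_iff F p]
      exact (Nat.modEq_zero_iff_dvd).1 hc
    rw [h3, zero_mul]
  · have hs : ∑ x : F, x ^ (3 * j) = 0 := by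
      have h1 := FiniteField.sum_pow_units F (3 * j)
      rw [if_neg hd] at h1
      have h2 : ∑ x : F, x ^ (3 * j) = ∑ x : Fˣ, ((x : F) ^ (3 * j)) := by
        rw [← Finset.sum_erase_add _ _ (Finset.mem_univ (0 : F)), zero_pow (by omega), add_zero]
        symm
        refine Finset.sum_bij (fun (x : Fˣ) _ => (x : F)) ?_ ?_ ?_ ?_
        · intro a _; simp
        · intro a _ b _ h; exact Units.ext h
        · intro b hb
          have hb0 : b ≠ 0 := by simpa using hb
          exact ⟨Units.mk0 b hb0, Finset.mem_univ _, rfl⟩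
        · intro a _; rfl
      rw [h2]; exact h1
    rw [hs, mul_zero]

theorem sum_zero {F : Type} [Field F] [Fintype F] [DecidableEq F] (p : ℕ) [Fact p.Prime]
    [CharP F p] (hp3 : 3 < p) (hp : p % 3 = 2) (b : F) :
    ∑ x : F, (x ^ 3 - b) ^ (Fintype.card F / 2) = 0 := by
  have h1 : ∀ x : F, (x ^ 3 - b) ^ (Fintype.card F / 2) =
      ∑ j ∈ Finset.range (Fintype.card F / 2 + 1),
        (-b) ^ (Fintype.card F / 2 - j) *
          ((((Fintype.card F / 2).choose j : ℕ) : F) * x ^ (3 * j)) := by
    intro x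
    rw [sub_eq_add_neg, add_pow]
    refine Finset.sum_congr rfl fun j _ => ?_
    rw [pow_mul]; ring
  simp_rw [h1]
  rw [Finset.sum_comm]
  refine Finset.sum_eq_zero fun j hj => ?_
  rw [← Finset.mul_sum, ← Finset.mul_sum, term_zero p hp3 hp j (by
    have := Finset.mem_range.1 hj; omega), mul_zero]

theorem t_ORD : Pool.Agent.N163.KG.S_ORD := by
  intro F _ _ b c h
  classical
  haveI := Fintype.ofFinite F
  have hgt := h.char_gt
  have hord := h.ordinary
  haveI hch : CharP F (ringChar F) := ringChar.charP F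
  have hpr : (ringChar F).Prime := by
    rcases CharP.char_is_prime_or_zero F (ringChar F) with h1 | h1
    · exact h1
    · omega
  haveI : Fact (ringChar F).Prime := ⟨hpr⟩
  have hne2 : ringChar F % 3 ≠ 2 := by
    intro h2
    apply hord
    have e1 := card_cast (F := F) (by omega) b
    rw [Finset.sum_add_distrib, sum_zero (ringChar F) hgt h2 b, zero_add] at e1
    have e2 : ∑ _x : F, (1 : F) = 0 := by simp
    rw [e2] at e1
    have e3 : ringChar F ∣ Nat.card {P : F × F // P.2 ^ 2 = P.1 ^ 3 - b} :=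
      (CharP.cast_eq_zero_iff F (ringChar F) _).1 e1
    have e4 : ringChar F ∣ Nat.card F := by
      rw [Nat.card_eq_fintype_card, ← CharP.cast_eq_zero_iff F (ringChar F)]
      simp
    exact dvd_sub (Int.natCast_dvd_natCast.2 e4) (Int.natCast_dvd_natCast.2 e3)
  have hne0 : ringChar F % 3 ≠ 0 := by
    intro h0
    have : 3 ∣ ringChar F := Nat.dvd_of_mod_eq_zero h0
    have := (Nat.prime_dvd_prime_iff_eq Nat.prime_three hpr).1 this
    omega
  have hodd : ringChar F % 2 = 1 := by
    rcases hpr.eq_two_or_odd with h1 | h1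
    · omega
    · exact h1
  exact ⟨ringChar F, ringChar F / 6, hpr, hch, by omega⟩

end Pool.Agent.N163.KG.ORD
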