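import Pool.Agent.N163.KG.Stm
import Pool.Agent.N420.KS.Main

/-!
# A point over `k(t)` when `q = 2, 3` modulo five and `b / 10` is a cube (helper353)

The explicit point of helper420 (`Pool/Agent/N420/KS`).
-/

set_option autoImplicit false

namespace Pool.Agent.N163.KG.POS

open Polynomial Pool.Agent.N163.KG Pool.Agent.N420.KS

/-- the explicit point, without hypotheses -/
theorem pos : Pool.Agent.N163.KG.S_POS := by
  intro k _ _ b c h hq hβ
  obtain ⟨β, hβ⟩ := hβ
  obtain ⟨γ, hγ⟩ := h.c_cube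
  have hb0 := h.b_ne
  have h10 : (10 : k) ≠ 0 := by
    intro h
    apply hb0
    rw [hβ, h, zero_mul]
  have h2 : (2 : k) ≠ 0 := by
    intro h
    apply h10
    linear_combination 5 * h
  have h5 : (5 : k) ≠ 0 := by
    intro h
    apply h10
    linear_combination 2 * h
  have h3 : (3 : k) ≠ 0 := by
    intro h3
    have : ((3 : ℕ) : k) = 0 := by exact_mod_cast h3
    have := (ringChar.spec k 3).1 this
    have := Nat.le_of_dvd (by norm_num) this
    have := h.char_gt
    omega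
  obtain ⟨κ, m, hk0, hk, hm⟩ :=
    exists_params2 h.char_gt hq hβ hb0 h.c_ne hγ h.c_nonsq
  have hT := init2_inv h2 h3 h5 hk0 hk hm
  have h2' : (2 : RatFunc k) ≠ 0 := two_ne (h2 := h2)
  have hb' : (RatFunc.C b : RatFunc k) ≠ 0 := RC_ne hb0
  set e : RatFunc k := RatFunc.X ^ 30 - RatFunc.C c with he
  have he0 : e ≠ 0 := by
    have : e = ι k (X ^ 30 - C c) := by
      rw [he]
      simp only [map_sub, map_pow, RatFunc.algebraMap_C, RatFunc.algebraMap_X]
    rw [this]
    exact ι_ne (num_ne (by norm_num) c)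
  have hp := ι_ne (pq_ne (D_ne hb0) hT).1
  have hz := ι_ne hT.z_ne
  have ha : ar (1 / (2 * b ^ 2)) c 5 = e / (2 * RatFunc.C b ^ 2) := by
    rw [ar, ap, map_mul, map_sub, map_pow, RatFunc.algebraMap_C, RatFunc.algebraMap_C,
      RatFunc.algebraMap_X, map_div₀, map_mul, map_pow, map_ofNat, map_one, he,
      div_mul_eq_mul_div, one_mul]
  refine ⟨wx (RatFunc.C b) e (ι k (init2 κ m).1) (ι k (init2 κ m).2.2),
    wy (RatFunc.C b) e (ι k (init2 κ m).1) (ι k (init2 κ m).2.1), ?_, ?_⟩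
  · rw [wx]
    exact neg_ne_zero.2 (div_ne_zero (mul_ne_zero he0 hz) (mul_ne_zero hb' hp))
  · rw [ha]
    exact wei_eq h2' hb' hp (eqn_K hT)

theorem t_POS (_hW : S_WRO) (_hU : S_CUBE) : Pool.Agent.N163.KG.S_POS := pos

end Pool.Agent.N163.KG.POS
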