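import Pool.Agent.N163.KG.Stm

/-!
KG/PT: the relations for the points (helper398).
-/

set_option autoImplicit false

namespace Pool.Agent.N163.KG.PT

open Polynomial

theorem t_PT (h1 : Pool.Agent.N163.KG.S_CAR) (h2 : Pool.Agent.N163.KG.S_DER)
    (h3 : Pool.Agent.N163.KG.S_COEF) : Pool.Agent.N163.KG.S_PT := by
  intro k _ p l _ _ δ hp hδ n α c hn hpn hα hc x y hy h g hd hg
  have hch : CharP (RatFunc k) p :=
    charP_of_injective_algebraMap (algebraMap k (RatFunc k)).injective p
  apply h3 k p l hp n α c g hn hpn hg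
  have hap : ap α c n ≠ 0 :=
    mul_ne_zero (C_ne_zero.2 hα) (X_pow_sub_C_ne_zero (by omega) c)
  have har : ar α c n ≠ 0 := by
    intro h0
    exact hap ((map_eq_zero_iff _ (IsFractionRing.injective k[X] (RatFunc k))).1 h0)
  obtain ⟨hD1, hD2⟩ := h2 k p δ hδ
  have h4 := h1 (RatFunc k) p l δ (ar α c n) x y hp hδ.dn hD1 hD2 har hy h
  have h5 : ∀ (m : ℕ) (q : k[X]), δ^[m] (algebraMap k[X] (RatFunc k) q) =
      algebraMap k[X] (RatFunc k) (derivative^[m] q) := by
    intro m
    induction m with
    | zero => intro q; rfl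
    | succ m ih =>
      intro q
      rw [Function.iterate_succ_apply, hδ.poly, ih, Function.iterate_succ_apply]
  have h6 : algebraMap k[X] (RatFunc k) (C (Nat.choose (3 * l) l : k)) =
      (Nat.choose (3 * l) l : RatFunc k) := by
    rw [map_natCast, map_natCast]
  apply IsFractionRing.injective k[X] (RatFunc k)
  rw [← h5, map_mul, map_pow]
  have h7 : algebraMap k[X] (RatFunc k) (ap α c n) = ar α c n := rfl
  rw [h7, ← hd, h4, map_mul, map_pow, map_neg, h6, hd]

end Pool.Agent.N163.KG.PT
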