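import Pool.Agent.N163.KG.Stm

/-!
Leaf KG/QUAD (helper280), project KG (helper163): the exact parallelogram law.
-/

set_option autoImplicit false

namespace Pool.Agent.N163.KG.QUAD

theorem lim {p a b C : ℕ} (hp : 2 ≤ p) (h : ∀ m : ℕ, p ^ m * a ≤ p ^ m * b + C) : a ≤ b := by
  by_contra hab
  have h1 : b + 1 ≤ a := by omega
  have h2 := h C
  have h3 : p ^ C * (b + 1) ≤ p ^ C * a := Nat.mul_le_mul_left _ h1
  have h4 : C < p ^ C := Nat.lt_pow_self (by omega)
  have h5 : p ^ C * (b + 1) = p ^ C * b + p ^ C := by ring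
  omega

theorem t_QUAD : Pool.Agent.N163.KG.S_QUAD := by
  intro M _ F H p C₁ C₂ hp hA hD hF P Q
  have hit : ∀ (m : ℕ) (P : M), H (F^[m] P) = p ^ m * H P := by
    intro m
    induction m with
    | zero => intro P; simp
    | succ m ih =>
      intro P
      rw [Function.iterate_succ_apply, ih, hF]
      ring
  have hadd : ∀ (m : ℕ) (P Q : M), F^[m] (P + Q) = F^[m] P + F^[m] Q := by
    intro m
    induction m with
    | zero => intro P Q; rfl
    | succ m ih =>
      intro P Q
      rw [Function.iterate_succ_apply, Function.iterate_succ_apply, Function.iterate_succ_apply,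
        map_add, ih]
  have hsub : ∀ (m : ℕ) (P Q : M), F^[m] (P - Q) = F^[m] P - F^[m] Q := by
    intro m
    induction m with
    | zero => intro P Q; rfl
    | succ m ih =>
      intro P Q
      rw [Function.iterate_succ_apply, Function.iterate_succ_apply, Function.iterate_succ_apply,
        map_sub, ih]
  have h1 : ∀ P Q, H (P + Q) + H (P - Q) ≤ 2 * H P + 2 * H Q := by
    intro P Q
    refine lim (C := C₁) hp fun m => ?_
    have h := hA (F^[m] P) (F^[m] Q)
    rw [← hadd, ← hsub, hit, hit, hit, hit] at h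
    calc p ^ m * (H (P + Q) + H (P - Q)) = p ^ m * H (P + Q) + p ^ m * H (P - Q) := by ring
      _ ≤ 2 * (p ^ m * H P) + 2 * (p ^ m * H Q) + C₁ := h
      _ = p ^ m * (2 * H P + 2 * H Q) + C₁ := by ring
  have h2 : ∀ P, 4 * H P ≤ H (P + P) := by
    intro P
    refine lim (C := C₂) hp fun m => ?_
    have h := hD (F^[m] P)
    rw [← hadd, hit, hit] at h
    calc p ^ m * (4 * H P) = 4 * (p ^ m * H P) := by ring
      _ ≤ _ := h
  have h3 := h1 (P + Q) (P - Q)
  have e1 : P + Q + (P - Q) = P + P := by abel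
  have e2 : P + Q - (P - Q) = Q + Q := by abel
  rw [e1, e2] at h3
  have h4 := h2 P
  have h5 := h2 Q
  have h6 := h1 P Q
  omega

end Pool.Agent.N163.KG.QUAD
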