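import Pool.Agent.N163.KG.Stm
import Pool.Agent.N163.KN.FR
import Pool.Agent.N163.KN.FG
import Pool.Agent.N163.KN.INT

/-!
# Project KG, leaf THREE (helper572): the image of `1 - ω` has finite index
-/

set_option autoImplicit false

namespace Pool.Agent.N163.KG.THREE

open Polynomial Pool.Agent.N163.KN

section

variable {K : Type} [Field K] [DecidableEq K]

/-- a point with `y - A` a cube is in the image of `1 - ω` -/
theorem key (h2 : (2 : K) ≠ 0) (h3 : (3 : K) ≠ 0) {w : K} (hw : w ^ 2 + w + 1 = 0) {A : K}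
    (hA : A ≠ 0) (Ω : (W (A ^ 2)).Point →+ (W (A ^ 2)).Point)
    (hΩ : ∀ P x y, IsPt P x y → IsPt (Ω P) (w * x) y) {P : (W (A ^ 2)).Point} {x y s : K}
    (hP : IsPt P x y) (hx : x ≠ 0) (hs : y - A = s ^ 3) : ∃ Q, P = Q - Ω Q := by
  have hc : y ^ 2 = x ^ 3 + A ^ 2 := FR.curve hP
  have hs0 : s ≠ 0 := by
    rintro rfl
    apply hx
    have h1 : y = A := by linear_combination hs
    rw [h1] at hc
    have h4 : x ^ 3 = 0 := by linear_combination -hc
    exact pow_eq_zero_iff (three_ne_zero) |>.1 h4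
  obtain ⟨t, ht⟩ : ∃ t, x = s * t := ⟨x / s, by field_simp⟩
  have ht3 : y + A = t ^ 3 := by
    apply mul_left_cancel₀ (pow_ne_zero 3 hs0)
    rw [← hs]
    have h5 : (y - A) * (y + A) = x ^ 3 := by linear_combination hc
    rw [h5, ht, mul_pow, hs]
  have hAq : 2 * A = (t - s) * (s ^ 2 + s * t + t ^ 2) := by linear_combination ht3 - hs
  have hq : s ^ 2 + s * t + t ^ 2 ≠ 0 := by
    intro h0
    rw [h0, mul_zero] at hAq
    exact mul_ne_zero h2 hA hAq
  have hw0 : w ≠ 0 := by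
    rintro rfl
    simp at hw
  have hw1 : (1 : K) - w ≠ 0 := by
    intro h0
    apply h3
    linear_combination hw + (w + 2) * h0
  have h4 : (4 : K) ≠ 0 := by
    have : (4 : K) = 2 * 2 := by norm_num
    rw [this]
    exact mul_ne_zero h2 h2
  set q := s ^ 2 + s * t + t ^ 2 with hqd
  set X : K := -w * q with hX
  set Y : K := -(2 * w + 1) * (s + t) * q / 2 with hY
  have hY2 : 2 * Y = -(2 * w + 1) * (s + t) * q := by
    rw [hY]
    field_simp
  have hX0 : X ≠ 0 := mul_ne_zero (neg_ne_zero.2 hw0) hq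
  have hw3 : w ^ 3 = 1 := by linear_combination (w - 1) * hw
  have hcv : Y ^ 2 = X ^ 3 + A ^ 2 := by
    apply mul_left_cancel₀ h4
    have e1 : 4 * Y ^ 2 = (2 * w + 1) ^ 2 * (s + t) ^ 2 * q ^ 2 := by
      have : 4 * Y ^ 2 = (2 * Y) ^ 2 := by ring
      rw [this, hY2]
      ring
    have e2 : 4 * A ^ 2 = (t - s) ^ 2 * q ^ 2 := by
      have : 4 * A ^ 2 = (2 * A) ^ 2 := by ring
      rw [this, hAq]
      ring
    have e3 : 4 * (X ^ 3 + A ^ 2) = -4 * w ^ 3 * q ^ 3 + 4 * A ^ 2 := by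
      rw [hX]
      ring
    rw [e1, e3, e2, hw3, hqd]
    linear_combination 4 * (s + t) ^ 2 * (s ^ 2 + s * t + t ^ 2) ^ 2 * hw
  let Q : (W (A ^ 2)).Point := .some X Y (FG.nons h2 h3 (pow_ne_zero 2 hA) hcv)
  have hQ : IsPt Q X Y := ⟨_, rfl⟩
  have hOQ := FR.neg_pt (hΩ Q X Y hQ)
  have hne : X ≠ w * X := by
    intro h0
    have : (1 - w) * X = 0 := by linear_combination h0
    exact mul_ne_zero hw1 hX0 this
  have hadd := FR.add_pt hQ hOQ hne (s + t) x y (by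
      rw [eq_div_iff (sub_ne_zero.2 hne)]
      have e5 : Y - -Y = 2 * Y := by ring
      rw [e5, hY2, hX]
      linear_combination ((s + t) * q) * hw) (by
      rw [hX, ht, hqd]
      linear_combination (-(s ^ 2 + s * t + t ^ 2)) * hw) (by
      apply mul_left_cancel₀ h2
      have e6 : 2 * y = s ^ 3 + t ^ 3 := by linear_combination hs + ht3
      have e7 : 2 * -((s + t) * (x - X) + Y) = -(2 * (s + t) * (x - X) + 2 * Y) := by ring
      rw [e7, e6, hY2, hX, ht, hqd]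
      ring)
  refine ⟨Q, ?_⟩
  rw [sub_eq_add_neg]
  exact FR.isPt_eq hP hadd rfl rfl

/-- the difference of two points in the same class -/
theorem diff (h2 : (2 : K) ≠ 0) (h3 : (3 : K) ≠ 0) {w : K} (hw : w ^ 2 + w + 1 = 0) {A : K}
    (hA : A ≠ 0) (Ω : (W (A ^ 2)).Point →+ (W (A ^ 2)).Point)
    (hΩ : ∀ P x y, IsPt P x y → IsPt (Ω P) (w * x) y) {P₁ P₂ : (W (A ^ 2)).Point}
    {x₁ y₁ x₂ y₂ ρ s₁ s₂ : K}
    (hP₁ : IsPt P₁ x₁ y₁) (hP₂ : IsPt P₂ x₂ y₂) (hx₁ : x₁ ≠ 0) (hx₂ : x₂ ≠ 0)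
    (h₁ : y₁ - A = ρ * s₁ ^ 3) (h₂ : y₂ - A = ρ * s₂ ^ 3) :
    (P₁ - P₂ = 0 ∨ ∃ y, IsPt (P₁ - P₂) 0 y) ∨ ∃ Q, P₁ - P₂ = Q - Ω Q := by
  have hc₁ : y₁ ^ 2 = x₁ ^ 3 + A ^ 2 := FR.curve hP₁
  have hc₂ : y₂ ^ 2 = x₂ ^ 3 + A ^ 2 := FR.curve hP₂
  have f₁ : (y₁ - A) * (y₁ + A) = x₁ ^ 3 := by linear_combination hc₁
  have f₂ : (y₂ - A) * (y₂ + A) = x₂ ^ 3 := by linear_combination hc₂
  have g₁ : y₁ - A ≠ 0 := by
    intro h0
    rw [h0, zero_mul] at f₁
    exact pow_ne_zero 3 hx₁ f₁.symm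
  have g₂ : y₂ - A ≠ 0 := by
    intro h0
    rw [h0, zero_mul] at f₂
    exact pow_ne_zero 3 hx₂ f₂.symm
  have g₂' : y₂ + A ≠ 0 := by
    intro h0
    rw [h0, mul_zero] at f₂
    exact pow_ne_zero 3 hx₂ f₂.symm
  have hρ : ρ ≠ 0 := by
    intro h0
    rw [h0, zero_mul] at h₁
    exact g₁ h₁
  have hs₁ : s₁ ≠ 0 := by
    intro h0
    rw [h0] at h₁
    exact g₁ (by rw [h₁]; ring)
  have hs₂ : s₂ ≠ 0 := by
    intro h0
    rw [h0] at h₂
    exact g₂ (by rw [h₂]; ring)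
  by_cases hx : x₁ = x₂
  · subst hx
    have hyy : (y₁ - y₂) * (y₁ + y₂) = 0 := by linear_combination hc₁ - hc₂
    rcases mul_eq_zero.1 hyy with hy | hy
    · left
      left
      rw [FR.isPt_eq hP₁ hP₂ rfl (by linear_combination hy), sub_self]
    · right
      have e1 : x₁ ^ 3 = -(ρ ^ 2 * (s₁ * s₂) ^ 3) := by
        have : x₁ ^ 3 = -((y₁ - A) * (y₂ - A)) := by
          rw [← f₁]
          linear_combination (y₁ - A) * hy
        rw [this, h₁, h₂]
        ring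
      have e2 : ρ = (-(ρ * (s₁ * s₂) / x₁)) ^ 3 := by
        have : (-(ρ * (s₁ * s₂) / x₁)) ^ 3 = -(ρ ^ 3 * (s₁ * s₂) ^ 3) / x₁ ^ 3 := by
          ring
        rw [this, eq_div_iff (pow_ne_zero 3 hx₁), e1]
        ring
      obtain ⟨Q₁, hQ₁⟩ := key h2 h3 hw hA Ω hΩ hP₁ hx₁
        (s := (-(ρ * (s₁ * s₂) / x₁)) * s₁) (by rw [mul_pow, ← e2, h₁])
      obtain ⟨Q₂, hQ₂⟩ := key h2 h3 hw hA Ω hΩ hP₂ hx₁
        (s := (-(ρ * (s₁ * s₂) / x₁)) * s₂) (by rw [mul_pow, ← e2, h₂])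
      refine ⟨Q₁ - Q₂, ?_⟩
      rw [map_sub, hQ₁, hQ₂]
      abel
  · have hd : x₁ - x₂ ≠ 0 := sub_ne_zero.2 hx
    obtain ⟨l, hl⟩ : ∃ l, l = (y₁ - -y₂) / (x₁ - x₂) := ⟨_, rfl⟩
    obtain ⟨x₃, hx₃⟩ : ∃ x₃, x₃ = l ^ 2 - x₁ - x₂ := ⟨_, rfl⟩
    obtain ⟨y₃, hy₃⟩ : ∃ y₃, y₃ = -(l * (x₃ - x₁) + y₁) := ⟨_, rfl⟩
    have hadd : IsPt (P₁ - P₂) x₃ y₃ := by
      rw [sub_eq_add_neg]
      exact FR.add_pt hP₁ (FR.neg_pt hP₂) hx l x₃ y₃ hl hx₃ hy₃
    by_cases h0 : x₃ = 0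
    · left
      right
      exact ⟨y₃, by rw [h0] at hadd; exact hadd⟩
    right
    have hc₃ : y₃ ^ 2 = x₃ ^ 3 + A ^ 2 := FR.curve hadd
    have f₃ : (y₃ - A) * (y₃ + A) = x₃ ^ 3 := by linear_combination hc₃
    have g₃ : y₃ + A ≠ 0 := by
      intro h0'
      rw [h0', mul_zero] at f₃
      exact pow_ne_zero 3 h0 f₃.symm
    obtain ⟨m, hm⟩ : ∃ m, m = y₁ - l * x₁ := ⟨_, rfl⟩
    have hl' : l * (x₁ - x₂) = y₁ + y₂ := by
      rw [hl, div_mul_cancel₀ _ hd]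
      ring
    have k₁ : y₁ = l * x₁ + m := by rw [hm]; ring
    have k₂ : y₂ = -(l * x₂ + m) := by rw [hm]; linear_combination -hl'
    have k₃ : y₃ = -(l * x₃ + m) := by rw [hy₃, hm]; ring
    have c₁ : (l * x₁ + m) ^ 2 = x₁ ^ 3 + A ^ 2 := by rw [← k₁, hc₁]
    have c₂ : (l * x₂ + m) ^ 2 = x₂ ^ 3 + A ^ 2 := by
      have : (l * x₂ + m) ^ 2 = y₂ ^ 2 := by rw [k₂]; ring
      rw [this, hc₂]
    have e2 : x₁ * x₂ + x₁ * x₃ + x₂ * x₃ = -2 * l * m := by
      apply mul_left_cancel₀ hd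
      rw [hx₃]
      linear_combination c₁ - c₂
    have e3 : x₁ * x₂ * x₃ = m ^ 2 - A ^ 2 := by
      have e1 : x₁ + x₂ + x₃ = l ^ 2 := by rw [hx₃]; ring
      linear_combination x₁ * e2 - x₁ ^ 2 * e1 - c₁
    have id : (y₁ - A) * (y₂ + A) * (y₃ + A) = (m - A) ^ 3 := by
      have e1 : x₁ + x₂ + x₃ = l ^ 2 := by rw [hx₃]; ring
      rw [k₁, k₂, k₃]
      linear_combination l ^ 3 * e3 + l ^ 2 * (m - A) * e2 + l * (m - A) ^ 2 * e1
    have hmA : m - A ≠ 0 := by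
      intro h0'
      rw [h0'] at id
      exact mul_ne_zero (mul_ne_zero g₁ g₂') g₃ (by rw [id]; ring)
    apply key h2 h3 hw hA Ω hΩ hadd h0 (s := s₁ * x₂ * x₃ / (s₂ * (m - A)))
    apply mul_right_cancel₀ g₃
    rw [f₃]
    have e4 : (s₁ * x₂ * x₃ / (s₂ * (m - A))) ^ 3 =
        s₁ ^ 3 * x₂ ^ 3 * x₃ ^ 3 / (s₂ ^ 3 * (m - A) ^ 3) := by
      rw [div_pow, mul_pow, mul_pow, mul_pow]
    rw [e4, div_mul_eq_mul_div, eq_div_iff (mul_ne_zero (pow_ne_zero 3 hs₂) (pow_ne_zero 3 hmA)),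
      ← id, ← f₂, h₁, h₂]
    ring

end

section

variable {k : Type} [Field k]

theorem fac (h2 : (2 : k) ≠ 0) {a A B c : k[X]} (_ha : a ≠ 0) (hA : A ≠ 0)
    (hAB : IsCoprime A B) (h : c ^ 2 = A ^ 3 + a ^ 2 * B ^ 6) :
    ∃ r s : k[X], r ∣ a ^ 2 ∧ c - a * B ^ 3 = r * s ^ 3 := by
  classical
  have hUV : (c - a * B ^ 3) * (c + a * B ^ 3) = A ^ 3 := by linear_combination h
  have hU0 : c - a * B ^ 3 ≠ 0 := by
    intro h0
    rw [h0, zero_mul] at hUV
    exact pow_ne_zero 3 hA hUV.symm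
  have hV0 : c + a * B ^ 3 ≠ 0 := by
    intro h0
    rw [h0, mul_zero] at hUV
    exact pow_ne_zero 3 hA hUV.symm
  set U := c - a * B ^ 3 with hU
  set V := c + a * B ^ 3 with hV
  -- a cube dividing `U` of maximal degree
  obtain ⟨s, hs, hmax⟩ : ∃ s : k[X], s ^ 3 ∣ U ∧ ∀ t : k[X], t ^ 3 ∣ U →
      t.natDegree ≤ s.natDegree := by
    have hb : ∀ t : k[X], t ^ 3 ∣ U → t.natDegree ≤ U.natDegree := by
      intro t ht
      have := natDegree_le_of_dvd ht hU0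
      rw [natDegree_pow] at this
      omega
    let p : ℕ → Prop := fun n => ∃ t : k[X], t ^ 3 ∣ U ∧ t.natDegree = n
    have hp0 : p 0 := ⟨1, by simp, by simp⟩
    have hsp := Nat.findGreatest_spec (P := p) (Nat.zero_le U.natDegree) hp0
    obtain ⟨s, hs, hsd⟩ := hsp
    refine ⟨s, hs, fun t ht => ?_⟩
    rw [hsd]
    exact Nat.le_findGreatest (hb t ht) ⟨t, ht, rfl⟩
  obtain ⟨r, hr⟩ := hs
  have hs0 : s ≠ 0 := by
    rintro rfl
    apply hU0
    rw [hr]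
    ring
  have hr0 : r ≠ 0 := by
    rintro rfl
    apply hU0
    rw [hr]
    ring
  refine ⟨r, s, ?_, by rw [hr]; ring⟩
  rw [UniqueFactorizationMonoid.dvd_iff_emultiplicity_le hr0]
  intro π hπ
  have hfin : ∀ {u : k[X]}, u ≠ 0 → FiniteMultiplicity π u := fun hu =>
    FiniteMultiplicity.of_prime_left hπ hu
  have hn3 : ¬ π ^ 3 ∣ r := by
    intro h3
    obtain ⟨r', hr'⟩ := h3
    have h4 := hmax (π * s) ⟨r', by rw [hr, hr']; ring⟩
    rw [natDegree_mul hπ.ne_zero hs0] at h4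
    have h5 := hπ.irreducible.natDegree_pos
    omega
  by_cases hπr : π ∣ r
  · have hπa : π ∣ a := by
      by_contra hna
      have hπU : π ∣ U := by
        rw [hr]
        exact Dvd.dvd.mul_left hπr _
      have hπV : ¬ π ∣ V := by
        intro hv
        have h6 : π ∣ C (2 : k) * (a * B ^ 3) := by
          have : C (2 : k) * (a * B ^ 3) = V - U := by
            rw [hV, hU, map_ofNat]
            ring
          rw [this]
          exact dvd_sub hv hπU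
        have h7 : π ∣ a * B ^ 3 := by
          rcases hπ.dvd_or_dvd h6 with h8 | h8
          · exfalso
            exact hπ.not_isUnit (isUnit_of_dvd_unit h8 (isUnit_C.2 (isUnit_iff_ne_zero.2 h2)))
          · exact h8
        have h8 : π ∣ B := by
          rcases hπ.dvd_or_dvd h7 with h9 | h9
          · exact absurd h9 hna
          · exact hπ.dvd_of_dvd_pow h9
        have h9 : π ∣ A := by
          apply hπ.dvd_of_dvd_pow (n := 3)
          rw [← hUV]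
          exact Dvd.dvd.mul_right hπU _
        exact hπ.not_isUnit (hAB.isUnit_of_dvd' h9 h8)
      have h10 : multiplicity π (U * V) = multiplicity π (A ^ 3) := by rw [hUV]
      rw [multiplicity_mul hπ (hfin (mul_ne_zero hU0 hV0)), multiplicity_eq_zero.2 hπV,
        (hfin hA).multiplicity_pow hπ, hr, multiplicity_mul hπ (hfin (by rw [← hr]; exact hU0)),
        (hfin hs0).multiplicity_pow hπ] at h10
      have h11 : multiplicity π r < 3 := (hfin hr0).multiplicity_lt_iff_not_dvd.2 hn3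
      have h12 : 0 < multiplicity π r := by
        rw [Nat.pos_iff_ne_zero]
        intro h13
        exact (multiplicity_eq_zero.1 h13) hπr
      omega
    have h6 : emultiplicity π r < 3 := by
      exact emultiplicity_lt_iff_not_dvd.2 hn3
    have h7 : (2 : ℕ∞) ≤ emultiplicity π (a ^ 2) := by
      exact le_emultiplicity_of_pow_dvd (k := 2) (pow_dvd_pow_of_dvd hπa 2)
    refine le_trans ?_ h7
    have h8 : (3 : ℕ∞) = 2 + 1 := by norm_num
    rw [h8] at h6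
    exact ENat.lt_add_one_iff (by simp) |>.1 h6
  · rw [emultiplicity_eq_zero.2 hπr]
    exact zero_le

end

theorem main (k : Type) [Field k] [Finite k] [DecidableEq (RatFunc k)] (w : k)
    (h2 : (2 : k) ≠ 0) (h3 : (3 : k) ≠ 0) (hw : w ^ 2 + w + 1 = 0) (a : k[X]) (ha : a ≠ 0)
    (A : RatFunc k) (hA : A = algebraMap k[X] (RatFunc k) a)
    (Ω : (W (A ^ 2)).Point →+ (W (A ^ 2)).Point)
    (hΩ : ∀ P x y, IsPt P x y → IsPt (Ω P) (RatFunc.C w * x) y) :
    ∃ S : Finset (W (A ^ 2)).Point, ∀ P, ∃ s ∈ S, ∃ Q, P = s + (Q - Ω Q) := by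
  classical
  have i2 : (2 : RatFunc k) ≠ 0 := by
    intro h0
    apply h2
    apply (algebraMap k (RatFunc k)).injective
    rw [map_ofNat, map_zero, h0]
  have i3 : (3 : RatFunc k) ≠ 0 := by
    intro h0
    apply h3
    apply (algebraMap k (RatFunc k)).injective
    rw [map_ofNat, map_zero, h0]
  have iw : (RatFunc.C w : RatFunc k) ^ 2 + RatFunc.C w + 1 = 0 := by
    rw [← map_pow, ← map_one (RatFunc.C : k →+* RatFunc k), ← map_add, ← map_add, hw, map_zero]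
  have hA0 : A ≠ 0 := by
    rw [hA]
    exact RatFunc.algebraMap_ne_zero ha
  set T : Set (W (A ^ 2)).Point := {P | P = 0 ∨ ∃ y, IsPt P 0 y} with hT
  have hTf : T.Finite := by
    have h1 : T ⊆ {0} ∪ ({P | IsPt P 0 A} ∪ {P | IsPt P 0 (-A)}) := by
      rintro P (hP | ⟨y, hP⟩)
      · left
        exact hP
      · right
        have hc : y ^ 2 = 0 ^ 3 + A ^ 2 := FR.curve hP
        have h4 : (y - A) * (y + A) = 0 := by linear_combination hc
        rcases mul_eq_zero.1 h4 with h5 | h5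
        · left
          have : y = A := by linear_combination h5
          rw [this] at hP
          exact hP
        · right
          have : y = -A := by linear_combination h5
          rw [this] at hP
          exact hP
    refine Set.Finite.subset ?_ h1
    refine (Set.finite_singleton _).union (Set.Finite.union ?_ ?_)
    · exact Set.Subsingleton.finite (fun P hP Q hQ => FR.isPt_eq hP hQ rfl rfl)
    · exact Set.Subsingleton.finite (fun P hP Q hQ => FR.isPt_eq hP hQ rfl rfl)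
  set R : Set k[X] := {g | g.natDegree < 2 * a.natDegree + 1} with hR
  have hRf : R.Finite := FG.fin_poly k _
  let Cl : k[X] → (W (A ^ 2)).Point → Prop := fun r P => ∃ x y s, IsPt P x y ∧ x ≠ 0 ∧
    y - A = algebraMap k[X] (RatFunc k) r * s ^ 3
  let f : k[X] → (W (A ^ 2)).Point := fun r => if h : ∃ P, Cl r P then h.choose else 0
  have hf : ∀ r P, Cl r P → Cl r (f r) := by
    intro r P hP
    have h : ∃ P, Cl r P := ⟨P, hP⟩
    have : f r = h.choose := dif_pos h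
    rw [this]
    exact h.choose_spec
  have hcl : ∀ P, P ∉ T → ∃ r ∈ R, Cl r P := by
    intro P hPT
    rcases P with _ | ⟨x, y, h⟩
    · exact absurd (Or.inl rfl) hPT
    set P : (W (A ^ 2)).Point := .some x y h with hPd
    have hP : IsPt P x y := ⟨h, rfl⟩
    have hc : y ^ 2 = x ^ 3 + A ^ 2 := FR.curve hP
    have hx : x ≠ 0 := by
      intro h0
      apply hPT
      right
      exact ⟨y, by rw [← h0]; exact hP⟩
    obtain ⟨X0, B, c, hB, hcop, hcc, hxB, hyB⟩ := INT.repr (a := a) (by rw [← hA]; exact hc)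
    have hB1 : algebraMap k[X] (RatFunc k) B ≠ 0 := RatFunc.algebraMap_ne_zero hB
    have hX0 : X0 ≠ 0 := by
      intro h0
      rw [h0, map_zero] at hxB
      exact mul_ne_zero hx (pow_ne_zero 2 hB1) hxB
    obtain ⟨r, s, hr, hrs⟩ := fac h2 ha hX0 hcop hcc
    refine ⟨r, ?_, x, y, algebraMap k[X] (RatFunc k) s / algebraMap k[X] (RatFunc k) B, hP, hx, ?_⟩
    · have := natDegree_le_of_dvd hr (pow_ne_zero 2 ha)
      rw [natDegree_pow] at this
      rw [hR, Set.mem_ofPred_eq]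
      omega
    · have h5 := congrArg (algebraMap k[X] (RatFunc k)) hrs
      simp only [map_sub, map_mul, map_pow] at h5
      rw [← hyB, ← hA] at h5
      rw [div_pow, mul_div_assoc', eq_div_iff (pow_ne_zero 3 hB1), ← h5]
      ring
  have hSf : (T ∪ Set.image2 (· + ·) (f '' R) T).Finite :=
    hTf.union ((hRf.image f).image2 _ hTf)
  refine ⟨hSf.toFinset, fun P => ?_⟩
  by_cases hPT : P ∈ T
  · refine ⟨P, hSf.mem_toFinset.2 (Or.inl hPT), 0, ?_⟩
    simp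
  · obtain ⟨r, hr, hP⟩ := hcl P hPT
    obtain ⟨x₂, y₂, s₂, hP₂, hx₂, hs₂⟩ := hf r P hP
    obtain ⟨x₁, y₁, s₁, hP₁, hx₁, hs₁⟩ := hP
    rcases diff i2 i3 iw hA0 Ω hΩ hP₁ hP₂ hx₁ hx₂ hs₁ hs₂ with h5 | ⟨Q, hQ⟩
    · refine ⟨f r + (P - f r), hSf.mem_toFinset.2 (Or.inr ⟨f r, ⟨r, hr, rfl⟩, P - f r, h5, rfl⟩),
        0, ?_⟩
      simp
    · refine ⟨f r + 0, hSf.mem_toFinset.2 (Or.inr ⟨f r, ⟨r, hr, rfl⟩, 0, Or.inl rfl, rfl⟩), Q, ?_⟩
      rw [← hQ]
      abel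

theorem t_THREE : Pool.Agent.N163.KG.S_THREE := by
  intro k _ _ _ w h2 h3 hw a ha Ω hΩ
  exact main k w h2 h3 hw a ha _ rfl Ω hΩ

end Pool.Agent.N163.KG.THREE
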