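import Pool.Agent.N163.KG.Stm
import Pool.Agent.N163.KN.TopB

/-! Assembly, first part. -/

set_option autoImplicit false
set_option linter.unusedSectionVars false

namespace Pool.Agent.N163.KG.Top

open Polynomial WeierstrassCurve.Affine Pool.Agent.N163.KN Pool.Agent.N163.KG
open Pool.Agent.N163.KN.Top (eqn nons isPt_eqn isPt_unique isPt_coord isPt_ne cases tau_iter)

lemma dn_zero {K : Type} [Field K] {δ : K → K} (h : IsDn δ) : δ 0 = 0 := by
  have := h.add 0 0
  rw [add_zero] at this
  linear_combination -this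

lemma dn_one {K : Type} [Field K] {δ : K → K} (h : IsDn δ) : δ 1 = 0 := by
  have := h.mul 1 1
  rw [mul_one] at this
  linear_combination -this

lemma dn_pow {K : Type} [Field K] {δ : K → K} (h : IsDn δ) (x : K) (m : ℕ) :
    δ (x ^ (m + 1)) = (m + 1 : ℕ) * x ^ m * δ x := by
  induction m with
  | zero => simp
  | succ m ih =>
    rw [pow_succ, h.mul, ih]
    push_cast
    ring

section Char

variable {k : Type} [Field k] {p l : ℕ} [hp : Fact p.Prime] [CharP k p]

instance charRat : CharP (RatFunc k) p :=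
  charP_of_injective_algebraMap (algebraMap k (RatFunc k)).injective p

lemma num_ne (K : Type) [Field K] (p : ℕ) [CharP K p] (m : ℕ) (h : ¬ p ∣ m) : (m : K) ≠ 0 := by
  intro h1
  exact h ((CharP.cast_eq_zero_iff K p m).1 h1)

lemma l_pos (hp' : Fact p.Prime) (hl : p = 6 * l + 1) : 1 ≤ l := by
  rcases Nat.eq_zero_or_pos l with rfl | h
  · have := hp'.out.two_le
    omega
  · exact h

lemma two_ne (K : Type) [Field K] [CharP K p] (hl : p = 6 * l + 1) : (2 : K) ≠ 0 := by
  have h1 := l_pos hp hl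
  have := num_ne K p 2 (by
    intro h
    have := Nat.le_of_dvd (by norm_num) h
    omega)
  exact_mod_cast this

lemma three_ne (K : Type) [Field K] [CharP K p] (hl : p = 6 * l + 1) : (3 : K) ≠ 0 := by
  have h1 := l_pos hp hl
  have := num_ne K p 3 (by
    intro h
    have := Nat.le_of_dvd (by norm_num) h
    omega)
  exact_mod_cast this

lemma n_ne (K : Type) [Field K] [CharP K p] {n : ℕ} (h : ¬ p ∣ n) : (n : K) ≠ 0 := num_ne K p n h

lemma ap_ne {k : Type} [Field k] {α c : k} (hα : α ≠ 0) {n : ℕ} (hn : 1 ≤ n) :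
    ap α c n ≠ 0 := by
  unfold ap
  refine mul_ne_zero (C_ne_zero.2 hα) ?_
  intro h
  have h1 := congrArg (fun q => q.coeff (6 * n)) h
  simp only [coeff_sub, coeff_X_pow, coeff_C, coeff_zero, if_true] at h1
  rw [if_neg (by omega)] at h1
  simp at h1

lemma ar_ne {k : Type} [Field k] {α c : k} (hα : α ≠ 0) {n : ℕ} (hn : 1 ≤ n) :
    ar α c n ≠ 0 := by
  intro h
  exact ap_ne (c := c) hα hn
    ((map_eq_zero_iff _ (IsFractionRing.injective k[X] (RatFunc k))).1 h)

lemma y_ne (hC : S_CUBE) (hl : p = 6 * l + 1) {n : ℕ} (hn : ¬ p ∣ n) {α c : k} (hα : α ≠ 0)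
    (hc : c ≠ 0) {x y : RatFunc k} (h : y ^ 2 = x ^ 3 + ar α c n ^ 2) : y ≠ 0 := by
  intro hy
  apply hC k (two_ne k hl) (three_ne k hl) n α c (n_ne k hn) hα hc (-1) x (by simp)
  rw [hy] at h
  rw [map_neg, map_one]
  linear_combination -h

end Char

end Pool.Agent.N163.KG.Top
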