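import Pool.Agent.N163.KG.TopA

/-! Assembly, second part. -/

set_option autoImplicit false
set_option linter.unusedSectionVars false

namespace Pool.Agent.N163.KG.Top

open Polynomial WeierstrassCurve.Affine Pool.Agent.N163.KN Pool.Agent.N163.KG
open Pool.Agent.N163.KN.Top (eqn nons isPt_eqn isPt_unique isPt_coord isPt_ne cases)

section Ops

variable {k : Type} [Field k]

lemma tau_ar {α c : k} {n : ℕ} {ζ : k} (hζ : ζ ^ (6 * n) = 1) {τ : RatFunc k →+* RatFunc k}
    (hτ : ∀ q : k[X], τ (algebraMap k[X] (RatFunc k) q) =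
        algebraMap k[X] (RatFunc k) (q.comp (C ζ * X))) : τ (ar α c n) = ar α c n := by
  unfold ar
  rw [hτ]
  congr 1
  unfold ap
  rw [mul_comp, sub_comp, C_comp, C_comp, pow_comp, X_comp, mul_pow, ← C_pow, hζ, C_1, one_mul]

lemma tau_iter {ζ : k} {τ : RatFunc k →+* RatFunc k}
    (hτ : ∀ q : k[X], τ (algebraMap k[X] (RatFunc k) q) =
        algebraMap k[X] (RatFunc k) (q.comp (C ζ * X))) (m : ℕ) (q : k[X]) :
    τ^[m] (algebraMap k[X] (RatFunc k) q) =
      algebraMap k[X] (RatFunc k) (q.comp (C (ζ ^ m) * X)) := by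
  induction m generalizing q with
  | zero => simp
  | succ m ih =>
    rw [Function.iterate_succ_apply, hτ, ih, comp_assoc]
    congr 2
    rw [mul_comp, C_comp, X_comp, ← mul_assoc, ← C_mul, pow_succ, mul_comm ζ]

lemma tau_pow {n : ℕ} {ζ : k} (hζ : ζ ^ (6 * n) = 1) {τ : RatFunc k →+* RatFunc k}
    (hτ : ∀ q : k[X], τ (algebraMap k[X] (RatFunc k) q) =
        algebraMap k[X] (RatFunc k) (q.comp (C ζ * X))) (f : RatFunc k) : τ^[6 * n] f = f := by
  have h1 : ∀ q : k[X], τ^[6 * n] (algebraMap k[X] (RatFunc k) q) =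
      algebraMap k[X] (RatFunc k) q := by
    intro q
    rw [tau_iter hτ, hζ, C_1, one_mul, comp_X]
  have h2 : ∀ (m : ℕ) (a b : RatFunc k), τ^[m] (a / b) = τ^[m] a / τ^[m] b := by
    intro m
    induction m with
    | zero => intro a b; rfl
    | succ m ih =>
      intro a b
      rw [Function.iterate_succ_apply, Function.iterate_succ_apply, Function.iterate_succ_apply,
        map_div₀, ih]
  rw [← RatFunc.num_div_denom f, h2, h1, h1]

/-- The data on the group of points. -/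
structure Ops (p l n : ℕ) [DecidableEq (RatFunc k)] (α c ζ w : k) (δ : RatFunc k → RatFunc k)
    (G Ω F : (W (ar α c n ^ 2)).Point →+ (W (ar α c n ^ 2)).Point)
    (D : (W (ar α c n ^ 2)).Point →+ k[X]) : Prop where
  gpow : ∀ P, G^[6 * n] P = P
  comm : ∀ P, G (Ω P) = Ω (G P)
  om : ∀ P, P + Ω P + Ω (Ω P) = 0
  finj : ∀ P, F P = 0 → P = 0
  hF : ∀ P, Hp (F P) = p * Hp P
  tors : ∀ P : (W (ar α c n ^ 2)).Point, Hp P = 0 → ∃ m : ℕ, 0 < m ∧ m • P = 0
  dg : ∀ P i, (D (G P)).coeff i = ζ ^ (i + 1) * (D P).coeff i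
  dom : ∀ P, D (Ω P) = C w * D P
  dF : ∀ P, D (F P) = 0
  deg : ∀ P, (D P).natDegree + 2 ≤ 4 * n
  ker : ∀ P, D P = 0 → ∃ Q, P = F Q
  rel : ∀ P, Rel p l n α c (D P)
  val : ∀ P x y, IsPt P x y →
    algebraMap k[X] (RatFunc k) (D P) = dd δ (ar α c n) x y

lemma exists_ops [Finite k] {p l : ℕ} [hp : Fact p.Prime] [CharP k p] [DecidableEq (RatFunc k)]
    (hl : p = 6 * l + 1)
    (hHOM : Pool.Agent.N163.KN.S_HOM) (hOM : S_OM) (hADD : Pool.Agent.N163.KN.S_ADD)
    (hKER : S_KER) (hINT : S_INT) (hCUBE : S_CUBE) (hTAU : Pool.Agent.N163.KN.S_TAU)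
    (hPT : S_PT) (hHFIN : S_HFIN) {n : ℕ} (hn : 1 ≤ n) (h7 : ¬ p ∣ n) {α c ζ w : k} (hα : α ≠ 0)
    (hc : c ≠ 0) (hζ0 : ζ ≠ 0) (hζ : ζ ^ (6 * n) = 1) (hw : w ^ 2 + w + 1 = 0)
    {δ : RatFunc k → RatFunc k} (hδ : IsDer δ) :
    ∃ (G Ω F : (W (ar α c n ^ 2)).Point →+ (W (ar α c n ^ 2)).Point)
      (D : (W (ar α c n ^ 2)).Point →+ k[X]), Ops p l n α c ζ w δ G Ω F D := by
  have : ExpChar (RatFunc k) p := ExpChar.prime hp.out
  have hpR : (p : RatFunc k) = 0 := CharP.cast_eq_zero (RatFunc k) p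
  have h2 := two_ne (RatFunc k) hl
  have h3 := three_ne (RatFunc k) hl
  have ha : ar α c n ≠ 0 := ar_ne hα hn
  have hy : ∀ {P : (W (ar α c n ^ 2)).Point} {x y : RatFunc k}, IsPt P x y → y ≠ 0 :=
    fun h => y_ne hCUBE hl h7 hα hc (isPt_eqn h)
  have hw3 : w ^ 3 = 1 := by linear_combination (w - 1) * hw
  have hw0 : w ≠ 0 := by
    rintro rfl
    norm_num at hw3
  have hwC : RatFunc.C w ^ 2 + RatFunc.C w + 1 = (0 : RatFunc k) := by
    rw [← map_pow, ← map_add, ← map_one RatFunc.C, ← map_add, hw, map_zero]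
  have hwC3 : RatFunc.C w ^ 3 = (1 : RatFunc k) := by rw [← map_pow, hw3, map_one]
  have hwC0 : (RatFunc.C w : RatFunc k) ≠ 0 := by
    intro h
    rw [h] at hwC3
    norm_num at hwC3
  -- ω
  obtain ⟨Ω, hΩ'⟩ := hHOM (RatFunc k) (ar α c n ^ 2) (ar α c n ^ 2) (RatFunc.C w ^ 2)
    (RingHom.id _) h2 h3 (pow_ne_zero 2 hwC0) (by
    rw [RingHom.id_apply]
    have : (RatFunc.C w ^ 2) ^ 6 = (1 : RatFunc k) := by
      calc (RatFunc.C w ^ 2) ^ 6 = (RatFunc.C w ^ 3) ^ 4 := by ring
        _ = 1 := by rw [hwC3, one_pow]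
    rw [this, one_mul])
  have hΩ : ∀ P x y, IsPt P x y → IsPt (Ω P) (RatFunc.C w * x) y := by
    intro P x y h
    have := hΩ' P x y h
    rw [RingHom.id_apply, RingHom.id_apply] at this
    have e1 : ((RatFunc.C w : RatFunc k) ^ 2) ^ 2 * x = RatFunc.C w * x := by
      linear_combination (RatFunc.C w * x) * hwC3
    have e2 : ((RatFunc.C w : RatFunc k) ^ 2) ^ 3 * y = y := by
      linear_combination (RatFunc.C w ^ 3 + 1) * y * hwC3
    rwa [e1, e2] at this
  -- Frobenius
  obtain ⟨Fr, hFr'⟩ := hHOM (RatFunc k) (ar α c n ^ 2) (ar α c n ^ 2) ((ar α c n)⁻¹ ^ (2 * l))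
    (frobenius (RatFunc k) p) h2 h3 (pow_ne_zero _ (inv_ne_zero ha)) (by
    rw [frobenius_def]
    have e1 : (ar α c n ^ 2) ^ p = (ar α c n ^ (2 * l)) ^ 6 * ar α c n ^ 2 := by
      rw [← pow_mul, ← pow_mul, ← pow_add]
      congr 1
      rw [hl]
      ring
    rw [e1]
    generalize ar α c n = A at ha ⊢
    have e2 : (A⁻¹ ^ (2 * l)) ^ 6 * ((A ^ (2 * l)) ^ 6 * A ^ 2) = A ^ 2 := by
      rw [← mul_assoc, ← mul_pow, ← mul_pow, inv_mul_cancel₀ ha, one_pow, one_pow, one_mul]
    exact e2)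
  have hFr : ∀ P x y, IsPt P x y →
      IsPt (Fr P) (x ^ p / ar α c n ^ (4 * l)) (y ^ p / ar α c n ^ (6 * l)) := by
    intro P x y h
    have := hFr' P x y h
    rw [frobenius_def, frobenius_def] at this
    have e1 : ((ar α c n)⁻¹ ^ (2 * l)) ^ 2 * x ^ p = x ^ p / ar α c n ^ (4 * l) := by
      rw [← pow_mul, inv_pow, div_eq_mul_inv, mul_comm, show 2 * l * 2 = 4 * l by ring]
    have e2 : ((ar α c n)⁻¹ ^ (2 * l)) ^ 3 * y ^ p = y ^ p / ar α c n ^ (6 * l) := by
      rw [← pow_mul, inv_pow, div_eq_mul_inv, mul_comm, show 2 * l * 3 = 6 * l by ring]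
    rwa [e1, e2] at this
  -- G
  obtain ⟨τ, hτ, hτδ⟩ := hTAU.1 k δ hδ ζ hζ0
  have hτa := tau_ar (α := α) (c := c) hζ hτ
  obtain ⟨G, hG'⟩ := hHOM (RatFunc k) (ar α c n ^ 2) (ar α c n ^ 2) 1 τ h2 h3 one_ne_zero (by
    rw [map_pow, hτa]
    ring)
  have hG : ∀ P x y, IsPt P x y → IsPt (G P) (τ x) (τ y) := by
    intro P x y h
    have := hG' P x y h
    rwa [one_pow, one_pow, one_mul, one_mul] at this
  -- D
  obtain ⟨D₀, hD₀⟩ := hADD (RatFunc k) δ (ar α c n) hδ.dn h2 h3 ha (by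
    intro x hx
    apply hCUBE k (two_ne k hl) (three_ne k hl) n α c (n_ne k h7) hα hc (-1) x (by simp)
    rw [hx, map_neg, map_one]
    ring)
  have hD1 : ∀ P, ∃ g : k[X], g.natDegree + 2 ≤ 4 * n ∧ algebraMap k[X] (RatFunc k) g = D₀ P := by
    intro P
    rcases cases P with rfl | ⟨x, y, h⟩
    · exact ⟨0, by simp; omega, by simp⟩
    · obtain ⟨g, hg1, hg2⟩ := hINT k δ hδ (two_ne k hl) (three_ne k hl) n α c (n_ne k h7) hα hc x y
        (hy h) (isPt_eqn h)
      exact ⟨g, hg1, by rw [hD₀ P x y h, hg2]⟩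
  choose d hd1 hd2 using hD1
  have hinj := IsFractionRing.injective k[X] (RatFunc k)
  obtain ⟨D, hD⟩ : ∃ D : (W (ar α c n ^ 2)).Point →+ k[X], ∀ P, D P = d P :=
    ⟨{ toFun := d
       map_zero' := hinj (by rw [hd2, map_zero, map_zero])
       map_add' := fun P Q => hinj (by rw [hd2, map_add, map_add, hd2, hd2]) }, fun P => rfl⟩
  have hval : ∀ P x y, IsPt P x y →
      algebraMap k[X] (RatFunc k) (D P) = dd δ (ar α c n) x y := by
    intro P x y h
    rw [hD, hd2, hD₀ P x y h]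
  have hom := hOM (RatFunc k) (ar α c n ^ 2) (RatFunc.C w) Ω h2 h3 (pow_ne_zero 2 ha) hwC hΩ
  have hH : ∀ {P : (W (ar α c n ^ 2)).Point} {x y : RatFunc k}, IsPt P x y →
      Hp P = ht (x ^ 3 / ar α c n ^ 2) := by
    rintro P x y ⟨h, rfl⟩
    rfl
  refine ⟨G, Ω, Fr, D, ⟨?_, ?_, hom, ?_, ?_, ?_, ?_, ?_, ?_, ?_, ?_, ?_, hval⟩⟩
  · intro P
    rcases cases P with rfl | ⟨x, y, h⟩
    · generalize 6 * n = m
      induction m with
      | zero => rfl
      | succ m ih => rw [Function.iterate_succ_apply, map_zero, ih]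
    · have h4 : ∀ (m : ℕ) (P : (W (ar α c n ^ 2)).Point) (x y : RatFunc k), IsPt P x y →
          IsPt (G^[m] P) (τ^[m] x) (τ^[m] y) := by
        intro m
        induction m with
        | zero => intro P x y h; exact h
        | succ m ih =>
          intro P x y h
          rw [Function.iterate_succ_apply, Function.iterate_succ_apply,
            Function.iterate_succ_apply]
          exact ih _ _ _ (hG P x y h)
      have h5 := h4 (6 * n) P x y h
      rw [tau_pow hζ hτ, tau_pow hζ hτ] at h5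
      exact isPt_unique h5 h
  · intro P
    rcases cases P with rfl | ⟨x, y, h⟩
    · simp
    · have h5 := hG _ _ _ (hΩ P x y h)
      have h6 := hΩ _ _ _ (hG P x y h)
      have h7 : τ (RatFunc.C w) = RatFunc.C w := by
        rw [← RatFunc.algebraMap_C, hτ, C_comp]
      rw [map_mul, h7] at h5
      exact isPt_unique h5 h6
  · intro Q hQ
    rcases cases Q with rfl | ⟨x, y, h⟩
    · rfl
    · exact absurd hQ (isPt_ne (hFr Q x y h))
  · intro P
    rcases cases P with rfl | ⟨x, y, h⟩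
    · rw [map_zero]
      show 0 = p * 0
      simp
    · rw [hH (hFr P x y h), hH h, ← hHFIN.2 k |>.1]
      congr 1
      have e1 : ar α c n ^ (12 * l + 2) = ar α c n ^ (2 * p) := by
        congr 1
        omega
      have e2 : (ar α c n ^ (4 * l)) ^ 3 * ar α c n ^ 2 = (ar α c n ^ 2) ^ p := by
        rw [← pow_mul, ← pow_mul, ← pow_add]
        congr 1
        omega
      rw [div_pow, div_div, e2, div_pow, ← pow_mul, ← pow_mul, mul_comm p 3, pow_mul x 3 p]
  · intro P hP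
    rcases cases P with rfl | ⟨x, y, h⟩
    · exact ⟨1, one_pos, by simp⟩
    · rw [hH h] at hP
      obtain ⟨d', hd'⟩ := (hHFIN.2 k).2 _ hP
      have hx : x = 0 := by
        by_cases hd0 : d' = 0
        · rw [hd0, map_zero, div_eq_zero_iff] at hd'
          rcases hd' with h5 | h5
          · exact pow_eq_zero_iff (by norm_num) |>.1 h5
          · exact absurd h5 (pow_ne_zero 2 ha)
        · exfalso
          apply hCUBE k (two_ne k hl) (three_ne k hl) n α c (n_ne k h7) hα hc d' x hd0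
          rw [← hd']
          field_simp
      refine ⟨3, by norm_num, ?_⟩
      have h5 := hΩ P x y h
      rw [hx, mul_zero, ← hx] at h5
      have h6 : Ω P = P := isPt_unique h5 h
      have h7 := hom P
      rw [h6, h6] at h7
      rw [show (3 : ℕ) • P = P + P + P by abel]
      exact h7
  · intro P i
    rcases cases P with rfl | ⟨x, y, h⟩
    · simp
    · have h5 : D (G P) = C ζ * (D P).comp (C ζ * X) := by
        apply hinj
        rw [hval _ _ _ (hG P x y h), map_mul, ← hτ, hval _ _ _ h]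
        unfold dd
        rw [map_div₀, map_sub, map_mul, map_mul, map_mul, map_mul, map_ofNat, map_ofNat, hτa,
          hτδ]
        have h6 : δ (ar α c n) = RatFunc.C ζ * τ (δ (ar α c n)) := by
          rw [← hτδ, hτa]
        have h7 : algebraMap k[X] (RatFunc k) (C ζ) = RatFunc.C ζ := RatFunc.algebraMap_C ζ
        rw [h7]
        conv_lhs => rw [h6]
        ring
      rw [h5, coeff_C_mul]
      have h6 : ∀ q : k[X], (q.comp (C ζ * X)).coeff i = ζ ^ i * q.coeff i := by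
        intro q
        rw [comp_C_mul_X_coeff, mul_comm]
      rw [h6]
      ring
  · intro P
    rcases cases P with rfl | ⟨x, y, h⟩
    · simp
    · apply hinj
      have h4 : δ (RatFunc.C w : RatFunc k) = 0 := by
        rw [← RatFunc.algebraMap_C, hδ.poly, derivative_C, map_zero]
      rw [hval _ _ _ (hΩ P x y h), map_mul, hval _ _ _ h, RatFunc.algebraMap_C]
      unfold dd
      rw [hδ.dn.mul, h4]
      ring
  · intro P
    rcases cases P with rfl | ⟨x, y, h⟩
    · simp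
    · apply hinj
      rw [hval _ _ _ (hFr P x y h), map_zero]
      have h1l := l_pos hp hl
      obtain ⟨m, rfl⟩ : ∃ m, l = m + 1 := ⟨l - 1, by omega⟩
      have e1 : δ (x ^ p) = 0 := by
        obtain ⟨p', rfl⟩ : ∃ p', p = p' + 1 := ⟨p - 1, by omega⟩
        rw [dn_pow hδ.dn, hpR, zero_mul, zero_mul]
      set A := ar α c n with hA
      set X' := x ^ p / A ^ (4 * (m + 1)) with hX'
      have e2 : A ^ (4 * (m + 1)) * X' = x ^ p := by
        rw [hX']
        field_simp
      have e3 := congrArg δ e2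
      rw [hδ.dn.mul, e1, show 4 * (m + 1) = (4 * m + 3) + 1 by ring, dn_pow hδ.dn] at e3
      have e4 : (12 * ((m : RatFunc k) + 1) + 2) = 0 := by
        have : ((2 * p : ℕ) : RatFunc k) = 0 := by
          push_cast
          rw [hpR, mul_zero]
        rw [hl] at this
        push_cast at this
        linear_combination this
      have e5 : A ^ (4 * m + 3) * (3 * A * δ X' - 2 * δ A * X') = 0 := by
        push_cast at e3
        rw [pow_succ] at e3
        linear_combination 3 * e3 - A ^ (4 * m + 3) * X' * δ A * e4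
      have e6 : 3 * A * δ X' - 2 * δ A * X' = 0 :=
        (mul_eq_zero.1 e5).resolve_left (pow_ne_zero _ ha)
      unfold dd
      rw [e6, zero_div]
  · intro P
    rw [hD]
    exact hd1 P
  · intro P hP
    rcases cases P with rfl | ⟨x, y, h⟩
    · exact ⟨0, by simp⟩
    · have h5 : dd δ (ar α c n) x y = 0 := by rw [← hval _ _ _ h, hP, map_zero]
      obtain ⟨x₁, y₁, h6, h7', h8⟩ := hKER k p l δ hl hδ (ar α c n) x y ha (hy h) (isPt_eqn h) h5
      have hy1 : y₁ ≠ 0 := y_ne hCUBE hl h7 hα hc h6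
      refine ⟨.some x₁ y₁ (nons h2 hy1 h6), ?_⟩
      have h9 := hFr (.some x₁ y₁ (nons h2 hy1 h6)) x₁ y₁ ⟨_, rfl⟩
      rw [← h7', ← h8] at h9
      exact isPt_unique h h9
  · intro P
    rcases cases P with rfl | ⟨x, y, h⟩
    · intro u v j _ _ _ _
      rw [map_zero]
      simp only [coeff_zero]
      rw [zero_pow hp.out.ne_zero]
      ring
    · exact hPT k p l δ hl hδ n α c hn h7 hα hc x y (hy h) (isPt_eqn h) (D P)
        (hval _ _ _ h).symm (by rw [hD]; exact hd1 P)

end Ops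

end Pool.Agent.N163.KG.Top
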