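import Pool.Agent.N163.KG.TopC

/-! Assembly, third part, with the condition `5 ∣ n`. -/

set_option autoImplicit false
set_option linter.unusedSectionVars false

namespace Pool.Agent.N163.KG.Top

open Polynomial WeierstrassCurve.Affine Pool.Agent.N163.KN Pool.Agent.N163.KG
open Pool.Agent.N163.KN.Top (eqn nons isPt_eqn isPt_unique isPt_coord isPt_ne cases)
open Pool.Agent.N420.KS

theorem top5 (hHOM : Pool.Agent.N163.KN.S_HOM) (hOM : S_OM) (hADD : Pool.Agent.N163.KN.S_ADD)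
    (hDER : Pool.Agent.N163.KN.S_DER) (hKER : S_KER) (hINT : S_INT) (hCUBE : S_CUBE)
    (hTAU : Pool.Agent.N163.KN.S_TAU) (hPT : S_PT) (hHFIN : S_HFIN) (hNZ : S_NZ) (hFG : S_FG)
    (hMAIN : S_MAIN) (hCOMB : Pool.Agent.N163.KN.S_COMB) (hF2 : S_F2) (hF3 : S_F3) (hF6 : S_F6)
    (hF12 : S_F12) (hF30 : S_F30)
    (k : Type) [Field k] [Finite k] (p l : ℕ) [hp : Fact p.Prime] [CharP k p]
    (hl : p = 6 * l + 1) (b : k) (n : ℕ) :
    ¬ (Cond k b ∧ 5 ∣ n) → 1 ≤ n → ∀ c : k, Admissible k b c → ∀ x y : RatFunc k,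
      y ^ 2 = x ^ 3 + ar (1 / (2 * b ^ 2)) c n ^ 2 → x = 0 := by
  have h2k := two_ne k hl
  have h3k := three_ne k hl
  induction n using Nat.strong_induction_on with
  | _ n ih =>
  intro hcond hn c hadm x y hxy
  have hb := hadm.b_ne
  have hc := hadm.c_ne
  have hα : 1 / (2 * b ^ 2) ≠ 0 :=
    one_div_ne_zero (mul_ne_zero h2k (pow_ne_zero 2 hb))
  by_cases h7 : p ∣ n
  · obtain ⟨m, rfl⟩ := h7
    have hm : 1 ≤ m := by
      rcases Nat.eq_zero_or_pos m with rfl | h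
      · simp at hn
      · exact h
    obtain ⟨c', hc'⟩ : ∃ c', c' ^ p = c := by
      have h1 : Function.Bijective (frobenius k p) :=
        (Finite.injective_iff_bijective).1 (frobenius k p).injective
      obtain ⟨c', h⟩ := h1.2 c
      exact ⟨c', by rw [← h, frobenius_def]⟩
    have hc'0 : c' ≠ 0 := by
      rintro rfl
      rw [zero_pow hp.out.ne_zero] at hc'
      exact hc hc'.symm
    have hadm' : Admissible k b c' := by
      refine ⟨hadm.char_gt, hb, hc'0, hadm.ordinary, hadm.b_noncube, ?_, ?_⟩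
      · obtain ⟨χ, hχ⟩ := hadm.c_cube
        refine ⟨χ / c' ^ (2 * l), ?_⟩
        rw [div_pow, hχ, ← hc', ← pow_mul, div_eq_iff (pow_ne_zero _ hc'0), hl]
        ring
      · rintro ⟨r, hr⟩
        exact hadm.c_nonsq ⟨r ^ p, by rw [← hc', hr, mul_pow]⟩
    set a₁ : RatFunc k := RatFunc.X ^ (6 * m) - RatFunc.C c' with ha₁
    have ha₁0 : a₁ ≠ 0 := by
      have := ar_ne (c := c') hα hm
      rw [ar_eq] at this
      exact right_ne_zero_of_mul this
    rw [← hc', ar_pow, ← ha₁] at hxy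
    have hlt : m < p * m := by
      have := hp.out.two_le
      nlinarith
    have e1 : (a₁ ^ p) ^ 2 = a₁ ^ 2 * (a₁ ^ (4 * l)) ^ 3 := by
      rw [← pow_mul, ← pow_mul, ← pow_add]
      congr 1
      omega
    have e2 : (a₁ ^ (6 * l)) ^ 2 = (a₁ ^ (4 * l)) ^ 3 := by
      rw [← pow_mul, ← pow_mul]
      congr 1
      ring
    have e3 : (a₁ ^ (4 * l)) ^ 3 ≠ 0 := pow_ne_zero _ (pow_ne_zero _ ha₁0)
    have h1 := ih m hlt (fun h => hcond ⟨h.1, h.2.mul_left p⟩) hm c' hadm' (x / a₁ ^ (4 * l)) (y / a₁ ^ (6 * l)) (by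
      rw [ar_eq, ← ha₁, div_pow, div_pow, e2, div_add' _ _ _ e3]
      congr 1
      rw [hxy, mul_pow, mul_pow, e1]
      ring)
    rw [div_eq_zero_iff] at h1
    rcases h1 with h1 | h1
    · exact h1
    · exact absurd h1 (pow_ne_zero _ ha₁0)
  · by_contra hx
    obtain ⟨δ, hδ⟩ := (hDER k).1
    obtain ⟨x₁, y₁, h1, hd⟩ := hNZ k p l δ hl hδ n _ c hn h7 hα hc x y hx hxy
    have hy1 := y_ne hCUBE hl h7 hα hc h1
    obtain ⟨g, hg1, hg2⟩ := hINT k δ hδ h2k h3k n _ c (n_ne k h7) hα hc x₁ y₁ hy1 h1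
    have hg0 : g ≠ 0 := by
      rintro rfl
      apply hd
      rw [hg2, map_zero]
    have hrel := hPT k p l δ hl hδ n _ c hn h7 hα hc x₁ y₁ hy1 h1 g hg2 hg1
    obtain ⟨i, hi⟩ : ∃ i, g.coeff i ≠ 0 := by
      by_contra hcon
      push Not at hcon
      exact hg0 (Polynomial.ext fun i => by rw [hcon i, coeff_zero])
    have hi1 : i ≤ g.natDegree := le_natDegree_of_ne_zero hi
    -- the extension
    have hn6 : ¬ p ∣ 6 * n := by
      intro h
      rcases (Nat.Prime.dvd_mul hp.out).1 h with h | h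
      · have h1 := l_pos hp hl
        have := Nat.le_of_dvd (by norm_num) h
        omega
      · exact h7 h
    have : NeZero ((6 * n : ℕ) : k) := ⟨num_ne k p (6 * n) hn6⟩
    have : NeZero (6 * n) := ⟨by omega⟩
    let K := CyclotomicField (6 * n) k
    have hfd : Module.Finite k K := IsCyclotomicExtension.finiteDimensional {6 * n} k K
    have hfin : Finite K := Module.finite_of_finite k
    have hchar : CharP K p := charP_of_injective_algebraMap (algebraMap k K).injective p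
    have : NeZero ((6 * n : ℕ) : K) := ⟨num_ne K p (6 * n) hn6⟩
    obtain ⟨ζ, hζ⟩ : ∃ ζ : K, IsPrimitiveRoot ζ (6 * n) :=
      ⟨_, IsCyclotomicExtension.zeta_spec (6 * n) k K⟩
    obtain ⟨w, hw⟩ : ∃ w : K, w ^ 2 + w + 1 = 0 := by
      refine ⟨ζ ^ (2 * n), ?_⟩
      have h3 : IsPrimitiveRoot (ζ ^ (2 * n)) 3 := hζ.pow (by omega) (by ring)
      have h4 := h3.geom_sum_eq_zero (by norm_num)
      rw [Finset.sum_range_succ, Finset.sum_range_succ, Finset.sum_range_one] at h4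
      linear_combination h4
    obtain ⟨δ', hδ'⟩ := (hDER K).1
    obtain ⟨τ, hτ, hτδ⟩ := hTAU.2 k K (algebraMap k K) δ δ' hδ hδ'
    set α' := algebraMap k K (1 / (2 * b ^ 2)) with hα'
    set c' := algebraMap k K c with hc'
    have hα0 : α' ≠ 0 := by
      rw [hα']
      exact (_root_.map_ne_zero _).2 hα
    have hc0 : c' ≠ 0 := by
      rw [hc']
      exact (_root_.map_ne_zero _).2 hc
    have hτa : τ (ar (1 / (2 * b ^ 2)) c n) = ar α' c' n := by
      unfold ar
      rw [hτ]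
      congr 1
      unfold ap
      rw [Polynomial.map_mul, Polynomial.map_sub, Polynomial.map_pow, map_X, map_C, map_C]
    classical
    obtain ⟨G, Ω, F, D, hO⟩ := exists_ops (δ := δ') hl hHOM hOM hADD hKER hINT hCUBE hTAU hPT hHFIN
      hn h7 hα0 hc0 (hζ.ne_zero (by omega)) hζ.pow_eq_one hw hδ'
    have h2 : τ y₁ ^ 2 = τ x₁ ^ 3 + ar α' c' n ^ 2 := by
      rw [← map_pow, h1, map_add, map_pow, map_pow, hτa]
    have hy2 : τ y₁ ≠ 0 := y_ne hCUBE hl h7 hα0 hc0 h2
    have hdd : dd δ' (ar α' c' n) (τ x₁) (τ y₁) = τ (dd δ (ar (1 / (2 * b ^ 2)) c n) x₁ y₁) := by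
      unfold dd
      rw [map_div₀, map_sub, map_mul, map_mul, map_mul, map_mul, map_ofNat, map_ofNat, hτa,
        ← hτδ, ← hτδ, hτa]
    obtain ⟨P₀, hP₀⟩ : ∃ P₀ : (W (ar α' c' n ^ 2)).Point, IsPt P₀ (τ x₁) (τ y₁) :=
      ⟨.some (τ x₁) (τ y₁) (nons (two_ne _ hl) hy2 h2), _, rfl⟩
    have hDP : D P₀ = g.map (algebraMap k K) := by
      apply IsFractionRing.injective K[X] (RatFunc K)
      rw [hO.val _ _ _ hP₀, hdd, hg2, hτ]
    have hco : (D P₀).coeff (i + 1 - 1) ≠ 0 := by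
      rw [hDP, coeff_map, Nat.add_sub_cancel]
      simpa using hi
    obtain ⟨hPar, hfg⟩ := hFG K p l hl (ap α' c' n) (ap_ne hα0 hn)
    have h3 := hMAIN K p l n ζ w α' c' hl hn h7 hα0 hc0 hζ hw _ hfg G Ω F D
      (Hp : (W (ar α' c' n ^ 2)).Point → ℕ) hO.gpow hO.comm hO.om hO.finj hPar hO.hF hO.tors hO.dg
      hO.dom hO.dF hO.deg hO.ker hO.rel P₀ (i + 1) (by omega) hco
    have h4 := hCOMB n (i + 1) hn (by omega) (by omega) h3
    have hi' : g.coeff (i + 1 - 1) ≠ 0 := by rwa [Nat.add_sub_cancel]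
    rcases h4 with h | h | h | h | h | h | h | h | h
    · exact hF2 k p l hl b c hadm n g hn h7 hrel (i + 1) (by omega) (by omega) h hi'
    · exact hF3 k p l hl b c hadm n g hn h7 hrel (i + 1) (by omega) (by omega) h hi'
    · exact hF6 k p l hl b c hadm n g hn h7 hrel (i + 1) (by omega) (by omega) h hi'
    · exact hF12 k p l hl b c hadm n g hn h7 hrel (i + 1) (by omega) (by omega) (Or.inl h) hi'
    · exact hF12 k p l hl b c hadm n g hn h7 hrel (i + 1) (by omega) (by omega) (Or.inr h) hi'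
    · exact hcond ⟨hF30 k p l hl b c hadm n g hn h7 hrel (i + 1) (by omega) (by omega)
        (Or.inl h) hi', by omega⟩
    · exact hcond ⟨hF30 k p l hl b c hadm n g hn h7 hrel (i + 1) (by omega) (by omega)
        (Or.inr (Or.inl h)) hi', by omega⟩
    · exact hcond ⟨hF30 k p l hl b c hadm n g hn h7 hrel (i + 1) (by omega) (by omega)
        (Or.inr (Or.inr (Or.inl h))) hi', by omega⟩
    · exact hcond ⟨hF30 k p l hl b c hadm n g hn h7 hrel (i + 1) (by omega) (by omega)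
        (Or.inr (Or.inr (Or.inr h))) hi', by omega⟩

end Pool.Agent.N163.KG.Top
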