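import Pool.Agent.N163.KG.Stm

/-!
# `MP_3da457_ag`, leaf WRO (helper803): explicit points and their logarithmic derivatives
-/

set_option autoImplicit false

namespace Pool.Agent.N163.KG.WRO

open Pool.Agent.N163.KN

section

variable {K : Type} [Field K] {δ : K → K}

theorem d_zero (h : IsDn δ) : δ 0 = 0 := by
  have h1 := h.add 0 0
  rw [add_zero] at h1
  linear_combination -h1

theorem d_one (h : IsDn δ) : δ 1 = 0 := by
  have h1 := h.mul 1 1
  rw [mul_one] at h1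
  linear_combination -h1

theorem d_neg (h : IsDn δ) (x : K) : δ (-x) = -δ x := by
  have h1 := h.add x (-x)
  rw [add_neg_cancel, d_zero h] at h1
  linear_combination -h1

theorem d_two (h : IsDn δ) : δ 2 = 0 := by
  have h1 := h.add 1 1
  rw [one_add_one_eq_two, d_one h] at h1
  linear_combination h1

end

theorem t_WRO : Pool.Agent.N163.KG.S_WRO := by
  intro K _ δ b e z T₁ T₂ hδ h2 h3 hδb hb he hz hT₁ hT₂ hT₁₂ hT₁₂' h
  obtain ⟨e', he'⟩ : ∃ e' : K, e' = δ e := ⟨_, rfl⟩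
  obtain ⟨z', hz'⟩ : ∃ z' : K, z' = δ z := ⟨_, rfl⟩
  obtain ⟨A, hA⟩ : ∃ A : K, A = δ T₁ := ⟨_, rfl⟩
  obtain ⟨B, hB⟩ : ∃ B : K, B = δ T₂ := ⟨_, rfl⟩
  obtain ⟨a, ha⟩ : ∃ a : K, a = e / (2 * b ^ 2) := ⟨_, rfl⟩
  obtain ⟨x, hx⟩ : ∃ x : K, x = -(e * z / (b * T₁)) := ⟨_, rfl⟩
  -- the derivative of the equation
  have h' : -(A * T₂ * (T₁ + T₂) + T₁ * B * (T₁ + T₂) + T₁ * T₂ * (A + B)) =
      b * (e' * z ^ 3 + 3 * e * z ^ 2 * z') := by
    have h4 := congrArg δ h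
    have e1 : b * e * z ^ 3 = b * (e * (z * (z * z))) := by ring
    rw [e1, d_neg hδ, hδ.mul, hδ.mul, hδ.add, hδ.mul, hδ.mul, hδ.mul, hδ.mul, hδb, ← hA, ← hB,
      ← he', ← hz'] at h4
    linear_combination h4
  -- the derivative of `a`
  have hδa : δ a = e' / (2 * b ^ 2) := by
    have h4 : a * (2 * (b * b)) = e := by
      rw [ha]
      field_simp
    have h5 := congrArg δ h4
    rw [hδ.mul, hδ.mul, hδ.mul, d_two hδ, hδb, ← he'] at h5
    rw [eq_div_iff (mul_ne_zero h2 (pow_ne_zero 2 hb))]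
    linear_combination h5
  -- the derivative of `x`
  have hδx : δ x = (-(e' * z + e * z') * T₁ + e * z * A) / (b * T₁ ^ 2) := by
    have h4 : x * (b * T₁) = -(e * z) := by
      rw [hx]
      field_simp
    have h5 := congrArg δ h4
    rw [hδ.mul, d_neg hδ, hδ.mul, hδ.mul, hδb, ← hA, ← he', ← hz'] at h5
    rw [eq_div_iff (mul_ne_zero hb (pow_ne_zero 2 hT₁))]
    have h6 : x * b * A * T₁ = -(e * z * A) := by linear_combination A * h4
    linear_combination T₁ * h5 - h6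
  have hs : 2 * T₂ + T₁ ≠ 0 := by
    intro h0
    apply hT₁₂'
    linear_combination h0
  refine ⟨x, e * (2 * T₂ + T₁) / (2 * b ^ 2 * T₁), ?_, ?_, ?_⟩
  · exact div_ne_zero (mul_ne_zero he hs) (mul_ne_zero (mul_ne_zero h2 (pow_ne_zero 2 hb)) hT₁)
  · rw [hx]
    field_simp
    linear_combination (-4) * h
  · rw [← ha, ← hA, ← hB]
    unfold dd
    rw [hδa, hδx]
    have h4 : (3 * a * ((-(e' * z + e * z') * T₁ + e * z * A) / (b * T₁ ^ 2)) -
        2 * (e' / (2 * b ^ 2)) * x) / (e * (2 * T₂ + T₁) / (2 * b ^ 2 * T₁)) =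
        (-(e' * z * T₁) - 3 * e * z' * T₁ + 3 * e * z * A) / (b * T₁ * (2 * T₂ + T₁)) := by
      rw [ha, hx]
      field_simp
      ring
    rw [h4, div_eq_div_iff (mul_ne_zero (mul_ne_zero hb hT₁) hs)
      (mul_ne_zero (pow_ne_zero 2 hb) (pow_ne_zero 2 hz))]
    linear_combination (b * T₁) * h' - 3 * b * A * h

end Pool.Agent.N163.KG.WRO
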